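import Mathlib

/-!
# Statements of the analytic part: binomial smoothing, mixtures, the algebra of regular sequences
-/

set_option autoImplicit false
set_option linter.unusedVariables false

namespace Pool.Agent.D0H94.T13

open Filter Topology Finset

/-- the difference of order `r` (up to sign) -/
noncomputable def diff (r : ℕ) (f : ℕ → ℝ) (n : ℕ) : ℝ :=
  ∑ i ∈ range (r + 1), (-1 : ℝ) ^ i * (r.choose i : ℝ) * f (n + i)

/-- the rate -/
noncomputable def ρ (n : ℕ) : ℝ := Real.log n / Real.sqrt n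

/-- `B` is regular of all orders relative to `A` -/
def Rg (A B : ℕ → ℝ) : Prop :=
  ∀ r : ℕ, ∃ K : ℝ, 0 ≤ K ∧ ∀ n : ℕ, 2 ≤ n → |diff r B n| ≤ K * ρ n ^ r * A n

/-- the polynomial whose coefficients are the probabilities of the binomial distribution -/
noncomputable def bin (p : ℝ) (m : ℕ) : Polynomial ℝ :=
  (Polynomial.C (1 - p) + Polynomial.C p * Polynomial.X) ^ m

/-- MODULE BIN. Proof. `m = m_1 + ... + m_r` with `m_i ≥ m / (2 r)`, so
`(1 - X)^r bin p m = ∏ (1 - X) bin p m_i`. The coefficient `j ≤ m_i` of `(1 - X) bin p m_i` is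
`bin.coeff j * ((p m_i + p - j) / ((m_i - j + 1) p))` (the coefficient `m_i + 1` is `-p^m_i`). With
`T = L √n log n` (`L` large): for `|j - p m_i| ≤ T` it is at most `(C log n / √n) bin.coeff j` in
absolute value, and the sum of the absolute values of the others is at most
`2 Prob (|Bin - p m_i| ≥ T - 1) ≤ exp (-2 A log² n)` (Chernoff: `1 - p + p e^t ≤ exp (p t + t²)` for
`|t| ≤ 1`). So `|coeff| ≤` the coefficients of `g_i := κ bin p m_i + tail_i`, with nonnegative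
coefficients and `tail_i(1) ≤ ε`; multiply: `∏ g_i ≤ κ^r bin p m + ((κ + ε)^r - κ^r)` coefficientwise
(a coefficient is at most the value at `1`). -/
def S_BIN : Prop := ∀ p : ℝ, 0 < p → p < 1 → ∀ (r : ℕ) (A : ℝ), 0 < A →
  ∃ K : ℝ, 0 < K ∧ ∃ n0 : ℕ, ∀ n m : ℕ, n0 ≤ n → n ≤ 4 * m → m ≤ n → ∀ j : ℕ,
    |((1 - Polynomial.X) ^ r * bin p m).coeff j| ≤
      K * ρ n ^ r * (bin p m).coeff j + Real.exp (-(A * Real.log n ^ 2))

/-- the mixture of binomial coefficients with the weights `D` -/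
noncomputable def mix (S : ℕ) (D : ℕ → ℕ → ℝ) (N : ℕ) : ℝ :=
  ∑ m ∈ range (N + 1), ∑ s ∈ range (S + 1),
    if 2 * m + s ≤ N then D m s * (m.choose (N - 2 * m - s) : ℝ) else 0

/-- MODULE MIX. Proof. Let `p = 1 / (1 + μ)`, `y = μ^2 * (μ / (1 + μ))` (so
`choose m j / μ^(2m+s+j) = μ^(-s) y^(-m) (bin p m).coeff j`), `D' m s = D m s μ^(-s) y^(-m)`, `F'`
the same. The growth hypothesis at `N = 2m+s+j` with the mode `j` of `bin p m`
(`coeff ≥ 1 / (m + 1)`) gives `D' m s ≤ (m + 1) exp (K log² (4 m + S))`. For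
`diff r (F_N / μ^N)` at `N` use `coeff_{j+r} ((1 - X)^r bin) = ∑ (-1)^i choose r i coeff_{j+r-i}` and
`S_BIN` with a large `A`; only `m` with `(N - S) / 3 ≤ m ≤ (N + r) / 2` contribute. First `r = 1`,
`F = D` gives `mix D (N+1)/μ^(N+1) ≤ 2 mix D N / μ^N` for large `N`; finitely many `N` only change
the constant. -/
def S_MIX : Prop := ∀ (μ : ℝ) (S N1 : ℕ) (D : ℕ → ℕ → ℝ), 1 < μ → 2 ≤ N1 → (∀ m s, 0 ≤ D m s) →
  (∃ c : ℝ, 0 < c ∧ ∀ N, N1 ≤ N → c * μ ^ N ≤ mix S D N) →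
  (∃ K : ℝ, ∀ N, N1 ≤ N → mix S D N ≤ μ ^ N * Real.exp (K * Real.log N ^ 2)) →
  ∀ r : ℕ, ∃ K : ℝ, 0 ≤ K ∧ ∀ F : ℕ → ℕ → ℝ, (∀ m s, |F m s| ≤ D m s) → ∀ N, N1 ≤ N →
    |diff r (fun n => mix S F n / μ ^ n) N| ≤ K * ρ N ^ r * (mix S D N / μ ^ N)

/-- MODULE QUO: quotients. `B = (B / A) A` and the Leibniz rule for differences, induction on `r`;
first `r = 1` gives `A (n + 1) / A n` between positive constants (for `n ≥ 2`), also for `n + i`.
The constants for `B / A` depend only on the constants for `A` and `B`. -/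
def S_QUO : Prop := ∀ A : ℕ → ℝ, (∀ n, 0 < A n) → Rg A A → ∀ L : ℕ → ℝ,
  (∀ r, 0 ≤ L r) → ∀ r : ℕ, ∃ K : ℝ, 0 ≤ K ∧ ∀ B : ℕ → ℝ,
    (∀ r n, 2 ≤ n → |diff r B n| ≤ L r * ρ n ^ r * A n) →
    ∀ n, 2 ≤ n → |diff r (fun n => B n / A n) n| ≤ K * ρ n ^ r

/-- MODULE DBL: the ratio `A (2 n) / A n ^ 2`. (`n ↦ A (2 n)` is regular relative to itself since
`T² - 1 = (T - 1)(T + 1)`, and `1 / A` is regular relative to itself; Leibniz.) -/
def S_DBL : Prop := ∀ A : ℕ → ℝ, (∀ n, 0 < A n) → Rg A A →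
  Rg (fun n => A (2 * n) / A n ^ 2) (fun n => A (2 * n) / A n ^ 2)

end Pool.Agent.D0H94.T13
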