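import Mathlib

/-!
# Statements: mixtures over a random number of steps (project FM, three independent modules)
-/

set_option autoImplicit false
set_option linter.unusedVariables false

namespace Pool.Agent.D0H94.T13

open Filter Topology Finset

/-- the number of ways to write `N` as an ordered sum of `m` numbers `2` and `3` -/
def kc (m N : ℕ) : ℕ := if 2 * m ≤ N then m.choose (N - 2 * m) else 0

/-- the total weight at length `n` -/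
noncomputable def ZZ (h : ℕ → ℝ) (n : ℕ) : ℝ := ∑ m ∈ range (n + 1), h m * kc (m + 1) (n + 1)

/-- MODULE CONC (concentration). Proof. With `p = 1 / (1 + μ)`, `k = m + 1`, `N = n + 1 = 2 k + j`:
`ν^k choose k j / μ^N = (bin p k).coeff j = choose k j * p^j * (1-p)^(k-j)` (because
`ν / μ^2 = μ / (1 + μ) = 1 - p` and `p / (1 - p) = 1 / μ`; see `choose_eq` in
Pool/Agent/D0H81/FT/Mix.lean). So `h m * kc k N / μ^N = (h m / ν^k) * (bin p k).coeff j`, where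
`h m / ν^k ≤ exp (K log^2 m) / ν`. Upper bound of the far terms: `j - p k = (2 + p) (c N - k)` with
`c = 1 / (2 + p) = (1 + μ) / (3 + 2 μ)`, and `far` in Pool/Agent/D0H81/FT/Bin.lean (Chernoff). Lower
bound of the total: one `m` with `|c N - k| ≤ 1` has `(bin p k).coeff j ≥ 1 / (C √n)` or any bound
`≥ exp (- C log^2 n)` (e.g. the sum over all `N` and `exists_mode`, or: the largest coefficient is at
least `1 / (k + 1)` and lies at `|j - p k| ≤ 1`; or sum `ZZ` crude: `∑_k (bin p k).coeff (N - 2 k)` is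
the renewal function of steps 2 (prob. `1 - p`) and 3 (prob. `p`), `u_N = (1-p) u_{N-2} + p u_{N-3}`,
which is `≥` a positive constant for `N ≥ 2` by induction - this is the easiest). Small `n`: take `L`
large, then no `m ≤ n` is far. -/
def S_CONC : Prop := ∀ μ ν : ℝ, 1 < μ → 0 < ν → ν * (1 / μ ^ 2 + 1 / μ ^ 3) = 1 →
  ∀ h : ℕ → ℝ, (∀ m, 0 < h m) → (∃ c0 : ℝ, 0 < c0 ∧ ∀ m, c0 * ν ^ m ≤ h m) →
  (∃ K : ℝ, ∀ m, 2 ≤ m → h m ≤ ν ^ m * Real.exp (K * Real.log m ^ 2)) →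
  ∀ A : ℝ, 0 < A → ∃ L : ℝ, 0 < L ∧ ∀ n : ℕ, 2 ≤ n →
    ∑ m ∈ (range (n + 1)).filter (fun m : ℕ =>
      L * (√(n : ℝ) * Real.log n) ≤ |(m : ℝ) - (1 + μ) / (3 + 2 * μ) * n|),
      h m * kc (m + 1) (n + 1) ≤ Real.exp (-(A * Real.log n ^ 2)) * ZZ h n

/-- MODULE ANTI (no atoms). Proof. By S_CONC only `|m - c n| ≤ L √n log n` matter (the far terms are
`≤ exp (- log^2 n) ZZ ≤ (log n / √n) ZZ`). For these `m`, `k = m + 1`, `j = n + 1 - 2 k`: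
`kc (k + 2) N / kc k N = choose (k+2) (j-4) / choose k j = (k+2)(k+1) j (j-1) (j-2) (j-3) /
((k-j+6) (k-j+5) ... (k-j+1))` and with `j / k = p + O(log n / √n)` this is
`(p^4 / (1-p)^6) (1 + O(log n / √n))`, `ν^2 p^4 / (1 - p)^6 = 1`; so `h (m+2) kc (m+3) N ≥
(1 - K log n / √n) h m kc (m+1) N`; iterate `≥ δ √n / log n` times: each term is `≥ 1/2` of the
first one. -/
def S_ANTI : Prop := ∀ μ ν : ℝ, 1 < μ → 0 < ν → ν * (1 / μ ^ 2 + 1 / μ ^ 3) = 1 →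
  ∀ h : ℕ → ℝ, (∀ m, 0 < h m) → (∃ c0 : ℝ, 0 < c0 ∧ ∀ m, c0 * ν ^ m ≤ h m) →
  (∃ K : ℝ, ∀ m, 2 ≤ m → h m ≤ ν ^ m * Real.exp (K * Real.log m ^ 2)) →
  (∃ K : ℝ, ∀ m, 2 ≤ m → |h (m + 2) / h m - ν ^ 2| ≤ K * (Real.log m / √(m : ℝ))) →
  ∃ K : ℝ, ∀ n m : ℕ, 2 ≤ n →
    h m * kc (m + 1) (n + 1) ≤ K * (Real.log n / √(n : ℝ)) * ZZ h n

/-- weights of a random number of steps -/
structure Wts (w : ℕ → ℕ → ℝ) (c : ℝ) : Prop where
  c0 : 0 < c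
  nonneg : ∀ n m, 0 ≤ w n m
  one : ∀ n, 3 ≤ n → ∑ m ∈ range (n + 1), w n m = 1
  conc : ∀ A : ℝ, 0 < A → ∃ L : ℝ, 0 < L ∧ ∀ n : ℕ, 3 ≤ n →
    ∑ m ∈ (range (n + 1)).filter (fun m : ℕ => L * (√(n : ℝ) * Real.log n) ≤ |(m : ℝ) - c * n|),
      w n m ≤ Real.exp (-(A * Real.log n ^ 2))

/-- MODULE LIM (i): limit laws. `G m x` is a distribution function (of the diameter of the `m`-step
walk). Proof: near terms have `m / (c n) → 1` uniformly, so `t (c n)^ν` is between `(t ± δ) m^ν`;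
monotonicity of `G m` and continuity of `Φ` at `t`. -/
def S_LIM1 : Prop := ∀ (w : ℕ → ℕ → ℝ) (c : ℝ), Wts w c → ∀ G : ℕ → ℝ → ℝ,
  (∀ m x, 0 ≤ G m x ∧ G m x ≤ 1) → (∀ m, Monotone (G m)) →
  ∀ (θ : ℝ) (Φ : ℝ → ℝ), 0 < θ → ContinuousOn Φ (Set.Ioi 0) →
  (∀ t : ℝ, 0 < t → Tendsto (fun m : ℕ => G m (t * (m : ℝ) ^ θ)) atTop (𝓝 (Φ t))) →
  ∀ t : ℝ, 0 < t →
    Tendsto (fun n : ℕ => ∑ m ∈ range (n + 1), w n m * G m (t * (c * n) ^ θ)) atTop (𝓝 (Φ t))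

/-- MODULE LIM (ii): moments. (`M m` at most a power of `m + 1`; `x` real, `B ≥ 0` or any real.) -/
def S_LIM2 : Prop := ∀ (w : ℕ → ℕ → ℝ) (c : ℝ), Wts w c → ∀ M : ℕ → ℝ, ∀ q : ℝ,
  (∀ m, 0 ≤ M m ∧ M m ≤ ((m : ℝ) + 1) ^ q) → ∀ x B : ℝ,
  Tendsto (fun m : ℕ => M m / (m : ℝ) ^ x) atTop (𝓝 B) →
    Tendsto (fun n : ℕ => (∑ m ∈ range (n + 1), w n m * M m) / (c * n) ^ x) atTop (𝓝 B)

end Pool.Agent.D0H94.T13
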