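import Pool.Agent.D0H94.T13.Cls3
import Pool.Agent.D0H94.T12.Fin2

/-!
# The walks on (3.12²) from a fixed vertex
-/

set_option autoImplicit false
set_option linter.unusedVariables false

namespace Pool.Agent.D0H94.T13

open Finset
open Pool.Agent.D0H94.T12

/-- the starting vertex -/
def e0 : P2 × P2 := ((0, 0), (1, 0))

/-- sums of functions of the path -/
noncomputable def BB (ψ : List P2 → ℝ) (n : ℕ) : ℝ :=
  ∑ᶠ r ∈ W (AF Hx) e0 n, ψ (pth (e0 :: r))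

lemma tot_obs (ψ : List P2 → ℝ) (n : ℕ) : tot Hx (0, 0) (obs e0 ψ) (n + 1) = BB ψ n := by
  classical
  unfold tot BB
  have h1 : ∑ᶠ l ∈ FL Hx (n + 1) (0, 0), obs e0 ψ l =
      ∑ᶠ l ∈ List.cons e0 '' W (AF Hx) e0 n, obs e0 ψ l := by
    refine finsum_mem_inter_support_eq _ _ _ ?_
    ext l
    constructor
    · rintro ⟨⟨h1, h2, h3, u, r, hu, h4⟩, hs⟩
      refine ⟨?_, hs⟩
      have h5 : l.head? = some e0 := by
        by_contra h
        apply hs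
        unfold obs
        rw [if_neg h]
      rw [h4] at h5
      simp only [List.head?_cons, Option.some.injEq] at h5
      refine ⟨r, ⟨?_, ?_, ?_⟩, ?_⟩
      · rw [h4] at h1; simpa using h1
      · rw [← h5, ← h4]; exact h2
      · rw [← h5, ← h4]; exact h3
      · rw [h4, h5]
    · rintro ⟨⟨r, ⟨h1, h2, h3⟩, rfl⟩, hs⟩
      exact ⟨⟨by simp [h1], h2, h3, (1, 0), r, Hx0, rfl⟩, hs⟩
  rw [h1, finsum_mem_image List.cons_injective.injOn]
  refine finsum_mem_congr rfl fun r _ => ?_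
  unfold obs
  simp

lemma W_fin (n : ℕ) : (W (AF Hx) e0 n).Finite := W_finite (fin_AF cub) n _

lemma BB_abs {ψ : List P2 → ℝ} (h : ∀ p, |ψ p| ≤ 1) (n : ℕ) : |BB ψ n| ≤ aF n := by
  unfold BB
  rw [finsum_mem_eq_finite_toFinset_sum _ (W_fin n)]
  refine (Finset.abs_sum_le_sum_abs _ _).trans ?_
  refine (Finset.sum_le_sum fun r _ => h _).trans ?_
  rw [Finset.sum_const, nsmul_eq_mul, mul_one]
  have : (W_fin n).toFinset.card = aF n := by
    rw [← Set.ncard_eq_toFinset_card _ (W_fin n)]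
    rfl
  rw [this]

lemma BB_one (n : ℕ) : BB (fun _ => 1) n = aF n := by
  unfold BB
  rw [finsum_mem_eq_finite_toFinset_sum _ (W_fin n), Finset.sum_const, nsmul_eq_mul, mul_one]
  have : (W_fin n).toFinset.card = aF n := by
    rw [← Set.ncard_eq_toFinset_card _ (W_fin n)]
    rfl
  rw [this]

lemma FL_up (n : ℕ) : (FL Hx (n + 1) (0, 0)).ncard ≤ 3 * aF n := by
  have h0 : (((0, 0) : P2).1 - ((0, 0) : P2).2) % 3 ≠ 2 := by norm_num
  refine (FL_upper cub n (0, 0)).trans ?_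
  refine (Finset.sum_le_sum fun i _ =>
    (aF_eq (x := ((0, 0), nbr (0, 0) i)) (Hx_nbr h0 i) n).le).trans ?_
  simp

lemma FL_low (n : ℕ) : aF n ≤ (FL Hx (n + 1) (0, 0)).ncard := W_le_FL cub n Hx0

lemma mF_gt : 1 < mF := by
  unfold mF
  exact (one_lt_div xx_pos).2 xx_lt

lemma rho_nonneg (n : ℕ) : 0 ≤ ρ n := div_nonneg (Real.log_natCast_nonneg n) (Real.sqrt_nonneg _)

lemma rho_pos {n : ℕ} (hn : 2 ≤ n) : 0 < ρ n :=
  div_pos (Real.log_pos (by exact_mod_cast hn)) (Real.sqrt_pos.2 (by exact_mod_cast (by omega)))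

lemma rho_succ {n : ℕ} (hn : 2 ≤ n) : ρ (n + 1) ≤ 2 * ρ n := by
  unfold ρ
  have hn0 : (0 : ℝ) < n := by exact_mod_cast (show 0 < n by omega)
  have hs : 0 < √(n : ℝ) := Real.sqrt_pos.2 hn0
  have h1 : √(n : ℝ) ≤ √((n + 1 : ℕ) : ℝ) := Real.sqrt_le_sqrt (by push_cast; linarith)
  have h2 : Real.log ((n + 1 : ℕ) : ℝ) ≤ 2 * Real.log n := by
    rw [← Real.log_rpow hn0, Real.rpow_two]
    apply Real.log_le_log (by positivity)
    have : (2 : ℝ) ≤ n := by exact_mod_cast hn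
    push_cast
    nlinarith
  have h3 : 0 ≤ Real.log (n : ℝ) := Real.log_natCast_nonneg n
  calc Real.log ((n + 1 : ℕ) : ℝ) / √((n + 1 : ℕ) : ℝ) ≤ (2 * Real.log n) / √(n : ℝ) :=
        div_le_div₀ (by positivity) h2 hs h1
    _ = _ := by ring

lemma arith1 {d c K R A : ℝ} (h : d ≤ c) (hR : 0 < R) (hA : 0 < A) (hK : 0 ≤ K) :
    d ≤ (K + c / (R * A)) * R * A := by
  have e : (K + c / (R * A)) * R * A = K * R * A + c := by field_simp
  rw [e]
  have : 0 ≤ K * R * A := by positivity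
  linarith

lemma arith2 {m K d X F a y c : ℝ} {r n : ℕ} (hm : 0 < m) (hK : 0 ≤ K)
    (h1 : d ≤ K * X * (F / m ^ (n + 1))) (h2 : F ≤ 3 * a) (h4 : X ≤ (2 * y) ^ r) (hy : 0 ≤ y)
    (hX : 0 ≤ X) (ha : 0 ≤ a) (hF : 0 ≤ F) (hc : 0 ≤ c) :
    m * d ≤ (3 * K * 2 ^ r + c) * y ^ r * (a / m ^ n) := by
  have hp : 0 < m ^ n := pow_pos hm n
  have h5 : K * X * (F / m ^ (n + 1)) ≤ K * (2 * y) ^ r * (3 * a / m ^ (n + 1)) := by
    gcongr
  have e : m * (K * (2 * y) ^ r * (3 * a / m ^ (n + 1))) = 3 * K * 2 ^ r * y ^ r * (a / m ^ n) := by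
    rw [mul_pow, pow_succ]
    field_simp
  have h6 : 0 ≤ c * y ^ r * (a / m ^ n) := by positivity
  calc m * d ≤ m * (K * (2 * y) ^ r * (3 * a / m ^ (n + 1))) :=
        mul_le_mul_of_nonneg_left (h1.trans h5) hm.le
    _ = 3 * K * 2 ^ r * y ^ r * (a / m ^ n) := e
    _ ≤ _ := by linarith

lemma arith3 {m : ℝ} (hm : 0 < m) (u b : ℝ) (k : ℕ) :
    u * (b / m ^ k) = m * (u * (b / m ^ (k + 1))) := by
  rw [pow_succ]
  have := (pow_pos hm k).ne'
  field_simp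

/-- **regularity of all orders** for the functions of the path of triangles, from a fixed
starting vertex -/
theorem reg_path (hM : S_BIN → S_MIX) (hb : S_BIN) (r : ℕ) : ∃ K : ℝ, 0 ≤ K ∧
    ∀ ψ : List P2 → ℝ, (∀ p, |ψ p| ≤ 1) → ∀ n, 2 ≤ n →
      |diff r (fun n => BB ψ n / mF ^ n) n| ≤ K * ρ n ^ r * (aF n / mF ^ n) := by
  have hm := mF_pos
  have hm1 := mF_gt
  obtain ⟨K0, hK0, hq⟩ := quasiF
  obtain ⟨K, hK, h⟩ := regular (th := thd) hM hb cub (0, 0) (μ := mF) hm1 ⟨1 / mF, by positivity, by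
    intro N hN
    obtain ⟨n, rfl⟩ : ∃ n, N = n + 1 := ⟨N - 1, by omega⟩
    have h1 := (hq n (by omega)).1
    have h2 : (aF n : ℝ) ≤ (FL Hx (n + 1) (0, 0)).ncard := by exact_mod_cast FL_low n
    refine le_trans ?_ h2
    refine le_trans (le_of_eq ?_) h1
    rw [pow_succ]
    field_simp⟩ ⟨K0 + 2, by
    intro N hN
    obtain ⟨n, rfl⟩ : ∃ n, N = n + 1 := ⟨N - 1, by omega⟩
    have h1 := (hq n (by omega)).2.1
    have h2 : ((FL Hx (n + 1) (0, 0)).ncard : ℝ) ≤ 3 * aF n := by exact_mod_cast FL_up n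
    have hn0 : (0 : ℝ) < n := by exact_mod_cast (show 0 < n by omega)
    have l0 : 0 ≤ Real.log (n : ℝ) := Real.log_natCast_nonneg n
    have l1 : Real.log (n : ℝ) ≤ Real.log ((n + 1 : ℕ) : ℝ) :=
      Real.log_le_log hn0 (by push_cast; linarith)
    have l2 : (1 : ℝ) ≤ Real.log ((n + 1 : ℕ) : ℝ) := by
      rw [Real.le_log_iff_exp_le (by positivity)]
      have := Real.exp_one_lt_d9
      have h4 : (4 : ℝ) ≤ ((n + 1 : ℕ) : ℝ) := by exact_mod_cast hN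
      linarith
    have h3 : (3 : ℝ) ≤ Real.exp (2 * Real.log ((n + 1 : ℕ) : ℝ) ^ 2) := by
      have := Real.add_one_le_exp (2 * Real.log ((n + 1 : ℕ) : ℝ) ^ 2)
      nlinarith
    calc ((FL Hx (n + 1) (0, 0)).ncard : ℝ) ≤ 3 * aF n := h2
      _ ≤ Real.exp (2 * Real.log ((n + 1 : ℕ) : ℝ) ^ 2) * (mF ^ n * Real.exp (K0 * Real.log n ^ 2)) :=
        mul_le_mul h3 h1 (Nat.cast_nonneg _) (by positivity)
      _ ≤ Real.exp (2 * Real.log ((n + 1 : ℕ) : ℝ) ^ 2) *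
          (mF ^ (n + 1) * Real.exp (K0 * Real.log ((n + 1 : ℕ) : ℝ) ^ 2)) := by
        gcongr
        · exact hm1.le
        · omega
      _ = _ := by
        rw [mul_left_comm, ← Real.exp_add]
        congr 2
        ring⟩ r
  have hdiff2 : ∃ c0 : ℝ, 0 ≤ c0 ∧ ∀ ψ : List P2 → ℝ, (∀ p, |ψ p| ≤ 1) →
      |diff r (fun n => BB ψ n / mF ^ n) 2| ≤ c0 := by
    refine ⟨∑ i ∈ range (r + 1), (r.choose i : ℝ) * (aF (2 + i) / mF ^ (2 + i)),
      Finset.sum_nonneg fun i _ => by positivity, fun ψ hψ => ?_⟩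
    unfold diff
    refine (Finset.abs_sum_le_sum_abs _ _).trans (Finset.sum_le_sum fun i _ => ?_)
    rw [abs_mul, abs_mul, abs_pow, abs_neg, abs_one, one_pow, one_mul, Nat.abs_cast, abs_div,
      abs_of_pos (pow_pos hm (2 + i))]
    exact mul_le_mul_of_nonneg_left (div_le_div_of_nonneg_right (BB_abs hψ _)
      (pow_pos hm (2 + i)).le) (Nat.cast_nonneg _)
  obtain ⟨c0, hc0, hd2⟩ := hdiff2
  have hA2 : 0 < (aF 2 : ℝ) / mF ^ 2 := div_pos (aF_pos 2 (by norm_num)) (pow_pos hm 2)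
  have hr2 : 0 < ρ 2 ^ r := pow_pos (rho_pos le_rfl) r
  refine ⟨3 * K * 2 ^ r + c0 / (ρ 2 ^ r * (aF 2 / mF ^ 2)), by positivity, fun ψ hψ n hn => ?_⟩
  rcases Nat.lt_or_ge n 3 with h3 | h3
  · have h2 : n = 2 := by omega
    subst h2
    exact arith1 (hd2 ψ hψ) hr2 hA2 (by positivity)
  · have h1 := h (obs e0 ψ) (obs_abs e0 hψ) (obs_inv e0 ψ) (n + 1) (by omega)
    have e1 : diff r (fun n => BB ψ n / mF ^ n) n =
        mF * diff r (fun n => tot Hx (0, 0) (obs e0 ψ) n / mF ^ n) (n + 1) := by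
      unfold diff
      rw [Finset.mul_sum]
      refine Finset.sum_congr rfl fun i _ => ?_
      simp only
      rw [show n + 1 + i = (n + i) + 1 by ring, tot_obs]
      exact arith3 hm _ _ _
    rw [e1, abs_mul, abs_of_pos hm]
    have h2 : ((FL Hx (n + 1) (0, 0)).ncard : ℝ) ≤ 3 * aF n := by exact_mod_cast FL_up n
    have h4 : ρ (n + 1) ^ r ≤ (2 * ρ n) ^ r :=
      pow_le_pow_left₀ (rho_nonneg _) (rho_succ (by omega)) r
    exact arith2 hm hK h1 h2 h4 (rho_nonneg n) (pow_nonneg (rho_nonneg (n + 1)) r)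
      (Nat.cast_nonneg (aF n)) (Nat.cast_nonneg _)
      (div_nonneg hc0 (mul_pos hr2 hA2).le)

/-- the number of walks -/
theorem rg_aF (hM : S_BIN → S_MIX) (hb : S_BIN) :
    Rg (fun n => (aF n : ℝ) / mF ^ n) (fun n => (aF n : ℝ) / mF ^ n) := by
  intro r
  obtain ⟨K, hK, h⟩ := reg_path hM hb r
  refine ⟨K, hK, fun n hn => ?_⟩
  have h1 := h (fun _ => 1) (by simp) n hn
  simpa only [BB_one] using h1

lemma A_pos (n : ℕ) : 0 < (aF n : ℝ) / mF ^ n := by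
  rw [← sF_eq]
  exact one_pos.trans_le (one_le_sF n)

/-- the laws -/
theorem rg_law (hM : S_BIN → S_MIX) (hb : S_BIN) (hQ : S_QUO) (r : ℕ) : ∃ K : ℝ, 0 ≤ K ∧
    ∀ ψ : List P2 → ℝ, (∀ p, |ψ p| ≤ 1) → ∀ n, 2 ≤ n →
      |diff r (fun n => BB ψ n / aF n) n| ≤ K * ρ n ^ r := by
  choose L hL h using reg_path hM hb
  obtain ⟨K, hK, h1⟩ := hQ _ A_pos (rg_aF hM hb) L hL r
  refine ⟨K, hK, fun ψ hψ n hn => ?_⟩
  have h2 := h1 (fun n => BB ψ n / mF ^ n) (fun r n hn => h r ψ hψ n hn) n hn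
  refine le_trans (le_of_eq ?_) h2
  congr 1
  unfold diff
  refine Finset.sum_congr rfl fun i _ => ?_
  simp only
  rw [div_div_div_cancel_right₀ (pow_pos mF_pos (n + i)).ne']

end Pool.Agent.D0H94.T13
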