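import Pool.Agent.D0H94.T13.Fin
import Pool.Agent.D0H94.T12.E7

/-!
# The path of the centres of the triangles
-/

set_option autoImplicit false
set_option linter.unusedVariables false

namespace Pool.Agent.D0H94.T13

open Finset
open Pool.Agent.D0H94.T12

/-- the centre of the triangle of a vertex -/
noncomputable def cen (z : ℂ) : ℂ := Classical.epsilon fun c => c ∈ hexS ∧ ‖z - c‖ = 2 - √3

lemma tt_pos : (0 : ℝ) < 2 - √3 := by
  have : √3 < 2 := by
    rw [Real.sqrt_lt' (by norm_num)]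
    norm_num
  linarith

lemma dist_cen {x : P2 × P2} (hx : Hx x.1 x.2) (c : P2) : ‖pt x - ps c‖ = 2 - √3 ↔ c = x.1 := by
  have h1 : pt x - ps c = ps (x.1 - c) + (tt : ℂ) * ps (x.2 - x.1) := by
    unfold pt
    rw [← ps_sub x.1 c]
    ring
  have h2 := nsq (x.1 - c) (x.2 - x.1) tt
  rw [← h1] at h2
  have h3 : NN (x.2 - x.1) = 1 := hx.1
  rw [h3] at h2
  have e : (2 - √3 : ℝ) = tt := rfl
  constructor
  · intro h
    rw [h, e] at h2
    obtain ⟨a, b⟩ := tt_irr (a := NN (x.1 - c)) (b := TT2 (x.1 - c) (x.2 - x.1)) (by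
      push_cast at h2
      linarith)
    exact (sub_eq_zero.1 (NN_zero a)).symm
  · rintro rfl
    have h4 : NN (x.1 - x.1) = 0 := by rw [sub_self]; rfl
    have h5 : TT2 (x.1 - x.1) (x.2 - x.1) = 0 := by rw [sub_self]; simp [TT2]
    rw [h4, h5] at h2
    push_cast at h2
    rw [zero_add, mul_zero, zero_add, mul_one] at h2
    exact (pow_left_inj₀ (norm_nonneg _) tt_pos.le (by norm_num)).1 h2

lemma cen_pt {x : P2 × P2} (hx : Hx x.1 x.2) : cen (pt x) = ps x.1 := by
  have hex : ∃ c, c ∈ hexS ∧ ‖pt x - c‖ = 2 - √3 :=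
    ⟨ps x.1, (embH.S _).2 ⟨x.1, hx.2.1, rfl⟩, (dist_cen hx x.1).2 rfl⟩
  obtain ⟨h1, h2⟩ := Classical.epsilon_spec hex
  obtain ⟨c, -, hc⟩ := (embH.S _).1 h1
  have h3 : cen (pt x) = ps c := hc.symm
  have h4 : ‖pt x - ps c‖ = 2 - √3 := by rw [← h3]; exact h2
  rw [h3, (dist_cen hx c).1 h4]

/-- the walks on (3.12²) -/
abbrev wF (n : ℕ) : Set (Fin (n + 1) → ℂ) := wlk dodS (2 * √3 - 3) ((2 - √3 : ℝ) : ℂ) n

/-- the path of the centres -/
noncomputable def cpath {n : ℕ} (ω : Fin (n + 1) → ℂ) : List ℂ :=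
  (List.ofFn fun i => cen (ω i)).destutter (· ≠ ·)

lemma cpath_eq {n : ℕ} {f : Fin (n + 1) → P2 × P2} (hf : ∀ i, Hx (f i).1 (f i).2) :
    cpath (fun i => pt (f i)) = (pth (List.ofFn f)).map ps := by
  unfold cpath pth
  have h1 : (List.ofFn fun i => cen ((fun i => pt (f i)) i)) =
      ((List.ofFn f).map Prod.fst).map ps := by
    rw [List.map_ofFn, List.map_ofFn]
    congr 1
    funext i
    exact cen_pt (hf i)
  rw [h1]
  refine (List.map_destutter ?_).symm
  intro a _ b _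
  exact ps_inj'.ne_iff.symm

lemma W_image {α : Type*} (R : α → α → Prop) (v : α) (n : ℕ) :
    W R v n = (fun f : Fin (n + 1) → α => List.ofFn fun i : Fin n => f i.succ) '' saw R v n := by
  ext r
  constructor
  · rintro ⟨h0, h1, h2⟩
    subst h0
    refine ⟨(v :: r).get, ⟨rfl, ?_, ?_⟩, ?_⟩
    · rw [← List.nodup_ofFn, List.ofFn_get]
      exact h2
    · intro i
      have := List.isChain_iff_getElem.1 h1 i.1 (by simp)
      exact this
    · simp
  · rintro ⟨f, ⟨h0, h1, h2⟩, rfl⟩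
    have e : v :: (List.ofFn fun i : Fin n => f i.succ) = List.ofFn f := by
      rw [List.ofFn_succ, h0]
    refine ⟨by simp, ?_, ?_⟩
    · rw [e, List.isChain_ofFn]
      intro i hi
      exact h2 ⟨i, by omega⟩
    · rw [e, List.nodup_ofFn]
      exact h1

lemma W_injOn {α : Type*} (R : α → α → Prop) (v : α) (n : ℕ) :
    Set.InjOn (fun f : Fin (n + 1) → α => List.ofFn fun i : Fin n => f i.succ) (saw R v n) := by
  rintro f hf g hg h
  have h1 := List.ofFn_injective h
  funext i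
  induction i using Fin.cases with
  | zero => rw [hf.1, hg.1]
  | succ i => exact congrFun h1 i

/-- the sums over the walks of functions of the path -/
theorem sum_path (G : List ℂ → ℝ) (n : ℕ) :
    ∑ᶠ ω ∈ wF n, G (cpath ω) = BB (fun p => G (p.map ps)) n := by
  unfold wF BB
  rw [emb_image embF n, finsum_mem_image (emb_inj embF n), W_image,
    finsum_mem_image (W_injOn _ _ n)]
  refine finsum_mem_congr rfl fun f hf => ?_
  have hv := emb_v embF hf
  rw [cpath_eq hv]
  congr 3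
  rw [List.ofFn_succ, hf.1]

lemma fin_wF (n : ℕ) : (wF n).Finite := finWF n

/-- probabilities -/
theorem card_path (S : Set (List ℂ)) (n : ℕ) :
    ({ω | ω ∈ wF n ∧ cpath ω ∈ S}.ncard : ℝ) =
      BB (fun p => Set.indicator S (fun _ => 1) (p.map ps)) n := by
  classical
  rw [← sum_path (Set.indicator S fun _ => 1), finsum_mem_eq_finite_toFinset_sum _ (fin_wF n)]
  have h1 : ∀ ω ∈ (fin_wF n).toFinset, Set.indicator S (fun _ => (1 : ℝ)) (cpath ω) =
      if cpath ω ∈ S then 1 else 0 := fun ω _ => by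
    rw [Set.indicator_apply]
  rw [Finset.sum_congr rfl h1, Finset.sum_boole]
  have h2 : {ω | ω ∈ wF n ∧ cpath ω ∈ S} =
      ((fin_wF n).toFinset.filter (fun ω => cpath ω ∈ S) : Set (Fin (n + 1) → ℂ)) := by
    ext ω
    simp
  rw [h2, Set.ncard_coe_finset]

/-- **the laws of the path, all orders** -/
theorem law_path (r : ℕ) : ∃ K : ℝ, 0 ≤ K ∧ ∀ S : Set (List ℂ), ∀ n, 2 ≤ n →
    |diff r (fun n => ({ω | ω ∈ wF n ∧ cpath ω ∈ S}.ncard : ℝ) / (wF n).ncard) n| ≤ K * ρ n ^ r := by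
  classical
  obtain ⟨K, hK, h⟩ := law r
  refine ⟨K, hK, fun S n hn => ?_⟩
  have h1 := h (fun p => Set.indicator S (fun _ => 1) (p.map ps)) (fun p => by
    rw [Set.indicator_apply]
    split_ifs <;> simp) n hn
  refine le_trans (le_of_eq ?_) h1
  congr 1
  unfold diff
  refine Finset.sum_congr rfl fun i _ => ?_
  simp only
  rw [card_path, cardF]

/-! ### the entries of the path and the diameter -/

lemma mem_dst {α : Type*} [DecidableEq α] : ∀ (l : List α) (b a : α),
    a ∈ l.destutter' (· ≠ ·) b ↔ a = b ∨ a ∈ l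
  | [], b, a => by simp
  | c :: l, b, a => by
    by_cases h : b = c
    · subst h
      rw [List.destutter'_cons_neg _ (by simp), mem_dst l b a]
      simp only [List.mem_cons]
      tauto
    · rw [List.destutter'_cons_pos _ h, List.mem_cons, mem_dst l c a]
      simp only [List.mem_cons]

lemma mem_dest {α : Type*} [DecidableEq α] (l : List α) (a : α) :
    a ∈ l.destutter (· ≠ ·) ↔ a ∈ l := by
  cases l with
  | nil => simp
  | cons b l => rw [List.destutter_cons', mem_dst, List.mem_cons]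

lemma mem_cpath {n : ℕ} (ω : Fin (n + 1) → ℂ) (a : ℂ) :
    a ∈ cpath ω ↔ ∃ i, cen (ω i) = a := by
  unfold cpath
  rw [mem_dest, List.mem_ofFn]

/-- the diameter of the entries of a list -/
noncomputable def dl (p : List ℂ) : ℝ := Metric.diam {a : ℂ | a ∈ p}

lemma dl_nonneg (p : List ℂ) : 0 ≤ dl p := Metric.diam_nonneg

lemma bdd (p : List ℂ) : Bornology.IsBounded {a : ℂ | a ∈ p} := by
  classical
  have : {a : ℂ | a ∈ p} = (p.toFinset : Set ℂ) := by ext a; simp
  rw [this]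
  exact p.toFinset.finite_toSet.isBounded

lemma cen_dist {n : ℕ} {ω : Fin (n + 1) → ℂ} (h : ω ∈ wF n) (i : Fin (n + 1)) :
    ‖ω i - cen (ω i)‖ = 2 - √3 := by
  unfold wF at h
  rw [emb_image embF n] at h
  obtain ⟨f, hf, rfl⟩ := h
  have hv := emb_v embF hf i
  simp only
  rw [cen_pt hv]
  exact (dist_cen hv _).2 rfl

lemma diam_le {n : ℕ} {ω : Fin (n + 1) → ℂ} (h : ω ∈ wF n) :
    diam ω ≤ dl (cpath ω) + 2 * (2 - √3) := by
  refine ciSup_le fun p => ?_
  have h1 := cen_dist h p.1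
  have h2 := cen_dist h p.2
  have h3 : dist (cen (ω p.1)) (cen (ω p.2)) ≤ dl (cpath ω) :=
    Metric.dist_le_diam_of_mem (bdd _) ((mem_cpath ω _).2 ⟨_, rfl⟩) ((mem_cpath ω _).2 ⟨_, rfl⟩)
  rw [dist_eq_norm] at h3
  have e : ω p.1 - ω p.2 = (ω p.1 - cen (ω p.1)) + (cen (ω p.1) - cen (ω p.2)) -
      (ω p.2 - cen (ω p.2)) := by ring
  rw [e]
  have h4 := norm_sub_le ((ω p.1 - cen (ω p.1)) + (cen (ω p.1) - cen (ω p.2)))
    (ω p.2 - cen (ω p.2))
  have h5 := norm_add_le (ω p.1 - cen (ω p.1)) (cen (ω p.1) - cen (ω p.2))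
  linarith

lemma dist_le_diam {n : ℕ} (ω : Fin (n + 1) → ℂ) (i j : Fin (n + 1)) : ‖ω i - ω j‖ ≤ diam ω :=
  le_ciSup (f := fun p : Fin (n + 1) × Fin (n + 1) => ‖ω p.1 - ω p.2‖)
    (Set.finite_range _).bddAbove (i, j)

lemma diam_nonneg {n : ℕ} (ω : Fin (n + 1) → ℂ) : 0 ≤ diam ω :=
  (norm_nonneg _).trans (dist_le_diam ω 0 0)

lemma dl_le {n : ℕ} {ω : Fin (n + 1) → ℂ} (h : ω ∈ wF n) :
    dl (cpath ω) ≤ diam ω + 2 * (2 - √3) := by
  have h0 := diam_nonneg ω
  have ht := tt_pos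
  refine Metric.diam_le_of_forall_dist_le (by linarith) fun a ha b hb => ?_
  obtain ⟨i, rfl⟩ := (mem_cpath ω a).1 ha
  obtain ⟨j, rfl⟩ := (mem_cpath ω b).1 hb
  have h1 := cen_dist h i
  have h2 := cen_dist h j
  have h3 := dist_le_diam ω i j
  rw [dist_eq_norm]
  have e : cen (ω i) - cen (ω j) = (ω i - ω j) - (ω i - cen (ω i)) + (ω j - cen (ω j)) := by ring
  rw [e]
  have h4 := norm_add_le ((ω i - ω j) - (ω i - cen (ω i))) (ω j - cen (ω j))
  have h5 := norm_sub_le (ω i - ω j) (ω i - cen (ω i))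
  linarith

/-! ### comparison of lengths -/

lemma rho_le {m n : ℕ} (hn : 2 ≤ n) (hm : n ≤ m) : ρ m ≤ 4 * ρ n := by
  unfold ρ
  have hn0 : (0 : ℝ) < n := by exact_mod_cast (show 0 < n by omega)
  have hm0 : (0 : ℝ) < m := by exact_mod_cast (show 0 < m by omega)
  have hnm : (n : ℝ) ≤ m := by exact_mod_cast hm
  have sn : 0 < √(n : ℝ) := Real.sqrt_pos.2 hn0
  have sm : 0 < √(m : ℝ) := Real.sqrt_pos.2 hm0
  have snm : √(n : ℝ) ≤ √(m : ℝ) := Real.sqrt_le_sqrt hnm
  have l2 : (0.69 : ℝ) < Real.log n := by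
    have h1 := Real.log_two_gt_d9
    have h2 : Real.log 2 ≤ Real.log n := Real.log_le_log (by norm_num) (by exact_mod_cast hn)
    linarith
  have h1 : Real.log m = Real.log n + 2 * Real.log (√m / √n) := by
    rw [Real.log_div sm.ne' sn.ne', Real.log_sqrt hm0.le, Real.log_sqrt hn0.le]
    ring
  have h2 : Real.log (√m / √n) ≤ √m / √n - 1 := Real.log_le_sub_one_of_pos (by positivity)
  have h3 : Real.log m ≤ Real.log n + 2 * (√m / √n) := by linarith
  calc Real.log m / √m ≤ (Real.log n + 2 * (√m / √n)) / √m :=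
        div_le_div_of_nonneg_right h3 sm.le
    _ = Real.log n / √m + 2 / √n := by field_simp
    _ ≤ Real.log n / √n + 2 / √n := by
        gcongr
    _ ≤ 4 * (Real.log n / √n) := by
        have : 2 / √(n : ℝ) ≤ 3 * (Real.log n / √n) := by
          rw [← mul_div_assoc]
          exact div_le_div_of_nonneg_right (by linarith) sn.le
        linarith

/-- merging of a family over many steps -/
lemma chain {f : ℕ → ℝ} {K : ℝ} (hK : 0 ≤ K) (h : ∀ n, 2 ≤ n → |f (n + 1) - f n| ≤ K * ρ n) {n : ℕ}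
    (hn : 2 ≤ n) : ∀ j : ℕ, |f (n + j) - f n| ≤ 4 * K * (j * ρ n)
  | 0 => by simp
  | j + 1 => by
    have h1 := chain hK h hn j
    have h2 := h (n + j) (by omega)
    have h3 := rho_le hn (show n ≤ n + j by omega)
    have h4 := abs_sub_le (f (n + (j + 1))) (f (n + j)) (f n)
    rw [show n + (j + 1) = n + j + 1 by ring] at h4 ⊢
    have h5 : K * ρ (n + j) ≤ K * (4 * ρ n) := mul_le_mul_of_nonneg_left h3 hK
    push_cast
    linarith

lemma diff_one (f : ℕ → ℝ) (n : ℕ) : |diff 1 f n| = |f (n + 1) - f n| := by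
  unfold diff
  rw [Finset.sum_range_succ, Finset.sum_range_one]
  simp only [pow_zero, Nat.choose_self, Nat.choose_zero_right, Nat.cast_one, pow_one, add_zero,
    mul_one, one_mul, neg_mul, Nat.cast_one]
  rw [abs_sub_comm]
  congr 1

end Pool.Agent.D0H94.T13
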