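import Pool.Agent.D0H94.T12.Cnt

/-!
# Toggling the free triangles: the walks on the Fisher graph as a union of cubes
-/

set_option autoImplicit false
set_option linter.unusedVariables false

namespace Pool.Agent.D0H94.T13

open Finset
open Pool.Agent.D0H94.T12

variable {V : Type*} {A : V → V → Prop} {th : V → V → V → V} {nb : V → Fin 3 → V}

/-- the third corners along a walk -/
def thl (th : V → V → V → V) : V → V → List V → List (V × V)
  | _, _, [] => []
  | x, y, z :: zs => (y, th y x z) :: thl th y z zs

/-- the selected entries -/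
def sel {α : Type*} : List α → List Bool → List α
  | [], _ => []
  | _ :: _, [] => []
  | a :: w, b :: bs => if b then a :: sel w bs else sel w bs

/-- no bit set -/
def zer (k : ℕ) : List Bool := List.replicate k false

lemma thl_length : ∀ (zs : List V) (x y : V), (thl th x y zs).length = zs.length
  | [], _, _ => rfl
  | _ :: zs, _, _ => by simp [thl, thl_length zs]

lemma mem_ex : ∀ (zs : List V) (x y : V) (bs : List Bool), zs.length = bs.length →
    ∀ e : V × V, e ∈ ex th x y zs bs ↔ e ∈ ex th x y zs (zer zs.length) ∨ e ∈ sel (thl th x y zs) bs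
  | [], x, y, bs, _, e => by simp [thl, sel]
  | _ :: _, x, y, [], h, e => by simp at h
  | z :: zs, x, y, b :: bs, h, e => by
    have ih := mem_ex zs y z bs (by simpa using h) e
    have hz : zer (z :: zs).length = false :: zer zs.length := by
      simp [zer, List.replicate_succ]
    rw [hz, ex_false]
    cases b
    · rw [ex_false]
      simp only [thl, sel, List.mem_cons, ih]
      simp only [Bool.false_eq_true, if_false]
      tauto
    · rw [ex_true]
      simp only [thl, sel, List.mem_cons, ih]
      simp only [if_true, List.mem_cons]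
      tauto

lemma thl_fst : ∀ (zs : List V) (x y : V) (e : V × V), e ∈ thl th x y zs →
    e.1 ∈ y :: zs.dropLast
  | [], _, _, e, h => by simp [thl] at h
  | z :: zs, x, y, e, h => by
    simp only [thl, List.mem_cons] at h
    rcases h with h | h
    · rw [h]; exact List.mem_cons_self
    · have ih := thl_fst zs y z e h
      cases zs with
      | nil => simp [thl] at h
      | cons z' zs' =>
        rw [List.dropLast_cons_cons]
        exact List.mem_cons_of_mem _ ih

lemma thl_nodup : ∀ (zs : List V) (x y : V), (y :: zs.dropLast).Nodup → (thl th x y zs).Nodup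
  | [], _, _, _ => by simp [thl]
  | z :: zs, x, y, h => by
    cases zs with
    | nil => simp [thl]
    | cons z' zs' =>
      rw [List.dropLast_cons_cons] at h
      have h' := List.nodup_cons.1 h
      simp only [thl]
      rw [List.nodup_cons]
      exact ⟨fun hm => h'.1 (thl_fst (th := th) (z' :: zs') y z _ hm),
        thl_nodup (z' :: zs') y z h'.2⟩

/-- bit lists of length `w.length` with `t` bits set, all at entries which satisfy `P` -/
def BF {α : Type*} (P : α → Prop) (w : List α) (t : ℕ) : Set (List Bool) :=
  {bs | bs.length = w.length ∧ (∀ e ∈ sel w bs, P e) ∧ bs.count true = t}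

lemma BF_finite {α : Type*} (P : α → Prop) (w : List α) (t : ℕ) : (BF P w t).Finite :=
  (List.finite_length_eq Bool w.length).subset fun _ h => h.1

open scoped Classical in
/-- the number of the entries with the property `P` -/
noncomputable def cnt {α : Type*} (P : α → Prop) (w : List α) : ℕ :=
  (w.filter (fun a => decide (P a))).length

lemma cnt_nil {α : Type*} (P : α → Prop) : cnt P [] = 0 := rfl

lemma cnt_pos {α : Type*} {P : α → Prop} {a : α} (h : P a) (w : List α) :
    cnt P (a :: w) = cnt P w + 1 := by
  unfold cnt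
  rw [List.filter_cons_of_pos (by simpa using h), List.length_cons]

lemma cnt_neg {α : Type*} {P : α → Prop} {a : α} (h : ¬ P a) (w : List α) :
    cnt P (a :: w) = cnt P w := by
  unfold cnt
  rw [List.filter_cons_of_neg (by simpa using h)]

lemma cnt_le {α : Type*} (P : α → Prop) (w : List α) : cnt P w ≤ w.length :=
  List.length_filter_le _ _

lemma len_le_cnt {α : Type*} (P : α → Prop) (w : List α) (hn : w.Nodup) (E : List α)
    (h : ∀ a ∈ w, ¬ P a → a ∈ E) : w.length ≤ cnt P w + E.length := by
  classical
  have h1 : w.filter (fun a => decide (¬ P a)) ⊆ E := by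
    intro a ha
    obtain ⟨h2, h3⟩ := List.mem_filter.1 ha
    exact h a h2 (by simpa using h3)
  have h2 := ((hn.filter (fun a => decide (¬ P a))).subperm h1).length_le
  have h3 : ∀ w : List α, w.length ≤ cnt P w + (w.filter (fun a => decide (¬ P a))).length := by
    intro w
    induction w with
    | nil => simp
    | cons a w ih =>
      by_cases ha : P a
      · rw [cnt_pos ha, List.length_cons]
        have : (w.filter (fun a => decide (¬ P a))).length ≤
            ((a :: w).filter (fun a => decide (¬ P a))).length :=
          (List.Sublist.filter _ (List.sublist_cons_self a w)).length_le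
        omega
      · rw [cnt_neg ha, List.length_cons, List.filter_cons_of_pos (by simpa using ha),
          List.length_cons]
        omega
  exact (h3 w).trans (Nat.add_le_add_left h2 _)

open scoped Classical in
lemma BF_card {α : Type*} (P : α → Prop) : ∀ (w : List α) (t : ℕ),
    (BF P w t).ncard = (cnt P w).choose t
  | [], t => by
    cases t with
    | zero =>
      have : BF P [] 0 = {[]} := by
        ext bs
        simp only [BF, Set.mem_ofPred_eq, Set.mem_singleton_iff, List.length_nil,
          List.length_eq_zero_iff]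
        constructor
        · exact fun h => h.1
        · rintro rfl
          simp [sel]
      rw [this, Set.ncard_singleton, cnt_nil]
      simp
    | succ t =>
      have : BF P [] (t + 1) = ∅ := by
        ext bs
        simp only [BF, Set.mem_ofPred_eq, Set.mem_empty_iff_false, List.length_nil,
          List.length_eq_zero_iff, iff_false]
        rintro ⟨rfl, -, h2⟩
        simp at h2
      rw [this, Set.ncard_empty, cnt_nil]
      simp
  | a :: w, t => by
    have f0 := BF_finite P w
    have hF : BF P (a :: w) t = (List.cons false '' BF P w t) ∪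
        (List.cons true '' (if P a ∧ 1 ≤ t then BF P w (t - 1) else ∅)) := by
      ext bs
      simp only [BF, Set.mem_ofPred_eq, Set.mem_union, Set.mem_image]
      constructor
      · rintro ⟨h1, h2, h3⟩
        cases bs with
        | nil => simp at h1
        | cons b bs =>
          have h5 : bs.length = w.length := by simpa using h1
          cases b
          · left
            rw [List.count_cons_of_ne (by simp)] at h3
            exact ⟨bs, ⟨h5, by simpa [sel] using h2, h3⟩, rfl⟩
          · right
            rw [List.count_cons_self] at h3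
            simp only [sel, if_true, List.mem_cons, forall_eq_or_imp] at h2
            refine ⟨bs, ?_, rfl⟩
            rw [if_pos ⟨h2.1, by omega⟩]
            exact ⟨h5, h2.2, by omega⟩
      · rintro (⟨bs, ⟨h1, h2, h3⟩, rfl⟩ | ⟨bs, h1, rfl⟩)
        · rw [List.count_cons_of_ne (by simp)]
          refine ⟨by simp [h1], by simpa [sel] using h2, h3⟩
        · split_ifs at h1 with h4
          · obtain ⟨h5, h6, h7⟩ := h1
            rw [List.count_cons_self]
            refine ⟨by simp [h5], ?_, by omega⟩
            simp only [sel, if_true, List.mem_cons, forall_eq_or_imp]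
            exact ⟨h4.1, h6⟩
          · exact absurd h1 (Set.notMem_empty _)
    have f2 : (if P a ∧ 1 ≤ t then BF P w (t - 1) else ∅).Finite := by
      split_ifs
      · exact f0 _
      · exact Set.finite_empty
    rw [hF, Set.ncard_union_eq ?_ ((f0 t).image _) (f2.image _),
      Set.ncard_image_of_injective _ (List.cons_injective),
      Set.ncard_image_of_injective _ (List.cons_injective), BF_card P w t]
    · by_cases ha : P a
      · rw [cnt_pos ha]
        cases t with
        | zero => simp
        | succ t =>
          rw [if_pos ⟨ha, by omega⟩, Nat.add_sub_cancel, BF_card P w t, Nat.choose_succ_succ,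
            add_comm]
      · rw [if_neg (fun h => ha h.1), Set.ncard_empty, cnt_neg ha, add_zero]
    · rw [Set.disjoint_left]
      rintro _ ⟨a, -, rfl⟩ ⟨b, -, h⟩
      simp at h

/-! ### classes -/

/-- a class: long edge at the start or not, long edge at the end or not, first triangle `y`, outer
neighbour `x`, the walk `zs` -/
abbrev Cl (V : Type*) := (Bool × Bool) × (V × V × List V)

variable (th)

/-- the outer neighbour at the end and the last triangle -/
def lastp : V → List V → V × V
  | y, [] => (y, y)
  | y, [z] => (z, y)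
  | _, z :: z' :: zs => lastp z (z' :: zs)

/-- the additional vertices -/
def ext (κ : Cl V) : List (V × V) :=
  (if κ.1.1 then [(κ.2.2.1, κ.2.1)] else []) ++ (if κ.1.2 then [lastp κ.2.1 κ.2.2.2] else [])

/-- the walk of a class with given bits -/
def bld (κ : Cl V) (bs : List Bool) : List (V × V) :=
  (if κ.1.1 then [(κ.2.2.1, κ.2.1)] else []) ++ ex th κ.2.2.1 κ.2.1 κ.2.2.2 bs ++
    (if κ.1.2 then [lastp κ.2.1 κ.2.2.2] else [])

/-- the number of the triangles -/
def kk (κ : Cl V) : ℕ := κ.2.2.2.length

/-- the number of the added vertices -/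
def ac (κ : Cl V) : ℕ := (if κ.1.1 then 1 else 0) + (if κ.1.2 then 1 else 0)

/-- the number of the free triangles -/
noncomputable def mm (κ : Cl V) : ℕ :=
  cnt (fun e => e ∉ ext κ) (thl th κ.2.2.1 κ.2.1 κ.2.2.2)

variable (A)

/-- valid classes of walks which start in the triangle `v` -/
def Vd (v : V) (κ : Cl V) : Prop :=
  A κ.2.1 κ.2.2.1 ∧ κ.2.2.2 ≠ [] ∧ Val A κ.2.2.1 κ.2.1 κ.2.2.2 ∧ (κ.2.1 :: κ.2.2.2.dropLast).Nodup ∧
    (if κ.1.1 then κ.2.2.1 = v else κ.2.1 = v) ∧ (bld th κ (zer (kk κ))).Nodup

variable {A th}

lemma ext_length (κ : Cl V) : (ext κ).length = ac κ := by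
  unfold ext ac
  rw [List.length_append]
  congr 1 <;> split_ifs <;> simp

lemma ac_le (κ : Cl V) : ac κ ≤ 2 := by
  unfold ac
  split_ifs <;> omega

lemma bld_length {κ : Cl V} {bs : List Bool} (h : bs.length = kk κ) :
    (bld th κ bs).length = 2 * kk κ + bs.count true + ac κ := by
  unfold bld kk ac at *
  rw [List.length_append, List.length_append, ex_length _ _ _ _ h.symm]
  split_ifs <;> simp <;> ring

/-- the bits which give self-avoiding walks -/
lemma bld_nodup (C : Cub A th nb) {v : V} {κ : Cl V} (hκ : Vd A th v κ) {bs : List Bool}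
    (h : bs.length = kk κ) : (bld th κ bs).Nodup ↔
      ∀ e ∈ sel (thl th κ.2.2.1 κ.2.1 κ.2.2.2) bs, e ∉ ext κ := by
  obtain ⟨h1, h2, h3, h4, h5, h6⟩ := hκ
  have n0 := ex_nodup C κ.2.2.2 κ.2.2.1 κ.2.1 bs h.symm h1 h3 h4
  have hm := mem_ex (th := th) κ.2.2.2 κ.2.2.1 κ.2.1 bs h.symm
  unfold bld at h6 ⊢
  unfold ext
  rw [List.nodup_append, List.nodup_append] at h6 ⊢
  unfold kk at h6
  constructor
  · rintro ⟨⟨a1, a2, a3⟩, a4, a5⟩ e he hE
    rw [List.mem_append] at hE
    have he' := (hm e).2 (Or.inr he)
    rcases hE with hE | hE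
    · exact a3 e hE e he' rfl
    · exact a5 e (List.mem_append.2 (Or.inr he')) e hE rfl
  · intro hs
    obtain ⟨⟨a1, a2, a3⟩, a4, a5⟩ := h6
    refine ⟨⟨a1, n0, ?_⟩, a4, ?_⟩
    · rintro e he e' he' rfl
      rcases (hm e).1 he' with h7 | h7
      · exact a3 e he e h7 rfl
      · exact hs e h7 (List.mem_append.2 (Or.inl he))
    · rintro e he e' he' rfl
      rcases List.mem_append.1 he with h7 | h7
      · exact a5 e (List.mem_append.2 (Or.inl h7)) e he' rfl
      · rcases (hm e).1 h7 with h8 | h8
        · exact a5 e (List.mem_append.2 (Or.inr h8)) e he' rfl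
        · exact hs e h8 (List.mem_append.2 (Or.inr he'))

/-- the bits of a class at a given length -/
def bits (th : V → V → V → V) (κ : Cl V) (N : ℕ) : Set (List Bool) :=
  {bs | bs.length = kk κ ∧ (bld th κ bs).Nodup ∧ (bld th κ bs).length = N}

lemma bits_eq (C : Cub A th nb) {v : V} {κ : Cl V} (hκ : Vd A th v κ) {N : ℕ}
    (hN : 2 * kk κ + ac κ ≤ N) : bits th κ N =
      BF (fun e => e ∉ ext κ) (thl th κ.2.2.1 κ.2.1 κ.2.2.2) (N - 2 * kk κ - ac κ) := by
  ext bs
  unfold bits BF
  simp only [Set.mem_ofPred_eq, thl_length]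
  constructor
  · rintro ⟨h1, h2, h3⟩
    rw [bld_length h1] at h3
    exact ⟨h1, (bld_nodup C hκ h1).1 h2, by omega⟩
  · rintro ⟨h1, h2, h3⟩
    refine ⟨h1, (bld_nodup C hκ h1).2 h2, ?_⟩
    rw [bld_length h1]
    omega

lemma bits_card (C : Cub A th nb) {v : V} {κ : Cl V} (hκ : Vd A th v κ) {N : ℕ}
    (hN : 2 * kk κ + ac κ ≤ N) : (bits th κ N).ncard = (mm th κ).choose (N - 2 * kk κ - ac κ) := by
  rw [bits_eq C hκ hN, BF_card]
  rfl

lemma bits_empty {κ : Cl V} {N : ℕ} (hN : N < 2 * kk κ + ac κ) : bits th κ N = ∅ := by
  ext bs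
  simp only [bits, Set.mem_ofPred_eq, Set.mem_empty_iff_false, iff_false]
  rintro ⟨h1, -, h3⟩
  rw [bld_length h1] at h3
  omega

lemma mm_le (κ : Cl V) : mm th κ ≤ kk κ := by
  unfold mm kk
  refine (cnt_le _ _).trans ?_
  rw [thl_length]

lemma kk_le {v : V} {κ : Cl V} (hκ : Vd A th v κ) : kk κ ≤ mm th κ + 2 := by
  obtain ⟨h1, h2, h3, h4, h5, h6⟩ := hκ
  have hn : (thl th κ.2.2.1 κ.2.1 κ.2.2.2).Nodup := thl_nodup _ _ _ h4
  have h7 := len_le_cnt (fun e => e ∉ ext κ) (thl th κ.2.2.1 κ.2.1 κ.2.2.2) hn (ext κ)
    (fun a _ ha => not_not.1 ha)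
  rw [thl_length, ext_length] at h7
  have h8 := ac_le κ
  unfold mm kk
  omega

end Pool.Agent.D0H94.T13
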