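import Pool.Agent.D0H94.T13.Cls

/-!
# Every walk belongs to exactly one cube
-/

set_option autoImplicit false
set_option linter.unusedVariables false

namespace Pool.Agent.D0H94.T13

open Finset
open Pool.Agent.D0H94.T12

variable {V : Type*} {A : V → V → Prop} {th : V → V → V → V} {nb : V → Fin 3 → V}

/-- the last vertex of an expansion -/
lemma ex_last : ∀ (zs : List V) (x y : V) (bs : List Bool), zs ≠ [] → zs.length = bs.length →
    ∃ r, ex th x y zs bs = r ++ [((lastp y zs).2, (lastp y zs).1)]
  | [], _, _, _, h, _ => absurd rfl h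
  | _ :: _, _, _, [], _, h => by simp at h
  | [z], x, y, b :: bs, _, h => by
    have : bs = [] := List.length_eq_zero_iff.1 (by simpa using h.symm)
    subst this
    cases b
    · rw [ex_false]; exact ⟨[(y, x)], by simp [lastp]⟩
    · rw [ex_true]; exact ⟨[(y, x), (y, th y x z)], by simp [lastp]⟩
  | z :: z' :: zs, x, y, b :: bs, _, h => by
    obtain ⟨r, hr⟩ := ex_last (z' :: zs) y z bs (by simp) (by simpa using h)
    cases b
    · rw [ex_false, hr]; exact ⟨(y, x) :: (y, z) :: r, by simp [lastp]⟩
    · rw [ex_true, hr]; exact ⟨(y, x) :: (y, th y x z) :: (y, z) :: r, by simp [lastp]⟩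

lemma lastp_adj : ∀ (zs : List V) (x y : V), zs ≠ [] → Val A x y zs →
    A (lastp y zs).2 (lastp y zs).1
  | [], _, _, h, _ => absurd rfl h
  | [z], x, y, _, h => h.1
  | z :: z' :: zs, x, y, _, h => lastp_adj (z' :: zs) y z (by simp) h.2.2

lemma bld_mem (C : Cub A th nb) {v : V} {κ : Cl V} (hκ : Vd A th v κ) {N : ℕ} {bs : List Bool}
    (hb : bs ∈ bits th κ N) : bld th κ bs ∈ FL A N v := by
  obtain ⟨⟨a, c⟩, y, x, zs⟩ := κ
  obtain ⟨h1, h2, h3, h4, h5, h6⟩ := hκ
  obtain ⟨b1, b2, b3⟩ := hb
  simp only [kk] at h1 h2 h3 h4 h5 h6 b1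
  have hch := ex_chain C zs x y bs b1.symm h1 h3
  obtain ⟨t, ht⟩ := ex_head (th := th) (x := x) (y := y) h2 b1.symm
  obtain ⟨r, hr⟩ := ex_last (th := th) zs x y bs h2 b1.symm
  have hadj := lastp_adj zs x y h2 h3
  refine ⟨b3, ?_, b2, ?_⟩
  · unfold bld
    simp only
    have hpost : (ex th x y zs bs ++ (if c then [lastp y zs] else [])).IsChain (AF A) := by
      cases c
      · simpa using hch
      · simp only [if_true]
        rw [hr] at hch ⊢
        rw [List.isChain_append] at hch ⊢
        refine ⟨?_, by simp, ?_⟩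
        · rw [List.isChain_append]
          exact hch
        · intro p hp q hq
          simp only [List.getLast?_append, List.getLast?_singleton, Option.some_or, Option.mem_def,
            Option.some.injEq, List.head?_cons] at hp hq
          subst hp
          subst hq
          exact ⟨hadj, C.symm hadj, Or.inr ⟨rfl, rfl⟩⟩
    cases a
    · simpa using hpost
    · simp only [if_true]
      rw [ht] at hpost ⊢
      simp only [List.cons_append, List.nil_append] at hpost ⊢
      rw [List.isChain_cons_cons]
      exact ⟨⟨C.symm h1, h1, Or.inr ⟨rfl, rfl⟩⟩, hpost⟩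
  · unfold bld
    cases a
    · simp only [Bool.false_eq_true, if_false] at h5
      simp only [Bool.false_eq_true, if_false, List.nil_append]
      refine ⟨x, t ++ (if c then [lastp y zs] else []), by rw [← h5]; exact h1, ?_⟩
      rw [ht, h5]
      simp
    · simp only [if_true] at h5
      simp only [if_true]
      exact ⟨y, ex th x y zs bs ++ (if c then [lastp y zs] else []), by rw [← h5]; exact C.symm h1,
        by rw [h5]; simp⟩

lemma bld_inj (C : Cub A th nb) {v : V} {κ κ' : Cl V} (hκ : Vd A th v κ) (hκ' : Vd A th v κ')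
    {bs bs' : List Bool} (hb : bs.length = kk κ) (hb' : bs'.length = kk κ')
    (he : bld th κ bs = bld th κ' bs') : κ = κ' ∧ bs = bs' := by
  obtain ⟨⟨a, c⟩, y, x, zs⟩ := κ
  obtain ⟨⟨a', c'⟩, y', x', zs'⟩ := κ'
  obtain ⟨h1, h2, h3, h4, h5, h6⟩ := hκ
  obtain ⟨h1', h2', h3', h4', h5', h6'⟩ := hκ'
  simp only [kk] at h1 h2 h3 h4 h5 h1' h2' h3' h4' h5' hb hb'
  unfold bld at he
  simp only at he
  -- first entries
  obtain ⟨p, q, r, hp, hpq⟩ := FT_ex C h2 hb.symm (th := th) (x := x) (y := y)
  obtain ⟨p', q', r', hp', hpq'⟩ := FT_ex C h2' hb'.symm (th := th) (x := x') (y := y')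
  obtain ⟨t, ht⟩ := ex_head (th := th) (x := x) (y := y) h2 hb.symm
  obtain ⟨t', ht'⟩ := ex_head (th := th) (x := x') (y := y') h2' hb'.symm
  obtain ⟨s, u, w, hs, hsu⟩ := LT_ex C zs x y bs h2 hb.symm (th := th)
  obtain ⟨s', u', w', hs', hsu'⟩ := LT_ex C zs' x' y' bs' h2' hb'.symm (th := th)
  obtain ⟨g, hg⟩ := ex_last (th := th) zs x y bs h2 hb.symm
  obtain ⟨g', hg'⟩ := ex_last (th := th) zs' x' y' bs' h2' hb'.symm
  have hadj := lastp_adj zs x y h2 h3
  have hadj' := lastp_adj zs' x' y' h2' h3'
  have haa : a = a' := by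
    cases a <;> cases a'
    · rfl
    · exfalso
      rw [hp, ht'] at he
      simp only [Bool.false_eq_true, if_false, if_true, List.nil_append, List.cons_append,
        List.cons.injEq] at he
      obtain ⟨e1, e2, -⟩ := he
      rw [e1, e2] at hpq
      simp only at hpq
      rw [hpq] at h1'
      exact C.irr _ h1'
    · exfalso
      rw [hp', ht] at he
      simp only [Bool.false_eq_true, if_false, if_true, List.nil_append, List.cons_append,
        List.cons.injEq] at he
      obtain ⟨e1, e2, -⟩ := he
      rw [← e1, ← e2] at hpq'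
      simp only at hpq'
      rw [hpq'] at h1
      exact C.irr _ h1
    · rfl
  subst haa
  have he1 : ex th x y zs bs ++ (if c then [lastp y zs] else []) =
      ex th x' y' zs' bs' ++ (if c' then [lastp y' zs'] else []) := by
    rw [List.append_assoc, List.append_assoc] at he
    exact (List.append_inj he (by cases a <;> rfl)).2
  have hcc : c = c' := by
    cases c <;> cases c'
    · rfl
    · exfalso
      simp only [Bool.false_eq_true, if_false, if_true, List.append_nil] at he1
      rw [hs, hg'] at he1
      have e3 : s ++ [u, w] = g' ++ [((lastp y' zs').2, (lastp y' zs').1), lastp y' zs'] := by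
        rw [he1]; simp
      have e4 := List.append_inj_right' e3 rfl
      simp only [List.cons.injEq, and_true] at e4
      rw [e4.1, e4.2] at hsu
      simp only at hsu
      rw [hsu] at hadj'
      exact C.irr _ hadj'
    · exfalso
      simp only [Bool.false_eq_true, if_false, if_true, List.append_nil] at he1
      rw [hs', hg] at he1
      have e3 : s' ++ [u', w'] = g ++ [((lastp y zs).2, (lastp y zs).1), lastp y zs] := by
        rw [← he1]; simp
      have e4 := List.append_inj_right' e3 rfl
      simp only [List.cons.injEq, and_true] at e4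
      rw [e4.1, e4.2] at hsu'
      simp only at hsu'
      rw [hsu'] at hadj
      exact C.irr _ hadj
    · rfl
  subst hcc
  have he2 : ex th x y zs bs = ex th x' y' zs' bs' := by
    cases c
    · simpa using he1
    · simp only [if_true] at he1
      exact List.append_inj_left' he1 rfl
  obtain ⟨a1, a2, a3, a4⟩ := ex_inj C zs x y bs zs' x' y' bs' hb.symm hb'.symm h2 h2' h3 h3' he2
  rw [a1, a2, a3, a4]
  exact ⟨rfl, rfl⟩

lemma zer_nodup (C : Cub A th nb) {κ : Cl V} (h1 : A κ.2.1 κ.2.2.1)
    (h3 : Val A κ.2.2.1 κ.2.1 κ.2.2.2) (h4 : (κ.2.1 :: κ.2.2.2.dropLast).Nodup) {bs : List Bool}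
    (hb : bs.length = kk κ) (h : (bld th κ bs).Nodup) : (bld th κ (zer (kk κ))).Nodup := by
  have n0 := ex_nodup C κ.2.2.2 κ.2.2.1 κ.2.1 (zer (kk κ)) (by simp [zer, kk]) h1 h3 h4
  have hm := mem_ex (th := th) κ.2.2.2 κ.2.2.1 κ.2.1 bs hb.symm
  unfold bld at h ⊢
  unfold kk at *
  rw [List.nodup_append, List.nodup_append] at h ⊢
  obtain ⟨⟨a1, a2, a3⟩, a4, a5⟩ := h
  refine ⟨⟨a1, n0, ?_⟩, a4, ?_⟩
  · intro e he e' he'
    exact a3 e he e' ((hm e').2 (Or.inl he'))
  · intro e he e' he'
    refine a5 e ?_ e' he'
    rcases List.mem_append.1 he with h7 | h7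
    · exact List.mem_append.2 (Or.inl h7)
    · exact List.mem_append.2 (Or.inr ((hm e).2 (Or.inl h7)))

/-- a walk which starts with a triangle step, as an expansion with a possible long edge at the
end -/
lemma dec1 (C : Cub A th nb) {l : List (V × V)} (hc : l.IsChain (AF A)) (hn : l.Nodup)
    (h3 : 3 ≤ l.length) (hF : FT l) : ∃ (c : Bool) (x y : V) (zs : List V) (bs : List Bool),
      l = ex th x y zs bs ++ (if c then [lastp y zs] else []) ∧ A y x ∧ zs.length = bs.length ∧
      zs ≠ [] ∧ Val A x y zs ∧ (y :: zs.dropLast).Nodup := by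
  have hrc : l.reverse.IsChain (AF A) := by
    rw [List.isChain_reverse]
    exact hc.imp fun a b h => AF_symm C h
  rcases strip C hrc (List.nodup_reverse.2 hn) (by rw [List.length_reverse]; omega) with
    h | ⟨l1, e, g1, g2, g3⟩
  · obtain ⟨x, y, zs, bs, k1, k2, k3, k4, k5, k6⟩ := ex_surj C _ l le_rfl hc hn hF ((LT_iff l).2 h)
    exact ⟨false, x, y, zs, bs, by simpa using k1, k2, k3, k4, k5, k6⟩
  · have e2 : l = (f1 l1).reverse := by rw [← e, List.reverse_reverse]
    obtain ⟨p, q, r, hl1, -⟩ := id g3
    have e3 : l = l1.reverse ++ [(p.2, p.1)] := by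
      rw [e2, hl1]
      simp [f1]
    have hlen : 2 ≤ l1.reverse.length := by
      have := congrArg List.length e3
      rw [List.length_append] at this
      simp only [List.length_singleton] at this
      omega
    have hF1 : FT l1.reverse := by
      obtain ⟨a', b', r', k1, k2⟩ := hF
      match h : l1.reverse with
      | [] => rw [h] at hlen; simp at hlen
      | [_] => rw [h] at hlen; simp at hlen
      | p' :: q' :: t' =>
        rw [h, k1] at e3
        simp only [List.cons_append, List.cons.injEq] at e3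
        exact ⟨p', q', t', rfl, by rw [← e3.1, ← e3.2.1]; exact k2⟩
    have hc1 : l1.reverse.IsChain (AF A) := by
      rw [List.isChain_reverse]
      exact g1.imp fun a b h => AF_symm C h
    obtain ⟨x, y, zs, bs, k1, k2, k3, k4, k5, k6⟩ := ex_surj C _ l1.reverse le_rfl hc1
      (List.nodup_reverse.2 g2) hF1 (by rw [LT_iff, List.reverse_reverse]; exact g3)
    obtain ⟨g, hg⟩ := ex_last (th := th) zs x y bs k4 k3
    refine ⟨true, x, y, zs, bs, ?_, k2, k3, k4, k5, k6⟩
    rw [e3, ← k1]
    simp only [if_true]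
    congr 1
    have e5 : (q :: r).reverse ++ [p] = g ++ [((lastp y zs).2, (lastp y zs).1)] := by
      rw [← hg, ← k1, hl1]
      simp
    have e6 := List.append_inj_right' e5 rfl
    simp only [List.cons.injEq, and_true] at e6
    rw [e6]

lemma bld_surj (C : Cub A th nb) {v : V} {N : ℕ} (hN : 4 ≤ N) {l : List (V × V)}
    (hl : l ∈ FL A N v) : ∃ κ bs, Vd A th v κ ∧ bs ∈ bits th κ N ∧ bld th κ bs = l := by
  obtain ⟨h1, h2, h3, u, r, hu, h4⟩ := hl
  rcases strip C h2 h3 (by omega) with hF | ⟨l1, e, g1, g2, g3⟩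
  · obtain ⟨c, x, y, zs, bs, k1, k2, k3, k4, k5, k6⟩ := dec1 (th := th) C h2 h3 (by omega) hF
    have hb : bld th ((false, c), y, x, zs) bs = l := by
      unfold bld
      simpa using k1.symm
    have hy : y = v := by
      obtain ⟨t, ht⟩ := ex_head (th := th) (x := x) (y := y) k4 k3
      rw [ht, h4] at k1
      simp only [List.cons_append, List.cons.injEq, Prod.mk.injEq] at k1
      exact k1.1.1.symm
    have hz := zer_nodup C (κ := ((false, c), y, x, zs)) (th := th) k2 k5 k6 (bs := bs) k3.symm
      (by rw [hb]; exact h3)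
    exact ⟨((false, c), y, x, zs), bs, ⟨k2, k4, k5, k6, by simpa using hy, hz⟩,
      ⟨k3.symm, by rw [hb]; exact h3, by rw [hb]; exact h1⟩, hb⟩
  · have hlen : l1.length + 1 = N := by
      cases l1 with
      | nil => rw [e] at h1; simp [f1] at h1; omega
      | cons a l1 => rw [e] at h1; simpa only [f1, List.length_cons] using h1
    obtain ⟨c, x, y, zs, bs, k1, k2, k3, k4, k5, k6⟩ := dec1 (th := th) C g1 g2 (by omega) g3
    obtain ⟨t, ht⟩ := ex_head (th := th) (x := x) (y := y) k4 k3
    have hl : l = (x, y) :: l1 := by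
      rw [e, k1, ht]
      simp [f1]
    have hb : bld th ((true, c), y, x, zs) bs = l := by
      unfold bld
      rw [hl, k1]
      simp
    have hx : x = v := by
      rw [h4] at hl
      simp only [List.cons.injEq, Prod.mk.injEq] at hl
      exact hl.1.1.symm
    have hz := zer_nodup C (κ := ((true, c), y, x, zs)) (th := th) k2 k5 k6 (bs := bs) k3.symm
      (by rw [hb]; exact h3)
    exact ⟨((true, c), y, x, zs), bs, ⟨k2, k4, k5, k6, by simpa using hx, hz⟩,
      ⟨k3.symm, by rw [hb]; exact h3, by rw [hb]; exact h1⟩, hb⟩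

/-- the set of the triangles visited by a walk -/
def tr (l : List (V × V)) : Set V := {x | ∃ e ∈ l, e.1 = x}

lemma ex_tr : ∀ (zs : List V) (x y : V) (bs : List Bool), zs.length = bs.length → zs ≠ [] →
    tr (ex th x y zs bs) = {v | v ∈ y :: zs.dropLast}
  | [], _, _, _, _, h => absurd rfl h
  | _ :: _, _, _, [], h, _ => by simp at h
  | z :: zs, x, y, b :: bs, h, _ => by
    have hl : zs.length = bs.length := by simpa using h
    have key : tr (ex th x y (z :: zs) (b :: bs)) = {v | v = y ∨ v ∈ tr (ex th y z zs bs)} := by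
      ext v
      unfold tr
      simp only [Set.mem_ofPred_eq]
      constructor
      · rintro ⟨e, he, rfl⟩
        cases b
        · rw [ex_false] at he
          simp only [List.mem_cons] at he
          rcases he with he | he | he
          · left; rw [he]
          · left; rw [he]
          · exact Or.inr ⟨e, he, rfl⟩
        · rw [ex_true] at he
          simp only [List.mem_cons] at he
          rcases he with he | he | he | he
          · left; rw [he]
          · left; rw [he]
          · left; rw [he]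
          · exact Or.inr ⟨e, he, rfl⟩
      · rintro (rfl | ⟨e, he, rfl⟩)
        · refine ⟨(v, x), ?_, rfl⟩
          cases b
          · rw [ex_false]; simp
          · rw [ex_true]; simp
        · refine ⟨e, ?_, rfl⟩
          cases b
          · rw [ex_false]; simp [he]
          · rw [ex_true]; simp [he]
    rw [key]
    cases zs with
    | nil =>
      ext v
      simp [tr]
    | cons z' zs' =>
      rw [ex_tr (z' :: zs') y z bs hl (by simp)]
      ext v
      rw [List.dropLast_cons_cons]
      simp

/-- the triangles visited do not depend on the bits -/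
lemma bld_tr {κ : Cl V} (h2 : κ.2.2.2 ≠ []) {bs bs' : List Bool} (hb : bs.length = kk κ)
    (hb' : bs'.length = kk κ) : tr (bld th κ bs) = tr (bld th κ bs') := by
  have h := ex_tr (th := th) κ.2.2.2 κ.2.2.1 κ.2.1 bs hb.symm h2
  have h' := ex_tr (th := th) κ.2.2.2 κ.2.2.1 κ.2.1 bs' hb'.symm h2
  have happ : ∀ l l' : List (V × V), tr (l ++ l') = tr l ∪ tr l' := by
    intro l l'
    ext v
    unfold tr
    simp only [Set.mem_ofPred_eq, Set.mem_union, List.mem_append]
    constructor
    · rintro ⟨e, he | he, rfl⟩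
      · exact Or.inl ⟨e, he, rfl⟩
      · exact Or.inr ⟨e, he, rfl⟩
    · rintro (⟨e, he, rfl⟩ | ⟨e, he, rfl⟩)
      · exact ⟨e, Or.inl he, rfl⟩
      · exact ⟨e, Or.inr he, rfl⟩
  unfold bld
  rw [happ, happ, happ, happ, h, h']

end Pool.Agent.D0H94.T13
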