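import Pool.Agent.D0H94.T13.Cls2
import Pool.Agent.D0H94.T13.Stm

/-!
# The sums over the walks as mixtures of binomial coefficients
-/

set_option autoImplicit false
set_option linter.unusedVariables false

namespace Pool.Agent.D0H94.T13

open Finset
open Pool.Agent.D0H94.T12

variable {V : Type*} {A : V → V → Prop} {th : V → V → V → V} {nb : V → Fin 3 → V}

/-- the shift of a class -/
noncomputable def sh (th : V → V → V → V) (κ : Cl V) : ℕ := 2 * (kk κ - mm th κ) + ac κ

lemma two_mm {v : V} {κ : Cl V} (hκ : Vd A th v κ) : 2 * mm th κ + sh th κ = 2 * kk κ + ac κ := by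
  have := mm_le (th := th) κ
  unfold sh
  omega

lemma sh_le {v : V} {κ : Cl V} (hκ : Vd A th v κ) : sh th κ ≤ 6 := by
  have := kk_le hκ
  have := ac_le κ
  unfold sh
  omega

/-- the classes with `m` free triangles and shift `s` -/
def Kms (A : V → V → Prop) (th : V → V → V → V) (v : V) (m s : ℕ) : Set (Cl V) :=
  {κ | Vd A th v κ ∧ mm th κ = m ∧ sh th κ = s}

/-- the classes of walks with at least `N` vertices -/
def KN (A : V → V → Prop) (th : V → V → V → V) (v : V) (N : ℕ) : Set (Cl V) :=
  {κ | Vd A th v κ ∧ 2 * kk κ + ac κ ≤ N}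

lemma KN_finite (C : Cub A th nb) (v : V) (N : ℕ) : (KN A th v N).Finite := by
  have hf : (⋃ m ∈ range (N + 1), ⋃ o ∈ (univ : Finset (Option (Fin 3))),
      (fun p : (Bool × Bool) × (V × List V) => (p.1, ((o.elim v (nb v) : V), p.2.1, p.2.2))) ''
        ((Set.univ : Set (Bool × Bool)) ×ˢ XS A (m + 1) (o.elim v (nb v)))).Finite := by
    refine Set.Finite.biUnion (range (N + 1)).finite_toSet fun m _ => ?_
    refine Set.Finite.biUnion (univ : Finset (Option (Fin 3))).finite_toSet fun o _ => ?_
    exact (Set.finite_univ.prod (XS_finite C m _)).image _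
  refine hf.subset ?_
  rintro ⟨ac', y, x, zs⟩ ⟨⟨h1, h2, h3, h4, h5, h6⟩, h7⟩
  simp only [kk] at h1 h2 h3 h4 h5 h7
  have hpos : 0 < zs.length := List.length_pos_iff.2 h2
  simp only [Set.mem_iUnion, Set.mem_image, mem_range, exists_prop, mem_univ, true_and]
  refine ⟨zs.length - 1, by omega, ?_⟩
  have hX : (x, zs) ∈ XS A (zs.length - 1 + 1) y :=
    ⟨h1, by simp only; omega, h3, h4⟩
  obtain ⟨a, c⟩ := ac'
  cases a
  · simp only [Bool.false_eq_true, if_false] at h5
    refine ⟨none, ((false, c), (x, zs)), ⟨trivial, ?_⟩, ?_⟩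
    · simp only [Option.elim_none]
      rw [← h5]; exact hX
    · simp only [Option.elim_none]
      rw [h5]
  · simp only [if_true] at h5
    obtain ⟨i, hi⟩ := C.nb (C.symm h1)
    rw [h5] at hi
    refine ⟨some i, ((true, c), (x, zs)), ⟨trivial, ?_⟩, ?_⟩
    · simp only [Option.elim_some]
      rw [← hi]; exact hX
    · simp only [Option.elim_some]
      rw [← hi]

lemma Kms_sub (v : V) (m s : ℕ) : Kms A th v m s ⊆ KN A th v (2 * m + s) := by
  rintro κ ⟨h1, h2, h3⟩
  refine ⟨h1, ?_⟩
  rw [← two_mm h1, h2, h3]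

lemma Kms_finite (C : Cub A th nb) (v : V) (m s : ℕ) : (Kms A th v m s).Finite :=
  (KN_finite C v _).subset (Kms_sub v m s)

lemma bits_finite (κ : Cl V) (N : ℕ) : (bits th κ N).Finite :=
  (List.finite_length_eq Bool (kk κ)).subset fun _ h => h.1

/-- the observable does not change when free triangles are toggled -/
def Inv (th : V → V → V → V) (φ : List (V × V) → ℝ) : Prop :=
  ∀ (κ : Cl V) (bs : List Bool), κ.2.2.2 ≠ [] → bs.length = kk κ →
    φ (bld th κ bs) = φ (bld th κ (zer (kk κ)))

/-- the weights -/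
noncomputable def FF (A : V → V → Prop) (th : V → V → V → V) (v : V) (φ : List (V × V) → ℝ)
    (m s : ℕ) : ℝ := ∑ᶠ κ ∈ Kms A th v m s, φ (bld th κ (zer (kk κ)))

/-- the sum of an observable over the walks -/
noncomputable def tot (A : V → V → Prop) (v : V) (φ : List (V × V) → ℝ) (N : ℕ) : ℝ :=
  ∑ᶠ l ∈ FL A N v, φ l

theorem tot_eq (C : Cub A th nb) (v : V) {φ : List (V × V) → ℝ} (hI : Inv th φ) {N : ℕ}
    (hN : 4 ≤ N) : tot A v φ N = mix 6 (FF A th v φ) N := by
  classical
  have hFL : (FL A N v).Finite := by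
    obtain ⟨n, rfl⟩ : ∃ n, N = n + 1 := ⟨N - 1, by omega⟩
    exact FL_finite C n v
  set K : Finset (Cl V) := (KN_finite (th := th) C v N).toFinset with hK
  have hKm : ∀ κ, κ ∈ K ↔ κ ∈ KN A th v N := fun κ => by rw [hK, Set.Finite.mem_toFinset]
  -- the sum over the classes
  have h1 : tot A v φ N = ∑ κ ∈ K, φ (bld th κ (zer (kk κ))) *
      ((mm th κ).choose (N - 2 * kk κ - ac κ) : ℝ) := by
    unfold tot
    rw [finsum_mem_eq_finite_toFinset_sum _ hFL]
    have h2 : ∑ l ∈ hFL.toFinset, φ l =
        ∑ p ∈ K.sigma (fun κ => (bits_finite (th := th) κ N).toFinset),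
          φ (bld th p.1 p.2) := by
      symm
      refine Finset.sum_bij (fun p _ => bld th p.1 p.2) ?_ ?_ ?_ ?_
      · rintro ⟨κ, bs⟩ hp
        rw [Finset.mem_sigma, hKm, Set.Finite.mem_toFinset] at hp
        rw [Set.Finite.mem_toFinset]
        exact bld_mem C hp.1.1 hp.2
      · rintro ⟨κ, bs⟩ hp ⟨κ', bs'⟩ hp' he
        rw [Finset.mem_sigma, hKm, Set.Finite.mem_toFinset] at hp hp'
        obtain ⟨e1, e2⟩ := bld_inj C hp.1.1 hp'.1.1 hp.2.1 hp'.2.1 he
        simp only at e1 e2
        subst e1
        subst e2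
        rfl
      · intro l hl
        rw [Set.Finite.mem_toFinset] at hl
        obtain ⟨κ, bs, k1, k2, k3⟩ := bld_surj (th := th) C hN hl
        refine ⟨⟨κ, bs⟩, ?_, k3⟩
        rw [Finset.mem_sigma, hKm, Set.Finite.mem_toFinset]
        refine ⟨⟨k1, ?_⟩, k2⟩
        by_contra hlt
        simp only at hlt
        rw [bits_empty (by omega)] at k2
        exact k2
      · intro p _
        rfl
    rw [h2, Finset.sum_sigma]
    refine Finset.sum_congr rfl fun κ hκ => ?_
    rw [hKm] at hκ
    have h3 : ∀ bs ∈ (bits_finite (th := th) κ N).toFinset, φ (bld th κ bs) =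
        φ (bld th κ (zer (kk κ))) := by
      intro bs hbs
      rw [Set.Finite.mem_toFinset] at hbs
      exact hI κ bs hκ.1.2.1 hbs.1
    rw [Finset.sum_congr rfl h3, Finset.sum_const, nsmul_eq_mul, mul_comm]
    congr 2
    rw [← bits_card C hκ.1 hκ.2, Set.ncard_eq_toFinset_card _ (bits_finite κ N)]
  rw [h1, mix]
  rw [← Finset.sum_product', ← Finset.sum_fiberwise_of_maps_to (s := K)
    (t := range (N + 1) ×ˢ range (6 + 1)) (g := fun κ => (mm th κ, sh th κ))]
  · refine Finset.sum_congr rfl ?_
    rintro ⟨m, s⟩ -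
    simp only
    split_ifs with h
    · unfold FF
      rw [finsum_mem_eq_finite_toFinset_sum _ (Kms_finite C v m s), Finset.sum_mul]
      refine Finset.sum_congr ?_ ?_
      · ext κ
        rw [Finset.mem_filter, hKm, Set.Finite.mem_toFinset]
        constructor
        · rintro ⟨k1, k2⟩
          simp only [Prod.mk.injEq] at k2
          exact ⟨k1.1, k2.1, k2.2⟩
        · rintro ⟨k1, k2, k3⟩
          refine ⟨⟨k1, ?_⟩, by rw [k2, k3]⟩
          rw [← two_mm k1, k2, k3]
          exact h
      · intro κ hκ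
        rw [Set.Finite.mem_toFinset] at hκ
        obtain ⟨k1, k2, k3⟩ := hκ
        have k4 := two_mm k1
        rw [k2, k3] at k4
        rw [k2]
        congr 3
        omega
    · refine Finset.sum_eq_zero ?_
      intro κ hκ
      exfalso
      rw [Finset.mem_filter, hKm] at hκ
      obtain ⟨k1, k2⟩ := hκ
      simp only [Prod.mk.injEq] at k2
      have k4 := two_mm k1.1
      rw [k2.1, k2.2] at k4
      have := k1.2
      omega
  · intro κ hκ
    rw [hKm] at hκ
    rw [Finset.mem_product, mem_range, mem_range]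
    have k4 := two_mm hκ.1
    have := hκ.2
    have := sh_le hκ.1
    constructor <;> omega

lemma FF_abs (C : Cub A th nb) (v : V) {φ : List (V × V) → ℝ} (hφ : ∀ T, |φ T| ≤ 1) (m s : ℕ) :
    |FF A th v φ m s| ≤ FF A th v (fun _ => 1) m s := by
  unfold FF
  rw [finsum_mem_eq_finite_toFinset_sum _ (Kms_finite C v m s),
    finsum_mem_eq_finite_toFinset_sum _ (Kms_finite C v m s)]
  refine (Finset.abs_sum_le_sum_abs _ _).trans (Finset.sum_le_sum fun κ _ => hφ _)

lemma FF_nonneg (C : Cub A th nb) (v : V) (m s : ℕ) : 0 ≤ FF A th v (fun _ => 1) m s :=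
  (abs_nonneg _).trans (FF_abs C v (φ := fun _ => 1) (by simp) m s)

lemma tot_one (C : Cub A th nb) (v : V) {N : ℕ} (hN : 1 ≤ N) :
    tot A v (fun _ => 1) N = (FL A N v).ncard := by
  have hFL : (FL A N v).Finite := by
    obtain ⟨n, rfl⟩ : ∃ n, N = n + 1 := ⟨N - 1, by omega⟩
    exact FL_finite C n v
  unfold tot
  rw [finsum_mem_eq_finite_toFinset_sum _ hFL, Finset.sum_const, nsmul_eq_mul, mul_one,
    Set.ncard_eq_toFinset_card _ hFL]

/-! ### the path of the triangles -/

section path

variable [DecidableEq V]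

/-- the triangles visited, in their order -/
def pth (l : List (V × V)) : List V := (l.map Prod.fst).destutter (· ≠ ·)

lemma dst_ex : ∀ (zs : List V) (x y a : V) (bs : List Bool) (tl : List V), zs.length = bs.length →
    ((ex th x y zs bs).map Prod.fst ++ tl).destutter' (· ≠ ·) a =
      ((ex th x y zs (zer zs.length)).map Prod.fst ++ tl).destutter' (· ≠ ·) a
  | [], _, _, _, _, _, _ => by simp
  | _ :: _, _, _, _, [], _, h => by simp at h
  | z :: zs, x, y, a, b :: bs, tl, h => by
    have hz : zer (z :: zs).length = false :: zer zs.length := by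
      simp [zer, List.replicate_succ]
    have ih := dst_ex zs y z y bs tl (by simpa using h)
    rw [hz, ex_false]
    have key : ∀ (l : List V), (y :: l).destutter' (· ≠ ·) y = l.destutter' (· ≠ ·) y := by
      intro l
      rw [List.destutter'_cons_neg]
      simp
    have key2 : ∀ (l l' : List V), l.destutter' (· ≠ ·) y = l'.destutter' (· ≠ ·) y →
        (y :: l).destutter' (· ≠ ·) a = (y :: l').destutter' (· ≠ ·) a := by
      intro l l' h
      by_cases hay : a = y
      · subst hay
        rw [List.destutter'_cons_neg _ (by simp), List.destutter'_cons_neg _ (by simp)]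
        exact h
      · rw [List.destutter'_cons_pos _ hay, List.destutter'_cons_pos _ hay, h]
    cases b
    · rw [ex_false]
      simp only [List.map_cons, List.cons_append]
      apply key2
      rw [key, key]
      exact ih
    · rw [ex_true]
      simp only [List.map_cons, List.cons_append]
      apply key2
      rw [key, key, key]
      exact ih

lemma pth_bld {κ : Cl V} {bs : List Bool} (h0 : κ.2.2.2 ≠ []) (hb : bs.length = kk κ) :
    pth (bld th κ bs) = pth (bld th κ (zer (kk κ))) := by
  obtain ⟨⟨a, c⟩, y, x, zs⟩ := κ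
  simp only [kk] at h0 hb ⊢
  unfold pth bld
  simp only
  cases a
  · obtain ⟨b, bs', rfl⟩ : ∃ b bs', bs = b :: bs' := by
      cases bs with
      | nil => exact absurd (List.length_eq_zero_iff.1 (by simpa using hb.symm)) h0
      | cons b bs' => exact ⟨b, bs', rfl⟩
    obtain ⟨z, zs', rfl⟩ : ∃ z zs', zs = z :: zs' := by
      cases zs with
      | nil => exact absurd rfl h0
      | cons z zs' => exact ⟨z, zs', rfl⟩
    have hl : zs'.length = bs'.length := by simpa using hb.symm
    have hz : zer (z :: zs').length = false :: zer zs'.length := by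
      simp [zer, List.replicate_succ]
    have key : ∀ (l : List V), (y :: l).destutter' (· ≠ ·) y = l.destutter' (· ≠ ·) y := by
      intro l
      rw [List.destutter'_cons_neg]
      simp
    have ih := dst_ex (th := th) zs' y z y bs' ((if c then [lastp y (z :: zs')] else []).map
      Prod.fst) hl
    simp only [Bool.false_eq_true, if_false, List.nil_append, List.map_append]
    rw [hz, ex_false]
    cases b
    · rw [ex_false]
      simp only [List.map_cons, List.cons_append, List.destutter_cons']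
      rw [key, key]
      exact ih
    · rw [ex_true]
      simp only [List.map_cons, List.cons_append, List.destutter_cons']
      rw [key, key, key]
      exact ih
  · simp only [if_true, List.cons_append, List.nil_append, List.map_cons, List.map_append,
      List.destutter_cons']
    exact dst_ex (th := th) zs x y x bs ((if c then [lastp y zs] else []).map Prod.fst) hb.symm

omit [DecidableEq V] in
lemma head_bld {κ : Cl V} {bs : List Bool} (h0 : κ.2.2.2 ≠ []) (hb : bs.length = kk κ) :
    (bld th κ bs).head? = (bld th κ (zer (kk κ))).head? := by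
  obtain ⟨⟨a, c⟩, y, x, zs⟩ := κ
  simp only [kk] at h0 hb ⊢
  obtain ⟨t, ht⟩ := ex_head (th := th) (x := x) (y := y) h0 hb.symm
  obtain ⟨t', ht'⟩ := ex_head (th := th) (x := x) (y := y) (bs := zer zs.length) h0 (by simp [zer])
  unfold bld
  simp only
  rw [ht, ht']
  cases a <;> simp

open scoped Classical in
/-- functions of the path for a given starting vertex -/
noncomputable def obs (e : V × V) (ψ : List V → ℝ) (l : List (V × V)) : ℝ :=
  if l.head? = some e then ψ (pth l) else 0

lemma obs_inv (e : V × V) (ψ : List V → ℝ) : Inv th (obs e ψ) := by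
  intro κ bs h0 hb
  unfold obs
  rw [pth_bld h0 hb, head_bld h0 hb]

lemma obs_abs (e : V × V) {ψ : List V → ℝ} (h : ∀ p, |ψ p| ≤ 1) (l : List (V × V)) :
    |obs e ψ l| ≤ 1 := by
  unfold obs
  split_ifs
  · exact h _
  · simp

end path

/-- **the regularity of all orders** for the walks on the Fisher graph -/
theorem regular (h : S_BIN → S_MIX) (hb : S_BIN) (C : Cub A th nb) (v : V) {μ : ℝ} (hμ : 1 < μ)
    (hlow : ∃ c : ℝ, 0 < c ∧ ∀ N, 4 ≤ N → c * μ ^ N ≤ (FL A N v).ncard)
    (hup : ∃ K : ℝ, ∀ N, 4 ≤ N → ((FL A N v).ncard : ℝ) ≤ μ ^ N * Real.exp (K * Real.log N ^ 2)) :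
    ∀ r : ℕ, ∃ K : ℝ, 0 ≤ K ∧ ∀ φ : List (V × V) → ℝ, (∀ T, |φ T| ≤ 1) → Inv th φ → ∀ N, 4 ≤ N →
      |diff r (fun n => tot A v φ n / μ ^ n) N| ≤ K * ρ N ^ r * ((FL A N v).ncard / μ ^ N) := by
  intro r
  have hD : ∀ N, 4 ≤ N → mix 6 (FF A th v (fun _ => 1)) N = (FL A N v).ncard := fun N hN => by
    rw [← tot_eq (th := th) C v (fun _ _ _ _ => rfl) hN, tot_one C v (by omega)]
  obtain ⟨c, hc, hlow⟩ := hlow
  obtain ⟨K0, hup⟩ := hup
  obtain ⟨K, hK, h1⟩ := h hb μ 6 4 (FF A th v (fun _ => 1)) hμ (by norm_num) (FF_nonneg C v)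
    ⟨c, hc, fun N hN => by rw [hD N hN]; exact hlow N hN⟩
    ⟨K0, fun N hN => by rw [hD N hN]; exact hup N hN⟩ r
  refine ⟨K, hK, fun φ hφ hI N hN => ?_⟩
  have h2 := h1 (FF A th v φ) (FF_abs C v hφ) N hN
  rw [hD N hN] at h2
  refine le_trans (le_of_eq ?_) h2
  congr 1
  unfold diff
  refine Finset.sum_congr rfl fun i _ => ?_
  simp only
  rw [tot_eq C v hI (show 4 ≤ N + i by omega)]

end Pool.Agent.D0H94.T13
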