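import Pool.Agent.D0H94.T13.Fm5

/-!
# Two-sided comparison for events of the trace, with a narrow window of lengths
-/

set_option autoImplicit false
set_option linter.unusedVariables false

namespace Pool.Agent.D0H94.T13

open Filter Topology Finset
open Pool.Agent.D0H94.T12

lemma ZZ_nonneg (n : ℕ) : 0 ≤ ZZ hh n := by
  unfold ZZ
  exact Finset.sum_nonneg fun m _ => mul_nonneg (hh_pos m).le (Nat.cast_nonneg _)

/-- the sum over the lengths, near and far -/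
lemma split (A : ℝ) (hA : 0 < A) : ∃ L : ℝ, 0 < L ∧ ∀ n : ℕ, 4 ≤ n → ∀ j : ℕ, n ≤ j + 2 → j ≤ n →
    (∑ m ∈ (range (j + 1)).filter (fun m : ℕ =>
      L * (√(n : ℝ) * Real.log n) < |(m : ℝ) - cc * n|), hh m * kc (m + 1) (j + 1)) ≤
      Real.exp (-(A * Real.log n ^ 2)) * ZZ hh j := by
  obtain ⟨L0, hL0, h⟩ := conc (4 * A) (by positivity)
  have hc := cc_pos
  have hc1 := cc_lt
  refine ⟨L0 + 10, by positivity, fun n hn j hj hj' => ?_⟩
  have hn0 : (0 : ℝ) < n := by exact_mod_cast (show 0 < n by omega)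
  have hsl := sl (show 2 ≤ n by omega)
  have hj2 : 2 ≤ j := by omega
  have hj0 : (0 : ℝ) < j := by exact_mod_cast (show 0 < j by omega)
  have hjN : (j : ℝ) ≤ n := by exact_mod_cast hj'
  have hNj : (n : ℝ) ≤ j + 2 := by exact_mod_cast hj
  have hb := h j hj2
  have hsub : ∑ m ∈ (range (j + 1)).filter (fun m : ℕ =>
      (L0 + 10) * (√(n : ℝ) * Real.log n) < |(m : ℝ) - cc * n|),
      hh m * (kc (m + 1) (j + 1) : ℝ) ≤ ∑ m ∈ (range (j + 1)).filter (fun m : ℕ =>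
        L0 * (√(j : ℝ) * Real.log j) ≤ |(m : ℝ) - cc * j|),
        hh m * (kc (m + 1) (j + 1) : ℝ) := by
    refine Finset.sum_le_sum_of_subset_of_nonneg ?_
      (fun m _ _ => mul_nonneg (hh_pos m).le (Nat.cast_nonneg _))
    intro m hm
    rw [Finset.mem_filter] at hm ⊢
    refine ⟨hm.1, ?_⟩
    have e : (m : ℝ) - cc * n = ((m : ℝ) - cc * j) + (-(cc * (n - j))) := by ring
    have h3 := hm.2
    rw [e] at h3
    have h5 := abs_add_le ((m : ℝ) - cc * j) (-(cc * (n - j)))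
    have h6 : |-(cc * ((n : ℝ) - j))| ≤ 2 := by
      have h7 : 0 ≤ cc * ((n : ℝ) - j) := mul_nonneg hc.le (by linarith)
      have h8 : cc * ((n : ℝ) - j) ≤ 2 := by nlinarith
      rw [abs_le]
      constructor <;> linarith
    have h9 : √(j : ℝ) * Real.log j ≤ √(n : ℝ) * Real.log n := by
      have a1 : √(j : ℝ) ≤ √(n : ℝ) := Real.sqrt_le_sqrt hjN
      have a2 : Real.log j ≤ Real.log n := Real.log_le_log hj0 hjN
      exact mul_le_mul a1 a2 (Real.log_natCast_nonneg j) (Real.sqrt_nonneg _)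
    have h10 := mul_le_mul_of_nonneg_left h9 hL0.le
    nlinarith
  refine hsub.trans (hb.trans (mul_le_mul_of_nonneg_right ?_ (ZZ_nonneg j)))
  apply Real.exp_le_exp.2
  have hj2' : (2 : ℝ) ≤ j := by exact_mod_cast hj2
  have l1 : Real.log n ≤ 2 * Real.log j := by
    rw [← Real.log_rpow hj0, Real.rpow_two]
    apply Real.log_le_log hn0
    nlinarith
  have l0 : 0 ≤ Real.log (n : ℝ) := Real.log_natCast_nonneg n
  have l2 : Real.log (n : ℝ) ^ 2 ≤ 4 * Real.log j ^ 2 := by nlinarith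
  nlinarith [mul_le_mul_of_nonneg_left l2 hA.le]

lemma SS_near {L δ E : ℝ} {n j : ℕ} (hδ : 0 ≤ δ)
    (hs : (∑ m ∈ (range (j + 1)).filter (fun m : ℕ =>
      L * (√(n : ℝ) * Real.log n) < |(m : ℝ) - cc * n|), hh m * kc (m + 1) (j + 1)) ≤
      E * ZZ hh j) {g : ℕ → ℕ} (hg : ∀ m, g m ≤ aH m)
    (h : ∀ m : ℕ, |(m : ℝ) - cc * n| ≤ L * (√(n : ℝ) * Real.log n) → (g m : ℝ) ≤ δ * aH m) :
    (SS g (j + 1) : ℝ) ≤ (δ + E) * ZZ hh j := by
  have h1 : (SS g (j + 1) : ℝ) ≤ δ * ZZ hh j + ∑ m ∈ (range (j + 1)).filter (fun m : ℕ =>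
      L * (√(n : ℝ) * Real.log n) < |(m : ℝ) - cc * n|), hh m * kc (m + 1) (j + 1) := by
    unfold SS ZZ
    push_cast
    rw [Finset.sum_filter, Finset.mul_sum, ← Finset.sum_add_distrib]
    refine Finset.sum_le_sum fun m _ => ?_
    rw [K_kc]
    have hk : (0 : ℝ) ≤ kc (m + 1) (j + 1) := Nat.cast_nonneg _
    have hh0 := (hh_pos m).le
    split_ifs with h2
    · have h3 : (g m : ℝ) ≤ hh m := by rw [hh_eq]; exact_mod_cast hg m
      have h4 := mul_le_mul_of_nonneg_right h3 hk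
      have h5 : 0 ≤ δ * (hh m * kc (m + 1) (j + 1)) := by positivity
      linarith
    · have h3 := h m (not_lt.1 h2)
      rw [← hh_eq] at h3
      have h4 := mul_le_mul_of_nonneg_right h3 hk
      linarith
  linarith

/-- **the comparison from above** -/
theorem upper_win (A : ℝ) (hA : 0 < A) : ∃ C L : ℝ, 0 < C ∧ 0 < L ∧ ∀ E : Set (Set ℂ), MotInv E →
    ∀ n : ℕ, 4 ≤ n → ∀ δ : ℝ, 0 ≤ δ →
      (∀ m : ℕ, |(m : ℝ) - cc * n| ≤ L * (√(n : ℝ) * Real.log n) →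
        (cH (thick 3 E) m : ℝ) ≤ δ * aH m) →
      (cF E n : ℝ) ≤ (C * δ + Real.exp (-(A * Real.log n ^ 2))) * aF n := by
  obtain ⟨D, hD, hZ⟩ := ZZ_up
  obtain ⟨C, hC⟩ : ∃ C, C = 9 * (1 + 4 * D + 3 * D ^ 2) := ⟨_, rfl⟩
  have hC0 : 0 < C := by rw [hC]; positivity
  obtain ⟨L, hL, h⟩ := split (A + C) (by positivity)
  refine ⟨C, L, hC0, hL, fun E hE n hn δ hδ hw => ?_⟩
  have hg : ∀ m, cH (thick 3 E) m ≤ aH m := by
    intro m
    rw [← cardH m]
    exact Set.ncard_le_ncard (fun ω hω => hω.1) (fin_wH m)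
  have one : ∀ j, n ≤ j + 2 → j ≤ n → (SS (cH (thick 3 E)) (j + 1) : ℝ) ≤
      (δ + Real.exp (-((A + C) * Real.log n ^ 2))) * ZZ hh j := fun j h1 h2 =>
    SS_near hδ (h n hn j h1 h2) hg hw
  obtain ⟨k, rfl⟩ : ∃ k, n = k + 3 := ⟨n - 3, by omega⟩
  have hup := cF_upper hE k
  have hup' : (cF E (k + 3) : ℝ) ≤ 9 * (SS (cH (thick 3 E)) (k + 4) +
      4 * SS (cH (thick 3 E)) (k + 3) + 3 * SS (cH (thick 3 E)) (k + 2)) := by exact_mod_cast hup
  have o1 : (SS (cH (thick 3 E)) (k + 4) : ℝ) ≤ _ := one (k + 3) (by omega) (by omega)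
  have o2 : (SS (cH (thick 3 E)) (k + 3) : ℝ) ≤ _ := one (k + 2) (by omega) (by omega)
  have o3 : (SS (cH (thick 3 E)) (k + 2) : ℝ) ≤ _ := one (k + 1) (by omega) (by omega)
  obtain ⟨X, hX⟩ : ∃ X, X = δ + Real.exp (-((A + C) * Real.log ((k + 3 : ℕ) : ℝ) ^ 2)) := ⟨_, rfl⟩
  rw [← hX] at o1 o2 o3
  have hX0 : 0 ≤ X := by rw [hX]; positivity
  have z1 : ZZ hh (k + 2) ≤ D * ZZ hh (k + 3) := hZ (k + 2)
  have z2 : ZZ hh (k + 1) ≤ D * ZZ hh (k + 2) := hZ (k + 1)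
  have z3 : ZZ hh (k + 1) ≤ D ^ 2 * ZZ hh (k + 3) := by
    calc ZZ hh (k + 1) ≤ D * ZZ hh (k + 2) := z2
      _ ≤ D * (D * ZZ hh (k + 3)) := mul_le_mul_of_nonneg_left z1 hD.le
      _ = _ := by ring
  have hZ0 := ZZ_pos (show 3 ≤ k + 3 by omega)
  have p2 : (SS (cH (thick 3 E)) (k + 3) : ℝ) ≤ D * (X * ZZ hh (k + 3)) := by
    refine o2.trans ((mul_le_mul_of_nonneg_left z1 hX0).trans (le_of_eq ?_))
    ring
  have p3 : (SS (cH (thick 3 E)) (k + 2) : ℝ) ≤ D ^ 2 * (X * ZZ hh (k + 3)) := by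
    refine o3.trans ((mul_le_mul_of_nonneg_left z3 hX0).trans (le_of_eq ?_))
    ring
  have m1 : (cF E (k + 3) : ℝ) ≤ C * (X * ZZ hh (k + 3)) := by
    rw [hC]
    linarith
  have hZn : ZZ hh (k + 3) ≤ aF (k + 3) := by
    have h5 := card_wE (show 3 ≤ k + 3 by omega)
    have h6 : ((wE (k + 3)).ncard : ℝ) ≤ aF (k + 3) := by
      rw [← cardF]
      have : (wE (k + 3)).ncard ≤ (wF (k + 3)).ncard :=
        Set.ncard_le_ncard (fun ω hω => hω.1) (fin_wF _)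
      exact_mod_cast this
    linarith
  have hE := Real.exp_pos (-((A + C) * Real.log ((k + 3 : ℕ) : ℝ) ^ 2))
  obtain ⟨N, hN⟩ : ∃ N : ℝ, N = ((k + 3 : ℕ) : ℝ) := ⟨_, rfl⟩
  rw [← hN] at hX hE ⊢
  have hn0 : (0 : ℝ) < N := by rw [hN]; exact_mod_cast (show 0 < k + 3 by omega)
  have l2 : 1 ≤ Real.log N ^ 2 := by
    have hN4 : (4 : ℝ) ≤ N := by rw [hN]; exact_mod_cast hn
    have : 1 ≤ Real.log N := by
      rw [Real.le_log_iff_exp_le hn0]
      have := Real.exp_one_lt_d9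
      linarith
    nlinarith
  have h12 : C * Real.exp (-((A + C) * Real.log N ^ 2)) ≤ Real.exp (-(A * Real.log N ^ 2)) := by
    have h13 : C ≤ Real.exp (C * Real.log N ^ 2) := by
      have := Real.add_one_le_exp (C * Real.log N ^ 2)
      nlinarith
    calc C * Real.exp (-((A + C) * Real.log N ^ 2)) ≤
        Real.exp (C * Real.log N ^ 2) * Real.exp (-((A + C) * Real.log N ^ 2)) :=
          mul_le_mul_of_nonneg_right h13 hE.le
      _ = _ := by
        rw [← Real.exp_add]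
        congr 1
        ring
  calc (cF E (k + 3) : ℝ) ≤ C * (X * ZZ hh (k + 3)) := m1
    _ = (C * δ + C * Real.exp (-((A + C) * Real.log N ^ 2))) * ZZ hh (k + 3) := by
      rw [hX]
      ring
    _ ≤ (C * δ + Real.exp (-(A * Real.log N ^ 2))) * aF (k + 3) := by
      refine mul_le_mul (by linarith) hZn hZ0.le ?_
      have := Real.exp_pos (-(A * Real.log N ^ 2))
      positivity

/-- **the comparison from below** -/
theorem lower_win : ∃ C L : ℝ, 0 < C ∧ 0 < L ∧ ∀ E : Set (Set ℂ), MotInv E →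
    ∀ n : ℕ, 4 ≤ n → ∀ δ : ℝ, 0 ≤ δ →
      (∀ m : ℕ, |(m : ℝ) - cc * n| ≤ L * (√(n : ℝ) * Real.log n) → δ * aH m ≤ cH E m) →
      δ * aF n ≤ C * cF (thick 1 E) n := by
  obtain ⟨c, hc, hends⟩ := ends_pos
  obtain ⟨L, hL, h⟩ := split 1 one_pos
  refine ⟨8 / c, L, by positivity, hL, fun E hE n hn δ hδ hw => ?_⟩
  have h1 := h n hn n (by omega) le_rfl
  have h2 : (SS (cH E) (n + 1) : ℝ) ≤ 3 * cF (thick 1 E) n := by exact_mod_cast cF_lower hE n
  have hn0 : (0 : ℝ) < n := by exact_mod_cast (show 0 < n by omega)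
  have hE2 : Real.exp (-(1 * Real.log n ^ 2)) ≤ 1 / 2 := by
    have l2 : 1 ≤ Real.log (n : ℝ) ^ 2 := by
      have hN4 : (4 : ℝ) ≤ n := by exact_mod_cast hn
      have : 1 ≤ Real.log (n : ℝ) := by
        rw [Real.le_log_iff_exp_le hn0]
        have := Real.exp_one_lt_d9
        linarith
      nlinarith
    have h3 : Real.exp (-(1 * Real.log n ^ 2)) ≤ Real.exp (-1) :=
      Real.exp_le_exp.2 (by linarith)
    have h4 : Real.exp (-1) ≤ 1 / 2 := by
      rw [Real.exp_neg, inv_le_comm₀ (Real.exp_pos _) (by norm_num)]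
      have := Real.add_one_le_exp 1
      norm_num
      linarith
    linarith
  have h5 : δ * ZZ hh n ≤ SS (cH E) (n + 1) + δ * ∑ m ∈ (range (n + 1)).filter (fun m : ℕ =>
      L * (√(n : ℝ) * Real.log n) < |(m : ℝ) - cc * n|), hh m * kc (m + 1) (n + 1) := by
    unfold SS ZZ
    push_cast
    rw [Finset.sum_filter, Finset.mul_sum, Finset.mul_sum, ← Finset.sum_add_distrib]
    refine Finset.sum_le_sum fun m _ => ?_
    rw [K_kc]
    have hk : (0 : ℝ) ≤ kc (m + 1) (n + 1) := Nat.cast_nonneg _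
    split_ifs with h6
    · have : (0 : ℝ) ≤ cH E m * kc (m + 1) (n + 1) := by positivity
      linarith
    · have h7 := hw m (not_lt.1 h6)
      rw [← hh_eq] at h7
      have h8 := mul_le_mul_of_nonneg_right h7 hk
      linarith
  have hZ0 := ZZ_nonneg n
  have h6 : δ * (∑ m ∈ (range (n + 1)).filter (fun m : ℕ =>
      L * (√(n : ℝ) * Real.log n) < |(m : ℝ) - cc * n|), hh m * kc (m + 1) (n + 1)) ≤
      δ * (1 / 2 * ZZ hh n) :=
    mul_le_mul_of_nonneg_left (h1.trans (mul_le_mul_of_nonneg_right hE2 hZ0)) hδ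
  have h7 := hends n (by omega)
  rw [card_wE (by omega), cardF] at h7
  have h8 : δ * (c * aF n) ≤ δ * (4 / 3 * ZZ hh n) := mul_le_mul_of_nonneg_left h7 hδ
  have h9 : δ * ZZ hh n ≤ 6 * cF (thick 1 E) n := by linarith
  rw [div_mul_eq_mul_div, le_div_iff₀ hc]
  linarith

end Pool.Agent.D0H94.T13
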