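import Pool.Agent.D0H94.T13.Wgt

/-!
# The moments of the diameter
-/

set_option autoImplicit false
set_option linter.unusedVariables false

namespace Pool.Agent.D0H94.T13

open Filter Topology Finset
open Pool.Agent.D0H94.T12

/-! ### the number of vertices in a disc -/

lemma NN_abs {A : P2} {x : ℝ} (hx : 0 ≤ x) (h : ‖ps A‖ ≤ x) :
    |(A.1 : ℝ)| ≤ 2 * x ∧ |(A.2 : ℝ)| ≤ 2 * x := by
  have h1 := nsq0 A
  have h2 : (NN A : ℝ) = (A.1 : ℝ) ^ 2 + A.1 * A.2 + (A.2 : ℝ) ^ 2 := by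
    unfold NN
    push_cast
    ring
  have h3 : ‖ps A‖ ^ 2 ≤ x ^ 2 := pow_le_pow_left₀ (norm_nonneg _) h 2
  rw [h1, h2] at h3
  constructor
  · apply abs_le_of_sq_le_sq _ (by linarith)
    nlinarith [sq_nonneg ((A.1 : ℝ) + 2 * A.2), sq_nonneg (A.1 : ℝ)]
  · apply abs_le_of_sq_le_sq _ (by linarith)
    nlinarith [sq_nonneg (2 * (A.1 : ℝ) + A.2), sq_nonneg (A.2 : ℝ)]

lemma mem_box {a : ℤ} {x : ℝ} (h : |(a : ℝ)| ≤ x) : a ∈ Finset.Icc (-(⌊x⌋₊ : ℤ)) ⌊x⌋₊ := by
  have h1 : (a.natAbs : ℝ) ≤ x := by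
    rw [Nat.cast_natAbs, Int.cast_abs]
    exact h
  have h2 : a.natAbs ≤ ⌊x⌋₊ := Nat.le_floor h1
  rw [Finset.mem_Icc]
  omega

lemma count_le {n : ℕ} {ω : Fin (n + 1) → ℂ} (h : ω ∈ wF n) :
    √(n : ℝ) ≤ 12 * (1 + dl (cpath ω)) := by
  have hω := h
  unfold wF at h
  rw [emb_image embF n] at h
  obtain ⟨f, hf, rfl⟩ := h
  have hv := emb_v embF hf
  obtain ⟨R, hR⟩ : ∃ R : ℕ, R = ⌊2 * dl (cpath fun i => pt (f i))⌋₊ := ⟨_, rfl⟩
  have hd0 := dl_nonneg (cpath fun i => pt (f i))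
  have hmem : ∀ i, (f i).1.1 ∈ Finset.Icc (-(R : ℤ)) R ∧ (f i).1.2 ∈ Finset.Icc (-(R : ℤ)) R := by
    intro i
    have h1 : dist (ps (f i).1) (ps (f 0).1) ≤ dl (cpath fun i => pt (f i)) := by
      refine Metric.dist_le_diam_of_mem (bdd _) ((mem_cpath _ _).2 ⟨i, cen_pt (hv i)⟩)
        ((mem_cpath _ _).2 ⟨0, cen_pt (hv 0)⟩)
    rw [hf.1] at h1
    have h2 : ps ((0, 0) : P2) = 0 := ps_zero'
    rw [h2, dist_zero_right] at h1
    obtain ⟨h3, h4⟩ := NN_abs hd0 h1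
    rw [hR]
    exact ⟨mem_box h3, mem_box h4⟩
  have hcard : n + 1 ≤ (2 * R + 1) ^ 2 * 9 := by
    obtain ⟨B, hB⟩ : ∃ B : Finset ((ℤ × ℤ) × (ℤ × ℤ)), B =
      (Finset.Icc (-(R : ℤ)) R ×ˢ Finset.Icc (-(R : ℤ)) R) ×ˢ
        (Finset.Icc (-1 : ℤ) 1 ×ˢ Finset.Icc (-1 : ℤ) 1) := ⟨_, rfl⟩
    have h1 : (Finset.univ : Finset (Fin (n + 1))).card ≤ B.card := by
      refine Finset.card_le_card_of_injOn (fun i => ((f i).1, (f i).2 - (f i).1)) ?_ ?_
      · intro i _
        rw [hB]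
        simp only [Finset.coe_product, Set.mem_prod, Finset.mem_coe]
        have h2 := (hv i).1
        refine ⟨hmem i, ?_, ?_⟩
        · rcases units h2 with h | h | h | h | h | h <;>
            simp only [Prod.fst_sub, Finset.mem_Icc] <;> omega
        · rcases units h2 with h | h | h | h | h | h <;>
            simp only [Prod.snd_sub, Finset.mem_Icc] <;> omega
      · intro i _ j _ hij
        simp only [Prod.mk.injEq] at hij
        apply hf.2.1
        refine Prod.ext hij.1 ?_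
        have h3 := hij.2
        rw [hij.1] at h3
        exact sub_left_inj.1 h3
    rw [Finset.card_univ, Fintype.card_fin, hB, Finset.card_product, Finset.card_product,
      Finset.card_product, Int.card_Icc, Int.card_Icc] at h1
    refine h1.trans (le_of_eq ?_)
    have e1 : ((R : ℤ) + 1 - -(R : ℤ)).toNat = 2 * R + 1 := by omega
    have e2 : ((1 : ℤ) + 1 - -1).toNat = 3 := by rfl
    rw [e1, e2]
    ring
  have h5 : (R : ℝ) ≤ 2 * dl (cpath fun i => pt (f i)) := by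
    rw [hR]
    exact Nat.floor_le (by linarith)
  have h6 : ((n : ℝ) + 1) ≤ (2 * R + 1) ^ 2 * 9 := by exact_mod_cast hcard
  have h7 : (n : ℝ) ≤ (12 * (1 + dl (cpath fun i => pt (f i)))) ^ 2 := by
    have h8 : (2 * (R : ℝ) + 1) ^ 2 ≤ (4 * (1 + dl (cpath fun i => pt (f i)))) ^ 2 :=
      pow_le_pow_left₀ (by positivity) (by linarith) 2
    nlinarith
  exact (Real.sqrt_le_left (by linarith)).2 h7

/-! ### the weights -/

/-- the weight -/
noncomputable def G (q : ℝ) (p : List ℂ) : ℝ := (1 + dl p) ^ q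

lemma G_one {q : ℝ} (hq : 0 ≤ q) (p : List ℂ) : 1 ≤ G q p :=
  Real.one_le_rpow (by linarith [dl_nonneg p]) hq

lemma diam_up {n : ℕ} {ω : Fin (n + 1) → ℂ} (h : ω ∈ wF n) : diam ω ≤ n := by
  have hd : (2 * √3 - 3 : ℝ) ≤ 1 := by
    have : √3 ≤ 2 := by
      rw [Real.sqrt_le_left (by norm_num)]
      norm_num
    linarith
  have h1 : ∀ i : Fin (n + 1), ∀ j : Fin (n + 1), i ≤ j → ‖ω j - ω i‖ ≤ (j : ℕ) - (i : ℕ) := by
    intro i j
    induction j using Fin.induction with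
    | zero =>
      intro hij
      have : i = 0 := le_antisymm hij (Fin.zero_le _)
      subst this
      simp
    | succ j ih =>
      intro hij
      rcases eq_or_lt_of_le hij with he | hlt
      · rw [← he]
        simp
      · have h2 := ih (by
          rw [Fin.le_def]
          rw [Fin.lt_def] at hlt
          simp only [Fin.val_succ, Fin.val_castSucc] at hlt ⊢
          omega)
        have h3 := h.2.2.1 j
        have e : ω j.succ - ω i = (ω j.succ - ω j.castSucc) + (ω j.castSucc - ω i) := by ring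
        rw [e]
        refine (norm_add_le _ _).trans ?_
        rw [h3]
        simp only [Fin.val_succ, Fin.val_castSucc] at h2 ⊢
        push_cast
        linarith
  refine ciSup_le fun p => ?_
  have hb : ∀ i : Fin (n + 1), ((i : ℕ) : ℝ) ≤ n := fun i => by
    exact_mod_cast Nat.lt_succ_iff.1 i.2
  have hb0 : ∀ i : Fin (n + 1), (0 : ℝ) ≤ ((i : ℕ) : ℝ) := fun i => Nat.cast_nonneg _
  rcases le_total p.1 p.2 with hp | hp
  · rw [norm_sub_rev]
    have := h1 _ _ hp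
    linarith [hb p.2, hb0 p.1]
  · have := h1 _ _ hp
    linarith [hb p.1, hb0 p.2]

lemma G_up {q : ℝ} (hq : 0 ≤ q) {n : ℕ} {ω : Fin (n + 1) → ℂ} (h : ω ∈ wF n) :
    G q (cpath ω) ≤ ((n : ℝ) + 2) ^ q := by
  have h1 := dl_le h
  have h2 := diam_up h
  have h3 : 2 * (2 - √3) ≤ 1 := by
    have : (1.5 : ℝ) ≤ √3 := by
      rw [Real.le_sqrt' (by norm_num)]
      norm_num
    linarith
  exact Real.rpow_le_rpow (by linarith [dl_nonneg (cpath ω)]) (by linarith) hq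

lemma BB_G {q : ℝ} (hq : 0 ≤ q) : ∃ K : ℝ, 0 ≤ K ∧ ∀ n : ℕ, 3 ≤ n →
    BB (fun p => G q (p.map ps)) n ≤ mF ^ n * Real.exp (K * Real.log n ^ 2) := by
  obtain ⟨K0, hK0, hqf⟩ := quasiF
  refine ⟨K0 + 2 * q, by positivity, fun n hn => ?_⟩
  have h1 : BB (fun p => G q (p.map ps)) n ≤ ((n : ℝ) + 2) ^ q * aF n := by
    rw [← sum_path (G q) n, finsum_mem_eq_finite_toFinset_sum _ (fin_wF n)]
    have h2 : ((fin_wF n).toFinset.card : ℝ) = aF n := by
      rw [← Set.ncard_eq_toFinset_card _ (fin_wF n), ← cardF n]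
    calc ∑ ω ∈ (fin_wF n).toFinset, G q (cpath ω) ≤
        ∑ ω ∈ (fin_wF n).toFinset, ((n : ℝ) + 2) ^ q :=
          Finset.sum_le_sum fun ω hω => G_up hq ((Set.Finite.mem_toFinset _).1 hω)
      _ = _ := by rw [Finset.sum_const, nsmul_eq_mul, h2, mul_comm]
  have h3 := (hqf n (by omega)).2.1
  have hn0 : (3 : ℝ) ≤ n := by exact_mod_cast hn
  have l1 : 1 ≤ Real.log (n : ℝ) := by
    rw [Real.le_log_iff_exp_le (by linarith)]
    have := Real.exp_one_lt_d9
    linarith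
  have h4 : ((n : ℝ) + 2) ^ q ≤ Real.exp (2 * q * Real.log n ^ 2) := by
    rw [Real.rpow_def_of_pos (by linarith)]
    apply Real.exp_le_exp.2
    have h5 : Real.log ((n : ℝ) + 2) ≤ 2 * Real.log n := by
      rw [← Real.log_rpow (by linarith), Real.rpow_two]
      apply Real.log_le_log (by linarith)
      nlinarith
    have h6 : Real.log ((n : ℝ) + 2) * q ≤ 2 * Real.log n * q := mul_le_mul_of_nonneg_right h5 hq
    have h7 : Real.log (n : ℝ) ≤ Real.log n ^ 2 := by nlinarith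
    nlinarith [mul_le_mul_of_nonneg_left h7 hq]
  calc BB (fun p => G q (p.map ps)) n ≤ ((n : ℝ) + 2) ^ q * aF n := h1
    _ ≤ Real.exp (2 * q * Real.log n ^ 2) * (mF ^ n * Real.exp (K0 * Real.log n ^ 2)) :=
        mul_le_mul h4 h3 (Nat.cast_nonneg _) (Real.exp_pos _).le
    _ = _ := by
        rw [mul_left_comm, ← Real.exp_add]
        congr 2
        ring

/-- expectations -/
noncomputable def EE (n : ℕ) (F : (Fin (n + 1) → ℂ) → ℝ) : ℝ :=
  (∑ᶠ ω ∈ wF n, F ω) / (wF n).ncard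

lemma EE_path (F : List ℂ → ℝ) (n : ℕ) :
    EE n (fun ω => F (cpath ω)) = BB (fun p => F (p.map ps)) n / aF n := by
  unfold EE
  rw [sum_path, cardF]

/-- **all orders**, relative to the moments of the diameter -/
theorem all_path {q : ℝ} (hq : 0 ≤ q) (r : ℕ) : ∃ K : ℝ, 0 ≤ K ∧
    ∀ F : List ℂ → ℝ, (∀ p, |F p| ≤ G q p) → ∀ n, 2 ≤ n →
      |diff r (fun n => EE n (fun ω => F (cpath ω))) n| ≤
        K * ρ n ^ r * EE n (fun ω => G q (cpath ω)) := by
  obtain ⟨K0, hK0, h0⟩ := BB_G hq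
  obtain ⟨K, hK, h⟩ := wlaw (ψ0 := fun p => G q (p.map ps)) (fun p => G_one hq _) hK0 h0 r
  refine ⟨K, hK, fun F hF n hn => ?_⟩
  simp only [EE_path]
  exact h (fun p => F (p.map ps)) (fun p => hF _) n hn

lemma EE_mono {n : ℕ} {F F' : (Fin (n + 1) → ℂ) → ℝ} (h : ∀ ω ∈ wF n, F ω ≤ F' ω) :
    EE n F ≤ EE n F' := by
  unfold EE
  refine div_le_div_of_nonneg_right ?_ (Nat.cast_nonneg _)
  rw [finsum_mem_eq_finite_toFinset_sum _ (fin_wF n), finsum_mem_eq_finite_toFinset_sum _ (fin_wF n)]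
  exact Finset.sum_le_sum fun ω hω => h ω ((Set.Finite.mem_toFinset _).1 hω)

lemma EE_smul {n : ℕ} (c : ℝ) (F : (Fin (n + 1) → ℂ) → ℝ) :
    EE n (fun ω => c * F ω) = c * EE n F := by
  unfold EE
  rw [finsum_mem_eq_finite_toFinset_sum _ (fin_wF n), finsum_mem_eq_finite_toFinset_sum _ (fin_wF n),
    ← Finset.mul_sum, mul_div_assoc]

/-- the mean of the weight -/
noncomputable def MM (q : ℝ) (n : ℕ) : ℝ := EE n (fun ω => G q (cpath ω))

/-- the moment of the diameter -/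
noncomputable def mo (q : ℝ) (n : ℕ) : ℝ := EE n (fun ω => diam ω ^ q)

lemma aF_pos' (n : ℕ) : (0 : ℝ) < aF n := by
  have h := AA_pos n
  unfold AA at h
  have h2 := mul_pos h (pow_pos mF_pos n)
  rwa [div_mul_cancel₀ _ (pow_pos mF_pos n).ne'] at h2

lemma MM_pos {q : ℝ} (hq : 0 ≤ q) (n : ℕ) : 0 < MM q n := by
  unfold MM
  rw [EE_path]
  exact div_pos ((aF_pos' n).trans_le (BB_ge (fun p => G_one hq _) n)) (aF_pos' n)

lemma pow_near {x q : ℝ} (hq : 0 ≤ q) (h0 : 0 ≤ x) (h1 : x ≤ 1) :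
    1 - (q + 1) * (1 - x) ≤ x ^ q := by
  rcases le_total 1 q with h | h
  · have h2 := one_add_mul_self_le_rpow_one_add (s := x - 1) (by linarith) h
    rw [add_sub_cancel] at h2
    nlinarith
  · rcases h0.eq_or_lt with h3 | h3
    · rw [← h3]
      have := Real.rpow_nonneg (le_refl (0 : ℝ)) q
      nlinarith
    · have h4 := Real.rpow_le_rpow_of_exponent_ge h3 h1 h
      rw [Real.rpow_one] at h4
      nlinarith

lemma diam_G {q : ℝ} (hq : 0 ≤ q) {n : ℕ} (hn : 1 ≤ n) {ω : Fin (n + 1) → ℂ} (h : ω ∈ wF n) :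
    diam ω ^ q ≤ G q (cpath ω) ∧
      (1 - 24 * (q + 1) / √(n : ℝ)) * G q (cpath ω) ≤ diam ω ^ q := by
  have h1 := dl_le h
  have h2 := diam_le h
  have h3 := count_le h
  have h0 := diam_nonneg ω
  have hd := dl_nonneg (cpath ω)
  have ht : 2 * (2 - √3) ≤ 1 := by
    have : (1.5 : ℝ) ≤ √3 := by
      rw [Real.le_sqrt' (by norm_num)]
      norm_num
    linarith
  have hs : 0 < √(n : ℝ) := Real.sqrt_pos.2 (by exact_mod_cast hn)
  have hg : 0 < 1 + dl (cpath ω) := by linarith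
  constructor
  · exact Real.rpow_le_rpow h0 (by linarith) hq
  · obtain ⟨x, hx⟩ : ∃ x, x = diam ω / (1 + dl (cpath ω)) := ⟨_, rfl⟩
    have hx0 : 0 ≤ x := by rw [hx]; positivity
    have hx1 : x ≤ 1 := by
      rw [hx, div_le_one hg]
      linarith
    have e : diam ω = x * (1 + dl (cpath ω)) := by
      rw [hx]
      field_simp
    have hx2 : 1 - x ≤ 24 / √(n : ℝ) := by
      rw [le_div_iff₀ hs]
      have h4 : (1 - x) * (1 + dl (cpath ω)) ≤ 2 := by
        have : (1 - x) * (1 + dl (cpath ω)) = 1 + dl (cpath ω) - diam ω := by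
          rw [e]; ring
        rw [this]
        linarith
      have h5 : (1 - x) * √(n : ℝ) ≤ (1 - x) * (12 * (1 + dl (cpath ω))) :=
        mul_le_mul_of_nonneg_left h3 (by linarith)
      linarith
    have h6 := pow_near hq hx0 hx1
    have h7 : 1 - 24 * (q + 1) / √(n : ℝ) ≤ x ^ q := by
      refine le_trans ?_ h6
      have h8 := mul_le_mul_of_nonneg_left hx2 (show 0 ≤ q + 1 by linarith)
      have : 24 * (q + 1) / √(n : ℝ) = (q + 1) * (24 / √(n : ℝ)) := by ring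
      rw [this]
      linarith
    rw [e, Real.mul_rpow hx0 hg.le]
    exact mul_le_mul_of_nonneg_right h7 (Real.rpow_nonneg hg.le q)

lemma mo_MM {q : ℝ} (hq : 0 ≤ q) {n : ℕ} (hn : 1 ≤ n) :
    mo q n ≤ MM q n ∧ (1 - 24 * (q + 1) / √(n : ℝ)) * MM q n ≤ mo q n := by
  constructor
  · exact EE_mono fun ω hω => (diam_G hq hn hω).1
  · unfold MM mo
    rw [← EE_smul]
    exact EE_mono fun ω hω => (diam_G hq hn hω).2

lemma mo_pos {q : ℝ} (hq : 0 ≤ q) {n : ℕ} (hn : 1 ≤ n) : 0 < mo q n := by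
  have hdd := dd_pos
  have h1 : ∀ ω ∈ wF n, (2 * √3 - 3 : ℝ) ^ q ≤ diam ω ^ q := by
    intro ω hω
    have h2 := hω.2.2.1 ⟨0, by omega⟩
    have h3 := dist_le_diam ω (⟨0, by omega⟩ : Fin n).succ (⟨0, by omega⟩ : Fin n).castSucc
    rw [h2] at h3
    exact Real.rpow_le_rpow hdd.le h3 hq
  have h2 : EE n (fun _ => (2 * √3 - 3 : ℝ) ^ q) ≤ mo q n := EE_mono h1
  refine lt_of_lt_of_le ?_ h2
  unfold EE
  rw [finsum_mem_eq_finite_toFinset_sum _ (fin_wF n), Finset.sum_const, nsmul_eq_mul,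
    ← Set.ncard_eq_toFinset_card _ (fin_wF n), cardF]
  have := aF_pos' n
  have := Real.rpow_pos_of_pos hdd q
  positivity

end Pool.Agent.D0H94.T13
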