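import Pool.Agent.D0H94.T13.Brg
import Pool.Agent.D0H94.G3.Fin
import Pool.Agent.D0H81.FT.Mix
import Pool.Agent.D0H52.FT.Dbl

/-!
# Consequences of the one-step regularity
-/

set_option autoImplicit false
set_option linter.unusedVariables false

namespace Pool.Agent.D0H94.T13

open Filter Topology Finset
open Pool.Agent.D0H94.T12
open Pool.Agent.R956 (V1.Sq)

theorem bin_ : S_BIN := Pool.Agent.D0H81.FT.t_BIN

/-- normalised numbers of walks -/
noncomputable def AA (n : ℕ) : ℝ := (aF n : ℝ) / mF ^ n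

theorem rgA : Rg AA AA := rg_aF Pool.Agent.D0H81.FT.t_MIX bin_

lemma AA_pos (n : ℕ) : 0 < AA n := A_pos n

lemma PP_eq : PP aF = fun n => AA (2 * n) / AA n ^ 2 := by
  funext n
  unfold PP AA
  have hm := mF_pos
  rw [show n + n = 2 * n by ring, div_pow, ← pow_mul, mul_comm n 2]
  have := (pow_pos hm (2 * n)).ne'
  field_simp

theorem rgP : Rg (PP aF) (PP aF) := by
  rw [PP_eq]
  exact Pool.Agent.D0H52.FT.t_DBL AA AA_pos rgA

theorem law (r : ℕ) : ∃ K : ℝ, 0 ≤ K ∧
    ∀ ψ : List P2 → ℝ, (∀ p, |ψ p| ≤ 1) → ∀ n, 2 ≤ n →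
      |diff r (fun n => BB ψ n / aF n) n| ≤ K * ρ n ^ r :=
  rg_law Pool.Agent.D0H81.FT.t_MIX bin_ Pool.Agent.D0H52.FT.t_QUO r

/-- the ratio of consecutive terms -/
theorem one_step {u : ℕ → ℝ} (hu : ∀ n, 0 < u n) (h : Rg u u) : ∃ K : ℝ, 0 ≤ K ∧ ∀ n, 2 ≤ n →
    |u (n + 1) / u n - 1| ≤ K * ρ n := by
  obtain ⟨K, hK, h1⟩ := h 1
  refine ⟨K, hK, fun n hn => ?_⟩
  have h2 := h1 n hn
  have h3 := hu n
  have e : diff 1 u n = -((u (n + 1) / u n - 1) * u n) := by
    unfold diff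
    rw [Finset.sum_range_succ, Finset.sum_range_one]
    simp only [pow_zero, Nat.choose_self, Nat.choose_zero_right, Nat.cast_one, pow_one, add_zero]
    field_simp
    ring
  rw [e, abs_neg, abs_mul, abs_of_pos h3, pow_one] at h2
  exact le_of_mul_le_mul_right h2 h3

/-- the structure `Sq` -/
theorem sqA : ∃ K : ℝ, V1.Sq AA K 1 := by
  obtain ⟨K, hK, h⟩ := one_step AA_pos rgA
  have hone : ∀ n, 1 ≤ AA n := fun n => by
    have := one_le_sF n
    rw [sF_eq] at this
    exact this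
  have t : Tendsto (fun n => K * ρ n) atTop (𝓝 0) := by
    simpa using Pool.Agent.D0H52.FT.ρ_tendsto.const_mul K
  refine ⟨6 * K + 2 * K ^ 2 * 2, hone, by positivity, le_rfl, ?_, ?_, ?_⟩
  · intro n hn
    have h1 := h n hn
    have h2 := h (n + 1) (by omega)
    have h3 := Pool.Agent.D0H52.FT.ρ_succ n hn
    have h4 := Pool.Agent.D0H52.FT.ρ_le_two n
    have h5 := rho_nonneg n
    have p0 := AA_pos n
    have p1 := AA_pos (n + 1)
    have e : AA (n + 2) / AA n - 1 = (AA (n + 2) / AA (n + 1) - 1) * (AA (n + 1) / AA n - 1) +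
        (AA (n + 2) / AA (n + 1) - 1) + (AA (n + 1) / AA n - 1) := by
      field_simp
      ring
    have hf : Pool.Agent.R956.D2.f n = ρ n := rfl
    rw [hf, e]
    have h2' : |AA (n + 2) / AA (n + 1) - 1| ≤ K * (2 * ρ n) :=
      h2.trans (mul_le_mul_of_nonneg_left h3 hK)
    have a1 : |(AA (n + 2) / AA (n + 1) - 1) * (AA (n + 1) / AA n - 1)| ≤
        (K * (2 * ρ n)) * (K * ρ n) := by
      rw [abs_mul]
      exact mul_le_mul h2' h1 (abs_nonneg _) (by positivity)
    refine (abs_add_le _ _).trans ?_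
    have a2 := abs_add_le ((AA (n + 2) / AA (n + 1) - 1) * (AA (n + 1) / AA n - 1))
      (AA (n + 2) / AA (n + 1) - 1)
    have a3 : (K * (2 * ρ n)) * (K * ρ n) ≤ 2 * K ^ 2 * 2 * ρ n := by
      have : 0 ≤ 2 * K ^ 2 * ρ n := by positivity
      nlinarith
    nlinarith [mul_nonneg hK h5]
  · intro ε hε
    filter_upwards [t.eventually_lt_const (show (0 : ℝ) < min (1 / 2) (ε / 2) by positivity),
      eventually_ge_atTop 2] with n h1 hn
    have p0 := AA_pos n
    have h2 := abs_le.mp ((h n hn).trans h1.le)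
    have m1 := min_le_left (1 / 2 : ℝ) (ε / 2)
    have m2 := min_le_right (1 / 2 : ℝ) (ε / 2)
    constructor
    · have : AA (n + 1) / AA n ≤ 1 + ε := by linarith [h2.2]
      rwa [div_le_iff₀ p0] at this
    · set δ := min (1 / 2 : ℝ) (ε / 2) with hδ
      have h3 : (1 - δ) * AA n ≤ AA (n + 1) := by
        have : 1 - δ ≤ AA (n + 1) / AA n := by linarith [h2.1]
        rwa [le_div_iff₀ p0] at this
      have hδ0 : 0 < δ := by positivity
      have h4 : 1 ≤ (1 + ε) * (1 - δ) := by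
        nlinarith
      have h5 : (1 + ε) * ((1 - δ) * AA n) ≤ (1 + ε) * AA (n + 1) :=
        mul_le_mul_of_nonneg_left h3 (by linarith)
      nlinarith
  · have := sF_lim
    simp only [sF_eq] at this
    exact this

/-- power laws along windows for all the lengths of the window -/
def PowAll (u : ℕ → ℝ) (c : ℝ) : Prop :=
  ∀ B : ℝ, 0 < B → ∀ ε : ℝ, 0 < ε → ε < 1 / 2 → ∃ᶠ n : ℕ in atTop, ∀ m : ℕ,
    n ≤ m → (m : ℝ) ≤ n + (n : ℝ) ^ (1 / 2 - ε) →
    |u m / (m : ℝ) ^ c - B| ≤ 2 * (n : ℝ) ^ (-(ε / 2))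

theorem pow_all {u : ℕ → ℝ} (hu : ∀ n, 0 < u n) {K c : ℝ} (hK : 0 ≤ K)
    (h : ∀ n, 2 ≤ n → |u (n + 1) / u n - 1| ≤ K * ρ n) (hp : G3.PowerLaws u (1 / 2) c) :
    PowAll u c := by
  intro B hB ε hε hε2
  have h1 := hp B hB 0 (by norm_num) ε hε hε2
  have t : Tendsto (fun n => K * ρ n) atTop (𝓝 0) := by
    simpa using Pool.Agent.D0H52.FT.ρ_tendsto.const_mul K
  have c0 := G3.log_small (ε := 1 / 2 - 3 * ε / 4) (by linarith)
  have hmul : ∀ᶠ n : ℕ in atTop, 2 * (B + 1) * (2 * (2 * K * ρ n) + 2 * |c| / n) ≤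
      (n : ℝ) ^ (-(ε / 2)) := by
    have c1 := G3.small (a := -(3 * ε / 4)) (b := -(ε / 2)) (C := 8 * (B + 1) * K) (by linarith)
      (show (0 : ℝ) < 1 / 2 by norm_num)
    have c2 := G3.small (a := -1) (b := -(ε / 2)) (C := 4 * (B + 1) * |c|) (by linarith)
      (show (0 : ℝ) < 1 / 2 by norm_num)
    filter_upwards [c0, c1, c2] with n d0 d1 d2
    have e1 : ρ n ≤ (n : ℝ) ^ (-(3 * ε / 4)) := by
      refine d0.trans (le_of_eq ?_)
      congr 1
      ring
    have e2 : 8 * (B + 1) * K * ρ n ≤ 8 * (B + 1) * K * (n : ℝ) ^ (-(3 * ε / 4)) :=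
      mul_le_mul_of_nonneg_left e1 (by positivity)
    rw [Real.rpow_neg_one] at d2
    have e3 : 2 * (B + 1) * (2 * (2 * K * ρ n) + 2 * |c| / n) =
        8 * (B + 1) * K * ρ n + 4 * (B + 1) * |c| * (n : ℝ)⁻¹ := by
      field_simp
      ring
    rw [e3]
    linarith
  have hle1 : ∀ᶠ n : ℕ in atTop, (n : ℝ) ^ (-(ε / 2)) ≤ 1 := by
    filter_upwards [eventually_ge_atTop 1] with n hn
    exact Real.rpow_le_one_of_one_le_of_nonpos (by exact_mod_cast hn) (by linarith)
  refine (h1.and_eventually (hmul.and (hle1.and ((t.eventually_lt_const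
    (show (0 : ℝ) < 1 / 4 by norm_num)).and (eventually_ge_atTop 3))))).mono ?_
  rintro n ⟨hw, d1, d2, d3, hn⟩ m hnm hm
  have hn0 : (1 : ℝ) ≤ n := by exact_mod_cast (show 1 ≤ n by omega)
  rcases Nat.even_or_odd' m with ⟨k, hk | hk⟩
  · refine (hw m (by omega) hnm hm).trans ?_
    have : 0 ≤ (n : ℝ) ^ (-(ε / 2)) := by positivity
    linarith
  · -- an even neighbour in the window
    have hwin : (1 : ℝ) ≤ (n : ℝ) ^ (1 / 2 - ε) := Real.one_le_rpow hn0 (by linarith)
    obtain ⟨m', hm1, hm2, hm3, hm4⟩ : ∃ m' : ℕ, m' % 2 = 0 ∧ n ≤ m' ∧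
        (m' : ℝ) ≤ n + (n : ℝ) ^ (1 / 2 - ε) ∧ (m' + 1 = m ∨ m + 1 = m') := by
      rcases Nat.lt_or_ge n m with h0 | h0
      · refine ⟨m - 1, by omega, by omega, ?_, Or.inl (by omega)⟩
        have : ((m - 1 : ℕ) : ℝ) ≤ m := by exact_mod_cast Nat.sub_le m 1
        linarith
      · have : m = n := by omega
        subst this
        refine ⟨m + 1, by omega, by omega, ?_, Or.inr rfl⟩
        push_cast
        linarith
    have hw' := hw m' hm1 hm2 hm3
    have hm0 : (0 : ℝ) < m := by exact_mod_cast (show 0 < m by omega)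
    have hm0' : (0 : ℝ) < m' := by exact_mod_cast (show 0 < m' by omega)
    have p := hu m
    have p' := hu m'
    -- logarithms
    have rho_mono : ∀ j : ℕ, n ≤ j → j ≤ m' + 1 → K * ρ j ≤ 2 * K * ρ n := by
      intro j hj1 hj2
      have h5 : ρ j ≤ 2 * ρ n := by
        rcases Nat.eq_or_lt_of_le hj1 with h6 | h6
        · rw [← h6]
          have := rho_nonneg n
          linarith
        · have hnn : (3 : ℝ) ≤ n := by exact_mod_cast hn
          have hjn : (j : ℝ) ≤ 2 * n + 1 := by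
            have h7 : (n : ℝ) ^ (1 / 2 - ε) ≤ n := by
              calc (n : ℝ) ^ (1 / 2 - ε) ≤ (n : ℝ) ^ (1 : ℝ) :=
                    Real.rpow_le_rpow_of_exponent_le hn0 (by linarith)
                _ = n := Real.rpow_one _
            have h8 : (j : ℝ) ≤ m' + 1 := by exact_mod_cast hj2
            linarith
          unfold ρ
          have hs : 0 < √(n : ℝ) := Real.sqrt_pos.2 (by linarith)
          have h1 : √(n : ℝ) ≤ √(j : ℝ) := Real.sqrt_le_sqrt (by exact_mod_cast hj1)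
          have h2 : Real.log (j : ℝ) ≤ 2 * Real.log n := by
            rw [← Real.log_rpow (by linarith), Real.rpow_two]
            apply Real.log_le_log (by exact_mod_cast (show 0 < j by omega))
            nlinarith
          have h3 : 0 ≤ Real.log (n : ℝ) := Real.log_natCast_nonneg n
          calc Real.log (j : ℝ) / √(j : ℝ) ≤ (2 * Real.log n) / √(n : ℝ) :=
                div_le_div₀ (by positivity) h2 hs h1
            _ = _ := by ring
      calc K * ρ j ≤ K * (2 * ρ n) := mul_le_mul_of_nonneg_left h5 hK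
        _ = _ := by ring
    have hr4 : ∀ j : ℕ, n ≤ j → j ≤ m' + 1 →
        |Real.log (u (j + 1)) - Real.log (u j)| ≤ 2 * (2 * K * ρ n) := by
      intro j hj1 hj2
      have h5 := (h j (by omega)).trans (rho_mono j hj1 hj2)
      exact Pool.Agent.R79.SW.log_step (hu j) (hu (j + 1)) h5 (by linarith)
    have hlog : ∀ j : ℕ, n ≤ j →
        |Real.log ((j + 1 : ℕ) : ℝ) - Real.log (j : ℝ)| ≤ 1 / n := by
      intro j hj
      have h5 := Pool.Agent.R79.SW.log_add_le (show 1 ≤ j by omega) 1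
      refine h5.trans ?_
      rw [Nat.cast_one]
      exact one_div_le_one_div_of_le (by linarith) (by exact_mod_cast hj)
    obtain ⟨X, hX⟩ : ∃ X, X = (Real.log (u m) - Real.log (u m')) -
        c * (Real.log m - Real.log m') := ⟨_, rfl⟩
    have hXle : |X| ≤ 2 * (2 * K * ρ n) + 2 * |c| / n := by
      have h5 : |Real.log (u m) - Real.log (u m')| ≤ 2 * (2 * K * ρ n) ∧
          |Real.log (m : ℝ) - Real.log (m' : ℝ)| ≤ 1 / n := by
        rcases hm4 with h6 | h6
        · rw [← h6]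
          exact ⟨hr4 m' hm2 (by omega), hlog m' hm2⟩
        · rw [← h6, abs_sub_comm, abs_sub_comm (Real.log (m : ℝ))]
          exact ⟨hr4 m hnm (by omega), hlog m hnm⟩
      rw [hX]
      refine (abs_sub _ _).trans ?_
      rw [abs_mul]
      have h7 : |c| * |Real.log (m : ℝ) - Real.log (m' : ℝ)| ≤ |c| * (1 / n) :=
        mul_le_mul_of_nonneg_left h5.2 (abs_nonneg c)
      have h8 : |c| * (1 / (n : ℝ)) ≤ 2 * |c| / n := by
        rw [mul_one_div]
        gcongr
        linarith [abs_nonneg c]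
      linarith [h5.1]
    have e1 : u m / (m : ℝ) ^ c = u m' / (m' : ℝ) ^ c * Real.exp X := by
      rw [hX, mul_sub, Real.exp_sub, Real.exp_sub, Real.exp_sub, Real.exp_log p, Real.exp_log p',
        mul_comm c, mul_comm c, ← Real.rpow_def_of_pos hm0, ← Real.rpow_def_of_pos hm0']
      field_simp
    have hU : u m' / (m' : ℝ) ^ c ≤ B + 1 := by
      have := (abs_le.mp hw').2
      linarith
    have hU0 : 0 ≤ u m' / (m' : ℝ) ^ c := by positivity
    have hB1 : 1 ≤ 2 * (B + 1) := by linarith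
    have hX0 : 0 ≤ 2 * (2 * K * ρ n) + 2 * |c| / n := (abs_nonneg X).trans hXle
    have hX1 : |X| ≤ 1 := by
      refine hXle.trans ?_
      have : 2 * (2 * K * ρ n) + 2 * |c| / n ≤
          2 * (B + 1) * (2 * (2 * K * ρ n) + 2 * |c| / n) := by nlinarith
      linarith
    have h9 : |u m / (m : ℝ) ^ c - u m' / (m' : ℝ) ^ c| ≤ (n : ℝ) ^ (-(ε / 2)) := by
      rw [e1, show u m' / (m' : ℝ) ^ c * Real.exp X - u m' / (m' : ℝ) ^ c =
        u m' / (m' : ℝ) ^ c * (Real.exp X - 1) by ring, abs_mul, abs_of_nonneg hU0]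
      have h10 := Real.abs_exp_sub_one_le hX1
      calc u m' / (m' : ℝ) ^ c * |Real.exp X - 1|
          ≤ (B + 1) * (2 * (2 * (2 * K * ρ n) + 2 * |c| / n)) :=
            mul_le_mul hU (h10.trans (by linarith)) (abs_nonneg _) (by linarith)
        _ = 2 * (B + 1) * (2 * (2 * K * ρ n) + 2 * |c| / n) := by ring
        _ ≤ _ := d1
    calc |u m / (m : ℝ) ^ c - B| = |(u m / (m : ℝ) ^ c - u m' / (m' : ℝ) ^ c) +
          (u m' / (m' : ℝ) ^ c - B)| := by ring_nf
      _ ≤ _ := (abs_add_le _ _).trans (by linarith)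

end Pool.Agent.D0H94.T13
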