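import Pool.Agent.D0H94.T13.Cen
import Pool.Agent.D0H94.T13.StmC

/-!
# The exact number of walks with a given path of triangles
-/

set_option autoImplicit false
set_option linter.unusedVariables false

namespace Pool.Agent.D0H94.T13

open Finset
open Pool.Agent.D0H94.T12

section comb

variable {V : Type*} {A : V → V → Prop} {th : V → V → V → V} {nb : V → Fin 3 → V} [DecidableEq V]

lemma dst_self (y : V) (l : List V) : (y :: l).destutter' (· ≠ ·) y = l.destutter' (· ≠ ·) y := by
  rw [List.destutter'_cons_neg]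
  simp

lemma dst_full : ∀ (zs : List V) (x y : V) (bs : List Bool), zs.length = bs.length →
    (y :: zs.dropLast).IsChain (· ≠ ·) →
    ((ex th x y zs bs).map Prod.fst).destutter' (· ≠ ·) y = y :: zs.dropLast
  | [], x, y, bs, _, _ => by simp
  | _ :: _, _, _, [], h, _ => by simp at h
  | [z], x, y, b :: bs, h, _ => by
    cases b
    · rw [ex_false]
      simp only [List.map_cons, ex_nil, List.map_nil, dst_self]
      simp
    · rw [ex_true]
      simp only [List.map_cons, ex_nil, List.map_nil, dst_self]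
      simp
  | z :: z' :: zs, x, y, [b], h, _ => by simp at h
  | z :: z' :: zs, x, y, b :: b' :: bs, h, hc => by
    rw [List.dropLast_cons_cons, List.isChain_cons_cons] at hc
    have ih := dst_full (z' :: zs) y z (b' :: bs) (by simpa using h) hc.2
    obtain ⟨t, ht⟩ := ex_head (th := th) (x := y) (y := z) (zs := z' :: zs) (bs := b' :: bs)
      (by simp) (by simpa using h)
    rw [ht] at ih
    simp only [List.map_cons, dst_self] at ih
    cases b
    · rw [ex_false, ht]
      simp only [List.map_cons, dst_self]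
      rw [List.destutter'_cons_pos _ hc.1, ih, List.dropLast_cons_cons]
    · rw [ex_true, ht]
      simp only [List.map_cons, dst_self]
      rw [List.destutter'_cons_pos _ hc.1, ih, List.dropLast_cons_cons]

lemma pth_ex {x y : V} {zs : List V} {bs : List Bool} (h0 : zs ≠ [])
    (hl : zs.length = bs.length) (hn : (y :: zs.dropLast).Nodup) :
    pth (ex th x y zs bs) = y :: zs.dropLast := by
  obtain ⟨t, ht⟩ := ex_head (th := th) (x := x) (y := y) h0 hl
  have h1 := dst_full (th := th) zs x y bs hl (List.Pairwise.isChain hn)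
  rw [ht] at h1 ⊢
  unfold pth
  simp only [List.map_cons, dst_self] at h1
  rw [List.map_cons, List.destutter_cons']
  exact h1

/-- data with a given first outer neighbour and a property of the path -/
def XE (A : V → V → Prop) (Φ : List V → Prop) (v u : V) (m : ℕ) : Set (V × List V) :=
  {p | p ∈ XS A (m + 1) v ∧ p.1 = u ∧ Φ (v :: p.2.dropLast)}

/-- walks with triangle steps at both ends, a given first vertex and a property of the path -/
def TE (A : V → V → Prop) (Φ : List V → Prop) (N : ℕ) (v u : V) : Set (List (V × V)) :=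
  {l | l ∈ TT A N v ∧ l.head? = some (v, u) ∧ Φ (pth l)}

lemma TE_eq (C : Cub A th nb) (Φ : List V → Prop) (N : ℕ) (v u : V) : TE A Φ N v u =
    ⋃ m ∈ range N, exm th v '' (XE A Φ v u m ×ˢ B (m + 1) N) := by
  have key : ∀ (m : ℕ) (p : (V × List V) × List Bool), p ∈ XS A (m + 1) v ×ˢ B (m + 1) N →
      pth (exm th v p) = v :: p.1.2.dropLast ∧ (exm th v p).head? = some (v, p.1.1) := by
    rintro m ⟨⟨x, zs⟩, bs⟩ ⟨⟨g1, g2, g3, g4⟩, g5, g6⟩
    simp only at g1 g2 g3 g4 g5 g6
    have hz : zs ≠ [] := by
      intro e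
      rw [e] at g2
      simp at g2
    refine ⟨pth_ex hz (g2.trans g5.symm) g4, ?_⟩
    obtain ⟨t, ht⟩ := ex_head (th := th) (x := x) (y := v) hz (g2.trans g5.symm)
    unfold exm
    simp only
    rw [ht]
    rfl
  ext l
  constructor
  · rintro ⟨h1, h2, h3⟩
    rw [TT_eq C] at h1
    simp only [Set.mem_iUnion, Set.mem_image, mem_range, exists_prop] at h1 ⊢
    obtain ⟨m, hm, p, hp, rfl⟩ := h1
    rw [(key m p hp).1] at h3
    rw [(key m p hp).2] at h2
    simp only [Option.some.injEq, Prod.mk.injEq, true_and] at h2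
    exact ⟨m, hm, p, ⟨⟨hp.1, h2, h3⟩, hp.2⟩, rfl⟩
  · intro h1
    simp only [Set.mem_iUnion, Set.mem_image, mem_range, exists_prop] at h1
    obtain ⟨m, hm, p, hp, rfl⟩ := h1
    have hp' : p ∈ XS A (m + 1) v ×ˢ B (m + 1) N := ⟨hp.1.1, hp.2⟩
    refine ⟨?_, ?_, ?_⟩
    · rw [TT_eq C]
      simp only [Set.mem_iUnion, Set.mem_image, mem_range, exists_prop]
      exact ⟨m, hm, p, hp', rfl⟩
    · rw [(key m p hp').2, hp.1.2.1]
    · rw [(key m p hp').1]
      exact hp.1.2.2

lemma TE_card (C : Cub A th nb) (Φ : List V → Prop) (N : ℕ) (v u : V) :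
    (TE A Φ N v u).ncard = ∑ m ∈ range N, (XE A Φ v u m).ncard * K (m + 1) N := by
  rw [TE_eq C, exm_card C N v _ (fun m p hp => hp.1)]

/-! ### the last direction -/

/-- the last two vertices -/
def lp : V → V → List V → V × V
  | x, v, [] => (x, v)
  | _, v, w :: r => lp v w r

omit [DecidableEq V] in
lemma val_append : ∀ (r : List V) (x v z : V), Val A x v (r ++ [z]) ↔
    Val A x v r ∧ A (lp x v r).2 z ∧ z ≠ (lp x v r).1
  | [], x, v, z => by simp [Val, lp]
  | w :: r, x, v, z => by
    have ih := val_append r v w z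
    simp only [List.cons_append, Val, lp, ih]
    tauto

omit [DecidableEq V] in
lemma lp_adj (C : Cub A th nb) : ∀ (r : List V) (x v : V), A v x → Val A x v r →
    A (lp x v r).2 (lp x v r).1
  | [], x, v, h, _ => h
  | w :: r, x, v, _, h2 => lp_adj C r v w (C.symm h2.1) h2.2.2

omit [DecidableEq V] in
lemma val_of : ∀ (r : List V) (x v : V), (v :: r).IsChain A → (v :: r).Nodup →
    (∀ w ∈ r.head?, w ≠ x) → Val A x v r
  | [], _, _, _, _, _ => trivial
  | w :: r, x, v, h1, h2, h3 => by
    rw [List.isChain_cons_cons] at h1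
    have h4 := List.nodup_cons.1 h2
    refine ⟨h1.1, h3 w (by simp), val_of r v w h1.2 h4.2 ?_⟩
    intro u hu e
    apply h4.1
    subst e
    right
    exact List.mem_of_mem_head? hu

omit [DecidableEq V] in
lemma two_dirs (C : Cub A th nb) {a b : V} (h : A a b) : {z | A a z ∧ z ≠ b}.ncard = 2 := by
  obtain ⟨w, h1, h2⟩ := C.ex h
  have h3 : {z | A a z ∧ z ≠ b} = {w, th a b w} := by
    ext z
    simp only [Set.mem_ofPred_eq, Set.mem_insert_iff, Set.mem_singleton_iff]
    constructor
    · rintro ⟨h4, h5⟩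
      rcases C.all h h1 h2.symm h4 with h | h | h
      · exact absurd h h5
      · exact Or.inl h
      · exact Or.inr h
    · rintro (rfl | rfl)
      · exact ⟨h1, h2⟩
      · exact ⟨C.adj h h1 h2.symm, C.ne1 h h1 h2.symm⟩
  rw [h3, Set.ncard_pair (fun e => C.ne2 h h1 h2.symm e.symm)]

/-- walks whose first step is not `u` with a property -/
def WE (A : V → V → Prop) (Φ : List V → Prop) (v u : V) (m : ℕ) : Set (List V) :=
  {r | r ∈ W A v m ∧ (∀ w ∈ r.head?, w ≠ u) ∧ Φ (v :: r)}

omit [DecidableEq V] in
lemma WE_finite (C : Cub A th nb) (Φ : List V → Prop) (v u : V) (m : ℕ) :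
    (WE A Φ v u m).Finite := (W_finite (fin_nb C) m v).subset fun _ h => h.1

omit [DecidableEq V] in
lemma XE_card (C : Cub A th nb) (Φ : List V → Prop) {v u : V} (hv : A v u) (m : ℕ) :
    (XE A Φ v u m).ncard = 2 * (WE A Φ v u m).ncard := by
  have hWf := WE_finite C Φ v u m
  have e : XE A Φ v u m = ⋃ r ∈ hWf.toFinset, (fun z => (u, r ++ [z])) ''
      {z | A (lp u v r).2 z ∧ z ≠ (lp u v r).1} := by
    ext p
    simp only [Set.mem_iUnion, Set.mem_image, Set.Finite.mem_toFinset, exists_prop]
    constructor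
    · rintro ⟨⟨g1, g2, g3, g4⟩, g5, g6⟩
      obtain ⟨x, zs⟩ := p
      simp only at g1 g2 g3 g4 g5 g6
      subst g5
      have hz : zs ≠ [] := by
        intro e
        rw [e] at g2
        simp at g2
      have e1 : zs.dropLast ++ [zs.getLast hz] = zs := List.dropLast_append_getLast hz
      rw [← e1, val_append] at g3
      have hc := val_chain zs.dropLast x v g3.1
      refine ⟨zs.dropLast, ⟨⟨by rw [List.length_dropLast, g2]; rfl, hc, g4⟩, ?_, g6⟩,
        zs.getLast hz, g3.2, by rw [e1]⟩
      intro w hw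
      cases hr : zs.dropLast with
      | nil => rw [hr] at hw; simp at hw
      | cons w' r' =>
        rw [hr] at hw g3
        simp only [List.head?_cons, Option.mem_def, Option.some.injEq] at hw
        rw [← hw]
        exact g3.1.2.1
    · rintro ⟨r, ⟨⟨h1, h2, h3⟩, h4, h5⟩, z, hz, rfl⟩
      refine ⟨⟨hv, by simp [h1], (val_append r u v z).2 ⟨val_of r u v h2 h3 h4, hz⟩, ?_⟩, rfl, ?_⟩
      · simp only [List.dropLast_concat]
        exact h3
      · simp only [List.dropLast_concat]
        exact h5
  have hinj : ∀ r : List V, Function.Injective (fun z : V => (u, r ++ [z])) := by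
    intro r a b h
    simpa using h
  have hc : ∀ r ∈ hWf.toFinset, ((fun z => (u, r ++ [z])) ''
      {z | A (lp u v r).2 z ∧ z ≠ (lp u v r).1}).ncard = 2 := by
    intro r hr
    rw [Set.Finite.mem_toFinset] at hr
    obtain ⟨⟨h1, h2, h3⟩, h4, h5⟩ := hr
    rw [Set.ncard_image_of_injective _ (hinj r)]
    exact two_dirs C (lp_adj C r u v hv (val_of r u v h2 h3 h4))
  rw [e, ncard_biUnion_eq]
  · rw [Finset.sum_congr rfl hc, Finset.sum_const, smul_eq_mul, mul_comm,
      Set.ncard_eq_toFinset_card _ hWf]
  · intro r hr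
    exact Set.finite_of_ncard_ne_zero (by rw [hc r hr]; norm_num)
  · intro r hr r' hr' hne
    rw [Set.disjoint_left]
    rintro _ ⟨a, -, rfl⟩ ⟨b, -, h⟩
    simp only [Prod.mk.injEq, true_and] at h
    apply hne
    exact (List.append_inj_left' h rfl).symm

/-- **the exact number of walks with triangle steps at both ends** -/
theorem TE_count (C : Cub A th nb) (Φ : List V → Prop) (N : ℕ) {v u : V} (hv : A v u) :
    (TE A Φ N v u).ncard = 2 * ∑ m ∈ range N, (WE A Φ v u m).ncard * K (m + 1) N := by
  rw [TE_card C, mul_sum]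
  refine sum_congr rfl fun m _ => ?_
  rw [XE_card C Φ hv]
  ring

end comb

/-! ### binomial coefficients -/

lemma K_small : ∀ (m N : ℕ), N < 2 * m → K m N = 0
  | 0, N, h => by omega
  | m + 1, N, h => by
    unfold K
    have h1 : ∀ k, k < 2 * m → K m k = 0 := fun k hk => K_small m k hk
    split_ifs
    · rw [h1 _ (by omega), h1 _ (by omega)]
    · rw [h1 _ (by omega)]
    · rw [h1 _ (by omega)]
    · rfl

lemma K_choose : ∀ (m t : ℕ), K m (2 * m + t) = m.choose t
  | 0, t => by
    unfold K
    cases t with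
    | zero => simp
    | succ t => simp
  | m + 1, t => by
    unfold K
    rw [if_pos (by omega), show 2 * (m + 1) + t - 2 = 2 * m + t by omega, K_choose m t]
    cases t with
    | zero =>
      simp only [Nat.choose_zero_right]
      split_ifs with h
      · rw [K_small m _ (by omega)]
      · rfl
    | succ t =>
      rw [if_pos (by omega), show 2 * (m + 1) + (t + 1) - 3 = 2 * m + t by omega, K_choose m t,
        Nat.choose_succ_succ, add_comm]

lemma K_kc (m N : ℕ) : K m N = kc m N := by
  unfold kc
  split_ifs with h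
  · obtain ⟨t, rfl⟩ := Nat.exists_eq_add_of_le h
    rw [K_choose, Nat.add_sub_cancel_left]
  · exact K_small m N (by omega)

end Pool.Agent.D0H94.T13
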