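import Pool.Agent.D0H94.T13.Fm1

/-!
# The walks as functions; rotations
-/

set_option autoImplicit false
set_option linter.unusedVariables false

namespace Pool.Agent.D0H94.T13

open Finset
open Pool.Agent.D0H94.T12

section ofFn

variable {V : Type*}

lemma FT_ofFn {n : ℕ} (f : Fin (n + 2) → V × V) :
    FT (List.ofFn f) ↔ (f 0).1 = (f 1).1 := by
  have e : List.ofFn f = f 0 :: f 1 :: List.ofFn (fun i : Fin n => f i.succ.succ) := by
    rw [List.ofFn_succ, List.ofFn_succ]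
    rfl
  rw [e]
  unfold FT
  constructor
  · rintro ⟨a, b, r, h1, h2⟩
    simp only [List.cons.injEq] at h1
    rw [h1.1, h1.2.1]
    exact h2
  · intro h
    exact ⟨_, _, _, rfl, h⟩

lemma LT_ofFn {n : ℕ} (f : Fin (n + 2) → V × V) :
    T12.LT (List.ofFn f) ↔ (f (Fin.last n).castSucc).1 = (f (Fin.last (n + 1))).1 := by
  have e : List.ofFn f = List.ofFn (fun i : Fin n => f i.castSucc.castSucc) ++
      [f (Fin.last n).castSucc, f (Fin.last (n + 1))] := by
    rw [List.ofFn_succ', List.ofFn_succ']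
    simp
  rw [e]
  unfold T12.LT
  constructor
  · rintro ⟨r, a, b, h1, h2⟩
    have h3 := List.append_inj_right' h1 rfl
    simp only [List.cons.injEq, and_true] at h3
    rw [h3.1, h3.2]
    exact h2
  · intro h
    exact ⟨_, _, _, rfl, h⟩

end ofFn

/-- the first and the last step are inside triangles -/
def ends {n : ℕ} (ω : Fin (n + 1) → ℂ) : Prop :=
  ∀ i : Fin n, (i.val = 0 ∨ i.val + 1 = n) → cen (ω i.castSucc) = cen (ω i.succ)

/-- the walks with ends inside triangles and a property of the path, in coordinates -/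
def FE (S : Set (List ℂ)) (n : ℕ) : Set (Fin (n + 1) → P2 × P2) :=
  {f | f ∈ saw (AF Hx) e0 n ∧
    (∀ i : Fin n, (i.val = 0 ∨ i.val + 1 = n) → (f i.castSucc).1 = (f i.succ).1) ∧
    (pth (List.ofFn f)).map ps ∈ S}

lemma card_FE (S : Set (List ℂ)) (n : ℕ) :
    {ω | ω ∈ wF n ∧ ends ω ∧ cpath ω ∈ S}.ncard = (FE S n).ncard := by
  have e : {ω | ω ∈ wF n ∧ ends ω ∧ cpath ω ∈ S} = (fun f i => pt (f i)) '' FE S n := by
    ext ω
    constructor
    · rintro ⟨h1, h2, h3⟩
      unfold wF at h1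
      rw [emb_image embF n] at h1
      obtain ⟨f, hf, rfl⟩ := h1
      have hv := emb_v embF hf
      refine ⟨f, ⟨hf, fun i hi => ?_, ?_⟩, rfl⟩
      · have := h2 i hi
        rw [cen_pt (hv _), cen_pt (hv _)] at this
        exact ps_inj' this
      · have h4 : cpath (fun i => pt (f i)) ∈ S := h3
        rwa [cpath_eq hv] at h4
    · rintro ⟨f, ⟨hf, h2, h3⟩, rfl⟩
      have hv := emb_v embF hf
      refine ⟨?_, fun i hi => ?_, ?_⟩
      · unfold wF
        rw [emb_image embF n]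
        exact ⟨f, hf, rfl⟩
      · rw [cen_pt (hv _), cen_pt (hv _), h2 i hi]
      · show cpath (fun i => pt (f i)) ∈ S
        rwa [cpath_eq hv]
  rw [e, ((emb_inj embF n).mono fun f hf => hf.1).ncard_image]

lemma FE_TE (S : Set (List ℂ)) (n : ℕ) : (FE S (n + 1)).ncard =
    (TE Hx (fun p => p.map ps ∈ S) (n + 2) (0, 0) (1, 0)).ncard := by
  have e : TE Hx (fun p => p.map ps ∈ S) (n + 2) (0, 0) (1, 0) = List.ofFn '' FE S (n + 1) := by
    ext l
    constructor
    · rintro ⟨⟨⟨h1, h2, h3, u, r, -, h4⟩, h5, h6⟩, h7, h8⟩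
      obtain ⟨f, hf⟩ : ∃ f : Fin (n + 1 + 1) → P2 × P2, List.ofFn f = l :=
        ⟨fun i => l[i.val]'(by omega), List.ext_getElem (by simp [h1]) (fun i _ _ => by
          rw [List.getElem_ofFn])⟩
      subst hf
      rw [FT_ofFn] at h5
      rw [LT_ofFn] at h6
      refine ⟨f, ⟨⟨?_, ?_, ?_⟩, ?_, h8⟩, rfl⟩
      · rw [List.ofFn_succ] at h7
        simp only [List.head?_cons, Option.some.injEq] at h7
        exact h7
      · rw [← List.nodup_ofFn]
        exact h3
      · intro i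
        rw [List.isChain_ofFn] at h2
        exact h2 i.val (by omega)
      · intro i hi
        rcases hi with hi | hi
        · have : i = 0 := Fin.ext hi
          subst this
          exact h5
        · have : i = Fin.last n := Fin.ext (by simpa using hi)
          subst this
          exact h6
    · rintro ⟨f, ⟨⟨h1, h2, h3⟩, h4, h5⟩, rfl⟩
      have hd : (List.ofFn f).head? = some ((0, 0), (1, 0)) := by
        rw [List.ofFn_succ]
        simp only [List.head?_cons]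
        rw [h1]
        rfl
      refine ⟨⟨⟨by simp, ?_, ?_, (1, 0), List.ofFn (fun i : Fin (n + 1) => f i.succ), Hx0, ?_⟩,
        ?_, ?_⟩, hd, h5⟩
      · rw [List.isChain_ofFn]
        intro i hi
        exact h3 ⟨i, by omega⟩
      · rw [List.nodup_ofFn]
        exact h2
      · rw [List.ofFn_succ, h1]
        rfl
      · rw [FT_ofFn]
        exact h4 0 (Or.inl rfl)
      · rw [LT_ofFn]
        exact h4 (Fin.last n) (Or.inr (by simp))
  rw [e, Set.ncard_image_of_injective _ List.ofFn_injective]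

/-! ### the honeycomb side -/

/-- the walks on the honeycomb lattice -/
abbrev wH (n : ℕ) : Set (Fin (n + 1) → ℂ) := wlk hexS 1 0 n

lemma ps_one : ps ((1, 0) : P2) = 1 := by simp [ps]

lemma head_iff {m : ℕ} (f : Fin (m + 1) → P2) (u : P2) :
    (∀ w ∈ (List.ofFn fun i : Fin m => f i.succ).head?, w ≠ u) ↔
      ∀ i : Fin m, i.val = 0 → f i.succ ≠ u := by
  cases m with
  | zero => simp
  | succ m =>
    rw [List.ofFn_succ]
    simp only [List.head?_cons, Option.mem_def, Option.some.injEq, forall_eq']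
    constructor
    · intro h i hi
      have : i = 0 := Fin.ext hi
      subst this
      exact h
    · intro h
      exact h 0 rfl

lemma card_WE (S : Set (List ℂ)) (m : ℕ) :
    {γ | γ ∈ wH m ∧ (∀ i : Fin m, i.val = 0 → γ i.succ ≠ 1) ∧ List.ofFn γ ∈ S}.ncard =
      (WE Hx (fun p => p.map ps ∈ S) (0, 0) (1, 0) m).ncard := by
  obtain ⟨X, hX⟩ : ∃ X : Set (Fin (m + 1) → P2), X = {f | f ∈ saw Hx (0, 0) m ∧
    (∀ i : Fin m, i.val = 0 → f i.succ ≠ (1, 0)) ∧ (List.ofFn f).map ps ∈ S} := ⟨_, rfl⟩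
  have e1 : {γ | γ ∈ wH m ∧ (∀ i : Fin m, i.val = 0 → γ i.succ ≠ 1) ∧ List.ofFn γ ∈ S} =
      (fun f i => ps (f i)) '' X := by
    rw [hX]
    ext γ
    constructor
    · rintro ⟨h1, h2, h3⟩
      unfold wH at h1
      rw [emb_image embH m] at h1
      obtain ⟨f, hf, rfl⟩ := h1
      refine ⟨f, ⟨hf, fun i hi e => h2 i hi ?_, ?_⟩, rfl⟩
      · simp only
        rw [e, ps_one]
      · rw [List.map_ofFn]
        exact h3
    · rintro ⟨f, ⟨hf, h2, h3⟩, rfl⟩
      refine ⟨?_, fun i hi e => h2 i hi (ps_inj' ?_), ?_⟩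
      · unfold wH
        rw [emb_image embH m]
        exact ⟨f, hf, rfl⟩
      · rw [ps_one]
        exact e
      · rw [List.map_ofFn] at h3
        exact h3
  have e2 : WE Hx (fun p => p.map ps ∈ S) (0, 0) (1, 0) m =
      (fun f : Fin (m + 1) → P2 => List.ofFn fun i : Fin m => f i.succ) '' X := by
    rw [hX]
    ext r
    constructor
    · rintro ⟨h1, h2, h3⟩
      rw [W_image] at h1
      obtain ⟨f, hf, rfl⟩ := h1
      refine ⟨f, ⟨hf, (head_iff f _).1 h2, ?_⟩, rfl⟩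
      have h4 : (((0, 0) : P2) :: List.ofFn fun i : Fin m => f i.succ).map ps ∈ S := h3
      rwa [← hf.1, ← List.ofFn_succ] at h4
    · rintro ⟨f, ⟨hf, h2, h3⟩, rfl⟩
      refine ⟨?_, (head_iff f _).2 h2, ?_⟩
      · rw [W_image]
        exact ⟨f, hf, rfl⟩
      · show (((0, 0) : P2) :: List.ofFn fun i : Fin m => f i.succ).map ps ∈ S
        rwa [← hf.1, ← List.ofFn_succ]
  rw [e1, e2, ((emb_inj embH m).mono (fun f hf => by rw [hX] at hf; exact hf.1)).ncard_image,
    ((W_injOn Hx (0, 0) m).mono (fun f hf => by rw [hX] at hf; exact hf.1)).ncard_image]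

/-- **the exact count** -/
theorem exact_count (S : Set (List ℂ)) {n : ℕ} (hn : 1 ≤ n) :
    {ω | ω ∈ wF n ∧ ends ω ∧ cpath ω ∈ S}.ncard =
      2 * ∑ m ∈ range (n + 1),
        {γ | γ ∈ wH m ∧ (∀ i : Fin m, i.val = 0 → γ i.succ ≠ 1) ∧ List.ofFn γ ∈ S}.ncard *
          kc (m + 1) (n + 1) := by
  obtain ⟨k, rfl⟩ : ∃ k, n = k + 1 := ⟨n - 1, by omega⟩
  rw [card_FE, FE_TE, TE_count cub _ _ Hx0]
  congr 1
  refine sum_congr rfl fun m _ => ?_
  rw [card_WE, K_kc]

/-! ### rotations -/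

/-- the rotation by 120 degrees -/
def rot (p : P2) : P2 := (-(p.1 + p.2), p.1)

lemma rot_inj : Function.Injective rot := by
  rintro ⟨a, b⟩ ⟨c, d⟩ h
  simp only [rot, Prod.mk.injEq] at h
  obtain ⟨h1, h2⟩ := h
  subst h2
  refine Prod.ext rfl ?_
  simp only
  omega

lemma rot_adj {p q : P2} (h : Hx p q) : Hx (rot p) (rot q) := by
  obtain ⟨a, b⟩ := p
  obtain ⟨c, d⟩ := q
  obtain ⟨h1, h2, h3⟩ := h
  simp only at h1 h2 h3
  refine ⟨?_, ?_, ?_⟩
  · simp only [rot]
    linarith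
  · simp only [rot]
    omega
  · simp only [rot]
    omega

/-- walks with a given first step -/
def WU (Φ : List P2 → Prop) (m : ℕ) (u : P2) : Set (List P2) :=
  {r | r ∈ W Hx (0, 0) m ∧ r.head? = some u ∧ Φ ((0, 0) :: r)}

lemma WU_finite (Φ : List P2 → Prop) (m : ℕ) (u : P2) : (WU Φ m u).Finite :=
  (W_finite (fin_nb cub) m _).subset fun _ h => h.1

lemma WU_rot {Φ : List P2 → Prop} (hΦ : ∀ l, Φ l → Φ (l.map rot)) (m : ℕ) (u : P2) :
    (WU Φ m u).ncard ≤ (WU Φ m (rot u)).ncard := by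
  have hr0 : rot (0, 0) = (0, 0) := rfl
  refine Set.ncard_le_ncard_of_injOn (List.map rot) ?_ (List.map_injective_iff.2 rot_inj).injOn
    (WU_finite Φ m (rot u))
  rintro r ⟨⟨h1, h2, h3⟩, h4, h5⟩
  have e : ((0, 0) : P2) :: r.map rot = (((0, 0) : P2) :: r).map rot := by
    rw [List.map_cons, hr0]
  refine ⟨⟨by simpa using h1, ?_, ?_⟩, ?_, ?_⟩
  · rw [e]
    rw [List.isChain_map]
    exact h2.imp fun a b h => rot_adj h
  · rw [e]
    exact h3.map rot_inj
  · rw [List.head?_map, h4]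
    rfl
  · rw [e]
    exact hΦ _ h5

lemma nb0 {u : P2} (h : Hx (0, 0) u) : u = (1, 0) ∨ u = (-1, 1) ∨ u = (0, -1) := by
  obtain ⟨a, b⟩ := u
  obtain ⟨h1, h2, h3⟩ := h
  simp only [sub_zero] at h1 h2 h3
  simp only [Prod.mk.injEq]
  rcases units h1 with h | h | h | h | h | h <;> omega

/-- **two thirds of the walks** do not start with a given step -/
theorem two_thirds {Φ : List P2 → Prop} (hΦ : ∀ l, Φ l → Φ (l.map rot)) {m : ℕ} (hm : 1 ≤ m) :
    3 * (WE Hx Φ (0, 0) (1, 0) m).ncard = 2 * {r | r ∈ W Hx (0, 0) m ∧ Φ ((0, 0) :: r)}.ncard := by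
  have r1 : rot (1, 0) = (-1, 1) := rfl
  have r2 : rot (-1, 1) = (0, -1) := rfl
  have r3 : rot (0, -1) = (1, 0) := rfl
  have a1 := WU_rot hΦ m (1, 0)
  have a2 := WU_rot hΦ m (-1, 1)
  have a3 := WU_rot hΦ m (0, -1)
  rw [r1] at a1
  rw [r2] at a2
  rw [r3] at a3
  have hne : ∀ r ∈ W Hx (0, 0) m, ∃ u t, r = u :: t ∧ Hx (0, 0) u := by
    rintro r ⟨h1, h2, -⟩
    cases r with
    | nil => simp at h1; omega
    | cons u t =>
      rw [List.isChain_cons_cons] at h2
      exact ⟨u, t, rfl, h2.1⟩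
  have e1 : WE Hx Φ (0, 0) (1, 0) m = WU Φ m (-1, 1) ∪ WU Φ m (0, -1) := by
    ext r
    constructor
    · rintro ⟨h1, h2, h3⟩
      obtain ⟨u, t, rfl, hu⟩ := hne r h1
      rcases nb0 hu with rfl | rfl | rfl
      · exact absurd rfl (h2 (1, 0) rfl)
      · exact Or.inl ⟨h1, rfl, h3⟩
      · exact Or.inr ⟨h1, rfl, h3⟩
    · rintro (⟨h1, h2, h3⟩ | ⟨h1, h2, h3⟩)
      · refine ⟨h1, fun w hw => ?_, h3⟩
        rw [h2] at hw
        simp only [Option.mem_def, Option.some.injEq] at hw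
        rw [← hw]
        decide
      · refine ⟨h1, fun w hw => ?_, h3⟩
        rw [h2] at hw
        simp only [Option.mem_def, Option.some.injEq] at hw
        rw [← hw]
        decide
  have e2 : {r | r ∈ W Hx (0, 0) m ∧ Φ ((0, 0) :: r)} =
      WU Φ m (1, 0) ∪ (WU Φ m (-1, 1) ∪ WU Φ m (0, -1)) := by
    ext r
    constructor
    · rintro ⟨h1, h3⟩
      obtain ⟨u, t, rfl, hu⟩ := hne r h1
      rcases nb0 hu with rfl | rfl | rfl
      · exact Or.inl ⟨h1, rfl, h3⟩
      · exact Or.inr (Or.inl ⟨h1, rfl, h3⟩)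
      · exact Or.inr (Or.inr ⟨h1, rfl, h3⟩)
    · rintro (h | h | h)
      · exact ⟨h.1, h.2.2⟩
      · exact ⟨h.1, h.2.2⟩
      · exact ⟨h.1, h.2.2⟩
  have d : ∀ {u v : P2}, u ≠ v → Disjoint (WU Φ m u) (WU Φ m v) := by
    intro u v huv
    rw [Set.disjoint_left]
    rintro r ⟨-, h1, -⟩ ⟨-, h2, -⟩
    rw [h1] at h2
    simp only [Option.some.injEq] at h2
    exact huv h2
  have c1 := Set.ncard_union_eq (d (show ((-1, 1) : P2) ≠ (0, -1) by decide)) (WU_finite Φ m _)
    (WU_finite Φ m _)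
  have c2 := Set.ncard_union_eq (s := WU Φ m (1, 0)) (t := WU Φ m (-1, 1) ∪ WU Φ m (0, -1))
    (Set.disjoint_union_right.2 ⟨d (by decide), d (by decide)⟩) (WU_finite Φ m _)
    ((WU_finite Φ m _).union (WU_finite Φ m _))
  rw [e1, e2, c2, c1]
  omega

end Pool.Agent.D0H94.T13
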