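import Pool.Agent.D0H94.T13.Mom

/-!
# Consecutive lengths: moments and laws of the diameter
-/

set_option autoImplicit false
set_option linter.unusedVariables false

namespace Pool.Agent.D0H94.T13

open Filter Topology Finset
open Pool.Agent.D0H94.T12

/-! ### moments -/

lemma MM_step {q : ℝ} (hq : 0 ≤ q) : ∃ K : ℝ, 0 ≤ K ∧ ∀ n, 2 ≤ n →
    |MM q (n + 1) - MM q n| ≤ K * ρ n * MM q n := by
  obtain ⟨K, hK, h⟩ := all_path hq 1
  refine ⟨K, hK, fun n hn => ?_⟩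
  have h1 := h (G q) (fun p => by rw [abs_of_nonneg (by linarith [G_one hq p])]) n hn
  rw [diff_one, pow_one] at h1
  exact h1

lemma inv_sqrt_le {n : ℕ} (hn : 2 ≤ n) : 1 / √(n : ℝ) ≤ 2 * ρ n := by
  have hn0 : (0 : ℝ) < n := by exact_mod_cast (show 0 < n by omega)
  have sn : 0 < √(n : ℝ) := Real.sqrt_pos.2 hn0
  have l2 : (0.5 : ℝ) < Real.log n := by
    have h1 := Real.log_two_gt_d9
    have h2 : Real.log 2 ≤ Real.log n := Real.log_le_log (by norm_num) (by exact_mod_cast hn)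
    linarith
  unfold ρ
  rw [← mul_div_assoc]
  exact div_le_div_of_nonneg_right (by linarith) sn.le

lemma extend {u : ℕ → ℝ} {K : ℝ} (hK : 0 ≤ K) (h : ∀ᶠ n in atTop, |u n| ≤ K * ρ n) :
    ∃ K' : ℝ, 0 ≤ K' ∧ ∀ n, 2 ≤ n → |u n| ≤ K' * ρ n :=
  Pool.Agent.R956.V1.ev_all2 (u := fun n => |u n|) (fun n hn => rho_pos hn) hK h

/-- **the moments of the diameter at consecutive lengths** -/
theorem mo_ratio {q : ℝ} (hq : 0 ≤ q) : ∃ K : ℝ, 0 ≤ K ∧ ∀ n, 2 ≤ n →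
    |mo q (n + 1) / mo q n - 1| ≤ K * ρ n := by
  obtain ⟨K, hK, h⟩ := MM_step hq
  obtain ⟨C, hC⟩ : ∃ C : ℝ, C = 24 * (q + 1) := ⟨_, rfl⟩
  have hC0 : 0 ≤ C := by rw [hC]; linarith
  refine extend (u := fun n => mo q (n + 1) / mo q n - 1) (K := 2 * K + 4 * C) (by positivity) ?_
  have t : Tendsto (fun n => (K + 2 * C) * ρ n) atTop (𝓝 0) := by
    simpa using Pool.Agent.D0H52.FT.ρ_tendsto.const_mul (K + 2 * C)
  filter_upwards [t.eventually_lt_const (show (0 : ℝ) < 1 / 2 by norm_num),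
    eventually_ge_atTop 2] with n hs hn
  have hr := rho_nonneg n
  have h1 := abs_le.1 (h n hn)
  obtain ⟨a1, a2⟩ := mo_MM hq (n := n) (by omega)
  obtain ⟨b1, b2⟩ := mo_MM hq (n := n + 1) (by omega)
  have p0 := mo_pos hq (n := n) (by omega)
  have p1 := mo_pos hq (n := n + 1) (by omega)
  have m0 := MM_pos hq n
  have m1 := MM_pos hq (n + 1)
  rw [← hC] at a2 b2
  have hn0 : (0 : ℝ) < n := by exact_mod_cast (show 0 < n by omega)
  have sn : 0 < √(n : ℝ) := Real.sqrt_pos.2 hn0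
  obtain ⟨e1, he1⟩ : ∃ e1, e1 = K * ρ n := ⟨_, rfl⟩
  obtain ⟨e2, he2⟩ : ∃ e2, e2 = C / √(n : ℝ) := ⟨_, rfl⟩
  have e10 : 0 ≤ e1 := by rw [he1]; positivity
  have e20 : 0 ≤ e2 := by rw [he2]; positivity
  have e2r : e2 ≤ 2 * C * ρ n := by
    rw [he2]
    have := mul_le_mul_of_nonneg_left (inv_sqrt_le hn) hC0
    have e : C / √(n : ℝ) = C * (1 / √(n : ℝ)) := by ring
    rw [e]
    linarith
  have e3 : e1 ≤ 1 / 2 := by
    have : 0 ≤ 2 * C * ρ n := by positivity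
    rw [he1]; linarith
  have e4 : e2 ≤ 1 / 2 := by
    have : 0 ≤ K * ρ n := by positivity
    linarith
  have e5 : C / √((n + 1 : ℕ) : ℝ) ≤ e2 := by
    rw [he2]
    refine div_le_div_of_nonneg_left hC0 sn (Real.sqrt_le_sqrt ?_)
    push_cast
    linarith
  rw [← he2] at a2
  have b2' : (1 - e2) * MM q (n + 1) ≤ mo q (n + 1) :=
    le_trans (mul_le_mul_of_nonneg_right (by linarith) m1.le) b2
  rw [← he1] at h1
  have hM : MM q n ≤ (1 + 2 * e2) * mo q n := by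
    have h5 : (1 + 2 * e2) * ((1 - e2) * MM q n) ≤ (1 + 2 * e2) * mo q n :=
      mul_le_mul_of_nonneg_left a2 (by linarith)
    have h6 : MM q n ≤ (1 + 2 * e2) * ((1 - e2) * MM q n) := by
      have : (1 + 2 * e2) * (1 - e2) = 1 + e2 * (1 - 2 * e2) := by ring
      have h7 : 0 ≤ e2 * (1 - 2 * e2) := mul_nonneg e20 (by linarith)
      nlinarith
    linarith
  rw [abs_le]
  constructor
  · have h5 : (1 - e1 - e2) * mo q n ≤ mo q (n + 1) := by
      have h6 : (1 - e1) * MM q n ≤ MM q (n + 1) := by linarith [h1.1]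
      have h7 : (1 - e2) * ((1 - e1) * MM q n) ≤ (1 - e2) * MM q (n + 1) :=
        mul_le_mul_of_nonneg_left h6 (by linarith)
      have h8 : (1 - e2) * ((1 - e1) * mo q n) ≤ (1 - e2) * ((1 - e1) * MM q n) :=
        mul_le_mul_of_nonneg_left (mul_le_mul_of_nonneg_left a1 (by linarith)) (by linarith)
      have h9 : (1 - e1 - e2) * mo q n ≤ (1 - e2) * ((1 - e1) * mo q n) := by
        have : (1 - e2) * ((1 - e1) * mo q n) - (1 - e1 - e2) * mo q n = e1 * e2 * mo q n := by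
          ring
        have : 0 ≤ e1 * e2 * mo q n := by positivity
        linarith
      linarith
    have h6 : 1 - e1 - e2 ≤ mo q (n + 1) / mo q n := by rwa [le_div_iff₀ p0]
    have h7 : 0 ≤ C * ρ n := by positivity
    have h8 : 0 ≤ K * ρ n := by positivity
    have h9 : (2 * K + 4 * C) * ρ n = 2 * (K * ρ n) + 4 * (C * ρ n) := by ring
    rw [h9]
    have h10 : 2 * C * ρ n = 2 * (C * ρ n) := by ring
    linarith
  · have h5 : mo q (n + 1) ≤ (1 + 2 * e1 + 2 * e2) * mo q n := by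
      have h6 : MM q (n + 1) ≤ (1 + e1) * MM q n := by linarith [h1.2]
      have h7 : (1 + e1) * MM q n ≤ (1 + e1) * ((1 + 2 * e2) * mo q n) :=
        mul_le_mul_of_nonneg_left hM (by linarith)
      have h8 : (1 + e1) * ((1 + 2 * e2) * mo q n) ≤ (1 + 2 * e1 + 2 * e2) * mo q n := by
        have e : (1 + 2 * e1 + 2 * e2) * mo q n - (1 + e1) * ((1 + 2 * e2) * mo q n) =
          e1 * (1 - 2 * e2) * mo q n := by ring
        have : 0 ≤ e1 * (1 - 2 * e2) * mo q n :=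
          mul_nonneg (mul_nonneg e10 (by linarith)) p0.le
        linarith
      linarith
    have h6 : mo q (n + 1) / mo q n ≤ 1 + 2 * e1 + 2 * e2 := by rwa [div_le_iff₀ p0]
    have h9 : (2 * K + 4 * C) * ρ n = 2 * (K * ρ n) + 4 * (C * ρ n) := by ring
    rw [h9]
    have h10 : 2 * C * ρ n = 2 * (C * ρ n) := by ring
    linarith

/-- exponents of the moments along sparse sequences -/
theorem mo_expo {q : ℝ} (hq : 0 ≤ q) {s : ℕ → ℕ} (hs : Tendsto s atTop atTop)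
    (hgap : Tendsto (fun k => ((s (k + 1) : ℝ) - s k) / √(s k)) atTop (𝓝 0)) {θ : ℝ}
    (hc : Tendsto (fun k => Real.log (mo q (s k)) / Real.log (s k)) atTop (𝓝 θ)) :
    Tendsto (fun n : ℕ => Real.log (mo q n) / Real.log n) atTop (𝓝 θ) := by
  obtain ⟨K, hK, h⟩ := mo_ratio hq
  have hpos : ∀ n, 2 ≤ n → 0 < mo q n := fun n hn => mo_pos hq (by omega)
  have t : Tendsto (fun n => K * ρ n) atTop (𝓝 0) := by
    simpa using Pool.Agent.D0H52.FT.ρ_tendsto.const_mul K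
  refine Pool.Agent.R956.D2.exponent (u := mo q) hpos (K := 6 * K + 4 * K ^ 2) (by positivity)
    ?_ (M := 2) (by norm_num) ?_ hs hgap hc
  · intro n hn
    have h1 := h n hn
    have h2 := h (n + 1) (by omega)
    have h3 := rho_succ hn
    have h4 := Pool.Agent.D0H52.FT.ρ_le_two n
    have h5 := rho_nonneg n
    have p0 := hpos n hn
    have p1 := hpos (n + 1) (by omega)
    have e : mo q (n + 2) / mo q n - 1 =
        (mo q (n + 2) / mo q (n + 1) - 1) * (mo q (n + 1) / mo q n - 1) +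
        (mo q (n + 2) / mo q (n + 1) - 1) + (mo q (n + 1) / mo q n - 1) := by
      field_simp
      ring
    have hf : Pool.Agent.R956.D2.f n = ρ n := rfl
    rw [hf, e]
    have h2' : |mo q (n + 2) / mo q (n + 1) - 1| ≤ K * (2 * ρ n) :=
      h2.trans (mul_le_mul_of_nonneg_left h3 hK)
    have a1 : |(mo q (n + 2) / mo q (n + 1) - 1) * (mo q (n + 1) / mo q n - 1)| ≤
        (K * (2 * ρ n)) * (K * ρ n) := by
      rw [abs_mul]
      exact mul_le_mul h2' h1 (abs_nonneg _) (by positivity)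
    refine (abs_add_le _ _).trans ?_
    have a2 := abs_add_le ((mo q (n + 2) / mo q (n + 1) - 1) * (mo q (n + 1) / mo q n - 1))
      (mo q (n + 2) / mo q (n + 1) - 1)
    have a3 : (K * (2 * ρ n)) * (K * ρ n) ≤ 2 * K ^ 2 * 2 * ρ n := by
      have : 0 ≤ 2 * K ^ 2 * ρ n := by positivity
      nlinarith
    nlinarith [mul_nonneg hK h5]
  · filter_upwards [t.eventually_lt_const (show (0 : ℝ) < 1 / 2 by norm_num),
      eventually_ge_atTop 2] with n h1 hn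
    have p0 := hpos n hn
    have h2 := abs_le.mp ((h n hn).trans h1.le)
    constructor
    · have : mo q (n + 1) / mo q n ≤ 2 := by linarith [h2.2]
      rwa [div_le_iff₀ p0] at this
    · have h3 : (1 / 2) * mo q n ≤ mo q (n + 1) := by
        have : 1 / 2 ≤ mo q (n + 1) / mo q n := by linarith [h2.1]
        rwa [le_div_iff₀ p0] at this
      linarith

/-! ### laws -/

/-- the law of the diameter -/
noncomputable def Pd (n : ℕ) (S : Set ℝ) : ℝ :=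
  ({ω | ω ∈ wF n ∧ diam ω ∈ S}.ncard : ℝ) / (wF n).ncard

/-- the law of the path -/
noncomputable def Pc (n : ℕ) (S : Set (List ℂ)) : ℝ :=
  ({ω | ω ∈ wF n ∧ cpath ω ∈ S}.ncard : ℝ) / (wF n).ncard

/-- neighbourhood -/
def near (x : ℝ) (S : Set ℝ) : Set ℝ := {t | ∃ y ∈ S, |t - y| ≤ x}

lemma Pd_mono {n : ℕ} {S T : Set ℝ} (h : S ⊆ T) : Pd n S ≤ Pd n T := by
  unfold Pd
  refine div_le_div_of_nonneg_right ?_ (Nat.cast_nonneg _)
  have h1 : {ω | ω ∈ wF n ∧ diam ω ∈ S}.ncard ≤ {ω | ω ∈ wF n ∧ diam ω ∈ T}.ncard :=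
    Set.ncard_le_ncard (fun ω hω => ⟨hω.1, h hω.2⟩) ((fin_wF n).subset fun ω hω => hω.1)
  exact_mod_cast h1

lemma Pd_le_one (n : ℕ) (S : Set ℝ) : Pd n S ≤ 1 := by
  unfold Pd
  refine div_le_one_of_le₀ ?_ (Nat.cast_nonneg _)
  have h1 : {ω | ω ∈ wF n ∧ diam ω ∈ S}.ncard ≤ (wF n).ncard :=
    Set.ncard_le_ncard (fun ω hω => hω.1) (fin_wF n)
  exact_mod_cast h1

lemma Pd_Pc (n : ℕ) (S : Set ℝ) : Pd n S ≤ Pc n {p | dl p ∈ near (2 * (2 - √3)) S} := by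
  unfold Pd Pc
  refine div_le_div_of_nonneg_right ?_ (Nat.cast_nonneg _)
  refine Nat.cast_le.2 (Set.ncard_le_ncard (fun ω hω => ⟨hω.1, ⟨diam ω, hω.2, ?_⟩⟩)
    ((fin_wF n).subset fun ω hω => hω.1))
  rw [abs_le]
  constructor
  · linarith [diam_le hω.1]
  · linarith [dl_le hω.1]

lemma Pc_Pd (n : ℕ) (S : Set ℝ) : Pc n {p | dl p ∈ near (2 * (2 - √3)) S} ≤
    Pd n (near (4 * (2 - √3)) S) := by
  unfold Pd Pc
  refine div_le_div_of_nonneg_right ?_ (Nat.cast_nonneg _)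
  refine Nat.cast_le.2 (Set.ncard_le_ncard ?_ ((fin_wF n).subset fun ω hω => hω.1))
  rintro ω ⟨h1, y, hy, h2⟩
  refine ⟨h1, y, hy, ?_⟩
  rw [abs_le] at h2 ⊢
  have := diam_le h1
  have := dl_le h1
  constructor <;> linarith

lemma Pc_merge : ∃ K : ℝ, 0 ≤ K ∧ ∀ S : Set (List ℂ), ∀ n, 2 ≤ n → ∀ j : ℕ,
    |Pc (n + j) S - Pc n S| ≤ K * (j * ρ n) := by
  obtain ⟨K, hK, h⟩ := law_path 1
  refine ⟨4 * K, by positivity, fun S n hn j => ?_⟩
  refine chain (f := fun n => Pc n S) hK (fun m hm => ?_) hn j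
  have h1 := h S m hm
  rw [diff_one, pow_one] at h1
  exact h1

/-- **the laws of the diameter** at nearby lengths -/
theorem Pd_merge : ∃ K : ℝ, 0 ≤ K ∧ ∀ S : Set ℝ, ∀ n, 2 ≤ n → ∀ j : ℕ,
    Pd n S ≤ Pd (n + j) (near (4 * (2 - √3)) S) + K * (j * ρ n) ∧
    Pd (n + j) S ≤ Pd n (near (4 * (2 - √3)) S) + K * (j * ρ n) := by
  obtain ⟨K, hK, h⟩ := Pc_merge
  refine ⟨K, hK, fun S n hn j => ?_⟩
  have h1 := abs_le.1 (h {p | dl p ∈ near (2 * (2 - √3)) S} n hn j)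
  have a1 := Pd_Pc n S
  have a2 := Pc_Pd n S
  have b1 := Pd_Pc (n + j) S
  have b2 := Pc_Pd (n + j) S
  constructor <;> linarith [h1.1, h1.2]

/-! ### sparse lengths -/

/-- the last term of the sequence before a late value -/
lemma exists_index {s : ℕ → ℕ} (hs : Tendsto s atTop atTop) (k0 : ℕ) :
    ∃ N0 : ℕ, ∀ n, N0 ≤ n → ∃ k, k0 ≤ k ∧ s k ≤ n ∧ n < s (k + 1) := by
  obtain ⟨B, hB⟩ : ∃ B : ℕ, ∀ k ≤ k0, s k ≤ B :=
    ⟨(Finset.range (k0 + 1)).sup s, fun k hk => Finset.le_sup (Finset.mem_range.mpr (by omega))⟩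
  refine ⟨B, fun n hn => ?_⟩
  have hex : ∃ k, n < s k := (hs.eventually_gt_atTop n).exists
  classical
  have h1 := Nat.find_spec hex
  have h2 : ∀ k, k < Nat.find hex → ¬ n < s k := fun k hk => Nat.find_min hex hk
  have h3 : k0 < Nat.find hex := by
    by_contra hcon
    have := hB (Nat.find hex) (by omega)
    omega
  obtain ⟨k, hk⟩ : ∃ k, Nat.find hex = k + 1 := ⟨Nat.find hex - 1, by omega⟩
  refine ⟨k, by omega, ?_, by rw [← hk]; exact h1⟩
  have := h2 k (by omega)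
  omega

lemma windows_sub {θ ε ε' : ℝ} (h0 : 0 < θ - ε') (h1 : ε' < ε) (h2 : 0 < ε') :
    ∀ᶠ m : ℕ in atTop, ∀ n : ℕ, m ≤ n → n ≤ 2 * m →
      near (4 * (2 - √3)) (Set.Icc ((m : ℝ) ^ (θ - ε')) ((m : ℝ) ^ (θ + ε'))) ⊆
        Set.Icc ((n : ℝ) ^ (θ - ε)) ((n : ℝ) ^ (θ + ε)) := by
  have hθ : 0 < θ := by linarith
  have ht : 4 * (2 - √3) ≤ 2 := by
    have : (1.5 : ℝ) ≤ √3 := by
      rw [Real.le_sqrt' (by norm_num)]
      norm_num
    linarith
  have t : ∀ {a : ℝ}, 0 < a → ∀ c : ℝ, ∀ᶠ m : ℕ in atTop, c ≤ (m : ℝ) ^ a := fun ha c =>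
    ((tendsto_rpow_atTop ha).comp tendsto_natCast_atTop_atTop).eventually_ge_atTop c
  filter_upwards [t h0 4, t (show 0 < θ + ε' by linarith) 2,
    t (show 0 < ε - ε' by linarith) (2 * 2 ^ |θ - ε|), t (show 0 < ε - ε' by linarith) 2,
    eventually_ge_atTop 1] with m c1 c2 c3 c4 hm n hmn hn
  have hm0 : (0 : ℝ) < m := by exact_mod_cast hm
  have hmn' : (m : ℝ) ≤ n := by exact_mod_cast hmn
  have hn' : (n : ℝ) ≤ 2 * m := by exact_mod_cast hn
  have hn0 : (0 : ℝ) < n := by linarith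
  have hlow : (n : ℝ) ^ (θ - ε) ≤ 2 ^ |θ - ε| * (m : ℝ) ^ (θ - ε) := by
    rcases le_total 0 (θ - ε) with h | h
    · rw [abs_of_nonneg h, ← Real.mul_rpow (by norm_num) hm0.le]
      exact Real.rpow_le_rpow hn0.le hn' h
    · have h3 : (n : ℝ) ^ (θ - ε) ≤ (m : ℝ) ^ (θ - ε) :=
        Real.rpow_le_rpow_of_nonpos hm0 hmn' h
      have h4 : (1 : ℝ) ≤ 2 ^ |θ - ε| := Real.one_le_rpow (by norm_num) (abs_nonneg _)
      have h5 : 0 ≤ (m : ℝ) ^ (θ - ε) := Real.rpow_nonneg hm0.le _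
      nlinarith
  have e1 : (m : ℝ) ^ (θ - ε') = (m : ℝ) ^ (ε - ε') * (m : ℝ) ^ (θ - ε) := by
    rw [← Real.rpow_add hm0]
    congr 1
    ring
  have e2 : (m : ℝ) ^ (θ + ε) = (m : ℝ) ^ (ε - ε') * (m : ℝ) ^ (θ + ε') := by
    rw [← Real.rpow_add hm0]
    congr 1
    ring
  have hpos : 0 ≤ (m : ℝ) ^ (θ - ε) := Real.rpow_nonneg hm0.le _
  have hpos' : 0 ≤ (m : ℝ) ^ (θ + ε') := Real.rpow_nonneg hm0.le _
  rintro x ⟨y, ⟨hy1, hy2⟩, hxy⟩
  rw [abs_le] at hxy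
  constructor
  · have h3 : 2 * ((n : ℝ) ^ (θ - ε)) ≤ (m : ℝ) ^ (θ - ε') := by
      rw [e1]
      calc 2 * ((n : ℝ) ^ (θ - ε)) ≤ 2 * (2 ^ |θ - ε| * (m : ℝ) ^ (θ - ε)) := by linarith
        _ = (2 * 2 ^ |θ - ε|) * (m : ℝ) ^ (θ - ε) := by ring
        _ ≤ _ := mul_le_mul_of_nonneg_right c3 hpos
    linarith [hxy.1]
  · have h3 : 2 * (m : ℝ) ^ (θ + ε') ≤ (m : ℝ) ^ (θ + ε) := by
      rw [e2]
      exact mul_le_mul_of_nonneg_right c4 hpos'
    have h4 : (m : ℝ) ^ (θ + ε) ≤ (n : ℝ) ^ (θ + ε) :=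
      Real.rpow_le_rpow hm0.le hmn' (by linarith)
    linarith [hxy.2]

/-- **the diameter exponent along sparse lengths** -/
theorem sparse {θ : ℝ} (hθ : 0 < θ) {s : ℕ → ℕ} (hs : Tendsto s atTop atTop)
    (hgap : Tendsto (fun k => ((s (k + 1) : ℝ) - s k) * ρ (s k)) atTop (𝓝 0))
    (hc : ∀ ε : ℝ, 0 < ε → Tendsto (fun k => Pd (s k)
      (Set.Icc ((s k : ℝ) ^ (θ - ε)) ((s k : ℝ) ^ (θ + ε)))) atTop (𝓝 1)) :
    ∀ ε : ℝ, 0 < ε → Tendsto (fun n : ℕ => Pd n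
      (Set.Icc ((n : ℝ) ^ (θ - ε)) ((n : ℝ) ^ (θ + ε)))) atTop (𝓝 1) := by
  intro ε hε
  obtain ⟨K, hK, h⟩ := Pd_merge
  obtain ⟨ε', hε'⟩ : ∃ ε', ε' = min (ε / 2) (θ / 2) := ⟨_, rfl⟩
  have i0 : 0 < ε' := by rw [hε']; positivity
  have i1 : ε' < ε := by rw [hε']; linarith [min_le_left (ε / 2) (θ / 2)]
  have i2 : 0 < θ - ε' := by rw [hε']; linarith [min_le_right (ε / 2) (θ / 2)]
  rw [Metric.tendsto_atTop]
  intro η hη
  have g1 := (hc ε' i0).eventually_const_lt (show 1 - η / 2 < 1 by linarith)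
  have g2 : ∀ᶠ k in atTop, K * (((s (k + 1) : ℝ) - s k) * ρ (s k)) < η / 2 := by
    have t := hgap.const_mul K
    rw [mul_zero] at t
    exact t.eventually_lt_const (by linarith)
  have g3 : ∀ᶠ k in atTop, ((s (k + 1) : ℝ) - s k) * ρ (s k) < 1 / 2 :=
    hgap.eventually_lt_const (by norm_num)
  have g4 := hs.eventually (windows_sub i2 i1 i0)
  have g5 := hs.eventually_ge_atTop 2
  obtain ⟨k0, hk0⟩ := eventually_atTop.1 (g1.and (g2.and (g3.and (g4.and g5))))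
  obtain ⟨N0, hN0⟩ := exists_index hs k0
  refine ⟨N0, fun n hn => ?_⟩
  obtain ⟨k, hk, hk1, hk2⟩ := hN0 n hn
  obtain ⟨f1, f2, f3, f4, f5⟩ := hk0 k hk
  have m0 : (2 : ℝ) ≤ s k := by exact_mod_cast f5
  have hm0 : (0 : ℝ) < s k := by linarith
  have hk2' : (n : ℝ) < s (k + 1) := by exact_mod_cast hk2
  have hk1' : (s k : ℝ) ≤ n := by exact_mod_cast hk1
  -- the gap is at most `s k`
  have hgap2 : n ≤ 2 * s k := by
    have sn : 0 < √(s k : ℝ) := Real.sqrt_pos.2 hm0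
    have h3 := inv_sqrt_le f5
    have h4 : ((s (k + 1) : ℝ) - s k) * (1 / √(s k : ℝ)) ≤ 1 := by
      have h5 : 0 ≤ (s (k + 1) : ℝ) - s k := by linarith
      have h6 := mul_le_mul_of_nonneg_left h3 h5
      linarith
    rw [mul_one_div, div_le_one sn] at h4
    have h5 : √(s k : ℝ) ≤ s k := by
      rw [Real.sqrt_le_left hm0.le]
      nlinarith
    have h6 : (n : ℝ) ≤ 2 * s k := by linarith
    exact_mod_cast h6
  obtain ⟨j, rfl⟩ : ∃ j, n = s k + j := ⟨n - s k, by omega⟩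
  have h1 := (h (Set.Icc ((s k : ℝ) ^ (θ - ε')) ((s k : ℝ) ^ (θ + ε'))) (s k) f5 j).1
  have h2 := Pd_mono (n := s k + j) (f4 (s k + j) hk1 hgap2)
  have h3 : K * (j * ρ (s k)) ≤ K * (((s (k + 1) : ℝ) - s k) * ρ (s k)) := by
    refine mul_le_mul_of_nonneg_left (mul_le_mul_of_nonneg_right ?_ (rho_nonneg _)) hK
    push_cast at hk2'
    linarith
  have h4 := Pd_le_one (s k + j) (Set.Icc (((s k + j : ℕ) : ℝ) ^ (θ - ε))
    (((s k + j : ℕ) : ℝ) ^ (θ + ε)))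
  rw [Real.dist_eq, abs_lt]
  constructor <;> linarith

end Pool.Agent.D0H94.T13
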