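import Pool.Agent.D0H94.T13.Fm2
import Pool.Agent.D0H94.T13.Mom2

/-!
# The conditional law of the diameter as a mixture
-/

set_option autoImplicit false
set_option linter.unusedVariables false

namespace Pool.Agent.D0H94.T13

open Finset
open Pool.Agent.D0H94.T12

/-! ### diameters -/

lemma diam_eq {n : ℕ} (γ : Fin (n + 1) → ℂ) : diam γ = Metric.diam (Set.range γ) := by
  refine le_antisymm ?_ ?_
  · refine ciSup_le fun p => ?_
    rw [← dist_eq_norm]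
    exact Metric.dist_le_diam_of_mem (Set.finite_range γ).isBounded ⟨_, rfl⟩ ⟨_, rfl⟩
  · refine Metric.diam_le_of_forall_dist_le (diam_nonneg γ) ?_
    rintro _ ⟨i, rfl⟩ _ ⟨j, rfl⟩
    rw [dist_eq_norm]
    exact dist_le_diam γ i j

lemma dl_map (l : List P2) : dl (l.map ps) = Metric.diam (ps '' {x | x ∈ l}) := by
  unfold dl
  congr 1
  ext a
  simp

lemma dl_ofFn {n : ℕ} (γ : Fin (n + 1) → ℂ) : dl (List.ofFn γ) = diam γ := by
  rw [diam_eq]
  unfold dl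
  congr 1
  ext a
  simp only [List.mem_ofFn, Set.mem_ofPred_eq, Set.mem_range]

lemma ps_rot (p : P2) : ps (rot p) = (ww - 1) * ps p := by
  have h : ww * ww = ww - 1 := by
    apply Complex.ext
    · simp only [ww, Complex.mul_re, Complex.sub_re, Complex.one_re]
      have := s3
      linarith
    · simp only [ww, Complex.mul_im, Complex.sub_im, Complex.one_im]
      ring
  unfold ps rot
  push_cast
  linear_combination (-(p.2 : ℂ)) * h

lemma norm_rot : ‖ww - 1‖ = 1 := by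
  have h : ‖ww - 1‖ ^ 2 = 1 := by
    rw [Complex.sq_norm, Complex.normSq_apply]
    simp only [ww, Complex.sub_re, Complex.sub_im, Complex.one_re, Complex.one_im]
    have := s3
    linarith
  have h0 := norm_nonneg (ww - 1)
  nlinarith

lemma dl_rot (l : List P2) : dl ((l.map rot).map ps) = dl (l.map ps) := by
  rw [dl_map, dl_map]
  have e : ps '' {x | x ∈ l.map rot} = (fun z => (ww - 1) * z) '' (ps '' {x | x ∈ l}) := by
    ext z
    simp only [Set.mem_image, Set.mem_ofPred_eq, List.mem_map]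
    constructor
    · rintro ⟨_, ⟨x, hx, rfl⟩, rfl⟩
      exact ⟨_, ⟨x, hx, rfl⟩, (ps_rot x).symm⟩
    · rintro ⟨_, ⟨x, hx, rfl⟩, rfl⟩
      exact ⟨_, ⟨x, hx, rfl⟩, ps_rot x⟩
  rw [e]
  refine Isometry.diam_image ?_ _
  refine Isometry.of_dist_eq fun a b => ?_
  rw [dist_eq_norm, dist_eq_norm, ← mul_sub, norm_mul, norm_rot, one_mul]

lemma card_H (S : Set ℝ) (m : ℕ) : {γ | γ ∈ wH m ∧ diam γ ∈ S}.ncard =
    {r | r ∈ W Hx (0, 0) m ∧ dl (((0, 0) :: r).map ps) ∈ S}.ncard := by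
  have h1 := emb_cardQ embH m {A | Metric.diam A ∈ S}
  have h2 := saw_WQ Hx ((0, 0) : P2) m (fun T => Metric.diam (ps '' T) ∈ S)
  have e1 : {γ | γ ∈ wH m ∧ diam γ ∈ S} =
      {ω | ω ∈ wlk hexS 1 0 m ∧ Set.range ω ∈ {A | Metric.diam A ∈ S}} := by
    ext γ
    simp only [Set.mem_ofPred_eq]
    rw [diam_eq]
  rw [e1, h1]
  refine h2.trans ?_
  congr 1
  ext r
  simp only [Set.mem_ofPred_eq]
  rw [dl_map]

/-- **the exact count for the diameter** -/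
theorem count_diam (S : Set ℝ) {n : ℕ} (hn : 3 ≤ n) :
    3 * {ω | ω ∈ wF n ∧ ends ω ∧ dl (cpath ω) ∈ S}.ncard =
      4 * ∑ m ∈ range (n + 1), {γ | γ ∈ wH m ∧ diam γ ∈ S}.ncard * kc (m + 1) (n + 1) := by
  have h1 := exact_count {p | dl p ∈ S} (show 1 ≤ n by omega)
  have e0 : {ω | ω ∈ wF n ∧ ends ω ∧ dl (cpath ω) ∈ S} =
      {ω | ω ∈ wF n ∧ ends ω ∧ cpath ω ∈ {p | dl p ∈ S}} := rfl
  rw [e0, h1, ← mul_assoc, mul_sum, mul_sum]
  refine sum_congr rfl fun m _ => ?_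
  rcases Nat.eq_zero_or_pos m with hm | hm
  · subst hm
    have : kc (0 + 1) (n + 1) = 0 := by
      unfold kc
      rw [if_pos (by omega), Nat.choose_eq_zero_of_lt (by omega)]
    rw [this]
    simp
  · rw [card_WE, card_H]
    have h2 := two_thirds (Φ := fun p => dl (p.map ps) ∈ S) (fun l hl => by
      show dl ((l.map rot).map ps) ∈ S
      rw [dl_rot]
      exact hl) (show 1 ≤ m from hm)
    have e1 : WE Hx (fun p => p.map ps ∈ {p | dl p ∈ S}) (0, 0) (1, 0) m =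
        WE Hx (fun p => dl (p.map ps) ∈ S) (0, 0) (1, 0) m := rfl
    rw [e1]
    calc 3 * 2 * ((WE Hx (fun p => dl (p.map ps) ∈ S) (0, 0) (1, 0) m).ncard *
          kc (m + 1) (n + 1)) =
        2 * (3 * (WE Hx (fun p => dl (p.map ps) ∈ S) (0, 0) (1, 0) m).ncard) *
          kc (m + 1) (n + 1) := by ring
      _ = 4 * (_ * kc (m + 1) (n + 1)) := by
        rw [h2]
        ring

/-! ### sums -/

lemma sum_values {α : Type*} {A : Finset α} {D : α → ℝ} {T : Finset ℝ}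
    (hT : ∀ a ∈ A, D a ∈ T) (g : ℝ → ℝ) :
    ∑ a ∈ A, g (D a) = ∑ x ∈ T, (({a | a ∈ A ∧ D a = x} : Set α).ncard : ℝ) * g x := by
  classical
  rw [← Finset.sum_fiberwise_of_maps_to hT]
  refine Finset.sum_congr rfl fun x _ => ?_
  have h1 : ∀ a ∈ A.filter (fun a => D a = x), g (D a) = g x := fun a ha => by
    rw [(Finset.mem_filter.1 ha).2]
  rw [Finset.sum_congr rfl h1, Finset.sum_const, nsmul_eq_mul]
  congr 2
  rw [← Set.ncard_coe_finset]
  congr 1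
  ext a
  simp

/-- the walks with ends inside triangles -/
abbrev wE (n : ℕ) : Set (Fin (n + 1) → ℂ) := {ω | ω ∈ wF n ∧ ends ω}

lemma fin_wE (n : ℕ) : (wE n).Finite := (fin_wF n).subset fun _ h => h.1

lemma fin_wH (n : ℕ) : (wH n).Finite := by
  unfold wH
  rw [emb_image embH]
  exact (finH n).image _

theorem sum_exact (g : ℝ → ℝ) {n : ℕ} (hn : 3 ≤ n) :
    3 * ∑ᶠ ω ∈ wE n, g (dl (cpath ω)) =
      4 * ∑ m ∈ range (n + 1), (∑ᶠ γ ∈ wH m, g (diam γ)) * (kc (m + 1) (n + 1) : ℝ) := by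
  classical
  obtain ⟨T, hT⟩ : ∃ T : Finset ℝ, T = (fin_wE n).toFinset.image (fun ω => dl (cpath ω)) ∪
    (range (n + 1)).biUnion (fun m => (fin_wH m).toFinset.image (fun γ => diam γ)) := ⟨_, rfl⟩
  have t1 : ∀ ω ∈ (fin_wE n).toFinset, dl (cpath ω) ∈ T := fun ω hω => by
    rw [hT]
    exact Finset.mem_union_left _ (Finset.mem_image_of_mem _ hω)
  have t2 : ∀ m ∈ range (n + 1), ∀ γ ∈ (fin_wH m).toFinset, diam γ ∈ T := fun m hm γ hγ => by
    rw [hT]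
    exact Finset.mem_union_right _ (Finset.mem_biUnion.2 ⟨m, hm, Finset.mem_image_of_mem _ hγ⟩)
  have s1 : ∑ᶠ ω ∈ wE n, g (dl (cpath ω)) =
      ∑ x ∈ T, (({ω | ω ∈ wF n ∧ ends ω ∧ dl (cpath ω) ∈ ({x} : Set ℝ)}).ncard : ℝ) * g x := by
    rw [finsum_mem_eq_finite_toFinset_sum _ (fin_wE n), sum_values t1 g]
    refine Finset.sum_congr rfl fun x _ => ?_
    congr 3
    ext ω
    simp only [Set.Finite.mem_toFinset, Set.mem_ofPred_eq, Set.mem_singleton_iff]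
    tauto
  have s2 : ∀ m ∈ range (n + 1), ∑ᶠ γ ∈ wH m, g (diam γ) =
      ∑ x ∈ T, (({γ | γ ∈ wH m ∧ diam γ ∈ ({x} : Set ℝ)}).ncard : ℝ) * g x := by
    intro m hm
    rw [finsum_mem_eq_finite_toFinset_sum _ (fin_wH m), sum_values (t2 m hm) g]
    refine Finset.sum_congr rfl fun x _ => ?_
    congr 3
    ext γ
    simp only [Set.Finite.mem_toFinset, Set.mem_ofPred_eq, Set.mem_singleton_iff]
  have s3 : ∑ m ∈ range (n + 1), (∑ᶠ γ ∈ wH m, g (diam γ)) * (kc (m + 1) (n + 1) : ℝ) =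
      ∑ x ∈ T, (∑ m ∈ range (n + 1), (({γ | γ ∈ wH m ∧ diam γ ∈ ({x} : Set ℝ)}).ncard : ℝ) *
        (kc (m + 1) (n + 1) : ℝ)) * g x := by
    simp only [Finset.sum_mul]
    rw [Finset.sum_comm]
    refine Finset.sum_congr rfl fun m hm => ?_
    rw [s2 m hm, Finset.sum_mul]
    refine Finset.sum_congr rfl fun x _ => ?_
    ring
  rw [s1, s3, Finset.mul_sum, Finset.mul_sum]
  refine Finset.sum_congr rfl fun x _ => ?_
  have h := count_diam {x} hn
  have h' : (3 : ℝ) * (({ω | ω ∈ wF n ∧ ends ω ∧ dl (cpath ω) ∈ ({x} : Set ℝ)}).ncard : ℝ) =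
      4 * ∑ m ∈ range (n + 1), (({γ | γ ∈ wH m ∧ diam γ ∈ ({x} : Set ℝ)}).ncard : ℝ) *
        (kc (m + 1) (n + 1) : ℝ) := by exact_mod_cast h
  rw [← mul_assoc, h']
  ring

/-- the number of walks on the honeycomb lattice -/
noncomputable def hh (m : ℕ) : ℝ := (wH m).ncard

lemma hh_eq (m : ℕ) : hh m = aH m := by
  unfold hh
  rw [cardH]

/-- **the number of walks with ends inside triangles** -/
theorem card_wE {n : ℕ} (hn : 3 ≤ n) : ((wE n).ncard : ℝ) = 4 / 3 * ZZ hh n := by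
  have h := count_diam Set.univ hn
  have h' : (3 : ℝ) * (({ω | ω ∈ wF n ∧ ends ω ∧ dl (cpath ω) ∈ (Set.univ : Set ℝ)}).ncard : ℝ) =
      4 * ∑ m ∈ range (n + 1), (({γ | γ ∈ wH m ∧ diam γ ∈ (Set.univ : Set ℝ)}).ncard : ℝ) *
        (kc (m + 1) (n + 1) : ℝ) := by exact_mod_cast h
  have e1 : {ω | ω ∈ wF n ∧ ends ω ∧ dl (cpath ω) ∈ (Set.univ : Set ℝ)} = wE n := by
    ext ω
    simp
  have e2 : ∀ m, {γ | γ ∈ wH m ∧ diam γ ∈ (Set.univ : Set ℝ)} = wH m := by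
    intro m
    ext γ
    simp
  simp only [e1, e2] at h'
  unfold ZZ hh
  linarith

/-- the weights -/
noncomputable def wgt (n m : ℕ) : ℝ := hh m * kc (m + 1) (n + 1) / ZZ hh n

lemma hh_pos (m : ℕ) : 0 < hh m := by
  rw [hh_eq]
  have h := hexWk.pos m
  by_contra hn
  have h0 : (aH m : ℝ) = 0 := le_antisymm (not_lt.1 hn) (Nat.cast_nonneg _)
  rw [h0] at h
  simp at h

lemma kc_pos {n : ℕ} (hn : 3 ≤ n) : 0 < kc ((n - 1) / 2 + 1) (n + 1) := by
  unfold kc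
  rw [if_pos (by omega)]
  exact Nat.choose_pos (by omega)

lemma ZZ_pos {n : ℕ} (hn : 3 ≤ n) : 0 < ZZ hh n := by
  unfold ZZ
  refine lt_of_lt_of_le ?_ (Finset.single_le_sum (f := fun m => hh m * (kc (m + 1) (n + 1) : ℝ))
    (fun m _ => mul_nonneg (hh_pos m).le (Nat.cast_nonneg _)) (Finset.mem_range.2
      (show (n - 1) / 2 < n + 1 by omega)))
  exact mul_pos (hh_pos _) (by exact_mod_cast kc_pos hn)

/-- conditional expectations -/
noncomputable def Ec (n : ℕ) (F : (Fin (n + 1) → ℂ) → ℝ) : ℝ :=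
  (∑ᶠ ω ∈ wE n, F ω) / (wE n).ncard

/-- expectations on the honeycomb lattice -/
noncomputable def Eh (m : ℕ) (F : (Fin (m + 1) → ℂ) → ℝ) : ℝ :=
  (∑ᶠ γ ∈ wH m, F γ) / (wH m).ncard

/-- **the mixture** -/
theorem mean_exact (g : ℝ → ℝ) {n : ℕ} (hn : 3 ≤ n) :
    Ec n (fun ω => g (dl (cpath ω))) =
      ∑ m ∈ range (n + 1), wgt n m * Eh m (fun γ => g (diam γ)) := by
  have h := sum_exact g hn
  have hZ := ZZ_pos hn
  unfold Ec
  rw [card_wE hn]
  have e : ∑ m ∈ range (n + 1), wgt n m * Eh m (fun γ => g (diam γ)) =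
      (∑ m ∈ range (n + 1), (∑ᶠ γ ∈ wH m, g (diam γ)) * (kc (m + 1) (n + 1) : ℝ)) / ZZ hh n := by
    rw [Finset.sum_div]
    refine Finset.sum_congr rfl fun m _ => ?_
    unfold wgt Eh
    have h1 : ((wH m).ncard : ℝ) = hh m := rfl
    have h2 := (hh_pos m).ne'
    rw [h1]
    field_simp
  rw [e]
  field_simp
  linarith

/-- conditional probabilities -/
noncomputable def Pe (n : ℕ) (E : (Fin (n + 1) → ℂ) → Prop) : ℝ :=
  ({ω | ω ∈ wF n ∧ ends ω ∧ E ω}.ncard : ℝ) / (wE n).ncard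

/-- probabilities on the honeycomb lattice -/
noncomputable def Ph (m : ℕ) (E : (Fin (m + 1) → ℂ) → Prop) : ℝ :=
  ({γ | γ ∈ wH m ∧ E γ}.ncard : ℝ) / (wH m).ncard

theorem prob_exact (S : Set ℝ) {n : ℕ} (hn : 3 ≤ n) :
    Pe n (fun ω => dl (cpath ω) ∈ S) =
      ∑ m ∈ range (n + 1), wgt n m * Ph m (fun γ => diam γ ∈ S) := by
  have h := count_diam S hn
  have h' : (3 : ℝ) * (({ω | ω ∈ wF n ∧ ends ω ∧ dl (cpath ω) ∈ S}).ncard : ℝ) =
      4 * ∑ m ∈ range (n + 1), (({γ | γ ∈ wH m ∧ diam γ ∈ S}).ncard : ℝ) *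
        (kc (m + 1) (n + 1) : ℝ) := by exact_mod_cast h
  have hZ := ZZ_pos hn
  unfold Pe
  rw [card_wE hn]
  have e : ∑ m ∈ range (n + 1), wgt n m * Ph m (fun γ => diam γ ∈ S) =
      (∑ m ∈ range (n + 1), (({γ | γ ∈ wH m ∧ diam γ ∈ S}).ncard : ℝ) *
        (kc (m + 1) (n + 1) : ℝ)) / ZZ hh n := by
    rw [Finset.sum_div]
    refine Finset.sum_congr rfl fun m _ => ?_
    unfold wgt Ph
    have h1 : ((wH m).ncard : ℝ) = hh m := rfl
    have h2 := (hh_pos m).ne'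
    rw [h1]
    field_simp
  rw [e]
  field_simp
  linarith

lemma wgt_nonneg (n m : ℕ) : 0 ≤ wgt n m := by
  unfold wgt ZZ
  refine div_nonneg (mul_nonneg (hh_pos m).le (Nat.cast_nonneg _))
    (Finset.sum_nonneg fun m _ => mul_nonneg (hh_pos m).le (Nat.cast_nonneg _))

lemma wgt_sum {n : ℕ} (hn : 3 ≤ n) : ∑ m ∈ range (n + 1), wgt n m = 1 := by
  unfold wgt
  rw [← Finset.sum_div]
  exact div_self (ZZ_pos hn).ne'

lemma ZZ_SS (n : ℕ) : ZZ hh n = SS aH (n + 1) := by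
  unfold ZZ SS
  push_cast
  refine Finset.sum_congr rfl fun m _ => ?_
  rw [hh_eq, K_kc]

/-- **the ends are inside triangles with a positive probability** -/
theorem ends_pos : ∃ c : ℝ, 0 < c ∧ ∀ n, 3 ≤ n → c * (wF n).ncard ≤ (wE n).ncard := by
  obtain ⟨B, hB0, hB⟩ := rH_growth
  have hp := cmpF.hp
  have hq := cmpF.hq
  have hpq := cmpF.hpq
  have hm := mH_pos
  have hx := xx_pos
  obtain ⟨D, hD⟩ : ∃ D, D = 1 / ((mH * xx ^ 2) ^ 2 * (mH * xx ^ 3)) * (1 + B) := ⟨_, rfl⟩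
  have hD0 : 0 < D := by rw [hD]; positivity
  have hS : ∀ N, (SS aH N : ℝ) ≤ D * xx * SS aH (N + 1) := by
    intro N
    have h1 := GG_shift (r := rH) hp hq hpq (fun m => (hexWk.pos m).le) hB hB0 N
    rw [← hD, GG_SS, GG_SS] at h1
    have h2 : 0 < mH * xx ^ N := by positivity
    have e : D * (mH * xx ^ (N + 1) * (SS aH (N + 1) : ℝ)) =
        (D * xx * SS aH (N + 1)) * (mH * xx ^ N) := by rw [pow_succ]; ring
    rw [e, mul_comm (mH * xx ^ N)] at h1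
    exact le_of_mul_le_mul_right h1 h2
  obtain ⟨C, hC⟩ : ∃ C, C = 9 * (1 + 4 * (D * xx) + 3 * (D * xx) ^ 2) := ⟨_, rfl⟩
  have hC0 : 0 < C := by rw [hC]; positivity
  refine ⟨4 / 3 / C, by positivity, fun n hn => ?_⟩
  obtain ⟨k, rfl⟩ : ∃ k, n = k + 3 := ⟨n - 3, by omega⟩
  have h1 : ((aF (k + 3) : ℕ) : ℝ) ≤ 9 * (SS aH (k + 4) + 4 * SS aH (k + 3) +
    3 * SS aH (k + 2)) := by exact_mod_cast aF_upper k
  have h2 := hS (k + 3)
  have h3 := hS (k + 2)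
  have h4 : (0 : ℝ) < D * xx := by positivity
  have h5 : (SS aH (k + 2) : ℝ) ≤ (D * xx) ^ 2 * SS aH (k + 4) := by
    have := mul_le_mul_of_nonneg_left h2 h4.le
    calc (SS aH (k + 2) : ℝ) ≤ D * xx * SS aH (k + 3) := h3
      _ ≤ D * xx * (D * xx * SS aH (k + 3 + 1)) := this
      _ = _ := by ring
  rw [card_wE hn, ZZ_SS, cardF]
  rw [div_mul_eq_mul_div, div_le_iff₀ hC0]
  have h6 : (aF (k + 3) : ℝ) ≤ C * SS aH (k + 3 + 1) := by
    rw [hC]
    have e : k + 3 + 1 = k + 4 := rfl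
    rw [e] at h2 ⊢
    nlinarith
  linarith

end Pool.Agent.D0H94.T13
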