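import Pool.Agent.D0H94.T13.Fm3
import Pool.Agent.D0H93.FM.Lim1
import Pool.Agent.D0H93.FM.Lim2
import Pool.Agent.D0H74.FM.Conc

/-!
# Limit laws and moments
-/

set_option autoImplicit false
set_option linter.unusedVariables false

namespace Pool.Agent.D0H94.T13

open Filter Topology Finset
open Pool.Agent.D0H94.T12

/-- the density of triangles -/
noncomputable def cc : ℝ := (1 + mF) / (3 + 2 * mF)

lemma cc_pos : 0 < cc := by
  have := mF_pos
  unfold cc
  positivity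

lemma mF_xx : mF = 1 / xx := rfl

lemma rel : mH * (1 / mF ^ 2 + 1 / mF ^ 3) = 1 := by
  have h := cmpF.hpq
  have hx := xx_pos
  rw [mF_xx]
  have e : 1 / (1 / xx) ^ 2 + 1 / (1 / xx) ^ 3 = xx ^ 2 + xx ^ 3 := by
    field_simp
  rw [e]
  linarith

theorem conc (A : ℝ) (hA : 0 < A) : ∃ L : ℝ, 0 < L ∧ ∀ n : ℕ, 2 ≤ n →
    ∑ m ∈ (range (n + 1)).filter (fun m : ℕ =>
      L * (√(n : ℝ) * Real.log n) ≤ |(m : ℝ) - cc * n|),
      hh m * kc (m + 1) (n + 1) ≤ Real.exp (-(A * Real.log n ^ 2)) * ZZ hh n := by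
  have hlow : ∀ m, 1 * mH ^ m ≤ hh m := by
    intro m
    have h : 1 ≤ (aH m : ℝ) / mH ^ m := hexWk.one_le m
    rw [le_div_iff₀ (pow_pos mH_pos m)] at h
    rw [hh_eq]
    exact h
  obtain ⟨K, hK, h⟩ := hexUp
  have hup : ∀ m, 2 ≤ m → hh m ≤ mH ^ m * Real.exp (K * Real.log m ^ 2) := by
    intro m hm
    rw [hh_eq]
    exact h m hm
  exact Pool.Agent.D0H74.FM.t_CONC mF mH mF_gt mH_pos rel hh hh_pos ⟨1, one_pos, hlow⟩
    ⟨K, hup⟩ A hA

theorem wts : Wts wgt cc where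
  c0 := cc_pos
  nonneg := wgt_nonneg
  one := fun n hn => wgt_sum hn
  conc := by
    intro A hA
    obtain ⟨L, hL, h⟩ := conc A hA
    refine ⟨L, hL, fun n hn => ?_⟩
    have h1 := h n (by omega)
    unfold wgt
    rw [← Finset.sum_div, div_le_iff₀ (ZZ_pos hn)]
    exact h1

/-! ### limit laws -/

lemma fin_sub_wE (n : ℕ) (E : (Fin (n + 1) → ℂ) → Prop) :
    {ω | ω ∈ wF n ∧ ends ω ∧ E ω}.Finite := (fin_wF n).subset fun _ h => h.1

lemma Pe_mono {n : ℕ} {E E' : (Fin (n + 1) → ℂ) → Prop} (h : ∀ ω ∈ wF n, E ω → E' ω) :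
    Pe n E ≤ Pe n E' := by
  unfold Pe
  refine div_le_div_of_nonneg_right ?_ (Nat.cast_nonneg _)
  have h1 : {ω | ω ∈ wF n ∧ ends ω ∧ E ω}.ncard ≤ {ω | ω ∈ wF n ∧ ends ω ∧ E' ω}.ncard :=
    Set.ncard_le_ncard (fun ω hω => ⟨hω.1, hω.2.1, h ω hω.1 hω.2.2⟩) (fin_sub_wE n E')
  exact_mod_cast h1

lemma Ph_mono {m : ℕ} {E E' : (Fin (m + 1) → ℂ) → Prop} (h : ∀ γ, E γ → E' γ) :
    Ph m E ≤ Ph m E' := by
  unfold Ph
  refine div_le_div_of_nonneg_right ?_ (Nat.cast_nonneg _)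
  have h1 : {γ | γ ∈ wH m ∧ E γ}.ncard ≤ {γ | γ ∈ wH m ∧ E' γ}.ncard :=
    Set.ncard_le_ncard (fun γ hγ => ⟨hγ.1, h γ hγ.2⟩) ((fin_wH m).subset fun _ h => h.1)
  exact_mod_cast h1

lemma Ph_le_one (m : ℕ) (E : (Fin (m + 1) → ℂ) → Prop) : 0 ≤ Ph m E ∧ Ph m E ≤ 1 := by
  unfold Ph
  refine ⟨by positivity, div_le_one_of_le₀ ?_ (Nat.cast_nonneg _)⟩
  have h1 : {γ | γ ∈ wH m ∧ E γ}.ncard ≤ (wH m).ncard :=
    Set.ncard_le_ncard (fun γ hγ => hγ.1) (fin_wH m)
  exact_mod_cast h1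

/-- **limit laws of the diameter pass from the honeycomb lattice to (3.12²)** -/
theorem lim_law {θ : ℝ} (hθ : 0 < θ) {Φ : ℝ → ℝ} (hΦ : ContinuousOn Φ (Set.Ioi 0))
    (h : ∀ t : ℝ, 0 < t → Tendsto (fun m : ℕ => Ph m (fun γ => diam γ ≤ t * (m : ℝ) ^ θ)) atTop
      (𝓝 (Φ t))) (t : ℝ) (ht : 0 < t) :
    Tendsto (fun n : ℕ => Pe n (fun ω => diam ω ≤ t * (cc * n) ^ θ)) atTop (𝓝 (Φ t)) := by
  have h1 := Pool.Agent.D0H93.FM.t_LIM1 wgt cc wts (fun m x => Ph m (fun γ => diam γ ≤ x))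
    (fun m x => Ph_le_one m _) (fun m x y hxy => Ph_mono fun γ hγ => hγ.trans hxy) θ Φ hθ hΦ h
  have h2 : ∀ s : ℝ, 0 < s → Tendsto (fun n : ℕ =>
      Pe n (fun ω => dl (cpath ω) ≤ s * (cc * n) ^ θ)) atTop (𝓝 (Φ s)) := by
    intro s hs
    refine (h1 s hs).congr' ?_
    filter_upwards [eventually_ge_atTop 3] with n hn
    exact (prob_exact (Set.Iic (s * (cc * n) ^ θ)) hn).symm
  have hc := cc_pos
  have hbig : Tendsto (fun n : ℕ => (cc * (n : ℝ)) ^ θ) atTop atTop :=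
    (tendsto_rpow_atTop hθ).comp (tendsto_natCast_atTop_atTop.const_mul_atTop hc)
  have hcont : ContinuousAt Φ t := hΦ.continuousAt (Ioi_mem_nhds ht)
  have hs : 2 * (2 - √3) ≤ 1 := by
    have : (1.5 : ℝ) ≤ √3 := by
      rw [Real.le_sqrt' (by norm_num)]
      norm_num
    linarith
  rw [Metric.tendsto_nhds]
  intro η hη
  obtain ⟨δ, hδ, hδ2⟩ := Metric.continuousAt_iff.1 hcont (η / 2) (by positivity)
  obtain ⟨e, he⟩ : ∃ e, e = min (δ / 2) (t / 2) := ⟨_, rfl⟩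
  have e0 : 0 < e := by rw [he]; positivity
  have e1 : e < δ := by rw [he]; linarith [min_le_left (δ / 2) (t / 2)]
  have e2 : e < t := by rw [he]; linarith [min_le_right (δ / 2) (t / 2)]
  have k1 := hδ2 (x := t + e) (by rw [Real.dist_eq, abs_lt]; constructor <;> linarith)
  have k2 := hδ2 (x := t - e) (by rw [Real.dist_eq, abs_lt]; constructor <;> linarith)
  have m1 := Metric.tendsto_nhds.1 (h2 (t + e) (by linarith)) (η / 2) (by positivity)
  have m2 := Metric.tendsto_nhds.1 (h2 (t - e) (by linarith)) (η / 2) (by positivity)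
  filter_upwards [m1, m2, hbig.eventually_ge_atTop (1 / e)] with n c1 c2 c3
  have c4 : 1 ≤ e * (cc * (n : ℝ)) ^ θ := by
    rw [div_le_iff₀ e0] at c3
    linarith
  have u1 : Pe n (fun ω => diam ω ≤ t * (cc * n) ^ θ) ≤
      Pe n (fun ω => dl (cpath ω) ≤ (t + e) * (cc * n) ^ θ) := by
    refine Pe_mono fun ω hω h => ?_
    have := dl_le hω
    rw [add_mul]
    linarith
  have u2 : Pe n (fun ω => dl (cpath ω) ≤ (t - e) * (cc * n) ^ θ) ≤
      Pe n (fun ω => diam ω ≤ t * (cc * n) ^ θ) := by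
    refine Pe_mono fun ω hω h => ?_
    have := diam_le hω
    rw [sub_mul] at h
    linarith
  rw [Real.dist_eq, abs_lt] at c1 c2 k1 k2 ⊢
  constructor <;> linarith

/-! ### moments -/

lemma diam_upH {m : ℕ} {γ : Fin (m + 1) → ℂ} (h : γ ∈ wH m) : diam γ ≤ m := by
  have h1 : ∀ i : Fin (m + 1), ∀ j : Fin (m + 1), i ≤ j → ‖γ j - γ i‖ ≤ (j : ℕ) - (i : ℕ) := by
    intro i j
    induction j using Fin.induction with
    | zero =>
      intro hij
      have : i = 0 := le_antisymm hij (Fin.zero_le _)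
      subst this
      simp
    | succ j ih =>
      intro hij
      rcases eq_or_lt_of_le hij with he | hlt
      · rw [← he]
        simp
      · have h2 := ih (by
          rw [Fin.le_def]
          rw [Fin.lt_def] at hlt
          simp only [Fin.val_succ, Fin.val_castSucc] at hlt ⊢
          omega)
        have h3 := h.2.2.1 j
        have e : γ j.succ - γ i = (γ j.succ - γ j.castSucc) + (γ j.castSucc - γ i) := by ring
        rw [e]
        refine (norm_add_le _ _).trans ?_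
        rw [h3]
        simp only [Fin.val_succ, Fin.val_castSucc] at h2 ⊢
        push_cast
        linarith
  refine ciSup_le fun p => ?_
  have hb : ∀ i : Fin (m + 1), ((i : ℕ) : ℝ) ≤ m := fun i => by
    exact_mod_cast Nat.lt_succ_iff.1 i.2
  have hb0 : ∀ i : Fin (m + 1), (0 : ℝ) ≤ ((i : ℕ) : ℝ) := fun i => Nat.cast_nonneg _
  rcases le_total p.1 p.2 with hp | hp
  · rw [norm_sub_rev]
    have := h1 _ _ hp
    linarith [hb p.2, hb0 p.1]
  · have := h1 _ _ hp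
    linarith [hb p.1, hb0 p.2]

lemma Eh_bd {q : ℝ} (hq : 0 ≤ q) (m : ℕ) : 0 ≤ Eh m (fun γ => diam γ ^ q) ∧
    Eh m (fun γ => diam γ ^ q) ≤ ((m : ℝ) + 1) ^ q := by
  unfold Eh
  have h0 : 0 < ((wH m).ncard : ℝ) := hh_pos m
  rw [finsum_mem_eq_finite_toFinset_sum _ (fin_wH m)]
  constructor
  · exact div_nonneg (Finset.sum_nonneg fun γ _ => Real.rpow_nonneg (diam_nonneg γ) q) h0.le
  · rw [div_le_iff₀ h0]
    calc ∑ γ ∈ (fin_wH m).toFinset, diam γ ^ q ≤
        ∑ γ ∈ (fin_wH m).toFinset, ((m : ℝ) + 1) ^ q :=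
          Finset.sum_le_sum fun γ hγ => Real.rpow_le_rpow (diam_nonneg γ)
            (by linarith [diam_upH ((Set.Finite.mem_toFinset _).1 hγ)]) hq
      _ = _ := by
        rw [Finset.sum_const, nsmul_eq_mul, ← Set.ncard_eq_toFinset_card _ (fin_wH m), mul_comm]

lemma Ec_mono {n : ℕ} {F F' : (Fin (n + 1) → ℂ) → ℝ} (h : ∀ ω ∈ wF n, F ω ≤ F' ω) :
    Ec n F ≤ Ec n F' := by
  unfold Ec
  refine div_le_div_of_nonneg_right ?_ (Nat.cast_nonneg _)
  rw [finsum_mem_eq_finite_toFinset_sum _ (fin_wE n), finsum_mem_eq_finite_toFinset_sum _ (fin_wE n)]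
  exact Finset.sum_le_sum fun ω hω => h ω ((Set.Finite.mem_toFinset _).1 hω).1

lemma Ec_smul {n : ℕ} (c : ℝ) (F : (Fin (n + 1) → ℂ) → ℝ) :
    Ec n (fun ω => c * F ω) = c * Ec n F := by
  unfold Ec
  rw [finsum_mem_eq_finite_toFinset_sum _ (fin_wE n), finsum_mem_eq_finite_toFinset_sum _ (fin_wE n),
    ← Finset.mul_sum, mul_div_assoc]

lemma dl_G {q : ℝ} (hq : 0 ≤ q) {n : ℕ} (hn : 1 ≤ n) {ω : Fin (n + 1) → ℂ} (h : ω ∈ wF n) :
    dl (cpath ω) ^ q ≤ G q (cpath ω) ∧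
      (1 - 24 * (q + 1) / √(n : ℝ)) * G q (cpath ω) ≤ dl (cpath ω) ^ q := by
  have h3 := count_le h
  have hd := dl_nonneg (cpath ω)
  have hs : 0 < √(n : ℝ) := Real.sqrt_pos.2 (by exact_mod_cast hn)
  have hg : 0 < 1 + dl (cpath ω) := by linarith
  constructor
  · exact Real.rpow_le_rpow hd (by linarith) hq
  · obtain ⟨x, hx⟩ : ∃ x, x = dl (cpath ω) / (1 + dl (cpath ω)) := ⟨_, rfl⟩
    have hx0 : 0 ≤ x := by rw [hx]; positivity
    have hx1 : x ≤ 1 := by
      rw [hx, div_le_one hg]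
      linarith
    have e : dl (cpath ω) = x * (1 + dl (cpath ω)) := by
      rw [hx]
      field_simp
    have hx2 : 1 - x ≤ 24 / √(n : ℝ) := by
      rw [le_div_iff₀ hs]
      have h4 : (1 - x) * (1 + dl (cpath ω)) = 1 := by
        have : (1 - x) * (1 + dl (cpath ω)) = 1 + dl (cpath ω) - x * (1 + dl (cpath ω)) := by
          ring
        rw [this, ← e]
        ring
      have h5 : (1 - x) * √(n : ℝ) ≤ (1 - x) * (12 * (1 + dl (cpath ω))) :=
        mul_le_mul_of_nonneg_left h3 (by linarith)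
      linarith
    have h6 := pow_near hq hx0 hx1
    have h7 : 1 - 24 * (q + 1) / √(n : ℝ) ≤ x ^ q := by
      refine le_trans ?_ h6
      have h8 := mul_le_mul_of_nonneg_left hx2 (show 0 ≤ q + 1 by linarith)
      have : 24 * (q + 1) / √(n : ℝ) = (q + 1) * (24 / √(n : ℝ)) := by ring
      rw [this]
      linarith
    have e' : dl (cpath ω) ^ q = x ^ q * G q (cpath ω) := by
      unfold G
      rw [← Real.mul_rpow hx0 hg.le, ← e]
    rw [e']
    exact mul_le_mul_of_nonneg_right h7 (Real.rpow_nonneg hg.le q)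

/-- **moments of the diameter pass from the honeycomb lattice to (3.12²)** -/
theorem lim_mom {q : ℝ} (hq : 0 ≤ q) {x B : ℝ}
    (h : Tendsto (fun m : ℕ => Eh m (fun γ => diam γ ^ q) / (m : ℝ) ^ x) atTop (𝓝 B)) :
    Tendsto (fun n : ℕ => Ec n (fun ω => diam ω ^ q) / (cc * n) ^ x) atTop (𝓝 B) := by
  have h1 := Pool.Agent.D0H93.FM.t_LIM2 wgt cc wts (fun m => Eh m (fun γ => diam γ ^ q)) q
    (fun m => Eh_bd hq m) x B h
  have h2 : Tendsto (fun n : ℕ => Ec n (fun ω => dl (cpath ω) ^ q) / (cc * n) ^ x) atTop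
      (𝓝 B) := by
    refine h1.congr' ?_
    filter_upwards [eventually_ge_atTop 3] with n hn
    rw [mean_exact (fun y => y ^ q) hn]
  have hc := cc_pos
  have hκ : Tendsto (fun n : ℕ => 24 * (q + 1) / √(n : ℝ)) atTop (𝓝 0) := by
    have : Tendsto (fun n : ℕ => √(n : ℝ)) atTop atTop :=
      Real.tendsto_sqrt_atTop.comp tendsto_natCast_atTop_atTop
    exact Tendsto.div_atTop tendsto_const_nhds this
  have hl : Tendsto (fun n : ℕ => (1 - 24 * (q + 1) / √(n : ℝ)) *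
      (Ec n (fun ω => dl (cpath ω) ^ q) / (cc * n) ^ x)) atTop (𝓝 B) := by
    have := (hκ.const_sub 1).mul h2
    simpa using this
  have hu : Tendsto (fun n : ℕ => (1 - 24 * (q + 1) / √(n : ℝ))⁻¹ *
      (Ec n (fun ω => dl (cpath ω) ^ q) / (cc * n) ^ x)) atTop (𝓝 B) := by
    have := ((hκ.const_sub 1).inv₀ (by norm_num)).mul h2
    simpa using this
  refine tendsto_of_tendsto_of_tendsto_of_le_of_le' hl hu ?_ ?_
  · filter_upwards [eventually_ge_atTop 3,
      hκ.eventually_lt_const (show (0 : ℝ) < 1 / 2 by norm_num)] with n hn hk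
    have hp : 0 < (cc * (n : ℝ)) ^ x :=
      Real.rpow_pos_of_pos (mul_pos hc (by exact_mod_cast (show 0 < n by omega))) x
    rw [← mul_div_assoc]
    refine div_le_div_of_nonneg_right ?_ hp.le
    rw [← Ec_smul]
    refine Ec_mono fun ω hω => ?_
    obtain ⟨a1, a2⟩ := dl_G hq (show 1 ≤ n by omega) hω
    obtain ⟨b1, b2⟩ := diam_G hq (show 1 ≤ n by omega) hω
    exact (mul_le_mul_of_nonneg_left a1 (by linarith)).trans b2
  · filter_upwards [eventually_ge_atTop 3,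
      hκ.eventually_lt_const (show (0 : ℝ) < 1 / 2 by norm_num)] with n hn hk
    have hp : 0 < (cc * (n : ℝ)) ^ x :=
      Real.rpow_pos_of_pos (mul_pos hc (by exact_mod_cast (show 0 < n by omega))) x
    rw [← mul_div_assoc]
    refine div_le_div_of_nonneg_right ?_ hp.le
    rw [← Ec_smul]
    refine Ec_mono fun ω hω => ?_
    obtain ⟨a1, a2⟩ := dl_G hq (show 1 ≤ n by omega) hω
    obtain ⟨b1, b2⟩ := diam_G hq (show 1 ≤ n by omega) hω
    have k0 : 0 < 1 - 24 * (q + 1) / √(n : ℝ) := by linarith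
    rw [← div_eq_inv_mul, le_div_iff₀ k0, mul_comm]
    exact (mul_le_mul_of_nonneg_left b1 k0.le).trans a2

end Pool.Agent.D0H94.T13
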