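import Pool.Agent.D0H94.T13.Fm4

/-!
# The number of triangles of a walk
-/

set_option autoImplicit false
set_option linter.unusedVariables false

namespace Pool.Agent.D0H94.T13

open Filter Topology Finset
open Pool.Agent.D0H94.T12

/-- the number of elements is far from `x` -/
def Fr (x y : ℝ) (S : Set P2) : Prop := y ≤ |(S.ncard : ℝ) - x|

lemma fr_inv (x y : ℝ) : T12.Inv (Fr x y) := by
  intro z hz S hS
  unfold Fr at hS ⊢
  rwa [Set.ncard_image_of_injective _ (gm_inj hz)]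

lemma fr_mono {x y y' : ℝ} (h : y' ≤ y) (S : Set P2) (hS : Fr x y S) : Fr x y' S := h.trans hS

lemma fr_rob (x y : ℝ) : Rob Hx (Fr x y) (Fr x (y - 1)) := by
  refine ⟨fun S hS => fr_mono (by linarith) S hS, fun S a u ha hau hS => ?_⟩
  unfold Fr at hS ⊢
  have h1 : ((insert u S).ncard : ℝ) ≤ S.ncard + 1 ∧ (S.ncard : ℝ) ≤ (insert u S).ncard := by
    by_cases hf : S.Finite
    · constructor
      · exact_mod_cast Set.ncard_insert_le u S
      · exact_mod_cast Set.ncard_le_ncard (Set.subset_insert u S) (hf.insert u)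
    · have hi : (insert u S).Infinite := fun h => hf (h.subset (Set.subset_insert u S))
      rw [Set.Infinite.ncard hf, hi.ncard]
      simp
  have h2 := abs_sub_abs_le_abs_sub (((insert u S).ncard : ℝ) - x) ((S.ncard : ℝ) - x)
  have h3 : |((insert u S).ncard : ℝ) - x - ((S.ncard : ℝ) - x)| ≤ 1 := by
    rw [abs_le]
    constructor <;> linarith
  linarith

lemma aHQ_le' (x y : ℝ) (m : ℕ) : aHQ (Fr x y) m ≤ aH m ∧
    (aHQ (Fr x y) m ≠ 0 → y ≤ |((m : ℝ) + 1) - x|) := by
  constructor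
  · exact Set.ncard_le_ncard (fun r hr => hr.1) (W_finite (fin_nb cub) m _)
  · intro h
    have hne : {r | r ∈ W Hx (0, 0) m ∧ Fr x y (Sv (((0, 0) : P2) :: r))}.Nonempty := by
      rw [Set.nonempty_iff_ne_empty]
      intro h0
      apply h
      unfold aHQ hQ
      rw [h0, Set.ncard_empty]
    obtain ⟨r, ⟨h1, h2, h3⟩, h4⟩ := hne
    have e : (Sv (((0, 0) : P2) :: r)).ncard = m + 1 := by
      have e1 : Sv (((0, 0) : P2) :: r) = ((((0, 0) : P2) :: r).toFinset : Set P2) := by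
        ext z
        simp [Sv]
      rw [e1, Set.ncard_coe_finset, List.toFinset_card_of_nodup h3, List.length_cons, h1]
    unfold Fr at h4
    rw [e] at h4
    push_cast at h4
    exact h4

/-- the number of triangles -/
noncomputable def TT' {n : ℕ} (ω : Fin (n + 1) → ℂ) : ℕ := (Set.range fun i => cen (ω i)).ncard

lemma card_far (x y : ℝ) (n : ℕ) :
    {ω | ω ∈ wF n ∧ y ≤ |(TT' ω : ℝ) - x|}.ncard = aFQ (Fr x y) n := by
  have e1 : {ω | ω ∈ wF n ∧ y ≤ |(TT' ω : ℝ) - x|} = (fun f i => pt (f i)) ''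
      {f | f ∈ saw (AF Hx) e0 n ∧ Fr x y (Set.range fun i => (f i).1)} := by
    have key : ∀ f ∈ saw (AF Hx) e0 n, TT' (fun i => pt (f i)) =
        (Set.range fun i => (f i).1).ncard := by
      intro f hf
      have hv := emb_v embF hf
      have e : (Set.range fun i => cen (pt (f i))) = ps '' (Set.range fun i => (f i).1) := by
        rw [← Set.range_comp]
        congr 1
        funext i
        exact cen_pt (hv i)
      unfold TT'
      rw [e, Set.ncard_image_of_injective _ ps_inj']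
    ext ω
    constructor
    · rintro ⟨h1, h2⟩
      unfold wF at h1
      rw [emb_image embF n] at h1
      obtain ⟨f, hf, rfl⟩ := h1
      refine ⟨f, ⟨hf, ?_⟩, rfl⟩
      unfold Fr
      rw [← key f hf]
      exact h2
    · rintro ⟨f, ⟨hf, h2⟩, rfl⟩
      refine ⟨?_, ?_⟩
      · unfold wF
        rw [emb_image embF n]
        exact ⟨f, hf, rfl⟩
      · show y ≤ |(TT' (fun i => pt (f i)) : ℝ) - x|
        rw [key f hf]
        exact h2
  have e2 : {r | r ∈ W (AF Hx) e0 n ∧ Fr x y (Sf (e0 :: r))} =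
      (fun f : Fin (n + 1) → P2 × P2 => List.ofFn fun i : Fin n => f i.succ) ''
        {f | f ∈ saw (AF Hx) e0 n ∧ Fr x y (Set.range fun i => (f i).1)} := by
    have key : ∀ f ∈ saw (AF Hx) e0 n, Sf (e0 :: List.ofFn fun i : Fin n => f i.succ) =
        Set.range fun i => (f i).1 := by
      intro f hf
      rw [← hf.1, ← List.ofFn_succ]
      ext z
      simp only [Sf, List.mem_ofFn, Set.mem_ofPred_eq, Set.mem_range]
      constructor
      · rintro ⟨_, ⟨i, rfl⟩, rfl⟩
        exact ⟨i, rfl⟩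
      · rintro ⟨i, rfl⟩
        exact ⟨_, ⟨i, rfl⟩, rfl⟩
    ext r
    constructor
    · rintro ⟨h1, h2⟩
      rw [W_image] at h1
      obtain ⟨f, hf, rfl⟩ := h1
      rw [key f hf] at h2
      exact ⟨f, ⟨hf, h2⟩, rfl⟩
    · rintro ⟨f, ⟨hf, h2⟩, rfl⟩
      refine ⟨?_, ?_⟩
      · rw [W_image]
        exact ⟨f, hf, rfl⟩
      · simp only
        rw [key f hf]
        exact h2
  rw [e1, ((emb_inj embF n).mono fun f hf => hf.1).ncard_image]
  show _ = {r | r ∈ W (AF Hx) e0 n ∧ Fr x y (Sf (e0 :: r))}.ncard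
  rw [e2, ((W_injOn (AF Hx) e0 n).mono fun f hf => hf.1).ncard_image]

lemma SS_far (x y : ℝ) (n : ℕ) : (SS (aHQ (Fr x y)) (n + 1) : ℝ) ≤
    ∑ m ∈ (range (n + 1)).filter (fun m : ℕ => y ≤ |((m : ℝ) + 1) - x|),
      hh m * kc (m + 1) (n + 1) := by
  unfold SS
  push_cast
  rw [Finset.sum_filter]
  refine Finset.sum_le_sum fun m _ => ?_
  obtain ⟨h1, h2⟩ := aHQ_le' x y m
  rw [K_kc]
  split_ifs with h
  · rw [hh_eq]
    exact mul_le_mul_of_nonneg_right (by exact_mod_cast h1) (Nat.cast_nonneg _)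
  · have : aHQ (Fr x y) m = 0 := by
      by_contra h0
      exact h (h2 h0)
    rw [this]
    simp

lemma ZZ_up : ∃ D : ℝ, 0 < D ∧ ∀ n, ZZ hh n ≤ D * ZZ hh (n + 1) := by
  obtain ⟨B, hB0, hB⟩ := rH_growth
  have hp := cmpF.hp
  have hq := cmpF.hq
  have hpq := cmpF.hpq
  have hm := mH_pos
  have hx := xx_pos
  obtain ⟨D, hD⟩ : ∃ D, D = 1 / ((mH * xx ^ 2) ^ 2 * (mH * xx ^ 3)) * (1 + B) := ⟨_, rfl⟩
  have hD0 : 0 < D := by rw [hD]; positivity
  refine ⟨D * xx, by positivity, fun n => ?_⟩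
  rw [ZZ_SS, ZZ_SS]
  have h1 := GG_shift (r := rH) hp hq hpq (fun m => (hexWk.pos m).le) hB hB0 (n + 1)
  rw [← hD, GG_SS, GG_SS] at h1
  have h2 : 0 < mH * xx ^ (n + 1) := by positivity
  have e : D * (mH * xx ^ (n + 1 + 1) * (SS aH (n + 1 + 1) : ℝ)) =
      (D * xx * SS aH (n + 1 + 1)) * (mH * xx ^ (n + 1)) := by rw [pow_succ]; ring
  rw [e, mul_comm (mH * xx ^ (n + 1))] at h1
  exact le_of_mul_le_mul_right h1 h2

lemma cc_lt : cc ≤ 1 := by
  have := mF_pos
  unfold cc
  rw [div_le_one (by linarith)]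
  linarith

lemma TT_le {n : ℕ} (ω : Fin (n + 1) → ℂ) : (TT' ω : ℝ) ≤ n + 1 := by
  unfold TT'
  have h1 : (Set.range fun i => cen (ω i)).ncard ≤ n + 1 := by
    rw [← Set.image_univ]
    refine (Set.ncard_image_le Set.finite_univ).trans ?_
    rw [Set.ncard_univ, Nat.card_eq_fintype_card, Fintype.card_fin]
  exact_mod_cast h1

lemma sl {n : ℕ} (hn : 2 ≤ n) : (0.9 : ℝ) ≤ √(n : ℝ) * Real.log n := by
  have h1 : (1.4 : ℝ) ≤ √(n : ℝ) := by
    rw [Real.le_sqrt' (by norm_num)]
    have : (2 : ℝ) ≤ n := by exact_mod_cast hn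
    norm_num
    linarith
  have h2 : (0.69 : ℝ) ≤ Real.log n := by
    have h3 := Real.log_two_gt_d9
    have h4 : Real.log 2 ≤ Real.log n := Real.log_le_log (by norm_num) (by exact_mod_cast hn)
    linarith
  nlinarith

/-- **the number of triangles of a walk is concentrated** -/
theorem conc_full (A : ℝ) (hA : 0 < A) : ∃ L : ℝ, 0 < L ∧ ∀ n : ℕ, 2 ≤ n →
    ({ω | ω ∈ wF n ∧ L * (√(n : ℝ) * Real.log n) ≤ |(TT' ω : ℝ) - cc * n|}.ncard : ℝ) ≤
      Real.exp (-(A * Real.log n ^ 2)) * (wF n).ncard := by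
  obtain ⟨D, hD, hZ⟩ := ZZ_up
  obtain ⟨C, hC⟩ : ∃ C, C = 9 * (1 + 4 * D + 3 * D ^ 2) := ⟨_, rfl⟩
  have hC0 : 0 < C := by rw [hC]; positivity
  obtain ⟨L0, hL0, h⟩ := conc (4 * (A + C)) (by positivity)
  have hc := cc_pos
  have hc1 := cc_lt
  refine ⟨L0 + 10, by positivity, fun n hn => ?_⟩
  have hn0 : (0 : ℝ) < n := by exact_mod_cast (show 0 < n by omega)
  have hsl := sl hn
  rcases Nat.lt_or_ge n 4 with h4 | h4
  · -- small `n`
    have e : {ω | ω ∈ wF n ∧ (L0 + 10) * (√(n : ℝ) * Real.log n) ≤ |(TT' ω : ℝ) - cc * n|} =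
        ∅ := by
      ext ω
      simp only [Set.mem_ofPred_eq, Set.mem_empty_iff_false, iff_false, not_and, not_le]
      intro _
      have h1 := TT_le ω
      have h2 : (n : ℝ) ≤ 3 := by exact_mod_cast (show n ≤ 3 by omega)
      have h3 : (0 : ℝ) ≤ TT' ω := Nat.cast_nonneg _
      have h5 : |(TT' ω : ℝ) - cc * n| ≤ 4 := by
        rw [abs_le]
        constructor <;> nlinarith
      nlinarith
    rw [e, Set.ncard_empty]
    simp only [Nat.cast_zero]
    positivity
  · obtain ⟨k, rfl⟩ : ∃ k, n = k + 3 := ⟨n - 3, by omega⟩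
    obtain ⟨N, hN⟩ : ∃ N : ℝ, N = ((k + 3 : ℕ) : ℝ) := ⟨_, rfl⟩
    rw [← hN] at hsl hn0 ⊢
    obtain ⟨y, hy⟩ : ∃ y, y = (L0 + 10) * (√N * Real.log N) := ⟨_, rfl⟩
    rw [← hy]
    have h1 : Rob Hx (Fr (cc * N) y) (Fr (cc * N) (y - 1)) := fr_rob _ _
    have h2 : Rob Hx (Fr (cc * N) (y - 1)) (Fr (cc * N) (y - 1 - 1)) := fr_rob _ _
    have hup := aFQ_upper h1 h2 (fr_inv _ _) k
    have hup' : ((aFQ (Fr (cc * N) y) (k + 3) : ℕ) : ℝ) ≤
        9 * (SS (aHQ (Fr (cc * N) (y - 1 - 1))) (k + 4) +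
          4 * SS (aHQ (Fr (cc * N) (y - 1 - 1))) (k + 3) +
          3 * SS (aHQ (Fr (cc * N) (y - 1 - 1))) (k + 2)) := by exact_mod_cast hup
    rw [card_far]
    -- one length
    have one : ∀ j : ℕ, 2 ≤ j → k + 1 ≤ j → j ≤ k + 3 →
        (SS (aHQ (Fr (cc * N) (y - 1 - 1))) (j + 1) : ℝ) ≤
          Real.exp (-((A + C) * Real.log N ^ 2)) * ZZ hh j := by
      intro j hj2 hj hj'
      have hj0 : (0 : ℝ) < j := by exact_mod_cast (show 0 < j by omega)
      have hjN : (j : ℝ) ≤ N := by rw [hN]; exact_mod_cast hj'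
      have hNj : N ≤ j + 2 := by
        rw [hN]
        exact_mod_cast (show k + 3 ≤ j + 2 by omega)
      refine (SS_far _ _ j).trans ?_
      have hb := h j hj2
      have hsub : ∑ m ∈ (range (j + 1)).filter (fun m : ℕ => y - 1 - 1 ≤ |((m : ℝ) + 1) - cc * N|),
          hh m * (kc (m + 1) (j + 1) : ℝ) ≤ ∑ m ∈ (range (j + 1)).filter (fun m : ℕ =>
            L0 * (√(j : ℝ) * Real.log j) ≤ |(m : ℝ) - cc * j|),
            hh m * (kc (m + 1) (j + 1) : ℝ) := by
        refine Finset.sum_le_sum_of_subset_of_nonneg ?_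
          (fun m _ _ => mul_nonneg (hh_pos m).le (Nat.cast_nonneg _))
        intro m hm
        rw [Finset.mem_filter] at hm ⊢
        refine ⟨hm.1, ?_⟩
        have e : ((m : ℝ) + 1) - cc * N = ((m : ℝ) - cc * j) + (1 - cc * (N - j)) := by ring
        have h3 := hm.2
        rw [e] at h3
        have h5 := abs_add_le ((m : ℝ) - cc * j) (1 - cc * (N - j))
        have h6 : |1 - cc * (N - j)| ≤ 2 := by
          have h7 : 0 ≤ cc * (N - j) := mul_nonneg hc.le (by linarith)
          have h8 : cc * (N - j) ≤ 2 := by nlinarith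
          rw [abs_le]
          constructor <;> linarith
        have h9 : √(j : ℝ) * Real.log j ≤ √N * Real.log N := by
          have a1 : √(j : ℝ) ≤ √N := Real.sqrt_le_sqrt hjN
          have a2 : Real.log j ≤ Real.log N := Real.log_le_log hj0 hjN
          exact mul_le_mul a1 a2 (Real.log_natCast_nonneg j) (Real.sqrt_nonneg _)
        have h10 := mul_le_mul_of_nonneg_left h9 hL0.le
        have h11 : y = L0 * (√N * Real.log N) + 10 * (√N * Real.log N) := by rw [hy]; ring
        linarith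
      refine hsub.trans (hb.trans ?_)
      refine mul_le_mul_of_nonneg_right ?_ ?_
      · apply Real.exp_le_exp.2
        have l1 : Real.log N ≤ 2 * Real.log j := by
          rw [← Real.log_rpow hj0, Real.rpow_two]
          apply Real.log_le_log hn0
          have hj2' : (2 : ℝ) ≤ j := by exact_mod_cast hj2
          nlinarith
        have l0 : 0 ≤ Real.log N := by
          apply Real.log_nonneg
          have hj2' : (2 : ℝ) ≤ j := by exact_mod_cast hj2
          linarith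
        have l2 : Real.log N ^ 2 ≤ 4 * Real.log j ^ 2 := by nlinarith
        have l3 : 0 ≤ A + C := by positivity
        nlinarith [mul_le_mul_of_nonneg_left l2 l3]
      · unfold ZZ
        exact Finset.sum_nonneg fun m _ => mul_nonneg (hh_pos m).le (Nat.cast_nonneg _)
    have o1 := one (k + 3) (by omega) (by omega) (by omega)
    have o2 := one (k + 2) (by omega) (by omega) (by omega)
    have o3 := one (k + 1) (by omega) (by omega) (by omega)
    have z1 := hZ (k + 2)
    have z2 := hZ (k + 1)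
    have hE : 0 < Real.exp (-((A + C) * Real.log N ^ 2)) := Real.exp_pos _
    have hZn : ZZ hh (k + 3) ≤ (wF (k + 3)).ncard := by
      have h5 := card_wE (show 3 ≤ k + 3 by omega)
      have h6 : ((wE (k + 3)).ncard : ℝ) ≤ (wF (k + 3)).ncard := by
        have : (wE (k + 3)).ncard ≤ (wF (k + 3)).ncard :=
          Set.ncard_le_ncard (fun ω hω => hω.1) (fin_wF _)
        exact_mod_cast this
      have h7 := ZZ_pos (show 3 ≤ k + 3 by omega)
      linarith
    have z3 : ZZ hh (k + 1) ≤ D ^ 2 * ZZ hh (k + 3) := by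
      calc ZZ hh (k + 1) ≤ D * ZZ hh (k + 2) := z2
        _ ≤ D * (D * ZZ hh (k + 3)) := mul_le_mul_of_nonneg_left z1 hD.le
        _ = _ := by ring
    have hZ0 := ZZ_pos (show 3 ≤ k + 3 by omega)
    have m1 : 9 * (SS (aHQ (Fr (cc * N) (y - 1 - 1))) (k + 4) +
          4 * SS (aHQ (Fr (cc * N) (y - 1 - 1))) (k + 3) +
          3 * SS (aHQ (Fr (cc * N) (y - 1 - 1))) (k + 2) : ℝ) ≤
        C * (Real.exp (-((A + C) * Real.log N ^ 2)) * ZZ hh (k + 3)) := by
      have p2 : (SS (aHQ (Fr (cc * N) (y - 1 - 1))) (k + 3) : ℝ) ≤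
          D * (Real.exp (-((A + C) * Real.log N ^ 2)) * ZZ hh (k + 3)) := by
        refine o2.trans ((mul_le_mul_of_nonneg_left z1 hE.le).trans (le_of_eq ?_))
        ring
      have p3 : (SS (aHQ (Fr (cc * N) (y - 1 - 1))) (k + 2) : ℝ) ≤
          D ^ 2 * (Real.exp (-((A + C) * Real.log N ^ 2)) * ZZ hh (k + 3)) := by
        refine o3.trans ((mul_le_mul_of_nonneg_left z3 hE.le).trans (le_of_eq ?_))
        ring
      have p1 : (SS (aHQ (Fr (cc * N) (y - 1 - 1))) (k + 4) : ℝ) ≤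
          Real.exp (-((A + C) * Real.log N ^ 2)) * ZZ hh (k + 3) := o1
      obtain ⟨X, hX⟩ : ∃ X, X = Real.exp (-((A + C) * Real.log N ^ 2)) * ZZ hh (k + 3) := ⟨_, rfl⟩
      rw [← hX] at p1 p2 p3 ⊢
      rw [hC]
      linarith
    refine (hup'.trans m1).trans ?_
    have l2 : 1 ≤ Real.log N ^ 2 := by
      have hN4 : (4 : ℝ) ≤ N := by rw [hN]; exact_mod_cast h4
      have : 1 ≤ Real.log N := by
        rw [Real.le_log_iff_exp_le hn0]
        have := Real.exp_one_lt_d9
        linarith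
      nlinarith
    have h12 : C * Real.exp (-((A + C) * Real.log N ^ 2)) ≤ Real.exp (-(A * Real.log N ^ 2)) := by
      have h13 : C ≤ Real.exp (C * Real.log N ^ 2) := by
        have := Real.add_one_le_exp (C * Real.log N ^ 2)
        nlinarith
      calc C * Real.exp (-((A + C) * Real.log N ^ 2)) ≤
          Real.exp (C * Real.log N ^ 2) * Real.exp (-((A + C) * Real.log N ^ 2)) :=
            mul_le_mul_of_nonneg_right h13 hE.le
        _ = _ := by
          rw [← Real.exp_add]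
          congr 1
          ring
    calc C * (Real.exp (-((A + C) * Real.log N ^ 2)) * ZZ hh (k + 3)) =
        (C * Real.exp (-((A + C) * Real.log N ^ 2))) * ZZ hh (k + 3) := by ring
      _ ≤ Real.exp (-(A * Real.log N ^ 2)) * (wF (k + 3)).ncard :=
        mul_le_mul h12 hZn hZ0.le (Real.exp_pos _).le

end Pool.Agent.D0H94.T13
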