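import Pool.Agent.D0H94.T13.Fin

/-!
# The generating function
-/

set_option autoImplicit false
set_option linter.unusedVariables false

namespace Pool.Agent.D0H94.T13

open Filter Topology Finset
open Pool.Agent.D0H94.T12

/-- the two-index family -/
noncomputable def fam (s : ℕ) (F : ℕ → ℝ) (z : ℂ) (p : ℕ × ℕ) : ℂ :=
  if 2 * p.2 + s ≤ p.1 then (F p.2 : ℂ) * (p.2.choose (p.1 - 2 * p.2 - s) : ℂ) * z ^ p.1 else 0

/-- the one-index coefficient -/
noncomputable def cof (s : ℕ) (F : ℕ → ℝ) (N : ℕ) : ℝ :=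
  ∑ m ∈ range (N + 1), if 2 * m + s ≤ N then F m * (m.choose (N - 2 * m - s) : ℝ) else 0

lemma fam_row (s : ℕ) (F : ℕ → ℝ) (z : ℂ) (N : ℕ) :
    HasSum (fun m => fam s F z (N, m)) ((cof s F N : ℂ) * z ^ N) := by
  have e : (cof s F N : ℂ) * z ^ N = ∑ m ∈ range (N + 1), fam s F z (N, m) := by
    unfold cof fam
    push_cast
    rw [Finset.sum_mul]
    refine Finset.sum_congr rfl fun m _ => ?_
    split_ifs <;> simp
  rw [e]
  apply hasSum_sum_of_ne_finset_zero
  intro m hm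
  unfold fam
  rw [if_neg]
  simp only [mem_range] at hm
  simp only
  omega

lemma fam_col (s : ℕ) (F : ℕ → ℝ) (z : ℂ) (m : ℕ) :
    HasSum (fun N => fam s F z (N, m)) (z ^ s * ((F m : ℂ) * (z ^ 2 + z ^ 3) ^ m)) := by
  have hinj : Function.Injective (fun j : ℕ => 2 * m + s + j) := fun a b h => by
    simpa using h
  have h0 : ∀ N, N ∉ Set.range (fun j : ℕ => 2 * m + s + j) → fam s F z (N, m) = 0 := by
    intro N hN
    unfold fam
    rw [if_neg]
    simp only
    intro h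
    exact hN ⟨N - (2 * m + s), by simp only; omega⟩
  rw [← hinj.hasSum_iff h0]
  have e : z ^ s * ((F m : ℂ) * (z ^ 2 + z ^ 3) ^ m) =
      ∑ j ∈ range (m + 1), fam s F z (2 * m + s + j, m) := by
    have e1 : (z ^ 2 + z ^ 3) ^ m = z ^ (2 * m) * (z + 1) ^ m := by
      rw [pow_mul, ← mul_pow]
      congr 1
      ring
    rw [e1, add_pow, Finset.mul_sum, Finset.mul_sum, Finset.mul_sum]
    refine Finset.sum_congr rfl fun j _ => ?_
    unfold fam
    rw [if_pos (by simp only; omega)]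
    simp only
    rw [show 2 * m + s + j - 2 * m - s = j by omega, pow_add, pow_add]
    simp only [one_pow, mul_one]
    ring
  rw [e]
  apply hasSum_sum_of_ne_finset_zero
  intro j hj
  unfold fam
  simp only [mem_range] at hj
  simp only [Function.comp_apply]
  rw [if_pos (by omega), show 2 * m + s + j - 2 * m - s = j by omega,
    Nat.choose_eq_zero_of_lt (by omega)]
  simp

lemma fam_summable {s : ℕ} {F : ℕ → ℝ} (hF : ∀ m, 0 ≤ F m) {z : ℂ}
    (h : Summable fun N => cof s F N * ‖z‖ ^ N) : Summable (fam s F z) := by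
  apply Summable.of_norm
  have hn : ∀ p, ‖fam s F z p‖ = (fam s F (‖z‖ : ℂ) p).re := by
    intro p
    unfold fam
    split_ifs with hp
    · rw [norm_mul, norm_mul, norm_pow, Complex.norm_real, Complex.norm_natCast,
        Real.norm_of_nonneg (hF _)]
      norm_cast
    · simp
  have hn' : ∀ p, fam s F (‖z‖ : ℂ) p = ((‖fam s F z p‖ : ℝ) : ℂ) := by
    intro p
    rw [hn]
    unfold fam
    split_ifs
    · norm_cast
    · simp
  rw [summable_prod_of_nonneg (fun p => norm_nonneg _)]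
  have hrow : ∀ N, HasSum (fun m => ‖fam s F z (N, m)‖) (cof s F N * ‖z‖ ^ N) := by
    intro N
    have h1 := fam_row s F (‖z‖ : ℂ) N
    simp only [hn'] at h1
    have h2 : ((cof s F N : ℂ) * (‖z‖ : ℂ) ^ N) = ((cof s F N * ‖z‖ ^ N : ℝ) : ℂ) := by
      push_cast
      rfl
    rw [h2] at h1
    exact_mod_cast h1
  refine ⟨fun N => (hrow N).summable, ?_⟩
  simpa only [(hrow _).tsum_eq] using h

theorem fam_main {s : ℕ} {F : ℕ → ℝ} (hF : ∀ m, 0 ≤ F m) {z : ℂ}
    (h : Summable fun N => cof s F N * ‖z‖ ^ N) :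
    HasSum (fun N => (cof s F N : ℂ) * z ^ N) (z ^ s * ∑' m, (F m : ℂ) * (z ^ 2 + z ^ 3) ^ m) := by
  have hs := fam_summable hF h
  have h1 : HasSum (fun N => (cof s F N : ℂ) * z ^ N) (∑' p, fam s F z p) :=
    hs.hasSum.prod_fiberwise (fam_row s F z)
  have h2 : HasSum (fun m => z ^ s * ((F m : ℂ) * (z ^ 2 + z ^ 3) ^ m)) (∑' p, fam s F z p) := by
    have h3 : HasSum (fam s F z ∘ Prod.swap) (∑' p, fam s F z p) :=
      (Equiv.prodComm ℕ ℕ).hasSum_iff.2 hs.hasSum
    exact h3.prod_fiberwise (fun m => fam_col s F z m)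
  rw [← h2.tsum_eq, tsum_mul_left] at h1
  exact h1

lemma col_summable {s : ℕ} {F : ℕ → ℝ} (hF : ∀ m, 0 ≤ F m) {x : ℝ} (hx : 0 < x)
    (h : Summable fun N => cof s F N * x ^ N) : Summable fun m => F m * (x ^ 2 + x ^ 3) ^ m := by
  have hz : ‖(x : ℂ)‖ = x := by rw [Complex.norm_real, Real.norm_of_nonneg hx.le]
  have hs := fam_summable (z := (x : ℂ)) hF (by rw [hz]; exact h)
  have h3 : Summable (fam s F (x : ℂ) ∘ Prod.swap) := (Equiv.prodComm ℕ ℕ).summable_iff.2 hs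
  have h4 : Summable fun m => (x : ℂ) ^ s * ((F m : ℂ) * ((x : ℂ) ^ 2 + (x : ℂ) ^ 3) ^ m) :=
    (h3.hasSum.prod_fiberwise (fun m => fam_col s F (x : ℂ) m)).summable
  have h5 : Summable fun m => ((x ^ s * (F m * (x ^ 2 + x ^ 3) ^ m) : ℝ) : ℂ) := by
    refine h4.congr fun m => ?_
    push_cast
    ring
  have h6 : Summable fun m => x ^ s * (F m * (x ^ 2 + x ^ 3) ^ m) := by
    exact_mod_cast h5
  exact (summable_mul_left_iff (pow_pos hx s).ne').1 h6

lemma cof_nonneg {s : ℕ} {F : ℕ → ℝ} (hF : ∀ m, 0 ≤ F m) (N : ℕ) : 0 ≤ cof s F N :=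
  Finset.sum_nonneg fun m _ => by
    split_ifs
    · exact mul_nonneg (hF m) (Nat.cast_nonneg _)
    · exact le_rfl

lemma mix_cof (S : ℕ) (F : ℕ → ℕ → ℝ) (N : ℕ) :
    mix S F N = ∑ s ∈ range (S + 1), cof s (fun m => F m s) N := by
  unfold mix cof
  exact Finset.sum_comm

/-- **analytic extension of mixtures** -/
theorem mix_ext {S : ℕ} {F : ℕ → ℕ → ℝ} (hF : ∀ m s, 0 ≤ F m s) {xc : ℝ} (hxc : 0 < xc)
    (h : ∀ x, 0 < x → x < xc → Summable fun N => mix S F N * x ^ N) :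
    ∃ H : ℂ → ℂ, DifferentiableOn ℂ H {z | ‖z ^ 2 + z ^ 3‖ < xc ^ 2 + xc ^ 3} ∧
      ∀ z : ℂ, ‖z‖ < xc → HasSum (fun N => (mix S F N : ℂ) * z ^ N) (H z) := by
  have hco : ∀ s ∈ range (S + 1), ∀ x, 0 < x → x < xc →
      Summable fun N => cof s (fun m => F m s) N * x ^ N := by
    intro s hs x hx hxx
    refine Summable.of_nonneg_of_le (fun N => mul_nonneg (cof_nonneg (fun m => hF m s) N)
      (pow_nonneg hx.le N)) (fun N => ?_) (h x hx hxx)
    refine mul_le_mul_of_nonneg_right ?_ (pow_nonneg hx.le N)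
    rw [mix_cof]
    exact Finset.single_le_sum (f := fun s => cof s (fun m => F m s) N)
      (fun s _ => cof_nonneg (fun m => hF m s) N) hs
  refine ⟨fun z => ∑ s ∈ range (S + 1), z ^ s * ∑' m, (F m s : ℂ) * (z ^ 2 + z ^ 3) ^ m, ?_, ?_⟩
  · refine DifferentiableOn.fun_sum fun s hs => ?_
    refine DifferentiableOn.mul (by fun_prop) ?_
    intro z hz
    -- a larger radius
    obtain ⟨x, hx0, hxx, hzx⟩ : ∃ x, 0 < x ∧ x < xc ∧ ‖z ^ 2 + z ^ 3‖ < x ^ 2 + x ^ 3 := by
      have hc : ContinuousAt (fun x : ℝ => x ^ 2 + x ^ 3) xc := by fun_prop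
      have h1 : ∀ᶠ x in 𝓝 xc, ‖z ^ 2 + z ^ 3‖ < x ^ 2 + x ^ 3 :=
        hc.eventually_const_lt hz
      have h2 : ∀ᶠ x in 𝓝[<] xc, ‖z ^ 2 + z ^ 3‖ < x ^ 2 + x ^ 3 := h1.filter_mono inf_le_left
      have h3 : ∀ᶠ x in 𝓝[<] xc, 0 < x := (lt_mem_nhds hxc).filter_mono inf_le_left
      obtain ⟨x, ⟨a1, a2⟩, a3⟩ := ((h2.and h3).and self_mem_nhdsWithin).exists
      exact ⟨x, a2, a3, a1⟩
    have hopen : IsOpen {w : ℂ | ‖w ^ 2 + w ^ 3‖ < x ^ 2 + x ^ 3} :=
      isOpen_lt (by fun_prop) continuous_const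
    have hd : DifferentiableOn ℂ (fun w : ℂ => ∑' m, (F m s : ℂ) * (w ^ 2 + w ^ 3) ^ m)
        {w : ℂ | ‖w ^ 2 + w ^ 3‖ < x ^ 2 + x ^ 3} := by
      refine Complex.differentiableOn_tsum_of_summable_norm
        (col_summable (s := s) (fun m => hF m s) hx0 (hco s hs x hx0 hxx))
        (fun m => by fun_prop) hopen ?_
      intro m w hw
      rw [norm_mul, norm_pow, Complex.norm_real, Real.norm_of_nonneg (hF m s)]
      exact mul_le_mul_of_nonneg_left (pow_le_pow_left₀ (norm_nonneg _) (le_of_lt hw) m) (hF m s)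
    exact (hd.differentiableAt (hopen.mem_nhds hzx)).differentiableWithinAt
  · intro z hz
    have hsum : ∀ s ∈ range (S + 1), Summable fun N => cof s (fun m => F m s) N * ‖z‖ ^ N := by
      intro s hs
      obtain ⟨x, hx1, hx2⟩ := exists_between hz
      have hx0 : 0 < x := (norm_nonneg z).trans_lt hx1
      refine Summable.of_nonneg_of_le (fun N => mul_nonneg (cof_nonneg (fun m => hF m s) N)
        (pow_nonneg (norm_nonneg z) N)) (fun N => ?_) (hco s hs x hx0 hx2)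
      exact mul_le_mul_of_nonneg_left (pow_le_pow_left₀ (norm_nonneg z) hx1.le N)
        (cof_nonneg (fun m => hF m s) N)
    have h1 := hasSum_sum (s := range (S + 1)) fun s hs => fam_main (fun m => hF m s) (hsum s hs)
    convert h1 using 1
    funext N
    rw [mix_cof]
    push_cast
    rw [Finset.sum_mul]

/-- the numbers of walks and the mixture -/
lemma aF_mix {n : ℕ} (hn : 3 ≤ n) :
    (aF n : ℝ) = mix 6 (FF Hx thd (0, 0) (obs e0 (fun _ => 1))) (n + 1) := by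
  rw [← BB_one, ← tot_obs, tot_eq (th := thd) cub (0, 0) (obs_inv e0 _) (by omega)]

lemma FF_obs_nonneg (m s : ℕ) : 0 ≤ FF Hx thd (0, 0) (obs e0 (fun _ => 1)) m s := by
  unfold FF
  rw [finsum_mem_eq_finite_toFinset_sum _ (Kms_finite cub (0, 0) m s)]
  refine Finset.sum_nonneg fun κ _ => ?_
  unfold obs
  split_ifs <;> norm_num

lemma aF_summable {x : ℝ} (hx : 0 < x) (hxx : x < xx) : Summable fun n => (aF n : ℝ) * x ^ n := by
  obtain ⟨K, hK, h⟩ := sF_up
  obtain ⟨q, hq⟩ : ∃ q, q = x / xx := ⟨_, rfl⟩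
  have hq0 : 0 < q := by rw [hq]; exact div_pos hx xx_pos
  have hq1 : q < 1 := by rw [hq]; exact (div_lt_one xx_pos).2 hxx
  obtain ⟨q', hq'1, hq'2⟩ := exists_between hq1
  have hq'0 : 0 < q' := hq0.trans hq'1
  -- `sF n ≤ C (q'/q)^n`
  have hlim : Tendsto (fun n : ℕ => Real.exp (Real.log (sF n) / n)) atTop (𝓝 1) := by
    have := (Real.continuous_exp.tendsto 0).comp sF_lim
    rwa [Real.exp_zero] at this
  have h1 : ∀ᶠ n : ℕ in atTop, Real.exp (Real.log (sF n) / n) < q' / q :=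
    hlim.eventually_lt_const ((one_lt_div hq0).2 hq'1)
  have h2 : ∀ᶠ n : ℕ in atTop, (aF n : ℝ) * x ^ n ≤ q' ^ n := by
    filter_upwards [h1, eventually_ge_atTop 1] with n h3 hn
    have hn0 : (n : ℝ) ≠ 0 := by exact_mod_cast (show n ≠ 0 by omega)
    have hs : 0 < sF n := one_pos.trans_le (one_le_sF n)
    have h4 : sF n ≤ (q' / q) ^ n := by
      calc sF n = Real.exp (Real.log (sF n) / n) ^ n := by
            rw [← Real.exp_nat_mul, mul_div_cancel₀ _ hn0, Real.exp_log hs]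
        _ ≤ _ := pow_le_pow_left₀ (Real.exp_pos _).le h3.le n
    have e : (aF n : ℝ) * x ^ n = sF n * q ^ n := by
      unfold sF
      rw [hq, div_pow]
      have := (pow_pos xx_pos n).ne'
      field_simp
    rw [e]
    calc sF n * q ^ n ≤ (q' / q) ^ n * q ^ n := mul_le_mul_of_nonneg_right h4 (pow_pos hq0 n).le
      _ = q' ^ n := by rw [← mul_pow, div_mul_cancel₀ _ hq0.ne']
  refine Summable.of_norm_bounded_eventually_nat (g := fun n => q' ^ n)
    (summable_geometric_of_lt_one hq'0.le hq'2) ?_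
  filter_upwards [h2] with n h3
  rw [Real.norm_of_nonneg (by positivity)]
  exact h3

/-- **the generating function on (3.12²)** -/
theorem gf : ∃ f : ℂ → ℂ, DifferentiableOn ℂ f {z | mH * ‖z ^ 2 + z ^ 3‖ < 1} ∧
    ∀ z : ℂ, mF * ‖z‖ < 1 → HasSum (fun n => (aF n : ℂ) * z ^ n) (f z) := by
  obtain ⟨F, hFe⟩ : ∃ F, F = FF Hx thd (0, 0) (obs e0 (fun _ => 1)) := ⟨_, rfl⟩
  have hF : ∀ m s, 0 ≤ F m s := fun m s => by rw [hFe]; exact FF_obs_nonneg m s
  have hmix : ∀ N, 4 ≤ N → mix 6 F N = aF (N - 1) := fun N hN => by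
    obtain ⟨n, rfl⟩ : ∃ n, N = n + 1 := ⟨N - 1, by omega⟩
    rw [hFe, ← aF_mix (by omega), Nat.add_sub_cancel]
  have hsum : ∀ x, 0 < x → x < xx → Summable fun N => mix 6 F N * x ^ N := by
    intro x hx hxx
    rw [← summable_nat_add_iff 4]
    have h1 := (summable_nat_add_iff 3).2 (aF_summable hx hxx)
    refine (h1.mul_left x).congr fun n => ?_
    rw [hmix (n + 4) (by omega), show n + 4 - 1 = n + 3 by omega, show n + 4 = n + 3 + 1 by ring,
      pow_succ]
    ring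
  obtain ⟨H, hH, hHs⟩ := mix_ext hF xx_pos hsum
  have hset : {z : ℂ | ‖z ^ 2 + z ^ 3‖ < xx ^ 2 + xx ^ 3} = {z : ℂ | mH * ‖z ^ 2 + z ^ 3‖ < 1} := by
    ext z
    simp only [Set.mem_ofPred_eq]
    rw [← xx_eq]
    exact (mul_lt_mul_iff_right₀ mH_pos).symm
  rw [hset] at hH
  -- the correction
  obtain ⟨G, hG⟩ : ∃ G : ℂ → ℂ, G = fun z => H z - ∑ N ∈ range 4, (mix 6 F N : ℂ) * z ^ N +
    z * ∑ n ∈ range 3, (aF n : ℂ) * z ^ n := ⟨_, rfl⟩
  have hGd : DifferentiableOn ℂ G {z : ℂ | mH * ‖z ^ 2 + z ^ 3‖ < 1} := by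
    rw [hG]
    exact (hH.sub (by fun_prop)).add (by fun_prop)
  have hAs : ∀ z : ℂ, ‖z‖ < xx → Summable fun n => (aF n : ℂ) * z ^ n := by
    intro z hz
    obtain ⟨x, hx1, hx2⟩ := exists_between hz
    have hx0 : 0 < x := (norm_nonneg z).trans_lt hx1
    refine Summable.of_norm_bounded (aF_summable hx0 hx2) fun n => ?_
    rw [norm_mul, norm_pow, Complex.norm_natCast]
    exact mul_le_mul_of_nonneg_left (pow_le_pow_left₀ (norm_nonneg z) hx1.le n) (Nat.cast_nonneg _)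
  have hGA : ∀ z : ℂ, ‖z‖ < xx → G z = z * ∑' n, (aF n : ℂ) * z ^ n := by
    intro z hz
    have h1 := (hHs z hz).tsum_eq
    have h2 := (hHs z hz).summable
    have h3 := h2.sum_add_tsum_nat_add 4
    have h4 := (hAs z hz).sum_add_tsum_nat_add 3
    have h5 : ∑' n, (mix 6 F (n + 4) : ℂ) * z ^ (n + 4) = z * ∑' n, (aF (n + 3) : ℂ) * z ^ (n + 3) := by
      rw [← tsum_mul_left]
      refine tsum_congr fun n => ?_
      rw [hmix (n + 4) (by omega), show n + 4 - 1 = n + 3 by omega,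
        show n + 4 = n + 3 + 1 by ring, pow_succ]
      push_cast
      ring
    rw [h1, h5] at h3
    rw [hG]
    simp only
    rw [← h3, ← h4]
    ring
  have h0mem : {z : ℂ | mH * ‖z ^ 2 + z ^ 3‖ < 1} ∈ 𝓝 (0 : ℂ) := by
    have hopen : IsOpen {z : ℂ | mH * ‖z ^ 2 + z ^ 3‖ < 1} :=
      isOpen_lt (by fun_prop) continuous_const
    exact hopen.mem_nhds (by simp)
  have hfd : DifferentiableOn ℂ (dslope G 0) {z : ℂ | mH * ‖z ^ 2 + z ^ 3‖ < 1} :=
    (Complex.differentiableOn_dslope h0mem).2 hGd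
  have hG0 : G 0 = 0 := by
    rw [hGA 0 (by simpa using xx_pos), zero_mul]
  have hne : ∀ z : ℂ, ‖z‖ < xx → z ≠ 0 → dslope G 0 z = ∑' n, (aF n : ℂ) * z ^ n := by
    intro z hz hz0
    rw [dslope_of_ne _ hz0, slope_def_field, hG0, sub_zero, sub_zero, hGA z hz,
      mul_div_cancel_left₀ _ hz0]
  have hmem : ∀ z : ℂ, mF * ‖z‖ < 1 ↔ ‖z‖ < xx := by
    intro z
    unfold mF
    rw [one_div, inv_mul_lt_iff₀ xx_pos, mul_one]
  refine ⟨dslope G 0, hfd, fun z hz => ?_⟩
  rw [hmem] at hz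
  have hall : dslope G 0 z = ∑' n, (aF n : ℂ) * z ^ n := by
    by_cases hz0 : z = 0
    · subst hz0
      -- continuity at `0`
      have hc1 : ContinuousAt (dslope G 0) 0 := (hfd.differentiableAt h0mem).continuousAt
      have hd2 : DifferentiableOn ℂ (fun z : ℂ => ∑' n, (aF n : ℂ) * z ^ n)
          (Metric.ball 0 (xx / 2)) := by
        refine Complex.differentiableOn_tsum_of_summable_norm
          (aF_summable (half_pos xx_pos) (half_lt_self xx_pos)) (fun n => by fun_prop)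
          Metric.isOpen_ball ?_
        intro n w hw
        rw [norm_mul, norm_pow, Complex.norm_natCast]
        have : ‖w‖ < xx / 2 := by simpa using hw
        exact mul_le_mul_of_nonneg_left (pow_le_pow_left₀ (norm_nonneg w) this.le n)
          (Nat.cast_nonneg _)
      have hb : Metric.ball (0 : ℂ) (xx / 2) ∈ 𝓝 (0 : ℂ) := Metric.ball_mem_nhds _ (half_pos xx_pos)
      have hc2 : ContinuousAt (fun z : ℂ => ∑' n, (aF n : ℂ) * z ^ n) 0 :=
        (hd2.differentiableAt hb).continuousAt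
      have h1 : Tendsto (dslope G 0) (𝓝[≠] 0) (𝓝 (dslope G 0 0)) := hc1.tendsto.mono_left inf_le_left
      have h2 : Tendsto (fun z : ℂ => ∑' n, (aF n : ℂ) * z ^ n) (𝓝[≠] 0)
          (𝓝 (∑' n, (aF n : ℂ) * (0 : ℂ) ^ n)) := hc2.tendsto.mono_left inf_le_left
      refine tendsto_nhds_unique h1 (h2.congr' ?_)
      have hb' : ∀ᶠ w in 𝓝[≠] (0 : ℂ), w ∈ Metric.ball (0 : ℂ) (xx / 2) :=
        (mem_nhdsWithin_of_mem_nhds hb)
      filter_upwards [hb', self_mem_nhdsWithin] with w hw hw0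
      refine (hne w ?_ hw0).symm
      have : ‖w‖ < xx / 2 := by simpa using hw
      have := xx_pos
      linarith
    · exact hne z hz hz0
  rw [hall]
  exact (hAs z hz).hasSum

/-- the domain contains the closed disc of convergence without the critical point -/
theorem dom (z : ℂ) (hz : mF * ‖z‖ ≤ 1) (hne : z ≠ ((1 / mF : ℝ) : ℂ)) :
    mH * ‖z ^ 2 + z ^ 3‖ < 1 := by
  have hx := xx_pos
  have hm := mH_pos
  have hz' : ‖z‖ ≤ xx := by
    unfold mF at hz
    rwa [one_div, inv_mul_le_iff₀ xx_pos, mul_one] at hz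
  have hne' : z ≠ (xx : ℂ) := by
    intro h
    apply hne
    unfold mF
    rw [one_div_one_div, h]
  have e : ‖z ^ 2 + z ^ 3‖ = ‖z‖ ^ 2 * ‖1 + z‖ := by
    rw [show z ^ 2 + z ^ 3 = z ^ 2 * (1 + z) by ring, norm_mul, norm_pow]
  have h1 : ‖1 + z‖ ≤ 1 + ‖z‖ := by
    refine (norm_add_le _ _).trans ?_
    simp
  rw [← xx_eq, e]
  apply mul_lt_mul_of_pos_left _ hm
  rcases lt_or_eq_of_le hz' with h2 | h2
  · calc ‖z‖ ^ 2 * ‖1 + z‖ ≤ ‖z‖ ^ 2 * (1 + ‖z‖) := mul_le_mul_of_nonneg_left h1 (sq_nonneg _)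
      _ < xx ^ 2 + xx ^ 3 := by
        have h3 : ‖z‖ ^ 2 < xx ^ 2 := pow_lt_pow_left₀ h2 (norm_nonneg z) (by norm_num)
        have h4 : ‖z‖ ^ 3 < xx ^ 3 := pow_lt_pow_left₀ h2 (norm_nonneg z) (by norm_num)
        nlinarith
  · rw [h2]
    have h5 : ‖1 + z‖ < 1 + xx := by
      rw [h2] at h1
      refine lt_of_le_of_ne h1 fun h6 => hne' ?_
      -- equality in the triangle inequality
      have h7 : ‖1 + z‖ ^ 2 = (1 + xx) ^ 2 := by rw [h6]
      rw [Complex.sq_norm, Complex.normSq_apply] at h7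
      have h8 : ‖z‖ ^ 2 = xx ^ 2 := by rw [h2]
      rw [Complex.sq_norm, Complex.normSq_apply] at h8
      simp only [Complex.add_re, Complex.one_re, Complex.add_im, Complex.one_im, zero_add] at h7
      have h9 : z.re = xx := by nlinarith
      have h10 : z.im = 0 := by
        rw [h9] at h8
        have : z.im * z.im = 0 := by nlinarith
        exact mul_self_eq_zero.1 this
      exact Complex.ext (by simpa using h9) (by simpa using h10)
    calc xx ^ 2 * ‖1 + z‖ < xx ^ 2 * (1 + xx) := mul_lt_mul_of_pos_left h5 (by positivity)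
      _ = _ := by ring

end Pool.Agent.D0H94.T13
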