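import Pool.Agent.D0H94.T12.Pairs

/-!
# Pairs of disjoint walks with different numbers of steps
-/

set_option autoImplicit false
set_option linter.unusedVariables false

namespace Pool.Agent.D0H94.T13

open Pool.Agent.D0H94.T12

variable {α : Type*} {R : α → α → Prop} {o : α} {v : α → Prop} {g : α → α → α}

/-- pairs of walks which only meet at `o` -/
def dprs2 (R : α → α → Prop) (o : α) (m n : ℕ) : Set ((Fin (m + 1) → α) × (Fin (n + 1) → α)) :=
  {p | p.1 ∈ saw R o m ∧ p.2 ∈ saw R o n ∧ ∀ (i : Fin (m + 1)) (j : Fin (n + 1)), i ≠ 0 →
    p.1 i ≠ p.2 j}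

theorem card_dprs2 (G : Sym R o v g) (m n : ℕ) :
    (dprs2 R o m n).ncard = (saw R o (m + n)).ncard := by
  classical
  refine Set.ncard_congr (fun p _ => fun k : Fin (m + n + 1) =>
    g (p.1 (Fin.last m)) (if h : k.1 ≤ m then p.1 ⟨m - k.1, by omega⟩
      else p.2 ⟨k.1 - m, by omega⟩)) ?_ ?_ ?_
  · rintro ⟨f, f'⟩ ⟨hf, hg, hd⟩
    simp only at hf hg hd ⊢
    have hpar := saw_v G hf m (by omega)
    have hlast : f (Fin.last m) = f ⟨m, by omega⟩ := rfl
    rw [← hlast] at hpar
    refine ⟨?_, ?_, ?_⟩
    · simp only [Fin.val_zero, Nat.zero_le, Nat.sub_zero]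
      exact G.self hpar
    · intro i j hij
      have h1 := G.inj hpar hij
      by_cases hi : i.1 ≤ m <;> by_cases hj : j.1 ≤ m
      · rw [dif_pos hi, dif_pos hj] at h1
        have h2 := hf.2.1 h1
        simp only [Fin.mk.injEq] at h2
        exact Fin.ext (by omega)
      · rw [dif_pos hi, dif_neg hj] at h1
        exfalso
        by_cases h0 : m - i.1 = 0
        · have e : f ⟨m - i.1, by omega⟩ = o := by
            have : (⟨m - i.1, by omega⟩ : Fin (m + 1)) = 0 := Fin.ext h0
            rw [this]
            exact hf.1
          rw [e, ← hg.1] at h1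
          have h2 := hg.2.1 h1
          have h3 := congrArg Fin.val h2
          simp only [Fin.val_zero] at h3
          omega
        · exact hd ⟨m - i.1, by omega⟩ ⟨j.1 - m, by omega⟩
            (fun h => h0 (by have := congrArg Fin.val h; simpa using this)) h1
      · rw [dif_neg hi, dif_pos hj] at h1
        exfalso
        by_cases h0 : m - j.1 = 0
        · have e : f ⟨m - j.1, by omega⟩ = o := by
            have : (⟨m - j.1, by omega⟩ : Fin (m + 1)) = 0 := Fin.ext h0
            rw [this]
            exact hf.1
          rw [e, ← hg.1] at h1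
          have h2 := hg.2.1 h1
          have h3 := congrArg Fin.val h2
          simp only [Fin.val_zero] at h3
          omega
        · exact hd ⟨m - j.1, by omega⟩ ⟨i.1 - m, by omega⟩
            (fun h => h0 (by have := congrArg Fin.val h; simpa using this)) h1.symm
      · rw [dif_neg hi, dif_neg hj] at h1
        have h2 := hg.2.1 h1
        simp only [Fin.mk.injEq] at h2
        exact Fin.ext (by omega)
    · intro i
      refine G.adj hpar ?_
      simp only [Fin.val_castSucc, Fin.val_succ]
      rcases lt_trichotomy i.1 m with hi | hi | hi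
      · rw [dif_pos (by omega), dif_pos (by omega)]
        have h1 := hf.2.2 ⟨m - (i.1 + 1), by omega⟩
        simp only [Fin.castSucc_mk, Fin.succ_mk] at h1
        have e : m - (i.1 + 1) + 1 = m - i.1 := by omega
        simp only [e] at h1
        exact G.symm h1
      · rw [dif_pos (by omega), dif_neg (by omega)]
        have h1 := hg.2.2 ⟨0, by omega⟩
        simp only [Fin.castSucc_mk, Fin.succ_mk] at h1
        have e1 : f ⟨m - i.1, by omega⟩ = o := by
          have : (⟨m - i.1, by omega⟩ : Fin (m + 1)) = 0 := Fin.ext (by simp; omega)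
          rw [this]
          exact hf.1
        have e2 : f' ⟨0, by omega⟩ = o := hg.1
        rw [e1]
        rw [e2] at h1
        have e3 : i.1 + 1 - m = 0 + 1 := by omega
        simp only [e3]
        exact h1
      · rw [dif_neg (by omega), dif_neg (by omega)]
        have h1 := hg.2.2 ⟨i.1 - m, by omega⟩
        simp only [Fin.castSucc_mk, Fin.succ_mk] at h1
        have e : i.1 - m + 1 = i.1 + 1 - m := by omega
        simp only [e] at h1
        exact h1
  · rintro ⟨f, g1⟩ ⟨f', g1'⟩ ⟨hf, hg, hd⟩ ⟨hf', hg', hd'⟩ heq
    simp only at hf hg hf' hg' heq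
    have hv : v (f (Fin.last m)) := saw_v G hf m (by omega)
    have hv' : v (f' (Fin.last m)) := saw_v G hf' m (by omega)
    -- the point at time `m` determines the end of `f`
    have hn := congrFun heq ⟨m, by omega⟩
    simp only [le_refl, dite_true, Nat.sub_self] at hn
    have e1 : f ⟨0, by omega⟩ = o := hf.1
    have e2 : f' ⟨0, by omega⟩ = o := hf'.1
    rw [e1, e2] at hn
    have hu : f (Fin.last m) = f' (Fin.last m) := sym_eq G hv hv' hn
    rw [hu] at heq
    have hff : f = f' := by
      funext i
      have h1 := congrFun heq ⟨m - i.1, by omega⟩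
      simp only at h1
      have h2 := G.inj hv' h1
      rw [dif_pos (by omega), dif_pos (by omega)] at h2
      have e : m - (m - i.1) = i.1 := by omega
      simp only [e] at h2
      exact h2
    have hgg : g1 = g1' := by
      funext i
      by_cases hi : i.1 = 0
      · have : i = 0 := Fin.ext hi
        rw [this, hg.1, hg'.1]
      · have h1 := congrFun heq ⟨m + i.1, by omega⟩
        simp only at h1
        have h2 := G.inj hv' h1
        rw [dif_neg (by omega), dif_neg (by omega)] at h2
        have e : m + i.1 - m = i.1 := by omega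
        simp only [e] at h2
        exact h2
    rw [hff, hgg]
  · intro F hF
    have hpar := saw_v G hF m (by omega)
    refine ⟨(fun i : Fin (m + 1) => g (F ⟨m, by omega⟩) (F ⟨m - i.1, by omega⟩),
      fun i : Fin (n + 1) => g (F ⟨m, by omega⟩) (F ⟨m + i.1, by omega⟩)), ⟨⟨?_, ?_, ?_⟩,
        ⟨?_, ?_, ?_⟩, ?_⟩, ?_⟩
    · simp only [Fin.val_zero, Nat.sub_zero]
      exact G.self hpar
    · intro i j hij
      have := hF.2.1 (G.inj hpar hij)
      simp only [Fin.mk.injEq] at this
      have := i.2
      have := j.2
      exact Fin.ext (by omega)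
    · intro i
      refine G.adj hpar ?_
      simp only [Fin.val_castSucc, Fin.val_succ]
      have h1 := hF.2.2 ⟨m - (i.1 + 1), by omega⟩
      simp only [Fin.castSucc_mk, Fin.succ_mk] at h1
      have e : m - (i.1 + 1) + 1 = m - i.1 := by omega
      simp only [e] at h1
      exact G.symm h1
    · simp only [Fin.val_zero, Nat.add_zero]
      exact G.self hpar
    · intro i j hij
      have := hF.2.1 (G.inj hpar hij)
      simp only [Fin.mk.injEq] at this
      exact Fin.ext (by omega)
    · intro i
      refine G.adj hpar ?_
      simp only [Fin.val_castSucc, Fin.val_succ]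
      have h1 := hF.2.2 ⟨m + i.1, by omega⟩
      exact h1
    · intro i j hi hij
      simp only at hij
      have h3 := hF.2.1 (G.inj hpar hij)
      simp only [Fin.mk.injEq] at h3
      have h4 := i.2
      exact hi (Fin.ext (by simp only [Fin.val_zero]; omega))
    · funext k
      simp only [Fin.val_last, Nat.sub_self]
      have e0 : g (F ⟨m, by omega⟩) (F ⟨0, by omega⟩) = g (F ⟨m, by omega⟩) o := by
        have : F ⟨0, by omega⟩ = o := hF.1
        rw [this]
      rw [e0]
      split_ifs with hk
      · have e : m - (m - k.1) = k.1 := by omega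
        simp only [e]
        exact G.back hpar _
      · have e : m + (k.1 - m) = k.1 := by omega
        simp only [e]
        exact G.back hpar _

end Pool.Agent.D0H94.T13
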