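import Pool.Agent.D0H94.T13.Fm2

/-!
# Pairs of disjoint walks on the Fisher graph: the exact number
-/

set_option autoImplicit false
set_option linter.unusedVariables false

namespace Pool.Agent.D0H94.T13

open Finset
open Pool.Agent.D0H94.T12

section comb

variable {V : Type*} {A : V → V → Prop} {th : V → V → V → V} {nb : V → Fin 3 → V} [DecidableEq V]

/-- pairs of walks with triangle steps at both ends from a given first vertex which only meet there -/
def DP (A : V → V → Prop) (N : ℕ) (v u : V) : Set (List (V × V) × List (V × V)) :=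
  {p | (p.1 ∈ TT A N v ∧ p.1.head? = some (v, u)) ∧ (p.2 ∈ TT A N v ∧ p.2.head? = some (v, u)) ∧
    ∀ e ∈ p.1.tail, e ∉ p.2}

/-- pairs of data -/
def ZP (A : V → V → Prop) (v u : V) (m m' : ℕ) : Set (List V × List V) :=
  {p | (u, p.1) ∈ XS A (m + 1) v ∧ (u, p.2) ∈ XS A (m' + 1) v ∧
    ∀ e ∈ p.1.dropLast, e ∉ p.2.dropLast}

/-- expansion of a pair -/
def em (th : V → V → V → V) (v u : V) (q : (List V × List V) × (List Bool × List Bool)) :
    List (V × V) × List (V × V) :=
  (ex th u v q.1.1 (false :: q.2.1), ex th u v q.1.2 (false :: q.2.2))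

omit [DecidableEq V] in
lemma common (C : Cub A th nb) {e p q p' q' : V} (hpq : p ≠ q) (hpq' : p' ≠ q') (hp : A e p)
    (hq : A e q) (hp' : A e p') (hq' : A e q') : (p = p' ∨ p = q') ∨ (q = p' ∨ q = q') := by
  rcases C.all hp hq hpq hp' with h | h | h
  · exact Or.inl (Or.inl h.symm)
  · exact Or.inr (Or.inl h.symm)
  · rcases C.all hp hq hpq hq' with h' | h' | h'
    · exact Or.inl (Or.inr h'.symm)
    · exact Or.inr (Or.inr h'.symm)
    · exact absurd (h.trans h'.symm) hpq'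

omit [DecidableEq V] in
lemma ne_nil_of {m : ℕ} {u v : V} {zs : List V} (h : (u, zs) ∈ XS A (m + 1) v) : zs ≠ [] := by
  intro e
  have := h.2.1
  rw [e] at this
  simp at this

omit [DecidableEq V] in
/-- disjoint expansions have disjoint paths -/
lemma dj_path (C : Cub A th nb) {m m' : ℕ} {v u : V} {zs zs' : List V} {bs bs' : List Bool}
    (h : (u, zs) ∈ XS A (m + 1) v) (h' : (u, zs') ∈ XS A (m' + 1) v)
    (hb : bs.length = m + 1) (hb' : bs'.length = m' + 1)
    (hd : ∀ e ∈ (ex th u v zs bs).tail, e ∉ ex th u v zs' bs') :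
    ∀ e ∈ zs.dropLast, e ∉ zs'.dropLast := by
  intro e he he'
  obtain ⟨g1, g2, g3, g4⟩ := h
  obtain ⟨g1', g2', g3', g4'⟩ := h'
  simp only at g1 g2 g3 g4 g1' g2' g3' g4'
  have hz : zs ≠ [] := by
    intro k
    rw [k] at g2
    simp at g2
  have hz' : zs' ≠ [] := by
    intro k
    rw [k] at g2'
    simp at g2'
  have hl : zs.length = bs.length := g2.trans hb.symm
  have hl' : zs'.length = bs'.length := g2'.trans hb'.symm
  obtain ⟨p, q, hpq, k1, k2, k3, k4⟩ := ex_two C zs u v bs hl hz g1 g3 e (List.mem_cons_of_mem _ he)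
  obtain ⟨p', q', hpq', k1', k2', k3', k4'⟩ := ex_two C zs' u v bs' hl' hz' g1' g3' e
    (List.mem_cons_of_mem _ he')
  have hev : e ≠ v := by
    rintro rfl
    exact (List.nodup_cons.1 g4).1 he
  obtain ⟨t, ht⟩ := ex_head (th := th) (x := u) (y := v) hz hl
  have tl : ∀ s : V, (e, s) ∈ ex th u v zs bs → (e, s) ∈ (ex th u v zs bs).tail := by
    intro s hs
    rw [ht] at hs ⊢
    rcases List.mem_cons.1 hs with h1 | h1
    · simp only [Prod.mk.injEq] at h1
      exact absurd h1.1 hev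
    · exact h1
  rcases common C hpq hpq' k3 k4 k3' k4' with (h | h) | (h | h)
  · subst h
    exact hd _ (tl _ k1) k1'
  · subst h
    exact hd _ (tl _ k1) k2'
  · subst h
    exact hd _ (tl _ k2) k1'
  · subst h
    exact hd _ (tl _ k2) k2'

omit [DecidableEq V] in
/-- disjoint expansions cross the first triangle directly -/
lemma dj_first (C : Cub A th nb) {m m' : ℕ} {v u : V} {zs zs' : List V} {bs bs' : List Bool}
    (h : (u, zs) ∈ XS A (m + 1) v) (h' : (u, zs') ∈ XS A (m' + 1) v)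
    (hb : bs.length = m + 1) (hb' : bs'.length = m' + 1)
    (hd : ∀ e ∈ (ex th u v zs bs).tail, e ∉ ex th u v zs' bs') :
    (∃ t, bs = false :: t) ∧ ∃ t', bs' = false :: t' := by
  obtain ⟨g1, g2, g3, g4⟩ := h
  obtain ⟨g1', g2', g3', g4'⟩ := h'
  simp only at g1 g2 g3 g4 g1' g2' g3' g4'
  match zs, bs, zs', bs', g2, hb, g2', hb', g3, g3', hd with
  | z :: zr, b :: t, z' :: zr', b' :: t', g2, hb, g2', hb', g3, g3', hd =>
    obtain ⟨a1, a2, a3⟩ := g3
    obtain ⟨a1', a2', a3'⟩ := g3'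
    cases b
    · cases b'
      · exact ⟨⟨t, rfl⟩, ⟨t', rfl⟩⟩
      · exfalso
        rw [ex_false, ex_true, List.tail_cons] at hd
        rcases C.all g1 a1' a2'.symm a1 with k | k | k
        · exact a2 k
        · apply hd (v, z) (by simp)
          rw [k]
          simp
        · apply hd (v, z) (by simp)
          rw [k]
          simp
    · exfalso
      rw [ex_true, List.tail_cons] at hd
      have hm : (v, z') ∈ ex th u v (z' :: zr') (b' :: t') := by
        cases b'
        · rw [ex_false]; simp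
        · rw [ex_true]; simp
      rcases C.all g1 a1 a2.symm a1' with k | k | k
      · exact a2' k
      · apply hd (v, z')
        · rw [k]; simp
        · exact hm
      · apply hd (v, z')
        · rw [k]; simp
        · exact hm

omit [DecidableEq V] in
/-- the converse -/
lemma dj_conv {m m' : ℕ} {v u : V} {zs zs' : List V} {t t' : List Bool}
    (h : (u, zs) ∈ XS A (m + 1) v) (h' : (u, zs') ∈ XS A (m' + 1) v)
    (hm : 1 ≤ m) (hm' : 1 ≤ m') (hj : ∀ e ∈ zs.dropLast, e ∉ zs'.dropLast) :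
    ∀ e ∈ (ex th u v zs (false :: t)).tail, e ∉ ex th u v zs' (false :: t') := by
  obtain ⟨g1, g2, g3, g4⟩ := h
  obtain ⟨g1', g2', g3', g4'⟩ := h'
  simp only at g1 g2 g3 g4 g1' g2' g3' g4'
  match zs, zs', g2, g2', g3, g3', g4, g4', hj with
  | z :: [], _, g2, _, _, _, _, _, _ => simp at g2; omega
  | _, z' :: [], _, g2', _, _, _, _, _ => simp at g2'; omega
  | z :: y :: zr, z' :: y' :: zr', g2, g2', g3, g3', g4, g4', hj =>
    rw [List.dropLast_cons_cons] at hj g4
    rw [List.dropLast_cons_cons] at hj g4'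
    have hv : v ∉ z :: (y :: zr).dropLast := (List.nodup_cons.1 g4).1
    have hv' : v ∉ z' :: (y' :: zr').dropLast := (List.nodup_cons.1 g4').1
    intro e he he'
    rw [ex_false, List.tail_cons] at he
    rw [ex_false] at he'
    have c1 : e = (v, z) ∨ e.1 ∈ z :: (y :: zr).dropLast := by
      rcases List.mem_cons.1 he with k | k
      · exact Or.inl k
      · exact Or.inr (ex_fst _ _ _ _ _ k)
    have c2 : e = (v, u) ∨ e = (v, z') ∨ e.1 ∈ z' :: (y' :: zr').dropLast := by
      rcases List.mem_cons.1 he' with k | k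
      · exact Or.inl k
      · rcases List.mem_cons.1 k with k | k
        · exact Or.inr (Or.inl k)
        · exact Or.inr (Or.inr (ex_fst _ _ _ _ _ k))
    rcases c1 with k | k
    · rcases c2 with l | l | l
      · rw [k] at l
        simp only [Prod.mk.injEq, true_and] at l
        exact g3.2.1 l
      · rw [k] at l
        simp only [Prod.mk.injEq, true_and] at l
        exact hj z List.mem_cons_self (by rw [l]; exact List.mem_cons_self)
      · rw [k] at l
        exact hv' l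
    · rcases c2 with l | l | l
      · rw [l] at k
        exact hv k
      · rw [l] at k
        exact hv k
      · exact hj _ k l

lemma DP_eq (C : Cub A th nb) {N : ℕ} (hN : 4 ≤ N) (v u : V) : DP A N v u =
    ⋃ p ∈ range N ×ˢ range N, em th v u ''
      (ZP A v u p.1 p.2 ×ˢ (B p.1 (N - 2) ×ˢ B p.2 (N - 2))) := by
  ext ⟨l, l'⟩
  simp only [Set.mem_iUnion, Set.mem_image, mem_product, mem_range, exists_prop]
  constructor
  · rintro ⟨⟨h1, h2⟩, ⟨h1', h2'⟩, h3⟩
    simp only at h1 h2 h1' h2' h3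
    rw [TT_eq C] at h1 h1'
    simp only [Set.mem_iUnion, Set.mem_image, mem_range, exists_prop] at h1 h1'
    obtain ⟨m, hm, ⟨⟨x, zs⟩, bs⟩, ⟨hX, hB⟩, rfl⟩ := h1
    obtain ⟨m', hm', ⟨⟨x', zs'⟩, bs'⟩, ⟨hX', hB'⟩, rfl⟩ := h1'
    simp only at hX hB hX' hB'
    have hx : x = u := by
      obtain ⟨t, ht⟩ := ex_head (th := th) (x := x) (y := v) (ne_nil_of hX)
        (hX.2.1.trans hB.1.symm)
      unfold exm at h2
      simp only at h2
      rw [ht] at h2
      simp only [List.head?_cons, Option.some.injEq, Prod.mk.injEq, true_and] at h2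
      exact h2
    have hx' : x' = u := by
      obtain ⟨t, ht⟩ := ex_head (th := th) (x := x') (y := v) (ne_nil_of hX')
        (hX'.2.1.trans hB'.1.symm)
      unfold exm at h2'
      simp only at h2'
      rw [ht] at h2'
      simp only [List.head?_cons, Option.some.injEq, Prod.mk.injEq, true_and] at h2'
      exact h2'
    subst hx
    subst hx'
    unfold exm at h3
    simp only at h3
    have hp := dj_path C hX hX' hB.1 hB'.1 h3
    obtain ⟨⟨t, rfl⟩, ⟨t', rfl⟩⟩ := dj_first C hX hX' hB.1 hB'.1 h3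
    refine ⟨(m, m'), ⟨hm, hm'⟩, ((zs, zs'), (t, t')), ⟨⟨hX, hX', hp⟩, ⟨?_, ?_⟩, ?_, ?_⟩, rfl⟩
    · simpa using hB.1
    · have := hB.2
      simp only [List.count_cons] at this
      simp at this
      simp only
      omega
    · simpa using hB'.1
    · have := hB'.2
      simp only [List.count_cons] at this
      simp at this
      simp only
      omega
  · rintro ⟨⟨m, m'⟩, ⟨hm, hm'⟩, ⟨⟨zs, zs'⟩, ⟨t, t'⟩⟩, ⟨⟨hX, hX', hp⟩, hB, hB'⟩, h4⟩
    simp only at hm hm' hX hX' hp hB hB'
    unfold em at h4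
    simp only [Prod.mk.injEq] at h4
    obtain ⟨rfl, rfl⟩ := h4
    have hc := List.count_le_length (a := true) (l := t)
    have hc' := List.count_le_length (a := true) (l := t')
    obtain ⟨b1, b2⟩ := hB
    obtain ⟨b1', b2'⟩ := hB'
    have q1 : ((u, zs), false :: t) ∈ XS A (m + 1) v ×ˢ B (m + 1) N := by
      refine ⟨hX, ?_, ?_⟩
      · simpa using b1
      · simp only [List.count_cons]
        simp
        omega
    have q1' : ((u, zs'), false :: t') ∈ XS A (m' + 1) v ×ˢ B (m' + 1) N := by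
      refine ⟨hX', ?_, ?_⟩
      · simpa using b1'
      · simp only [List.count_cons]
        simp
        omega
    refine ⟨⟨?_, ?_⟩, ⟨?_, ?_⟩, ?_⟩
    · rw [TT_eq C]
      simp only [Set.mem_iUnion, Set.mem_image, mem_range, exists_prop]
      exact ⟨m, hm, _, q1, rfl⟩
    · obtain ⟨r, hr⟩ := ex_head (th := th) (x := u) (y := v) (ne_nil_of hX)
        (hX.2.1.trans q1.2.1.symm)
      simp only at hr ⊢
      rw [hr]
      rfl
    · rw [TT_eq C]
      simp only [Set.mem_iUnion, Set.mem_image, mem_range, exists_prop]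
      exact ⟨m', hm', _, q1', rfl⟩
    · obtain ⟨r, hr⟩ := ex_head (th := th) (x := u) (y := v) (ne_nil_of hX')
        (hX'.2.1.trans q1'.2.1.symm)
      simp only at hr ⊢
      rw [hr]
      rfl
    · exact dj_conv hX hX' (by omega) (by omega) hp

omit [DecidableEq V] in
lemma ZP_finite (C : Cub A th nb) (v u : V) (m m' : ℕ) : (ZP A v u m m').Finite := by
  refine (((XS_finite C m v).image Prod.snd).prod ((XS_finite C m' v).image Prod.snd)).subset ?_
  rintro ⟨zs, zs'⟩ ⟨h1, h2, -⟩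
  exact ⟨⟨(u, zs), h1, rfl⟩, ⟨(u, zs'), h2, rfl⟩⟩

lemma DP_card (C : Cub A th nb) {N : ℕ} (hN : 4 ≤ N) (v u : V) : (DP A N v u).ncard =
    ∑ m ∈ range N, ∑ m' ∈ range N, (ZP A v u m m').ncard * (K m (N - 2) * K m' (N - 2)) := by
  have hfin : ∀ p : ℕ × ℕ, (em th v u ''
      (ZP A v u p.1 p.2 ×ˢ (B p.1 (N - 2) ×ˢ B p.2 (N - 2)))).Finite := fun p =>
    ((ZP_finite C v u _ _).prod ((B_finite _ _).prod (B_finite _ _))).image _
  have key : ∀ {m₁ m₁' m₂ m₂' : ℕ} {q₁ q₂ : (List V × List V) × (List Bool × List Bool)},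
      q₁ ∈ ZP A v u m₁ m₁' ×ˢ (B m₁ (N - 2) ×ˢ B m₁' (N - 2)) →
      q₂ ∈ ZP A v u m₂ m₂' ×ˢ (B m₂ (N - 2) ×ˢ B m₂' (N - 2)) →
      em th v u q₁ = em th v u q₂ → q₁ = q₂ := by
    rintro m₁ m₁' m₂ m₂' ⟨⟨zs, zs'⟩, ⟨t, t'⟩⟩ ⟨⟨ys, ys'⟩, ⟨s, s'⟩⟩ ⟨⟨hX, hX', hp⟩, hB, hB'⟩
      ⟨⟨hY, hY', hq⟩, hS, hS'⟩ he
    unfold em at he
    simp only [Prod.mk.injEq] at he
    simp only at hX hX' hB hB' hY hY' hS hS'
    have a1 := ex_inj C _ _ _ _ _ _ _ _
      (show zs.length = (false :: t).length by rw [hX.2.1, List.length_cons, hB.1])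
      (show ys.length = (false :: s).length by rw [hY.2.1, List.length_cons, hS.1])
      (ne_nil_of hX) (ne_nil_of hY) hX.2.2.1 hY.2.2.1 he.1
    have a2 := ex_inj C _ _ _ _ _ _ _ _
      (show zs'.length = (false :: t').length by rw [hX'.2.1, List.length_cons, hB'.1])
      (show ys'.length = (false :: s').length by rw [hY'.2.1, List.length_cons, hS'.1])
      (ne_nil_of hX') (ne_nil_of hY') hX'.2.2.1 hY'.2.2.1 he.2
    obtain ⟨-, -, r1, r2⟩ := a1
    obtain ⟨-, -, r3, r4⟩ := a2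
    simp only [List.cons.injEq, true_and] at r2 r4
    rw [r1, r2, r3, r4]
  rw [DP_eq C hN, ncard_biUnion_eq _ _ (fun p _ => hfin p), Finset.sum_product]
  · refine sum_congr rfl fun m _ => sum_congr rfl fun m' _ => ?_
    rw [Set.InjOn.ncard_image, Set.ncard_prod, Set.ncard_prod, B_card, B_card]
    intro q₁ h₁ q₂ h₂ h
    exact key h₁ h₂ h
  · intro i _ j _ hij
    rw [Set.disjoint_left]
    rintro _ ⟨q₁, h₁, rfl⟩ ⟨q₂, h₂, h⟩
    have e := key h₂ h₁ h
    subst e
    apply hij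
    have e1 : i.1 = j.1 := by
      have k1 := h₁.2.1.1
      have k2 := h₂.2.1.1
      exact k1.symm.trans k2
    have e2 : i.2 = j.2 := by
      have k1 := h₁.2.2.1
      have k2 := h₂.2.2.1
      exact k1.symm.trans k2
    exact Prod.ext e1 e2

/-! ### the last directions -/

/-- pairs of walks which avoid `u` at the first step and each other -/
def WP (A : V → V → Prop) (v u : V) (m m' : ℕ) : Set (List V × List V) :=
  {p | p.1 ∈ WE A (fun _ => True) v u m ∧ p.2 ∈ WE A (fun _ => True) v u m' ∧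
    ∀ e ∈ p.1, e ∉ p.2}

omit [DecidableEq V] in
lemma WP_finite (C : Cub A th nb) (v u : V) (m m' : ℕ) : (WP A v u m m').Finite :=
  ((WE_finite C _ v u m).prod (WE_finite C _ v u m')).subset fun _ h => ⟨h.1, h.2.1⟩

omit [DecidableEq V] in
/-- the data as a walk and a last direction -/
lemma XS_iff (C : Cub A th nb) {v u : V} (hv : A v u) (m : ℕ) (zs : List V) :
    (u, zs) ∈ XS A (m + 1) v ↔ ∃ r ∈ WE A (fun _ => True) v u m, ∃ z,
      (A (lp u v r).2 z ∧ z ≠ (lp u v r).1) ∧ zs = r ++ [z] := by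
  constructor
  · intro hX
    obtain ⟨g1, g2, g3, g4⟩ := id hX
    simp only at g1 g2 g3 g4
    have hz : zs ≠ [] := ne_nil_of hX
    have e1 : zs.dropLast ++ [zs.getLast hz] = zs := List.dropLast_append_getLast hz
    rw [← e1, val_append] at g3
    have hc := val_chain zs.dropLast u v g3.1
    refine ⟨zs.dropLast, ⟨⟨by rw [List.length_dropLast, g2]; rfl, hc, g4⟩, ?_, trivial⟩,
      zs.getLast hz, g3.2, e1.symm⟩
    intro w hw
    cases hr : zs.dropLast with
    | nil => rw [hr] at hw; simp at hw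
    | cons w' r' =>
      rw [hr] at hw g3
      simp only [List.head?_cons, Option.mem_def, Option.some.injEq] at hw
      rw [← hw]
      exact g3.1.2.1
  · rintro ⟨r, ⟨⟨h1, h2, h3⟩, h4, -⟩, z, hz, rfl⟩
    refine ⟨hv, by simp [h1], (val_append r u v z).2 ⟨val_of r u v h2 h3 h4, hz⟩, ?_⟩
    simp only [List.dropLast_concat]
    exact h3

omit [DecidableEq V] in
lemma ZP_card (C : Cub A th nb) {v u : V} (hv : A v u) (m m' : ℕ) :
    (ZP A v u m m').ncard = 4 * (WP A v u m m').ncard := by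
  have hWf := WP_finite C v u m m'
  have e : ZP A v u m m' = ⋃ r ∈ hWf.toFinset, (fun z : V × V => (r.1 ++ [z.1], r.2 ++ [z.2])) ''
      ({z | A (lp u v r.1).2 z ∧ z ≠ (lp u v r.1).1} ×ˢ
        {z | A (lp u v r.2).2 z ∧ z ≠ (lp u v r.2).1}) := by
    ext ⟨zs, zs'⟩
    simp only [Set.mem_iUnion, Set.mem_image, Set.Finite.mem_toFinset, exists_prop]
    constructor
    · rintro ⟨h1, h2, h3⟩
      simp only at h1 h2 h3
      obtain ⟨r, hr, z, hz, rfl⟩ := (XS_iff C hv m zs).1 h1
      obtain ⟨r', hr', z', hz', rfl⟩ := (XS_iff C hv m' zs').1 h2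
      rw [List.dropLast_concat, List.dropLast_concat] at h3
      exact ⟨(r, r'), ⟨hr, hr', h3⟩, (z, z'), ⟨hz, hz'⟩, rfl⟩
    · rintro ⟨⟨r, r'⟩, ⟨hr, hr', h3⟩, ⟨z, z'⟩, ⟨hz, hz'⟩, h4⟩
      simp only [Prod.mk.injEq] at h4
      obtain ⟨rfl, rfl⟩ := h4
      refine ⟨(XS_iff C hv m _).2 ⟨r, hr, z, hz, rfl⟩, (XS_iff C hv m' _).2 ⟨r', hr', z', hz', rfl⟩,
        ?_⟩
      simp only [List.dropLast_concat]
      exact h3
  have hinj : ∀ r : List V × List V, Function.Injective
      (fun z : V × V => (r.1 ++ [z.1], r.2 ++ [z.2])) := by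
    rintro r ⟨a, a'⟩ ⟨b, b'⟩ h
    simpa using h
  have hc : ∀ r ∈ hWf.toFinset, ((fun z : V × V => (r.1 ++ [z.1], r.2 ++ [z.2])) ''
      ({z | A (lp u v r.1).2 z ∧ z ≠ (lp u v r.1).1} ×ˢ
        {z | A (lp u v r.2).2 z ∧ z ≠ (lp u v r.2).1})).ncard = 4 := by
    intro r hr
    rw [Set.Finite.mem_toFinset] at hr
    obtain ⟨⟨⟨h1, h2, h3⟩, h4, h5⟩, ⟨⟨h1', h2', h3'⟩, h4', h5'⟩, -⟩ := hr
    rw [Set.ncard_image_of_injective _ (hinj r), Set.ncard_prod,
      two_dirs C (lp_adj C r.1 u v hv (val_of r.1 u v h2 h3 h4)),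
      two_dirs C (lp_adj C r.2 u v hv (val_of r.2 u v h2' h3' h4'))]
  rw [e, ncard_biUnion_eq]
  · rw [Finset.sum_congr rfl hc, Finset.sum_const, smul_eq_mul, mul_comm,
      Set.ncard_eq_toFinset_card _ hWf]
  · intro r hr
    exact Set.finite_of_ncard_ne_zero (by rw [hc r hr]; norm_num)
  · intro r hr r' hr' hne
    rw [Set.disjoint_left]
    rintro _ ⟨a, -, rfl⟩ ⟨b, -, h⟩
    simp only [Prod.mk.injEq] at h
    apply hne
    exact Prod.ext (List.append_inj_left' h.1 rfl).symm (List.append_inj_left' h.2 rfl).symm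

/-- **the exact number of pairs** -/
theorem DP_count (C : Cub A th nb) {N : ℕ} (hN : 4 ≤ N) {v u : V} (hv : A v u) :
    (DP A N v u).ncard =
      4 * ∑ m ∈ range N, ∑ m' ∈ range N, (WP A v u m m').ncard * (K m (N - 2) * K m' (N - 2)) := by
  rw [DP_card C hN, mul_sum]
  refine sum_congr rfl fun m _ => ?_
  rw [mul_sum]
  refine sum_congr rfl fun m' _ => ?_
  rw [ZP_card C hv]
  ring

end comb

end Pool.Agent.D0H94.T13
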