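import Pool.Agent.D0H94.T13.Pr0
import Pool.Agent.D0H94.T13.Pr1

/-!
# Pairs of disjoint walks on (3.12²) and on the honeycomb lattice
-/

set_option autoImplicit false
set_option linter.unusedVariables false

namespace Pool.Agent.D0H94.T13

open Finset
open Pool.Agent.D0H94.T12

/-! ### rotations -/

/-- disjoint pairs with given first steps -/
def WQ (m m' : ℕ) (s : P2 × P2) : Set (List P2 × List P2) :=
  {p | p.1 ∈ W Hx (0, 0) m ∧ p.2 ∈ W Hx (0, 0) m' ∧ p.1.head? = some s.1 ∧ p.2.head? = some s.2 ∧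
    ∀ e ∈ p.1, e ∉ p.2}

/-- disjoint pairs -/
def WD (m m' : ℕ) : Set (List P2 × List P2) :=
  {p | p.1 ∈ W Hx (0, 0) m ∧ p.2 ∈ W Hx (0, 0) m' ∧ ∀ e ∈ p.1, e ∉ p.2}

lemma WD_finite (m m' : ℕ) : (WD m m').Finite :=
  ((W_finite (fin_nb cub) m _).prod (W_finite (fin_nb cub) m' _)).subset fun _ h => ⟨h.1, h.2.1⟩

lemma WQ_finite (m m' : ℕ) (s : P2 × P2) : (WQ m m' s).Finite :=
  (WD_finite m m').subset fun _ h => ⟨h.1, h.2.1, h.2.2.2.2⟩

lemma W_rot {m : ℕ} {r : List P2} (h : r ∈ W Hx (0, 0) m) : r.map rot ∈ W Hx (0, 0) m := by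
  obtain ⟨h1, h2, h3⟩ := h
  have hr0 : rot (0, 0) = (0, 0) := rfl
  have e : ((0, 0) : P2) :: r.map rot = (((0, 0) : P2) :: r).map rot := by
    rw [List.map_cons, hr0]
  refine ⟨by simpa using h1, ?_, ?_⟩
  · rw [e]
    rw [List.isChain_map]
    exact h2.imp fun a b h => rot_adj h
  · rw [e]
    exact h3.map rot_inj

lemma WQ_rot (m m' : ℕ) (a b : P2) :
    (WQ m m' (a, b)).ncard ≤ (WQ m m' (rot a, rot b)).ncard := by
  refine Set.ncard_le_ncard_of_injOn (fun p => (p.1.map rot, p.2.map rot)) ?_ ?_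
    (WQ_finite m m' _)
  · rintro ⟨r, r'⟩ ⟨h1, h2, h3, h4, h5⟩
    simp only at h1 h2 h3 h4 h5
    refine ⟨W_rot h1, W_rot h2, ?_, ?_, ?_⟩
    · simp only
      rw [List.head?_map, h3]
      rfl
    · simp only
      rw [List.head?_map, h4]
      rfl
    · intro e he he'
      simp only [List.mem_map] at he he'
      obtain ⟨x, hx, rfl⟩ := he
      obtain ⟨y, hy, hxy⟩ := he'
      rw [rot_inj hxy] at hy
      exact h5 x hx hy
  · rintro ⟨r, r'⟩ _ ⟨s, s'⟩ _ h
    simp only [Prod.mk.injEq] at h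
    have hi := List.map_injective_iff.2 rot_inj
    exact Prod.ext (hi h.1) (hi h.2)

lemma W_first {m : ℕ} (hm : 1 ≤ m) {r : List P2} (h : r ∈ W Hx (0, 0) m) :
    ∃ u t, r = u :: t ∧ (u = (1, 0) ∨ u = (-1, 1) ∨ u = (0, -1)) := by
  obtain ⟨h1, h2, -⟩ := h
  cases r with
  | nil => simp at h1; omega
  | cons u t =>
    rw [List.isChain_cons_cons] at h2
    exact ⟨u, t, rfl, nb0 h2.1⟩

/-- **one third of the disjoint pairs** avoid a given first step -/
theorem one_third {m m' : ℕ} (hm : 1 ≤ m) (hm' : 1 ≤ m') :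
    3 * (WP Hx (0, 0) (1, 0) m m').ncard = (WD m m').ncard := by
  have r1 : rot (1, 0) = (-1, 1) := rfl
  have r2 : rot (-1, 1) = (0, -1) := rfl
  have r3 : rot (0, -1) = (1, 0) := rfl
  have a1 := WQ_rot m m' (1, 0) (-1, 1)
  have a2 := WQ_rot m m' (-1, 1) (0, -1)
  have a3 := WQ_rot m m' (0, -1) (1, 0)
  have b1 := WQ_rot m m' (-1, 1) (1, 0)
  have b2 := WQ_rot m m' (0, -1) (-1, 1)
  have b3 := WQ_rot m m' (1, 0) (0, -1)
  rw [r1, r2] at a1
  rw [r2, r3] at a2
  rw [r3, r1] at a3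
  rw [r2, r1] at b1
  rw [r3, r2] at b2
  rw [r1, r3] at b3
  have d : ∀ {s t : P2 × P2}, s ≠ t → Disjoint (WQ m m' s) (WQ m m' t) := by
    intro s t hst
    rw [Set.disjoint_left]
    rintro p ⟨-, -, h1, h2, -⟩ ⟨-, -, h3, h4, -⟩
    rw [h1] at h3
    rw [h2] at h4
    simp only [Option.some.injEq] at h3 h4
    exact hst (Prod.ext h3 h4)
  have e1 : WP Hx (0, 0) (1, 0) m m' =
      ⋃ s ∈ ({((-1, 1), (0, -1)), ((0, -1), (-1, 1))} : Finset (P2 × P2)), WQ m m' s := by
    ext p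
    simp only [Set.mem_iUnion, exists_prop, Finset.mem_insert, Finset.mem_singleton]
    constructor
    · rintro ⟨⟨h1, h2, -⟩, ⟨h3, h4, -⟩, h5⟩
      obtain ⟨u, t, hu, k⟩ := W_first hm h1
      obtain ⟨u', t', hu', k'⟩ := W_first hm' h3
      rcases k with rfl | rfl | rfl
      · exact absurd rfl (h2 (1, 0) (by rw [hu]; rfl))
      · rcases k' with rfl | rfl | rfl
        · exact absurd rfl (h4 (1, 0) (by rw [hu']; rfl))
        · exact absurd (by rw [hu']; exact List.mem_cons_self) (h5 (-1, 1) (by rw [hu]; exact List.mem_cons_self))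
        · exact ⟨_, Or.inl rfl, h1, h3, by rw [hu]; rfl, by rw [hu']; rfl, h5⟩
      · rcases k' with rfl | rfl | rfl
        · exact absurd rfl (h4 (1, 0) (by rw [hu']; rfl))
        · exact ⟨_, Or.inr rfl, h1, h3, by rw [hu]; rfl, by rw [hu']; rfl, h5⟩
        · exact absurd (by rw [hu']; exact List.mem_cons_self) (h5 (0, -1) (by rw [hu]; exact List.mem_cons_self))
    · rintro ⟨s, (rfl | rfl), h1, h2, h3, h4, h5⟩
      · refine ⟨⟨h1, fun w hw => ?_, trivial⟩, ⟨h2, fun w hw => ?_, trivial⟩, h5⟩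
        · rw [h3] at hw
          simp only [Option.mem_def, Option.some.injEq] at hw
          rw [← hw]
          decide
        · rw [h4] at hw
          simp only [Option.mem_def, Option.some.injEq] at hw
          rw [← hw]
          decide
      · refine ⟨⟨h1, fun w hw => ?_, trivial⟩, ⟨h2, fun w hw => ?_, trivial⟩, h5⟩
        · rw [h3] at hw
          simp only [Option.mem_def, Option.some.injEq] at hw
          rw [← hw]
          decide
        · rw [h4] at hw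
          simp only [Option.mem_def, Option.some.injEq] at hw
          rw [← hw]
          decide
  have e2 : WD m m' = ⋃ s ∈ ({((1, 0), (-1, 1)), ((-1, 1), (0, -1)), ((0, -1), (1, 0)),
      ((-1, 1), (1, 0)), ((0, -1), (-1, 1)), ((1, 0), (0, -1))} : Finset (P2 × P2)),
        WQ m m' s := by
    ext p
    simp only [Set.mem_iUnion, exists_prop, Finset.mem_insert, Finset.mem_singleton]
    constructor
    · rintro ⟨h1, h3, h5⟩
      obtain ⟨u, t, hu, k⟩ := W_first hm h1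
      obtain ⟨u', t', hu', k'⟩ := W_first hm' h3
      have hne : u ≠ u' := by
        rintro rfl
        exact h5 u (by rw [hu]; exact List.mem_cons_self) (by rw [hu']; exact List.mem_cons_self)
      refine ⟨(u, u'), ?_, h1, h3, by rw [hu]; rfl, by rw [hu']; rfl, h5⟩
      rcases k with rfl | rfl | rfl <;> rcases k' with rfl | rfl | rfl <;>
        first
          | exact absurd rfl hne
          | tauto
    · rintro ⟨s, -, h1, h2, h3, h4, h5⟩
      exact ⟨h1, h2, h5⟩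
  have c1 : (WP Hx (0, 0) (1, 0) m m').ncard =
      (WQ m m' ((-1, 1), (0, -1))).ncard + (WQ m m' ((0, -1), (-1, 1))).ncard := by
    rw [e1, ncard_biUnion_eq _ _ (fun s _ => WQ_finite m m' s) (fun i _ j _ h => d h),
      Finset.sum_insert (by decide), Finset.sum_singleton]
  have c2 : (WD m m').ncard = (WQ m m' ((1, 0), (-1, 1))).ncard +
      ((WQ m m' ((-1, 1), (0, -1))).ncard + ((WQ m m' ((0, -1), (1, 0))).ncard +
      ((WQ m m' ((-1, 1), (1, 0))).ncard + ((WQ m m' ((0, -1), (-1, 1))).ncard +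
        (WQ m m' ((1, 0), (0, -1))).ncard)))) := by
    rw [e2, ncard_biUnion_eq _ _ (fun s _ => WQ_finite m m' s) (fun i _ j _ h => d h),
      Finset.sum_insert (by decide), Finset.sum_insert (by decide), Finset.sum_insert (by decide),
      Finset.sum_insert (by decide), Finset.sum_insert (by decide), Finset.sum_singleton]
  rw [c1, c2]
  omega

/-! ### pairs on the honeycomb lattice -/

lemma WD_card (m m' : ℕ) : (WD m m').ncard = aH (m + m') := by
  have e : WD m m' = (fun p : (Fin (m + 1) → P2) × (Fin (m' + 1) → P2) =>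
      ((List.ofFn fun i : Fin m => p.1 i.succ), (List.ofFn fun i : Fin m' => p.2 i.succ))) ''
        dprs2 Hx (0, 0) m m' := by
    ext ⟨r, r'⟩
    constructor
    · rintro ⟨h1, h2, h3⟩
      simp only at h1 h2 h3
      rw [W_image] at h1 h2
      obtain ⟨f, hf, rfl⟩ := h1
      obtain ⟨f', hf', rfl⟩ := h2
      refine ⟨(f, f'), ⟨hf, hf', fun i j hi hij => ?_⟩, rfl⟩
      simp only at hij
      induction i using Fin.cases with
      | zero => exact hi rfl
      | succ i =>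
        induction j using Fin.cases with
        | zero =>
          rw [hf'.1, ← hf.1] at hij
          exact Fin.succ_ne_zero i (hf.2.1 hij)
        | succ j =>
          refine h3 (f i.succ) ?_ ?_
          · rw [List.mem_ofFn]
            exact ⟨i, rfl⟩
          · rw [List.mem_ofFn]
            exact ⟨j, hij.symm⟩
    · rintro ⟨⟨f, f'⟩, ⟨hf, hf', h⟩, h4⟩
      simp only [Prod.mk.injEq] at h4
      obtain ⟨rfl, rfl⟩ := h4
      refine ⟨?_, ?_, ?_⟩
      · simp only
        rw [W_image]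
        exact ⟨f, hf, rfl⟩
      · simp only
        rw [W_image]
        exact ⟨f', hf', rfl⟩
      · intro e he he'
        simp only [List.mem_ofFn] at he he'
        obtain ⟨i, rfl⟩ := he
        obtain ⟨j, hj⟩ := he'
        exact h i.succ j.succ (Fin.succ_ne_zero i) hj.symm
  rw [e, Set.InjOn.ncard_image, card_dprs2 symH, saw_W]
  · rfl
  · rintro ⟨f, f'⟩ ⟨h1, h2, h3⟩ ⟨g, g'⟩ ⟨h4, h5, h6⟩ h
    simp only [Prod.mk.injEq] at h
    exact Prod.ext (W_injOn Hx (0, 0) m h1 h4 h.1) (W_injOn Hx (0, 0) m' h2 h5 h.2)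

/-! ### pairs on (3.12²) -/

/-- the walks with ends inside triangles, in coordinates -/
def FU (n : ℕ) : Set (Fin (n + 1) → P2 × P2) :=
  {f | f ∈ saw (AF Hx) e0 n ∧
    ∀ i : Fin n, (i.val = 0 ∨ i.val + 1 = n) → (f i.castSucc).1 = (f i.succ).1}

lemma FU_TT (n : ℕ) : {l | l ∈ TT Hx (n + 2) (0, 0) ∧ l.head? = some (((0, 0) : P2), ((1, 0) : P2))} =
    List.ofFn '' FU (n + 1) := by
  ext l
  constructor
  · rintro ⟨⟨⟨h1, h2, h3, u, r, -, h4⟩, h5, h6⟩, h7⟩
    obtain ⟨f, hf⟩ : ∃ f : Fin (n + 1 + 1) → P2 × P2, List.ofFn f = l :=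
      ⟨fun i => l[i.val]'(by omega), List.ext_getElem (by simp [h1]) (fun i _ _ => by
        rw [List.getElem_ofFn])⟩
    subst hf
    rw [FT_ofFn] at h5
    rw [LT_ofFn] at h6
    refine ⟨f, ⟨⟨?_, ?_, ?_⟩, ?_⟩, rfl⟩
    · rw [List.ofFn_succ] at h7
      simp only [List.head?_cons, Option.some.injEq] at h7
      exact h7
    · rw [← List.nodup_ofFn]
      exact h3
    · intro i
      rw [List.isChain_ofFn] at h2
      exact h2 i.val (by omega)
    · intro i hi
      rcases hi with hi | hi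
      · have : i = 0 := Fin.ext hi
        subst this
        exact h5
      · have : i = Fin.last n := Fin.ext (by simpa using hi)
        subst this
        exact h6
  · rintro ⟨f, ⟨⟨h1, h2, h3⟩, h4⟩, rfl⟩
    have hd : (List.ofFn f).head? = some ((0, 0), (1, 0)) := by
      rw [List.ofFn_succ]
      simp only [List.head?_cons]
      rw [h1]
      rfl
    refine ⟨⟨⟨by simp, ?_, ?_, (1, 0), List.ofFn (fun i : Fin (n + 1) => f i.succ), Hx0, ?_⟩,
      ?_, ?_⟩, hd⟩
    · rw [List.isChain_ofFn]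
      intro i hi
      exact h3 ⟨i, by omega⟩
    · rw [List.nodup_ofFn]
      exact h2
    · rw [List.ofFn_succ, h1]
      rfl
    · rw [FT_ofFn]
      exact h4 0 (Or.inl rfl)
    · rw [LT_ofFn]
      exact h4 (Fin.last n) (Or.inr (by simp))

lemma wF_FU (n : ℕ) : {ω : Fin (n + 1) → ℂ | ω ∈ wF n ∧ ends ω} =
    (fun f i => pt (f i)) '' FU n := by
  ext ω
  constructor
  · rintro ⟨h1, h2⟩
    unfold wF at h1
    rw [emb_image embF n] at h1
    obtain ⟨f, hf, rfl⟩ := h1
    have hv := emb_v embF hf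
    refine ⟨f, ⟨hf, fun i hi => ?_⟩, rfl⟩
    have := h2 i hi
    rw [cen_pt (hv _), cen_pt (hv _)] at this
    exact ps_inj' this
  · rintro ⟨f, ⟨hf, h2⟩, rfl⟩
    have hv := emb_v embF hf
    refine ⟨?_, fun i hi => ?_⟩
    · unfold wF
      rw [emb_image embF n]
      exact ⟨f, hf, rfl⟩
    · rw [cen_pt (hv _), cen_pt (hv _), h2 i hi]

/-- the disjoint pairs of walks with triangle steps at both ends -/
def PE (n : ℕ) : Set ((Fin (n + 1) → ℂ) × (Fin (n + 1) → ℂ)) :=
  {p | (p.1 ∈ wF n ∧ ends p.1) ∧ (p.2 ∈ wF n ∧ ends p.2) ∧ ∀ i j, i ≠ 0 → p.1 i ≠ p.2 j}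

/-- the same in coordinates -/
def PU (n : ℕ) : Set ((Fin (n + 1) → P2 × P2) × (Fin (n + 1) → P2 × P2)) :=
  {p | p.1 ∈ FU n ∧ p.2 ∈ FU n ∧ ∀ i j, i ≠ 0 → p.1 i ≠ p.2 j}

lemma PE_PU (n : ℕ) : (PE n).ncard = (PU n).ncard := by
  have e : PE n = (fun p : (Fin (n + 1) → P2 × P2) × (Fin (n + 1) → P2 × P2) =>
      ((fun i => pt (p.1 i)), (fun i => pt (p.2 i)))) '' PU n := by
    ext ⟨ω, ω'⟩
    constructor
    · rintro ⟨h1, h2, h3⟩
      simp only at h1 h2 h3
      have h1' : ω ∈ {ω : Fin (n + 1) → ℂ | ω ∈ wF n ∧ ends ω} := h1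
      have h2' : ω' ∈ {ω : Fin (n + 1) → ℂ | ω ∈ wF n ∧ ends ω} := h2
      rw [wF_FU] at h1' h2'
      obtain ⟨f, hf, rfl⟩ := h1'
      obtain ⟨f', hf', rfl⟩ := h2'
      refine ⟨(f, f'), ⟨hf, hf', fun i j hi hij => h3 i j hi ?_⟩, rfl⟩
      simp only at hij ⊢
      rw [hij]
    · rintro ⟨⟨f, f'⟩, ⟨h1, h2, h3⟩, h4⟩
      simp only [Prod.mk.injEq] at h4
      obtain ⟨rfl, rfl⟩ := h4
      simp only at h1 h2 h3
      have m1 : (fun i => pt (f i)) ∈ {ω : Fin (n + 1) → ℂ | ω ∈ wF n ∧ ends ω} := by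
        rw [wF_FU]
        exact ⟨f, h1, rfl⟩
      have m2 : (fun i => pt (f' i)) ∈ {ω : Fin (n + 1) → ℂ | ω ∈ wF n ∧ ends ω} := by
        rw [wF_FU]
        exact ⟨f', h2, rfl⟩
      refine ⟨m1, m2, fun i j hi hij => ?_⟩
      exact h3 i j hi (embF.inj (emb_v embF h1.1 i) (emb_v embF h2.1 j) hij)
  rw [e, Set.InjOn.ncard_image]
  rintro ⟨f, f'⟩ ⟨h1, h2, h3⟩ ⟨g, g'⟩ ⟨h4, h5, h6⟩ h
  simp only [Prod.mk.injEq] at h
  exact Prod.ext (emb_inj embF n h1.1 h4.1 h.1) (emb_inj embF n h2.1 h5.1 h.2)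

lemma PU_DP (n : ℕ) : (PU (n + 1)).ncard = (DP Hx (n + 2) (0, 0) (1, 0)).ncard := by
  have e : DP Hx (n + 2) (0, 0) (1, 0) =
      (fun p : (Fin (n + 1 + 1) → P2 × P2) × (Fin (n + 1 + 1) → P2 × P2) =>
        (List.ofFn p.1, List.ofFn p.2)) '' PU (n + 1) := by
    have tl : ∀ f : Fin (n + 1 + 1) → P2 × P2, (List.ofFn f).tail =
        List.ofFn fun i : Fin (n + 1) => f i.succ := by
      intro f
      rw [List.ofFn_succ, List.tail_cons]
    ext ⟨l, l'⟩
    constructor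
    · rintro ⟨h1, h2, h3⟩
      simp only at h1 h2 h3
      have h1' : l ∈ {l | l ∈ TT Hx (n + 2) (0, 0) ∧
        l.head? = some (((0, 0) : P2), ((1, 0) : P2))} := h1
      have h2' : l' ∈ {l | l ∈ TT Hx (n + 2) (0, 0) ∧
        l.head? = some (((0, 0) : P2), ((1, 0) : P2))} := h2
      rw [FU_TT] at h1' h2'
      obtain ⟨f, hf, rfl⟩ := h1'
      obtain ⟨f', hf', rfl⟩ := h2'
      refine ⟨(f, f'), ⟨hf, hf', fun i j hi hij => ?_⟩, rfl⟩
      simp only at hij
      rw [tl] at h3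
      induction i using Fin.cases with
      | zero => exact hi rfl
      | succ i =>
        refine h3 (f i.succ) ?_ ?_
        · rw [List.mem_ofFn]
          exact ⟨i, rfl⟩
        · rw [List.mem_ofFn]
          exact ⟨j, hij.symm⟩
    · rintro ⟨⟨f, f'⟩, ⟨h1, h2, h3⟩, h4⟩
      simp only [Prod.mk.injEq] at h4
      obtain ⟨rfl, rfl⟩ := h4
      simp only at h1 h2 h3
      have m1 : List.ofFn f ∈ {l | l ∈ TT Hx (n + 2) (0, 0) ∧
        l.head? = some (((0, 0) : P2), ((1, 0) : P2))} := by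
        rw [FU_TT]
        exact ⟨f, h1, rfl⟩
      have m2 : List.ofFn f' ∈ {l | l ∈ TT Hx (n + 2) (0, 0) ∧
        l.head? = some (((0, 0) : P2), ((1, 0) : P2))} := by
        rw [FU_TT]
        exact ⟨f', h2, rfl⟩
      refine ⟨m1, m2, ?_⟩
      simp only
      rw [tl]
      intro e he he'
      rw [List.mem_ofFn] at he he'
      obtain ⟨i, rfl⟩ := he
      obtain ⟨j, hj⟩ := he'
      exact h3 i.succ j (Fin.succ_ne_zero i) hj.symm
  rw [e, Set.InjOn.ncard_image]
  rintro ⟨f, f'⟩ _ ⟨g, g'⟩ _ h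
  simp only [Prod.mk.injEq] at h
  exact Prod.ext (List.ofFn_injective h.1) (List.ofFn_injective h.2)

/-- **the exact number of disjoint pairs** -/
theorem PE_count {n : ℕ} (hn : 3 ≤ n) : 3 * (PE n).ncard =
    4 * ∑ m ∈ range (n + 1), ∑ m' ∈ range (n + 1), kc m (n - 1) * kc m' (n - 1) * aH (m + m') := by
  obtain ⟨k, rfl⟩ : ∃ k, n = k + 1 := ⟨n - 1, by omega⟩
  rw [PE_PU, PU_DP, DP_count cub (by omega) Hx0]
  have e : k + 2 - 2 = k + 1 - 1 := by omega
  rw [e, ← mul_assoc, mul_comm 3 4, mul_assoc, mul_sum]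
  congr 1
  refine sum_congr rfl fun m _ => ?_
  rw [mul_sum]
  refine sum_congr rfl fun m' _ => ?_
  rcases Nat.eq_zero_or_pos m with h | h
  · subst h
    have : K 0 (k + 1 - 1) = 0 := by
      unfold K
      rw [if_neg (by omega)]
    rw [← K_kc 0, this]
    simp
  · rcases Nat.eq_zero_or_pos m' with h' | h'
    · subst h'
      have : K 0 (k + 1 - 1) = 0 := by
        unfold K
        rw [if_neg (by omega)]
      rw [← K_kc 0, this]
      simp
    · rw [← mul_assoc, one_third h h', WD_card, K_kc, K_kc]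
      ring

end Pool.Agent.D0H94.T13
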