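import Pool.Agent.D0H94.T13.StmC

/-!
# Statements: double mixtures (non-intersection on (3.12²)), three independent modules
-/

set_option autoImplicit false
set_option linter.unusedVariables false

namespace Pool.Agent.D0H94.T13

open Filter Topology Finset

/-- the double sum -/
noncomputable def DD (h : ℕ → ℝ) (n : ℕ) : ℝ :=
  ∑ m ∈ range (n + 1), ∑ m' ∈ range (n + 1), (kc m (n - 1) : ℝ) * kc m' (n - 1) * h (m + m')

/-- MODULE MASS. Proof. For `2 m + 1 ≤ n`, `j = n - 1 - 2 m`: `kc m (n-1) = choose m j`,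
`kc (m+1) (n+1) = choose (m+1) j` and `choose m j * (m+1) = choose (m+1) j * (m+1-j)`, so the ratio
is `(m + 1 - j) / (m + 1) = (3 m + 2 - n) / (m + 1)`, in `[0, 1]`, and within `C log n / √n` of
`3 - 1 / c = μ / (1 + μ)` when `|m - c n| ≤ L √n log n`, `c = (1+μ)/(3+2μ)`; the other `m` have total
weight `≤ exp (-log^2 n)` (Pool.Agent.D0H74.FM.t_CONC). -/
def S_MASS : Prop := ∀ μ ν : ℝ, 1 < μ → 0 < ν → ν * (1 / μ ^ 2 + 1 / μ ^ 3) = 1 →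
  ∀ h : ℕ → ℝ, (∀ m, 0 < h m) → (∃ c0 : ℝ, 0 < c0 ∧ ∀ m, c0 * ν ^ m ≤ h m) →
  (∃ K : ℝ, ∀ m, 2 ≤ m → h m ≤ ν ^ m * Real.exp (K * Real.log m ^ 2)) →
  Tendsto (fun n : ℕ => (∑ m ∈ range (n + 1), h m * kc m (n - 1)) / ZZ h n) atTop
    (𝓝 (μ / (1 + μ)))

/-- MODULE SHARP. Proof. With `w n m = h m kc (m+1) (n+1) / ZZ h n` (weights of total mass 1,
concentrated by CONC) and `ρ n m = kc m (n-1) / kc (m+1) (n+1) ∈ [0,1]` (tends to `μ/(1+μ)` on the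
window, see MASS): `DD h n / ZZ h n ^ 2 = ∑ ∑ w n m w n m' ρ n m ρ n m' h (m+m') / (h m h m')`; for
near `m, m'` the last factor times `(c n)^g` tends to `2^g / B` uniformly (`h m ~ B ν^m m^g`); for the
others it is at most `1 / c0` (assume `h (m + m') ≤ h m * h m'`) and the weight is
`≤ exp (-A log^2 n)`. -/
def S_SHARP : Prop := ∀ μ ν : ℝ, 1 < μ → 0 < ν → ν * (1 / μ ^ 2 + 1 / μ ^ 3) = 1 →
  ∀ h : ℕ → ℝ, (∀ m, 0 < h m) → (∃ c0 : ℝ, 0 < c0 ∧ ∀ m, c0 * ν ^ m ≤ h m) →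
  (∃ K : ℝ, ∀ m, 2 ≤ m → h m ≤ ν ^ m * Real.exp (K * Real.log m ^ 2)) →
  (∀ m m' : ℕ, h (m + m') ≤ h m * h m') →
  ∀ g B : ℝ, 0 < B → Tendsto (fun m : ℕ => h m / (ν ^ m * (m : ℝ) ^ g)) atTop (𝓝 B) →
  Tendsto (fun n : ℕ => DD h n / ZZ h n ^ 2 * ((1 + μ) / (3 + 2 * μ) * n) ^ g) atTop
    (𝓝 ((μ / (1 + μ)) ^ 2 * (2 ^ g / B)))

/-- MODULE UPP. Proof. Cut an ordered sum of `M + 1` numbers 2, 3 with total `2 n + 1` at the summand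
which covers the position from `n - 1` to `n`: `kc (M+1) (2n+1) = ∑_{i ≤ M} [kc i (n-1) (kc (M-i) n +
kc (M-i) (n-1)) + kc i (n-2) (kc (M-i) (n+1) + kc (M-i) n) + kc i (n-3) kc (M-i) (n+1)]`
(or only `≤`, by induction on `M`), and for fixed `m'` the sums `G N = ∑_m h (m+m') kc m N` satisfy
`G (N+1) ≤ C G N` and `G N ≤ C G (N+1)` for `N ≥ 2` (from `kc (m+1) N = kc m (N-2) + kc m (N-3)` and
the bounded ratios; compare GG_shift in Pool/Agent/D0H94/T12). `kc m 1 = 0` is the reason for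
`3 ≤ n`. -/
def S_UPP : Prop := ∀ h : ℕ → ℝ, (∀ m, 0 < h m) → ∀ B : ℝ,
  (∀ m, h (m + 1) ≤ B * h m) → (∀ m, h m ≤ B * h (m + 1)) →
  ∃ C : ℝ, 0 < C ∧ ∀ n : ℕ, 3 ≤ n → ZZ h (2 * n) ≤ C * DD h n

end Pool.Agent.D0H94.T13
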