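import Pool.Agent.D0H94.T13.StmC

/-!
# Statement: the renewal theorem with weights
-/

set_option autoImplicit false
set_option linter.unusedVariables false

namespace Pool.Agent.D0H94.T13

open Filter Topology Finset

/-- MODULE REN. Proof. (a) `h m = ν^m`: `ZZ h n = μ^(n+1) / ν * u (n+1)` with
`u N = ∑_k ν^k kc k N / μ^N`, `u N = p u (N-2) + q u (N-3)` (`N ≥ 3`), `p = ν/μ^2`, `q = ν/μ^3`,
`p + q = 1`, `u 0 = 1, u 1 = 0, u 2 = p`. `u (N+2) + u (N+1) + q u N` is constant `= p + q = 1`, so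
`e N = u N - 1 / (2 + q)` satisfies `e (N+2) = - e (N+1) - q e N`, and
`e (N+1)^2 + e (N+1) e N + q e N^2 = q^N (...)` tends to `0`; the form is positive definite for
`q > 1/4`, and `q = 1 / (1 + μ) > 1/4` if `μ < 3` (assumed). `1 / (2 + q) = (1 + μ) / (3 + 2 μ) = c`.
(b) general `h`: on the window `|m - c n| ≤ L √n log n` the ratio `h m / (ν^m (c n)^g)` tends to `B`
uniformly; outside both sums (for `h` and for `ν^m`) are `≤ exp (-log^2 n)` times the total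
(Pool.Agent.D0H74.FM.t_CONC for `h` and for `ν^m`). -/
def S_REN : Prop := ∀ μ ν : ℝ, 1 < μ → μ < 3 → 0 < ν → ν * (1 / μ ^ 2 + 1 / μ ^ 3) = 1 →
  ∀ h : ℕ → ℝ, (∀ m, 0 < h m) → (∃ c0 : ℝ, 0 < c0 ∧ ∀ m, c0 * ν ^ m ≤ h m) →
  (∃ K : ℝ, ∀ m, 2 ≤ m → h m ≤ ν ^ m * Real.exp (K * Real.log m ^ 2)) →
  ∀ g B : ℝ, 0 < B → Tendsto (fun m : ℕ => h m / (ν ^ m * (m : ℝ) ^ g)) atTop (𝓝 B) →
  Tendsto (fun n : ℕ => ZZ h n / (μ ^ n * ((1 + μ) / (3 + 2 * μ) * n) ^ g)) atTop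
    (𝓝 (B * ((1 + μ) / (3 + 2 * μ) * μ / ν)))

end Pool.Agent.D0H94.T13
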