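import Pool.Agent.D0H94.T13.Pr2
import Pool.Agent.D0H94.T13.Fm6
import Pool.Agent.D0H94.T13.StmD
import Pool.Agent.D0H94.T13.StmE
import Pool.Agent.D0H52.FM.Upp

/-!
# The probability of non-intersection on (3.12²)
-/

set_option autoImplicit false
set_option linter.unusedVariables false

namespace Pool.Agent.D0H94.T13

open Filter Topology Finset
open Pool.Agent.D0H94.T12

/-! ### the hypotheses of the modules -/

lemma hh_low : ∃ c0 : ℝ, 0 < c0 ∧ ∀ m, c0 * mH ^ m ≤ hh m := by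
  refine ⟨1, one_pos, fun m => ?_⟩
  have h : 1 ≤ (aH m : ℝ) / mH ^ m := hexWk.one_le m
  rw [le_div_iff₀ (pow_pos mH_pos m)] at h
  rw [hh_eq]
  linarith

lemma hh_up : ∃ K : ℝ, ∀ m, 2 ≤ m → hh m ≤ mH ^ m * Real.exp (K * Real.log m ^ 2) := by
  obtain ⟨K, hK, h⟩ := hexUp
  refine ⟨K, fun m hm => ?_⟩
  rw [hh_eq]
  exact h m hm

lemma hh_sub (m m' : ℕ) : hh (m + m') ≤ hh m * hh m' := by
  rw [hh_eq, hh_eq, hh_eq]
  exact_mod_cast submulH m m'

lemma hh_ratio : ∃ B : ℝ, (∀ m, hh (m + 1) ≤ B * hh m) ∧ ∀ m, hh m ≤ B * hh (m + 1) := by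
  obtain ⟨B, hB0, hB⟩ := rH_growth
  have hm := mH_pos
  refine ⟨hh 1 + B / mH, fun m => ?_, fun m => ?_⟩
  · have h1 := hh_sub m 1
    have h2 := hh_pos m
    have h3 : 0 ≤ B / mH := by positivity
    nlinarith
  · have h1 : (aH m : ℝ) / mH ^ m ≤ B * ((aH (m + 1) : ℝ) / mH ^ (m + 1)) := hB m
    have h2 := hh_pos (m + 1)
    have h3 := hh_pos 1
    have h4 : hh m ≤ B / mH * hh (m + 1) := by
      rw [hh_eq, hh_eq]
      rw [div_le_iff₀ (by positivity)] at h1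
      refine h1.trans (le_of_eq ?_)
      rw [pow_succ]
      field_simp
    nlinarith

lemma mF_lt : mF < 3 := by
  by_contra h
  have h3 : 3 ≤ mF := not_lt.1 h
  have hr := rel
  have hm := mH_pos
  have hm2 : mH < 2 := by
    unfold mH
    rw [Real.sqrt_lt' (by norm_num)]
    have : √2 < (2 : ℝ) := by
      rw [Real.sqrt_lt' (by norm_num)]
      norm_num
    linarith
  have hF : 0 < mF := by linarith
  have h1 : 1 / mF ^ 2 ≤ 1 / 9 := by
    apply one_div_le_one_div_of_le (by norm_num)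
    nlinarith
  have h2 : 1 / mF ^ 3 ≤ 1 / 27 := by
    apply one_div_le_one_div_of_le (by norm_num)
    have h4 : (9 : ℝ) ≤ mF ^ 2 := by nlinarith
    have : mF ^ 3 = mF ^ 2 * mF := by ring
    rw [this]
    nlinarith
  nlinarith

/-! ### the probability -/

/-- the number of disjoint pairs with ends inside triangles -/
theorem PE_DD {n : ℕ} (hn : 3 ≤ n) : ((PE n).ncard : ℝ) = 4 / 3 * DD hh n := by
  have h := PE_count hn
  have h' : (3 : ℝ) * ((PE n).ncard : ℝ) = 4 * ∑ m ∈ range (n + 1), ∑ m' ∈ range (n + 1),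
      (kc m (n - 1) : ℝ) * kc m' (n - 1) * (aH (m + m') : ℝ) := by exact_mod_cast h
  have e : DD hh n = ∑ m ∈ range (n + 1), ∑ m' ∈ range (n + 1),
      (kc m (n - 1) : ℝ) * kc m' (n - 1) * (aH (m + m') : ℝ) := by
    unfold DD
    refine sum_congr rfl fun m _ => sum_congr rfl fun m' _ => ?_
    rw [hh_eq]
  rw [e]
  linarith

/-- all disjoint pairs -/
def PA (n : ℕ) : Set ((Fin (n + 1) → ℂ) × (Fin (n + 1) → ℂ)) :=
  {p | p.1 ∈ wF n ∧ p.2 ∈ wF n ∧ ∀ i j, i ≠ 0 → p.1 i ≠ p.2 j}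

lemma PA_card (n : ℕ) : (PA n).ncard = aF (n + n) := pairsF n

lemma PE_le (n : ℕ) : (PE n).ncard ≤ (PA n).ncard := by
  refine Set.ncard_le_ncard ?_ ?_
  · rintro p ⟨h1, h2, h3⟩
    exact ⟨h1.1, h2.1, h3⟩
  · exact ((fin_wF n).prod (fin_wF n)).subset fun p h => ⟨h.1, h.2.1⟩

/-- the formula for the conditional probability -/
theorem prob_DD {n : ℕ} (hn : 3 ≤ n) :
    ((PE n).ncard : ℝ) / ((wE n).ncard : ℝ) ^ 2 = 3 / 4 * (DD hh n / ZZ hh n ^ 2) := by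
  have hz := ZZ_pos hn
  rw [PE_DD hn, card_wE hn]
  field_simp

/-- conditioning on the ends does not change the order of the probability -/
theorem prob_cmp : ∃ C : ℝ, 0 < C ∧ ∀ n : ℕ, 3 ≤ n →
    ((PE n).ncard : ℝ) / ((wE n).ncard : ℝ) ^ 2 ≤
      C * (((PA n).ncard : ℝ) / ((wF n).ncard : ℝ) ^ 2) ∧
    ((PA n).ncard : ℝ) / ((wF n).ncard : ℝ) ^ 2 ≤
      C * (((PE n).ncard : ℝ) / ((wE n).ncard : ℝ) ^ 2) := by
  obtain ⟨c, hc, hends⟩ := ends_pos
  obtain ⟨B, hB1, hB2⟩ := hh_ratio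
  obtain ⟨D, hD, hU⟩ := Pool.Agent.D0H52.FM.t_UPP hh hh_pos B hB1 hB2
  refine ⟨1 / c ^ 2 + D / c, by positivity, fun n hn => ?_⟩
  have hz := ZZ_pos hn
  have hE : (0 : ℝ) < (wE n).ncard := by
    rw [card_wE hn]
    positivity
  have hEF : ((wE n).ncard : ℝ) ≤ (wF n).ncard := by
    have : (wE n).ncard ≤ (wF n).ncard := Set.ncard_le_ncard (fun ω hω => hω.1) (fin_wF _)
    exact_mod_cast this
  have hF : (0 : ℝ) < (wF n).ncard := hE.trans_le hEF
  have h1 := hends n hn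
  have hPA : ((PE n).ncard : ℝ) ≤ (PA n).ncard := by exact_mod_cast PE_le n
  have hPE0 : (0 : ℝ) ≤ (PE n).ncard := Nat.cast_nonneg _
  have hPA0 : (0 : ℝ) ≤ (PA n).ncard := Nat.cast_nonneg _
  constructor
  · have h2 : ((PE n).ncard : ℝ) / ((wE n).ncard : ℝ) ^ 2 ≤
        1 / c ^ 2 * (((PA n).ncard : ℝ) / ((wF n).ncard : ℝ) ^ 2) := by
      have h3 : (c * (wF n).ncard) ^ 2 ≤ ((wE n).ncard : ℝ) ^ 2 :=
        pow_le_pow_left₀ (by positivity) h1 2
      calc ((PE n).ncard : ℝ) / ((wE n).ncard : ℝ) ^ 2 ≤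
          ((PA n).ncard : ℝ) / (c * (wF n).ncard) ^ 2 :=
            div_le_div₀ hPA0 hPA (by positivity) h3
        _ = _ := by
          rw [mul_pow]
          field_simp
    have h4 : 0 ≤ D / c * (((PA n).ncard : ℝ) / ((wF n).ncard : ℝ) ^ 2) := by positivity
    linarith
  · have h2 : ((PA n).ncard : ℝ) ≤ D / c * (PE n).ncard := by
      have h3 := hends (n + n) (by omega)
      have h4 := hU n hn
      rw [← two_mul] at h3
      rw [card_wE (show 3 ≤ 2 * n by omega)] at h3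
      have e : ((PA n).ncard : ℝ) = (wF (2 * n)).ncard := by
        rw [PA_card, two_mul]
        congr 1
        exact (cardF (n + n)).symm
      rw [e, PE_DD hn, div_mul_eq_mul_div, le_div_iff₀ hc]
      nlinarith
    have h3 : ((PA n).ncard : ℝ) / ((wF n).ncard : ℝ) ^ 2 ≤
        D / c * (((PE n).ncard : ℝ) / ((wE n).ncard : ℝ) ^ 2) := by
      have h4 : ((wE n).ncard : ℝ) ^ 2 ≤ ((wF n).ncard : ℝ) ^ 2 :=
        pow_le_pow_left₀ hE.le hEF 2
      calc ((PA n).ncard : ℝ) / ((wF n).ncard : ℝ) ^ 2 ≤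
          (D / c * (PE n).ncard) / ((wE n).ncard : ℝ) ^ 2 :=
            div_le_div₀ (by positivity) h2 (by positivity) h4
        _ = _ := by ring
    have h4 : 0 ≤ 1 / c ^ 2 * (((PE n).ncard : ℝ) / ((wE n).ncard : ℝ) ^ 2) := by positivity
    linarith

/-- the pairs on the honeycomb lattice -/
theorem pairs2H (m m' : ℕ) :
    {p : (Fin (m + 1) → ℂ) × (Fin (m' + 1) → ℂ) | p.1 ∈ wH m ∧ p.2 ∈ wH m' ∧
      ∀ i j, i ≠ 0 → p.1 i ≠ p.2 j}.ncard = aH (m + m') := by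
  have e : {p : (Fin (m + 1) → ℂ) × (Fin (m' + 1) → ℂ) | p.1 ∈ wH m ∧ p.2 ∈ wH m' ∧
      ∀ i j, i ≠ 0 → p.1 i ≠ p.2 j} =
      (fun p : (Fin (m + 1) → P2) × (Fin (m' + 1) → P2) =>
        ((fun i => ps (p.1 i)), (fun i => ps (p.2 i)))) '' dprs2 Hx (0, 0) m m' := by
    ext ⟨w, w'⟩
    constructor
    · rintro ⟨h1, h2, h3⟩
      simp only at h1 h2 h3
      unfold wH at h1 h2
      rw [emb_image embH] at h1 h2
      obtain ⟨f, hf, rfl⟩ := h1
      obtain ⟨f', hf', rfl⟩ := h2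
      refine ⟨(f, f'), ⟨hf, hf', fun i j hi hij => h3 i j hi ?_⟩, rfl⟩
      simp only at hij ⊢
      rw [hij]
    · rintro ⟨⟨f, f'⟩, ⟨h1, h2, h3⟩, h4⟩
      simp only [Prod.mk.injEq] at h4
      obtain ⟨rfl, rfl⟩ := h4
      refine ⟨?_, ?_, ?_⟩
      · simp only
        unfold wH
        rw [emb_image embH]
        exact ⟨f, h1, rfl⟩
      · simp only
        unfold wH
        rw [emb_image embH]
        exact ⟨f', h2, rfl⟩
      · intro i j hi hij
        exact h3 i j hi (ps_inj' hij)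
  rw [e, Set.InjOn.ncard_image, card_dprs2 symH, saw_W]
  · rfl
  · rintro ⟨f, f'⟩ ⟨h1, h2, h3⟩ ⟨g, g'⟩ ⟨h4, h5, h6⟩ h
    simp only [Prod.mk.injEq] at h
    exact Prod.ext (emb_inj embH m h1 h4 h.1) (emb_inj embH m' h2 h5 h.2)

end Pool.Agent.D0H94.T13
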