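import Pool.Agent.D0H94.T13.Pr3

/-!
# The double mixture and the window
-/

set_option autoImplicit false
set_option linter.unusedVariables false

namespace Pool.Agent.D0H94.T13

open Filter Topology Finset
open Pool.Agent.D0H94.T12

/-- the weights -/
noncomputable def vv (n m : ℕ) : ℝ := hh m * kc m (n - 1) / ZZ hh n

/-- the probability of non-intersection on the honeycomb lattice -/
noncomputable def Qh (m m' : ℕ) : ℝ := hh (m + m') / (hh m * hh m')

lemma Qh_nonneg (m m' : ℕ) : 0 ≤ Qh m m' :=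
  div_nonneg (hh_pos _).le (mul_nonneg (hh_pos _).le (hh_pos _).le)

lemma Qh_le (m m' : ℕ) : Qh m m' ≤ 1 := by
  unfold Qh
  rw [div_le_one (mul_pos (hh_pos _) (hh_pos _))]
  exact hh_sub m m'

lemma vv_nonneg (n m : ℕ) : 0 ≤ vv n m :=
  div_nonneg (mul_nonneg (hh_pos _).le (Nat.cast_nonneg _)) (ZZ_nonneg n)

lemma kc_le {n m : ℕ} (hn : 1 ≤ n) : kc m (n - 1) ≤ kc (m + 1) (n + 1) := by
  rw [← K_kc, ← K_kc]
  show K m (n - 1) ≤ (if 2 ≤ n + 1 then K m (n + 1 - 2) else 0) + _
  rw [if_pos (by omega), show n + 1 - 2 = n - 1 by omega]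
  exact Nat.le_add_right _ _

lemma vv_le {n : ℕ} (hn : 3 ≤ n) (m : ℕ) : vv n m ≤ wgt n m := by
  unfold vv wgt
  refine div_le_div_of_nonneg_right (mul_le_mul_of_nonneg_left ?_ (hh_pos m).le) (ZZ_nonneg n)
  exact_mod_cast kc_le (by omega)

lemma vv_sum_le {n : ℕ} (hn : 3 ≤ n) : ∑ m ∈ range (n + 1), vv n m ≤ 1 := by
  rw [← wgt_sum hn]
  exact sum_le_sum fun m _ => vv_le hn m

/-- the double mixture -/
theorem DD_mix (n : ℕ) : DD hh n / ZZ hh n ^ 2 =
    ∑ m ∈ range (n + 1), ∑ m' ∈ range (n + 1), vv n m * vv n m' * Qh m m' := by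
  unfold DD
  rw [sum_div]
  refine sum_congr rfl fun m _ => ?_
  rw [sum_div]
  refine sum_congr rfl fun m' _ => ?_
  unfold vv Qh
  have h1 := hh_pos m
  have h2 := hh_pos m'
  rcases eq_or_ne (ZZ hh n) 0 with h | h
  · rw [h]
    simp
  · field_simp

theorem vv_conc (A : ℝ) (hA : 0 < A) : ∃ L : ℝ, 0 < L ∧ ∀ n : ℕ, 3 ≤ n →
    ∑ m ∈ (range (n + 1)).filter (fun m : ℕ => L * (√(n : ℝ) * Real.log n) ≤ |(m : ℝ) - cc * n|),
      vv n m ≤ Real.exp (-(A * Real.log n ^ 2)) := by
  obtain ⟨L, hL, h⟩ := wts.conc A hA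
  refine ⟨L, hL, fun n hn => (sum_le_sum fun m _ => vv_le hn m).trans (h n hn)⟩

/-- the total mass -/
theorem vv_mass (hM : S_MASS) : Tendsto (fun n : ℕ => ∑ m ∈ range (n + 1), vv n m) atTop
    (𝓝 (mF / (1 + mF))) := by
  have h := hM mF mH mF_gt mH_pos rel hh hh_pos hh_low hh_up
  refine h.congr fun n => ?_
  rw [sum_div]
  rfl

lemma vv_sum_pos {n : ℕ} (hn : 3 ≤ n) : 0 < ∑ m ∈ range (n + 1), vv n m := by
  refine lt_of_lt_of_le ?_ (Finset.single_le_sum (f := fun m => vv n m)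
    (fun m _ => vv_nonneg n m) (Finset.mem_range.2 (show (n - 1) / 2 < n + 1 by omega)))
  refine div_pos (mul_pos (hh_pos _) ?_) (ZZ_pos hn)
  have : 0 < kc ((n - 1) / 2) (n - 1) := by
    unfold kc
    rw [if_pos (by omega)]
    exact Nat.choose_pos (by omega)
  exact_mod_cast this

lemma vv_low (hM : S_MASS) : ∃ κ : ℝ, 0 < κ ∧ ∀ n : ℕ, 3 ≤ n →
    κ ≤ ∑ m ∈ range (n + 1), vv n m := by
  have hF := mF_pos
  have h := vv_mass hM
  have h0 : 0 < mF / (1 + mF) := by positivity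
  have h1 : ∀ᶠ n : ℕ in atTop, mF / (1 + mF) / 2 < ∑ m ∈ range (n + 1), vv n m :=
    h.eventually (lt_mem_nhds (half_lt_self h0))
  obtain ⟨n0, h2⟩ := eventually_atTop.1 h1
  have h3 : ∀ k : ℕ, ∃ κ : ℝ, 0 < κ ∧ ∀ n : ℕ, 3 ≤ n → n < k →
      κ ≤ ∑ m ∈ range (n + 1), vv n m := by
    intro k
    induction k with
    | zero => exact ⟨1, one_pos, fun n _ h => by omega⟩
    | succ k ih =>
      obtain ⟨κ, hκ, h4⟩ := ih
      rcases Nat.lt_or_ge k 3 with h5 | h5
      · exact ⟨κ, hκ, fun n hn hk => by omega⟩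
      · refine ⟨min κ (∑ m ∈ range (k + 1), vv k m), lt_min hκ (vv_sum_pos h5), fun n hn hk => ?_⟩
        rcases Nat.lt_or_ge n k with h6 | h6
        · exact (min_le_left _ _).trans (h4 n hn h6)
        · obtain rfl : n = k := by omega
          exact min_le_right _ _
  obtain ⟨κ, hκ, h4⟩ := h3 n0
  refine ⟨min κ (mF / (1 + mF) / 2), lt_min hκ (by positivity), fun n hn => ?_⟩
  rcases Nat.lt_or_ge n n0 with h6 | h6
  · exact (min_le_left _ _).trans (h4 n hn h6)
  · exact (min_le_right _ _).trans (h2 n h6).le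

/-- **the window for the probability** -/
theorem window (hM : S_MASS) (A : ℝ) (hA : 0 < A) : ∃ C L : ℝ, 0 < C ∧ 0 < L ∧ ∀ n : ℕ, 3 ≤ n →
    ∀ δ : ℝ, 0 ≤ δ →
      ((∀ m m' : ℕ, |(m : ℝ) - cc * n| ≤ L * (√(n : ℝ) * Real.log n) →
        |(m' : ℝ) - cc * n| ≤ L * (√(n : ℝ) * Real.log n) → Qh m m' ≤ δ) →
        ((PA n).ncard : ℝ) / ((wF n).ncard : ℝ) ^ 2 ≤
          C * δ + Real.exp (-(A * Real.log n ^ 2))) ∧
      ((∀ m m' : ℕ, |(m : ℝ) - cc * n| ≤ L * (√(n : ℝ) * Real.log n) →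
        |(m' : ℝ) - cc * n| ≤ L * (√(n : ℝ) * Real.log n) → δ ≤ Qh m m') →
        δ / C ≤ ((PA n).ncard : ℝ) / ((wF n).ncard : ℝ) ^ 2) := by
  obtain ⟨C, hC, hcmp⟩ := prob_cmp
  obtain ⟨κ, hκ, hlow⟩ := vv_low hM
  obtain ⟨L1, hL1, h1⟩ := vv_conc (A + 2 * C) (by positivity)
  obtain ⟨L2, hL2, h2⟩ := vv_conc (|Real.log (κ / 2)| + 1) (by positivity)
  refine ⟨C + 16 / 3 * C / κ ^ 2, L1 + L2, by positivity, by positivity, fun n hn δ hδ => ?_⟩
  have hn0 : (0 : ℝ) < n := by exact_mod_cast (show 0 < n by omega)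
  have hl1 : 1 ≤ Real.log n := by
    have h3 : (3 : ℝ) ≤ n := by exact_mod_cast hn
    rw [Real.le_log_iff_exp_le hn0]
    have := Real.exp_one_lt_d9
    linarith
  have hl2 : 1 ≤ Real.log (n : ℝ) ^ 2 := by nlinarith
  have hsl : 0 ≤ √(n : ℝ) * Real.log n :=
    mul_nonneg (Real.sqrt_nonneg _) (Real.log_natCast_nonneg n)
  obtain ⟨hc1, hc2⟩ := hcmp n hn
  rw [prob_DD hn, DD_mix] at hc1 hc2
  obtain ⟨p, hp⟩ : ∃ p, p = ((PA n).ncard : ℝ) / ((wF n).ncard : ℝ) ^ 2 := ⟨_, rfl⟩
  rw [← hp] at hc1 hc2 ⊢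
  -- near and far
  obtain ⟨nr, hnr⟩ : ∃ nr : ℕ → Prop, nr = fun m : ℕ =>
      |(m : ℝ) - cc * n| ≤ (L1 + L2) * (√(n : ℝ) * Real.log n) := ⟨_, rfl⟩
  have hfar : ∀ L : ℝ, L ≤ L1 + L2 → ∀ m ∈ range (n + 1), ¬ nr m →
      m ∈ (range (n + 1)).filter (fun m : ℕ => L * (√(n : ℝ) * Real.log n) ≤
        |(m : ℝ) - cc * n|) := by
    intro L hL m hm h
    rw [hnr] at h
    rw [mem_filter]
    refine ⟨hm, le_trans (mul_le_mul_of_nonneg_right hL hsl) (not_le.1 h).le⟩
  classical
  have f1 : ∑ m ∈ (range (n + 1)).filter (fun m => ¬ nr m), vv n m ≤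
      Real.exp (-((A + 2 * C) * Real.log n ^ 2)) := by
    refine le_trans (sum_le_sum_of_subset_of_nonneg ?_ (fun m _ _ => vv_nonneg n m)) (h1 n hn)
    intro m hm
    rw [mem_filter] at hm
    exact hfar L1 (by linarith) m hm.1 hm.2
  have f2 : ∑ m ∈ (range (n + 1)).filter (fun m => ¬ nr m), vv n m ≤ κ / 2 := by
    refine le_trans (le_trans (sum_le_sum_of_subset_of_nonneg ?_ (fun m _ _ => vv_nonneg n m))
      (h2 n hn)) ?_
    · intro m hm
      rw [mem_filter] at hm
      exact hfar L2 (by linarith) m hm.1 hm.2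
    · have h3 : Real.exp (Real.log (κ / 2)) = κ / 2 := Real.exp_log (by positivity)
      rw [← h3]
      apply Real.exp_le_exp.2
      rw [h3]
      have h4 := neg_abs_le (Real.log (κ / 2))
      have h5 : 0 ≤ |Real.log (κ / 2)| := abs_nonneg _
      nlinarith
  have tot := sum_filter_add_sum_filter_not (range (n + 1)) nr (fun m => vv n m)
  have one := vv_sum_le hn
  have low := hlow n hn
  obtain ⟨a, ha⟩ : ∃ a, a = ∑ m ∈ (range (n + 1)).filter nr, vv n m := ⟨_, rfl⟩
  obtain ⟨b, hb⟩ : ∃ b, b = ∑ m ∈ (range (n + 1)).filter (fun m => ¬ nr m), vv n m := ⟨_, rfl⟩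
  have ha0 : 0 ≤ a := by rw [ha]; exact sum_nonneg fun m _ => vv_nonneg n m
  have hb0 : 0 ≤ b := by rw [hb]; exact sum_nonneg fun m _ => vv_nonneg n m
  rw [← ha, ← hb] at tot
  rw [← hb] at f1 f2
  rw [← tot] at one low
  constructor
  · intro h
    have k1 : ∑ m ∈ range (n + 1), ∑ m' ∈ range (n + 1), vv n m * vv n m' * Qh m m' ≤
        δ + 2 * b := by
      have k2 : ∀ m ∈ range (n + 1), ∀ m' ∈ range (n + 1), vv n m * vv n m' * Qh m m' ≤
          vv n m * vv n m' * δ + ((if ¬ nr m then vv n m else 0) * vv n m' +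
            vv n m * (if ¬ nr m' then vv n m' else 0)) := by
        intro m hm m' hm'
        have q0 := vv_nonneg n m
        have q0' := vv_nonneg n m'
        have q1 := Qh_nonneg m m'
        have q2 := Qh_le m m'
        have q3 : 0 ≤ vv n m * vv n m' := mul_nonneg q0 q0'
        have q4 : 0 ≤ vv n m * vv n m' * δ := mul_nonneg q3 hδ
        by_cases g1 : nr m
        · by_cases g2 : nr m'
          · have g3 : Qh m m' ≤ δ := by
              rw [hnr] at g1 g2
              exact h m m' g1 g2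
            have g4 := mul_le_mul_of_nonneg_left g3 q3
            simp only [g1, g2, not_true, if_false, zero_mul, mul_zero, add_zero]
            exact g4
          · have g4 := mul_le_mul_of_nonneg_left q2 q3
            simp only [g1, g2, not_true, not_false_iff, if_true, if_false, zero_mul, zero_add]
            linarith
        · have g4 := mul_le_mul_of_nonneg_left q2 q3
          have g5 : 0 ≤ vv n m * (if ¬ nr m' then vv n m' else 0) := by
            refine mul_nonneg q0 ?_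
            split_ifs
            · exact le_rfl
            · exact q0'
          simp only [g1, not_false_iff, if_true]
          linarith
      refine (sum_le_sum fun m hm => sum_le_sum fun m' hm' => k2 m hm m' hm').trans ?_
      simp only [sum_add_distrib]
      have e1 : ∑ m ∈ range (n + 1), ∑ m' ∈ range (n + 1), vv n m * vv n m' * δ =
          (a + b) * (a + b) * δ := by
        rw [tot, sum_mul_sum, sum_mul]
        refine sum_congr rfl fun m _ => ?_
        rw [sum_mul]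
      have e2 : ∑ m ∈ range (n + 1), ∑ m' ∈ range (n + 1),
          (if ¬ nr m then vv n m else 0) * vv n m' = b * (a + b) := by
        rw [tot, hb, sum_filter, sum_mul_sum]
      have e3 : ∑ m ∈ range (n + 1), ∑ m' ∈ range (n + 1),
          vv n m * (if ¬ nr m' then vv n m' else 0) = (a + b) * b := by
        rw [tot, hb, sum_filter, sum_mul_sum]
      rw [e1, e2, e3]
      have g1 : (a + b) * (a + b) ≤ 1 := by nlinarith
      nlinarith
    have k3 : p ≤ C * (3 / 4 * (δ + 2 * b)) :=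
      hc2.trans (mul_le_mul_of_nonneg_left (mul_le_mul_of_nonneg_left k1 (by norm_num)) hC.le)
    have k4 : 2 * C * Real.exp (-((A + 2 * C) * Real.log n ^ 2)) ≤
        Real.exp (-(A * Real.log n ^ 2)) := by
      have k5 : 2 * C ≤ Real.exp (2 * C * Real.log n ^ 2) := by
        have := Real.add_one_le_exp (2 * C * Real.log n ^ 2)
        nlinarith
      calc 2 * C * Real.exp (-((A + 2 * C) * Real.log n ^ 2)) ≤
          Real.exp (2 * C * Real.log n ^ 2) * Real.exp (-((A + 2 * C) * Real.log n ^ 2)) :=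
            mul_le_mul_of_nonneg_right k5 (Real.exp_pos _).le
        _ = _ := by
          rw [← Real.exp_add]
          congr 1
          ring
    have k6 : 0 ≤ 16 / 3 * C / κ ^ 2 * δ := by positivity
    have k7 : C * (3 / 4 * (δ + 2 * b)) ≤ C * δ + 2 * C * b := by nlinarith [mul_nonneg hC.le hδ, mul_nonneg hC.le hb0]
    have k8 : 2 * C * b ≤ 2 * C * Real.exp (-((A + 2 * C) * Real.log n ^ 2)) :=
      mul_le_mul_of_nonneg_left f1 (by positivity)
    nlinarith
  · intro h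
    have k1 : a * a * δ ≤
        ∑ m ∈ range (n + 1), ∑ m' ∈ range (n + 1), vv n m * vv n m' * Qh m m' := by
      have e1 : a * a * δ = ∑ m ∈ range (n + 1), ∑ m' ∈ range (n + 1),
          (if nr m then vv n m else 0) * (if nr m' then vv n m' else 0) * δ := by
        rw [ha, sum_filter, sum_mul_sum, sum_mul]
        refine sum_congr rfl fun m _ => ?_
        rw [sum_mul]
      rw [e1]
      refine sum_le_sum fun m hm => sum_le_sum fun m' hm' => ?_
      have q0 := vv_nonneg n m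
      have q0' := vv_nonneg n m'
      have q1 := Qh_nonneg m m'
      have q3 : 0 ≤ vv n m * vv n m' := mul_nonneg q0 q0'
      have q4 : 0 ≤ vv n m * vv n m' * Qh m m' := mul_nonneg q3 q1
      by_cases g1 : nr m
      · by_cases g2 : nr m'
        · have g3 : δ ≤ Qh m m' := by
            rw [hnr] at g1 g2
            exact h m m' g1 g2
          simp only [g1, g2, if_true]
          exact mul_le_mul_of_nonneg_left g3 q3
        · simp only [g2, if_false, mul_zero, zero_mul]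
          exact q4
      · simp only [g1, if_false, zero_mul]
        exact q4
    have k2 : κ / 2 ≤ a := by linarith
    have k3 : (κ / 2) ^ 2 * δ ≤ a * a * δ := by
      refine mul_le_mul_of_nonneg_right ?_ hδ
      nlinarith
    have k4 : 3 / 4 * ((κ / 2) ^ 2 * δ) ≤ C * p := by linarith
    rw [div_le_iff₀ (by positivity)]
    have k5 : δ ≤ 16 / 3 * C / κ ^ 2 * p := by
      rw [div_mul_eq_mul_div, le_div_iff₀ (by positivity)]
      nlinarith
    have k6 : 0 ≤ p := by rw [hp]; positivity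
    nlinarith [mul_nonneg hC.le k6]

/-- **sharp asymptotics** -/
theorem sharp_prob (hS : S_SHARP) {g B : ℝ} (hB : 0 < B)
    (h : Tendsto (fun m : ℕ => hh m / (mH ^ m * (m : ℝ) ^ g)) atTop (𝓝 B)) :
    Tendsto (fun n : ℕ => ((PE n).ncard : ℝ) / ((wE n).ncard : ℝ) ^ 2 * (cc * n) ^ g) atTop
      (𝓝 (3 / 4 * ((mF / (1 + mF)) ^ 2 * (2 ^ g / B)))) := by
  have h1 := (hS mF mH mF_gt mH_pos rel hh hh_pos hh_low hh_up hh_sub g B hB h).const_mul (3 / 4)
  refine h1.congr' ?_
  filter_upwards [eventually_ge_atTop 3] with n hn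
  rw [prob_DD hn]
  unfold cc
  ring

theorem sharp_count (hR : S_REN) {g B : ℝ} (hB : 0 < B)
    (h : Tendsto (fun m : ℕ => hh m / (mH ^ m * (m : ℝ) ^ g)) atTop (𝓝 B)) :
    Tendsto (fun n : ℕ => ((wE n).ncard : ℝ) / (mF ^ n * (cc * n) ^ g)) atTop
      (𝓝 (4 / 3 * (B * (cc * mF / mH)))) := by
  have h1 := (hR mF mH mF_gt mF_lt mH_pos rel hh hh_pos hh_low hh_up g B hB h).const_mul (4 / 3)
  refine h1.congr' ?_
  filter_upwards [eventually_ge_atTop 3] with n hn
  rw [card_wE hn]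
  unfold cc
  ring

end Pool.Agent.D0H94.T13
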