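import Pool.Agent.D0H94.T13.Cen

/-!
# Weighted sums over the walks, moments
-/

set_option autoImplicit false
set_option linter.unusedVariables false

namespace Pool.Agent.D0H94.T13

open Filter Topology Finset
open Pool.Agent.D0H94.T12

lemma BB_mono {ψ ψ' : List P2 → ℝ} (h : ∀ p, ψ p ≤ ψ' p) (n : ℕ) : BB ψ n ≤ BB ψ' n := by
  unfold BB
  rw [finsum_mem_eq_finite_toFinset_sum _ (W_fin n), finsum_mem_eq_finite_toFinset_sum _ (W_fin n)]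
  exact Finset.sum_le_sum fun r _ => h _

lemma BB_absle {ψ ψ' : List P2 → ℝ} (h : ∀ p, |ψ p| ≤ ψ' p) (n : ℕ) : |BB ψ n| ≤ BB ψ' n := by
  unfold BB
  rw [finsum_mem_eq_finite_toFinset_sum _ (W_fin n), finsum_mem_eq_finite_toFinset_sum _ (W_fin n)]
  exact (Finset.abs_sum_le_sum_abs _ _).trans (Finset.sum_le_sum fun r _ => h _)

lemma BB_ge {ψ : List P2 → ℝ} (h : ∀ p, 1 ≤ ψ p) (n : ℕ) : (aF n : ℝ) ≤ BB ψ n := by
  rw [← BB_one n]
  exact BB_mono h n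

lemma mix_obs (ψ : List P2 → ℝ) {n : ℕ} (hn : 3 ≤ n) :
    mix 6 (FF Hx thd (0, 0) (obs e0 ψ)) (n + 1) = BB ψ n := by
  rw [← tot_eq (th := thd) cub (0, 0) (obs_inv e0 ψ) (by omega), tot_obs]

lemma FF_le {ψ ψ' : List P2 → ℝ} (h : ∀ p, |ψ p| ≤ ψ' p) (m s : ℕ) :
    |FF Hx thd (0, 0) (obs e0 ψ) m s| ≤ FF Hx thd (0, 0) (obs e0 ψ') m s := by
  unfold FF
  rw [finsum_mem_eq_finite_toFinset_sum _ (Kms_finite cub (0, 0) m s),
    finsum_mem_eq_finite_toFinset_sum _ (Kms_finite cub (0, 0) m s)]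
  refine (Finset.abs_sum_le_sum_abs _ _).trans (Finset.sum_le_sum fun κ _ => ?_)
  unfold obs
  split_ifs
  · exact h _
  · simp

lemma wlower {ψ0 : List P2 → ℝ} (h1 : ∀ p, 1 ≤ ψ0 p) (N : ℕ) (hN : 4 ≤ N) :
    1 / mF * mF ^ N ≤ mix 6 (FF Hx thd (0, 0) (obs e0 ψ0)) N := by
  obtain ⟨n, rfl⟩ : ∃ n, N = n + 1 := ⟨N - 1, by omega⟩
  obtain ⟨K0, hK0, hq⟩ := quasiF
  rw [mix_obs ψ0 (by omega)]
  refine le_trans ?_ (BB_ge h1 n)
  refine le_trans (le_of_eq ?_) (hq n (by omega)).1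
  have := mF_pos
  rw [pow_succ]
  field_simp

lemma wupper {ψ0 : List P2 → ℝ} {K : ℝ} (hK : 0 ≤ K)
    (hg : ∀ n, 3 ≤ n → BB ψ0 n ≤ mF ^ n * Real.exp (K * Real.log n ^ 2)) (N : ℕ) (hN : 4 ≤ N) :
    mix 6 (FF Hx thd (0, 0) (obs e0 ψ0)) N ≤ mF ^ N * Real.exp (K * Real.log N ^ 2) := by
  obtain ⟨n, rfl⟩ : ∃ n, N = n + 1 := ⟨N - 1, by omega⟩
  rw [mix_obs ψ0 (by omega)]
  refine (hg n (by omega)).trans ?_
  have hm := mF_gt
  have l0 : 0 ≤ Real.log (n : ℝ) := Real.log_natCast_nonneg n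
  have hn0 : (0 : ℝ) < n := by exact_mod_cast (show 0 < n by omega)
  have l1 : Real.log (n : ℝ) ≤ Real.log ((n + 1 : ℕ) : ℝ) :=
    Real.log_le_log hn0 (by push_cast; linarith)
  gcongr
  · exact hm.le
  · omega

/-- **regularity of all orders relative to a weight** -/
theorem wreg {ψ0 : List P2 → ℝ} (h1 : ∀ p, 1 ≤ ψ0 p) {K0 : ℝ} (hK0 : 0 ≤ K0)
    (hg : ∀ n, 3 ≤ n → BB ψ0 n ≤ mF ^ n * Real.exp (K0 * Real.log n ^ 2)) (r : ℕ) :
    ∃ K : ℝ, 0 ≤ K ∧ ∀ ψ : List P2 → ℝ, (∀ p, |ψ p| ≤ ψ0 p) → ∀ n, 2 ≤ n →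
      |diff r (fun n => BB ψ n / mF ^ n) n| ≤ K * ρ n ^ r * (BB ψ0 n / mF ^ n) := by
  have hm := mF_pos
  have hm1 := mF_gt
  have habs : ∀ p, |ψ0 p| ≤ ψ0 p := fun p => by rw [abs_of_nonneg (by linarith [h1 p])]
  have hB : ∀ n, 0 < BB ψ0 n / mF ^ n := fun n => by
    have h2 := A_pos n
    refine h2.trans_le (div_le_div_of_nonneg_right (BB_ge h1 n) (pow_pos hm n).le)
  obtain ⟨K, hK, h⟩ := Pool.Agent.D0H81.FT.t_MIX bin_ mF 6 4 (FF Hx thd (0, 0) (obs e0 ψ0)) hm1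
    (by norm_num) (fun m s => (abs_nonneg _).trans (FF_le habs m s))
    ⟨1 / mF, by positivity, wlower h1⟩ ⟨K0, wupper hK0 hg⟩ r
  set c0 : ℝ := ∑ i ∈ range (r + 1), (r.choose i : ℝ) * (BB ψ0 (2 + i) / mF ^ (2 + i)) with hc0
  have hc0' : 0 ≤ c0 := Finset.sum_nonneg fun i _ => mul_nonneg (Nat.cast_nonneg _) (hB _).le
  have hr2 : 0 < ρ 2 ^ r := pow_pos (rho_pos le_rfl) r
  refine ⟨K * 2 ^ r + c0 / (ρ 2 ^ r * (BB ψ0 2 / mF ^ 2)),
    add_nonneg (by positivity) (div_nonneg hc0' (mul_pos hr2 (hB 2)).le), fun ψ hψ n hn => ?_⟩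
  rcases Nat.lt_or_ge n 3 with h3 | h3
  · have h2 : n = 2 := by omega
    subst h2
    refine arith1 ?_ hr2 (hB 2) (by positivity)
    unfold diff
    refine (Finset.abs_sum_le_sum_abs _ _).trans (Finset.sum_le_sum fun i _ => ?_)
    rw [abs_mul, abs_mul, abs_pow, abs_neg, abs_one, one_pow, one_mul, Nat.abs_cast, abs_div,
      abs_of_pos (pow_pos hm (2 + i))]
    exact mul_le_mul_of_nonneg_left (div_le_div_of_nonneg_right (BB_absle hψ _)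
      (pow_pos hm (2 + i)).le) (Nat.cast_nonneg _)
  · have h5 := h (FF Hx thd (0, 0) (obs e0 ψ)) (FF_le hψ) (n + 1) (by omega)
    have e1 : diff r (fun n => BB ψ n / mF ^ n) n =
        mF * diff r (fun n => mix 6 (FF Hx thd (0, 0) (obs e0 ψ)) n / mF ^ n) (n + 1) := by
      unfold diff
      rw [Finset.mul_sum]
      refine Finset.sum_congr rfl fun i _ => ?_
      simp only
      rw [show n + 1 + i = (n + i) + 1 by ring, mix_obs ψ (show 3 ≤ n + i by omega)]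
      exact arith3 hm _ _ _
    rw [mix_obs ψ0 h3] at h5
    rw [e1, abs_mul, abs_of_pos hm]
    have h4 : ρ (n + 1) ^ r ≤ (2 * ρ n) ^ r :=
      pow_le_pow_left₀ (rho_nonneg _) (rho_succ (by omega)) r
    have hx : 0 ≤ BB ψ0 n / mF ^ (n + 1) := by
      have := hB n
      have e : BB ψ0 n / mF ^ (n + 1) = (BB ψ0 n / mF ^ n) / mF := by
        rw [pow_succ]
        field_simp
      rw [e]
      positivity
    have hr := rho_nonneg n
    calc mF * |diff r (fun n => mix 6 (FF Hx thd (0, 0) (obs e0 ψ)) n / mF ^ n) (n + 1)|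
        ≤ mF * (K * (2 * ρ n) ^ r * (BB ψ0 n / mF ^ (n + 1))) := by
          refine mul_le_mul_of_nonneg_left (h5.trans ?_) hm.le
          exact mul_le_mul_of_nonneg_right (mul_le_mul_of_nonneg_left h4 hK) hx
      _ = K * 2 ^ r * ρ n ^ r * (BB ψ0 n / mF ^ n) := by
          rw [mul_pow, pow_succ]
          field_simp
      _ ≤ _ := by
          have h6 : 0 ≤ c0 / (ρ 2 ^ r * (BB ψ0 2 / mF ^ 2)) :=
            div_nonneg hc0' (mul_pos hr2 (hB 2)).le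
          have h7 : 0 ≤ ρ n ^ r * (BB ψ0 n / mF ^ n) := mul_nonneg (pow_nonneg hr r) (hB n).le
          nlinarith

/-- **expectations** -/
theorem wlaw {ψ0 : List P2 → ℝ} (h1 : ∀ p, 1 ≤ ψ0 p) {K0 : ℝ} (hK0 : 0 ≤ K0)
    (hg : ∀ n, 3 ≤ n → BB ψ0 n ≤ mF ^ n * Real.exp (K0 * Real.log n ^ 2)) (r : ℕ) :
    ∃ K : ℝ, 0 ≤ K ∧ ∀ ψ : List P2 → ℝ, (∀ p, |ψ p| ≤ ψ0 p) → ∀ n, 2 ≤ n →
      |diff r (fun n => BB ψ n / aF n) n| ≤ K * ρ n ^ r * (BB ψ0 n / aF n) := by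
  have hm := mF_pos
  have habs : ∀ p, |ψ0 p| ≤ ψ0 p := fun p => by rw [abs_of_nonneg (by linarith [h1 p])]
  have hB : ∀ n, 0 < BB ψ0 n / mF ^ n := fun n => by
    have h2 := A_pos n
    refine h2.trans_le (div_le_div_of_nonneg_right (BB_ge h1 n) (pow_pos hm n).le)
  choose L hL h using wreg h1 hK0 hg
  obtain ⟨C, hC, c1, -⟩ := Pool.Agent.D0H52.FT.ratio (fun n => BB ψ0 n / mF ^ n) hB
    (fun r => ⟨L r, hL r, fun n hn => h r ψ0 habs n hn⟩)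
  obtain ⟨M, hM, hinv⟩ := Pool.Agent.D0H52.FT.inv_rg AA AA_pos rgA
  obtain ⟨K, hK, hh⟩ := Pool.Agent.D0H52.FT.prod_bound C (by linarith) L M hL hM r
  have e : ∀ (x : ℝ) (n : ℕ), x / mF ^ n * (AA n)⁻¹ = x / aF n := by
    intro x n
    have h2 := AA_pos n
    have h3 := (pow_pos hm n).ne'
    unfold AA at h2 ⊢
    have h4 : (aF n : ℝ) ≠ 0 := fun h0 => by
      rw [h0, zero_div] at h2
      exact lt_irrefl _ h2
    field_simp
  refine ⟨K, hK, fun ψ hψ n hn => ?_⟩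
  have := hh (fun n => BB ψ0 n / mF ^ n) (fun n => BB ψ n / mF ^ n) (fun n => (AA n)⁻¹)
    (fun n => (AA n)⁻¹) (fun n => (hB n).le) (fun n => (inv_pos.2 (AA_pos n)).le) c1
    (fun r n hn => h r ψ hψ n hn) hinv n hn
  simp only [e] at this
  exact this

end Pool.Agent.D0H94.T13
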